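import Pool.Agent.helper21.OD.SpecB

/-!
# Project OD: assembly
-/

namespace Pool.Agent.OD

open Polynomial

/-- semilinear maps and `aeval` -/
theorem ASM_aeval {R S : Type} [CommRing R] [CommRing S] (ρ : R →+* S) {M N : Type}
    [AddCommGroup M] [AddCommGroup N] [Module R M] [Module S N] (g : M →+ N)
    (hg : ∀ (a : R) (x : M), g (a • x) = ρ a • g x) (u : M →ₗ[R] M) (v : N →ₗ[S] N)
    (huv : ∀ x, g (u x) = v (g x)) (q : R[X]) (x : M) :
    g (aeval u q x) = aeval v (q.map ρ) (g x) := by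
  have hpow : ∀ n (x : M), g ((u ^ n) x) = (v ^ n) (g x) := by
    intro n
    induction n with
    | zero => intro x; simp
    | succ n ih =>
      intro x
      rw [pow_succ, pow_succ, Module.End.mul_apply, Module.End.mul_apply, ih, huv]
  induction q using Polynomial.induction_on' with
  | add p q hp hq =>
    rw [map_add, LinearMap.add_apply, map_add, hp, hq, Polynomial.map_add, map_add,
      LinearMap.add_apply]
  | monomial n a =>
    rw [Polynomial.map_monomial, aeval_monomial, aeval_monomial, Module.End.mul_apply,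
      Module.End.mul_apply, Module.algebraMap_end_apply, Module.algebraMap_end_apply, hg, hpow]

/-- the operator at `ℓ` preserves the modular symbols -/
theorem ASM_stab (hTST : TST_stmt) (hUST : UST_stmt) (t : ℤ) (ht : t = 0 ∨ t = 1) (ℓ : ℕ)
    (hℓ : ℓ.Prime) (hin : Prime ((ℓ : ℕ) : Oz t)) {A : Type} [CommRing A] (f : Oz t →+* A)
    (k r : ℕ) (χ : Oz t →* A)
    (hχ : ∀ x y : Oz t, ((ℓ : ℕ) : Oz t) ^ r ∣ x - y → χ x = χ y) (φ : Sy t A)
    (hφ : IsSym f k (ℓ ^ r) (fun x => χ x) φ) :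
    IsSym f k (ℓ ^ r) (fun x => χ x) (op f ℓ r φ) := by
  by_cases hr : r = 0
  · subst hr
    have h1 : (fun x => χ x) = fun _ : Oz t => (1 : A) := by
      funext x
      rw [hχ x 1 (by rw [pow_zero]; exact one_dvd _), map_one]
    rw [h1, pow_zero] at hφ ⊢
    rw [op, if_pos rfl]
    exact hTST t ht ℓ hℓ hin f k φ hφ
  · rw [op, if_neg hr]
    exact hUST t ht ℓ hℓ hin f k r (fun x => χ x) (by omega) hχ φ hφ

/-- base change of modular symbols -/
noncomputable def ASM_bc {t : ℤ} {A B : Type} [CommRing A] [CommRing B] (ρ : A →+* B)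
    (S : Submodule A (Sy t A)) : S →+ Sy t B where
  toFun φ := fun u v => MvPolynomial.map ρ (φ.1 u v)
  map_zero' := by
    funext u v
    simp
  map_add' φ ψ := by
    funext u v
    simp

theorem ASM_bc_smul {t : ℤ} {A B : Type} [CommRing A] [CommRing B] (ρ : A →+* B)
    (S : Submodule A (Sy t A)) (a : A) (φ : S) :
    ASM_bc ρ S (a • φ) = ρ a • ASM_bc ρ S φ := by
  funext u v
  simp [ASM_bc, MvPolynomial.smul_eq_C_mul]

/-- the independent families in the ordinary part -/
theorem ASM_indep (hFIN : FIN_stmt) (hTST : TST_stmt) (hUST : UST_stmt) (hFCT : FCT_stmt)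
    (hMPC : MPC_stmt) (hDEN : DEN_stmt) (hDVI : DVI_stmt) (hLAT : LAT_stmt)
    (t : ℤ) (ht : t = 0 ∨ t = 1) (ℓ : ℕ)
    (hℓ : ℓ.Prime) (hℓ2 : ℓ ≠ 2) (hin : Prime ((ℓ : ℕ) : Oz t)) {R L : Type} [CommRing R]
    [IsDomain R] [IsDiscreteValuationRing R] [Field L] [Algebra R L] [IsFractionRing R L]
    (f : Oz t →+* R) (hf : ((ℓ : ℕ) : R) ∈ IsLocalRing.maximalIdeal R) (k r j : ℕ)
    (χ : Oz t →* R) (hχ : ∀ x y : Oz t, ((ℓ : ℕ) : Oz t) ^ r ∣ x - y → χ x = χ y) (hj : 1 ≤ j)
    (hcl : InClass f ℓ k χ j) (m : ℕ) (n : ℕ) (b : Fin n → Sy t L) (hb : LinearIndependent L b)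
    (hO : ∀ i, b i ∈ Ord L f ℓ k r χ) :
    n ≤ Module.finrank (IsLocalRing.ResidueField R)
      ((Sym (fbar f) j 1 (fun _ => 1)).map ((opT (fbar f) ℓ) ^ m)) := by
  have hN : ℓ ^ r ≠ 0 := pow_ne_zero _ hℓ.ne_zero
  have hinj : Function.Injective (algebraMap R L) := IsFractionRing.injective R L
  set S : Submodule R (Sy t R) := Sym f k (ℓ ^ r) (fun x => χ x) with hS
  have hfin : Module.Finite R S := hFIN t ht f k (ℓ ^ r) (fun x => χ x) hN
  have hst : ∀ x ∈ S, op f ℓ r x ∈ S := fun x hx =>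
    ASM_stab hTST hUST t ht ℓ hℓ hin f k r χ hχ x hx
  set u : S →ₗ[R] S := (op f ℓ r).restrict hst with hu
  -- base change to L
  set ι := ASM_bc (algebraMap R L) S with hι
  have hιu : ∀ x, ι (u x) = op ((algebraMap R L).comp f) ℓ r (ι x) := by
    intro x
    exact ((hMPC t f (algebraMap R L) ℓ k r (ℓ ^ r) (fun x => χ x) x.1).2).symm
  have hιinj : ∀ x, ι x = 0 → x = 0 := by
    intro x hx
    apply Subtype.ext
    funext a c
    have h1 := congrFun (congrFun hx a) c
    have h2 : MvPolynomial.map (algebraMap R L) (x.1 a c) = 0 := h1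
    exact (map_eq_zero_iff _ (MvPolynomial.map_injective _ hinj)).mp h2
  -- the polynomial
  choose hbS q hqm hqu hq0 using hO
  have hQm : (∏ i, q i).Monic := Polynomial.monic_prod_of_monic _ _ fun i _ => hqm i
  have hQu : IsUnit ((∏ i, q i).coeff 0) := by
    refine Finset.prod_induction q (fun p => IsUnit (p.coeff 0)) ?_ ?_ fun i _ => hqu i
    · intro p p' hp hp'
      rw [Polynomial.mul_coeff_zero]
      exact hp.mul hp'
    · simp
  have hQ0 : ∀ i, aeval (op ((algebraMap R L).comp f) ℓ r)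
      ((∏ i, q i).map (algebraMap R L)) (b i) = 0 := by
    intro i
    obtain ⟨s, hs⟩ := Finset.dvd_prod_of_mem q (Finset.mem_univ i)
    rw [hs, Polynomial.map_mul, mul_comm, map_mul, Module.End.mul_apply, hq0 i, map_zero]
  -- denominators
  have hden := fun i => hDEN t ht f k (ℓ ^ r) (fun x => χ x) hN (b i) (hbS i)
  choose s φ' hs hφ' hsφ using hden
  set y : Fin n → S := fun i => ⟨φ' i, hφ' i⟩ with hy
  have hιy : ∀ i, ι (y i) = algebraMap R L (s i) • b i := by
    intro i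
    funext a c
    exact hsφ i a c
  have hyQ : ∀ i, aeval u (∏ i, q i) (y i) = 0 := by
    intro i
    apply hιinj
    rw [ASM_aeval (algebraMap R L) ι (ASM_bc_smul _ _) u _ hιu, hιy, map_smul, hQ0, smul_zero]
  have hyind : LinearIndependent R y := by
    rw [Fintype.linearIndependent_iff]
    intro g hg i
    rw [Fintype.linearIndependent_iff] at hb
    have h1 : ∑ i, (algebraMap R L (g i) * algebraMap R L (s i)) • b i = 0 := by
      have h2 := congrArg ι hg
      rw [map_sum, map_zero] at h2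
      rw [← h2]
      refine Finset.sum_congr rfl fun i _ => ?_
      rw [hι, ASM_bc_smul, ← hι, hιy, smul_smul]
    have h3 := hb _ h1 i
    rw [← map_mul, map_eq_zero_iff _ hinj] at h3
    exact (mul_eq_zero.mp h3).resolve_right (hs i)
  have hnz : NoZeroSMulDivisors R S := by
    refine ⟨fun {a x} h => ?_⟩
    by_cases ha : a = 0
    · exact Or.inl ha
    · refine Or.inr (Subtype.ext ?_)
      funext v w
      have h1 := congrFun (congrFun (congrArg Subtype.val h) v) w
      have h2 : a • x.1 v w = 0 := h1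
      refine MvPolynomial.ext _ _ fun d => ?_
      have h3 := congrArg (MvPolynomial.coeff d) h2
      rw [MvPolynomial.coeff_smul, MvPolynomial.coeff_zero, smul_eq_mul] at h3
      exact (mul_eq_zero.mp h3).resolve_left ha
  -- reduction
  obtain ⟨ϖ, hϖ⟩ := IsDiscreteValuationRing.exists_irreducible R
  set red := ASM_bc (IsLocalRing.residue R) S with hred
  have hredu : ∀ x, red (u x) = op (fbar f) ℓ r (red x) := by
    intro x
    exact ((hMPC t f (IsLocalRing.residue R) ℓ k r (ℓ ^ r) (fun x => χ x) x.1).2).symm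
  have hker : ∀ x, red x = 0 → ∃ z, x = ϖ • z := by
    intro x hx
    obtain ⟨z, hz, hxz⟩ := hDVI t f k (ℓ ^ r) (fun x => χ x) ϖ hϖ.ne_zero x.1 x.2 (by
      intro a c d
      have h1 := congrFun (congrFun hx a) c
      have h2 : MvPolynomial.map (IsLocalRing.residue R) (x.1 a c) = 0 := h1
      have h3 := congrArg (MvPolynomial.coeff d) h2
      rw [MvPolynomial.coeff_map, MvPolynomial.coeff_zero, IsLocalRing.residue_eq_zero_iff,
        hϖ.maximalIdeal_eq, Ideal.mem_span_singleton] at h3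
      exact h3)
    exact ⟨⟨z, hz⟩, Subtype.ext hxz⟩
  -- the factorisation
  have hℓκ : ((ℓ : ℕ) : IsLocalRing.ResidueField R) = 0 := by
    rw [← map_natCast (IsLocalRing.residue R), IsLocalRing.residue_eq_zero_iff]
    exact hf
  obtain ⟨Λ, M, hΛ⟩ := hFCT t ht ℓ hℓ hℓ2 hin (fbar f) hℓκ k r j
    ((IsLocalRing.residue R : R →* IsLocalRing.ResidueField R).comp χ) hj
    (fun x y h => by simp [hχ x y h])
    (fun x hx => by
      have h1 := hcl x hx
      rw [map_mul, map_pow, map_pow] at h1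
      exact h1) m
  have hfinj : Module.Finite (IsLocalRing.ResidueField R) (Sym (fbar f) j 1 (fun _ => 1)) :=
    hFIN t ht (fbar f) j 1 (fun _ => 1) one_ne_zero
  have hfin1 : Module.Finite (IsLocalRing.ResidueField R)
      ((Sym (fbar f) j 1 (fun _ => 1)).map ((opT (fbar f) ℓ) ^ m)) := Module.Finite.map _ _
  have hfin2 : Module.Finite (IsLocalRing.ResidueField R)
      (((Sym (fbar f) j 1 (fun _ => 1)).map ((opT (fbar f) ℓ) ^ m)).map Λ) :=
    Module.Finite.map _ _
  refine (hLAT u (op (fbar f) ℓ r) red ϖ hϖ (ASM_bc_smul _ _) hredu hker (∏ i, q i) hQm hQu M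
    (((Sym (fbar f) j 1 (fun _ => 1)).map ((opT (fbar f) ℓ) ^ m)).map Λ) hfin2 ?_ n y hyind
    hyQ).trans (Submodule.finrank_map_le _ _)
  intro x
  exact hΛ (red x) ((hMPC t f (IsLocalRing.residue R) ℓ k r (ℓ ^ r) (fun x => χ x) x.1).1 x.2)

/-- the rank bound -/
theorem ASM_rank (hFIN : FIN_stmt) (hTST : TST_stmt) (hUST : UST_stmt) (hFCT : FCT_stmt)
    (hMPC : MPC_stmt) (hDEN : DEN_stmt) (hDVI : DVI_stmt) (hLAT : LAT_stmt)
    (t : ℤ) (ht : t = 0 ∨ t = 1) (ℓ : ℕ)
    (hℓ : ℓ.Prime) (hℓ2 : ℓ ≠ 2) (hin : Prime ((ℓ : ℕ) : Oz t)) {R L : Type} [CommRing R]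
    [IsDomain R] [IsDiscreteValuationRing R] [Field L] [Algebra R L] [IsFractionRing R L]
    (f : Oz t →+* R) (hf : ((ℓ : ℕ) : R) ∈ IsLocalRing.maximalIdeal R) (k r j : ℕ)
    (χ : Oz t →* R) (hχ : ∀ x y : Oz t, ((ℓ : ℕ) : Oz t) ^ r ∣ x - y → χ x = χ y) (hj : 1 ≤ j)
    (hcl : InClass f ℓ k χ j) (m : ℕ) :
    Module.Finite L (Ord L f ℓ k r χ) ∧
    Module.finrank L (Ord L f ℓ k r χ) ≤ Module.finrank (IsLocalRing.ResidueField R)
      ((Sym (fbar f) j 1 (fun _ => 1)).map ((opT (fbar f) ℓ) ^ m)) := by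
  set B := Module.finrank (IsLocalRing.ResidueField R)
      ((Sym (fbar f) j 1 (fun _ => 1)).map ((opT (fbar f) ℓ) ^ m)) with hB
  have h1 : Module.rank L (Ord L f ℓ k r χ) ≤ B := by
    refine rank_le fun s hs => ?_
    have hs' : LinearIndependent L (fun i : Fin s.card => ((s.equivFin.symm i).1 : Sy t L)) := by
      have h2 := hs.comp (fun i : Fin s.card => s.equivFin.symm i) s.equivFin.symm.injective
      exact h2.map' (Submodule.subtype _) (Submodule.ker_subtype _)
    exact ASM_indep hFIN hTST hUST hFCT hMPC hDEN hDVI hLAT t ht ℓ hℓ hℓ2 hin f hf k r j χ hχ hj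
      hcl m s.card _ hs' fun i => ((s.equivFin.symm i).1).2
  have h2 : Module.Finite L (Ord L f ℓ k r χ) := by
    rw [← Module.rank_lt_aleph0_iff]
    exact lt_of_le_of_lt h1 (Cardinal.natCast_lt_aleph0)
  exact ⟨h2, Module.finrank_le_of_rank_le h1⟩

end Pool.Agent.OD
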