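import Pool.Agent.helper21.OD.NUMG

/-!
# Project OD: certificates of the period relations
-/

namespace Pool.Agent.OD

set_option maxRecDepth 100000

/-- certificate, `m = 4`, `j = 1`, symmetric part -/
def NC_4_1_p : NUM_Cert where
  tri := []
  fre := [(0, 0)]
  cols := [((0, 0), [.ofNat 2])]
  tg := [((0, 0), .ofNat 1, [.ofNat 1])]

/-- certificate, `m = 4`, `j = 1`, antisymmetric part -/
def NC_4_1_m : NUM_Cert where
  tri := []
  fre := []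
  cols := []
  tg := []

theorem NUM_4_1 : NUM_stmt 4 1 0 :=
  NUM_of_certs 4 1 0 (by norm_num) NC_4_1_p NC_4_1_m
    (by decide +kernel) (by decide +kernel) (by decide +kernel)
    (by decide +kernel) (by decide +kernel) (by decide +kernel) rfl rfl

/-- certificate, `m = 4`, `j = 2`, symmetric part -/
def NC_4_2_p : NUM_Cert where
  tri := []
  fre := [(0, 0)]
  cols := [((0, 0), [.ofNat 2])]
  tg := [((0, 0), .ofNat 1, [.ofNat 1])]

/-- certificate, `m = 4`, `j = 2`, antisymmetric part -/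
def NC_4_2_m : NUM_Cert where
  tri := []
  fre := []
  cols := []
  tg := []

theorem NUM_4_2 : NUM_stmt 4 2 0 :=
  NUM_of_certs 4 2 0 (by norm_num) NC_4_2_p NC_4_2_m
    (by decide +kernel) (by decide +kernel) (by decide +kernel)
    (by decide +kernel) (by decide +kernel) (by decide +kernel) rfl rfl

/-- certificate, `m = 4`, `j = 3`, symmetric part -/
def NC_4_3_p : NUM_Cert where
  tri := [(0, 1)]
  fre := [(0, 0)]
  cols := [((0, 0), [.ofNat 0, .ofNat 2]), ((1, 1), [.negSucc 1, .ofNat 0])]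
  tg := [((0, 0), .ofNat 1, [.ofNat 0, .ofNat 1]), ((1, 1), .ofNat 1, [.negSucc 0, .ofNat 0])]

/-- certificate, `m = 4`, `j = 3`, antisymmetric part -/
def NC_4_3_m : NUM_Cert where
  tri := []
  fre := []
  cols := []
  tg := []

theorem NUM_4_3 : NUM_stmt 4 3 0 :=
  NUM_of_certs 4 3 0 (by norm_num) NC_4_3_p NC_4_3_m
    (by decide +kernel) (by decide +kernel) (by decide +kernel)
    (by decide +kernel) (by decide +kernel) (by decide +kernel) rfl rfl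

/-- certificate, `m = 4`, `j = 4`, symmetric part -/
def NC_4_4_p : NUM_Cert where
  tri := [(0, 3)]
  fre := [(0, 0)]
  cols := [((0, 0), [.ofNat 0, .ofNat 2]), ((1, 1), [.negSucc 1, .ofNat 0])]
  tg := [((0, 0), .ofNat 1, [.ofNat 0, .ofNat 1]), ((1, 1), .ofNat 1, [.negSucc 0, .ofNat 0])]

/-- certificate, `m = 4`, `j = 4`, antisymmetric part -/
def NC_4_4_m : NUM_Cert where
  tri := [(0, 4)]
  fre := []
  cols := [((0, 4), [.negSucc 1])]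
  tg := [((0, 4), .ofNat 1, [.negSucc 0])]

theorem NUM_4_4 : NUM_stmt 4 4 0 :=
  NUM_of_certs 4 4 0 (by norm_num) NC_4_4_p NC_4_4_m
    (by decide +kernel) (by decide +kernel) (by decide +kernel)
    (by decide +kernel) (by decide +kernel) (by decide +kernel) rfl rfl

/-- certificate, `m = 4`, `j = 5`, symmetric part -/
def NC_4_5_p : NUM_Cert where
  tri := [(0, 4), (2, 2)]
  fre := [(0, 0), (1, 1)]
  cols := [((0, 0), [.ofNat 0, .ofNat 0, .ofNat 2, .ofNat 0]), ((0, 4), [.ofNat 4, .ofNat 0, .ofNat 0, .ofNat 0]), ((1, 1), [.ofNat 2, .ofNat 40, .ofNat 0, .ofNat 2]), ((2, 2), [.ofNat 0, .ofNat 16, .ofNat 0, .ofNat 0])]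
  tg := [((0, 0), .ofNat 1, [.ofNat 0, .ofNat 0, .ofNat 1, .ofNat 0]), ((0, 4), .ofNat 4, [.ofNat 1, .ofNat 0, .ofNat 0, .negSucc 0]), ((1, 1), .ofNat 1, [.ofNat 0, .ofNat 0, .ofNat 0, .ofNat 1]), ((2, 2), .ofNat 8, [.ofNat 0, .ofNat 1, .ofNat 0, .negSucc 19])]

/-- certificate, `m = 4`, `j = 5`, antisymmetric part -/
def NC_4_5_m : NUM_Cert where
  tri := [(0, 5)]
  fre := []
  cols := [((0, 4), [.ofNat 2])]
  tg := [((0, 4), .ofNat 2, [.ofNat 1])]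

theorem NUM_4_5 : NUM_stmt 4 5 1 :=
  NUM_of_certs 4 5 1 (by norm_num) NC_4_5_p NC_4_5_m
    (by decide +kernel) (by decide +kernel) (by decide +kernel)
    (by decide +kernel) (by decide +kernel) (by decide +kernel) rfl rfl

/-- certificate, `m = 4`, `j = 6`, symmetric part -/
def NC_4_6_p : NUM_Cert where
  tri := [(0, 2), (0, 3), (1, 3)]
  fre := [(0, 0)]
  cols := [((0, 0), [.ofNat 0, .ofNat 0, .ofNat 0, .ofNat 2]), ((0, 4), [.ofNat 10, .negSucc 15, .ofNat 40, .ofNat 0]), ((1, 1), [.ofNat 20, .negSucc 19, .ofNat 80, .ofNat 0]), ((2, 2), [.ofNat 10, .negSucc 7, .ofNat 32, .ofNat 0])]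
  tg := [((0, 0), .ofNat 1, [.ofNat 0, .ofNat 0, .ofNat 0, .ofNat 1]), ((0, 4), .ofNat 24, [.ofNat 0, .negSucc 3, .negSucc 0, .ofNat 0]), ((1, 1), .ofNat 30, [.negSucc 11, .ofNat 5, .ofNat 5, .ofNat 0]), ((2, 2), .ofNat 4, [.ofNat 4, .ofNat 0, .negSucc 0, .ofNat 0])]

/-- certificate, `m = 4`, `j = 6`, antisymmetric part -/
def NC_4_6_m : NUM_Cert where
  tri := [(0, 5), (0, 6)]
  fre := []
  cols := [((0, 4), [.ofNat 8, .negSucc 1]), ((1, 5), [.ofNat 2, .ofNat 0])]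
  tg := [((0, 4), .ofNat 2, [.ofNat 0, .negSucc 0]), ((1, 5), .ofNat 1, [.ofNat 1, .ofNat 4])]

theorem NUM_4_6 : NUM_stmt 4 6 0 :=
  NUM_of_certs 4 6 0 (by norm_num) NC_4_6_p NC_4_6_m
    (by decide +kernel) (by decide +kernel) (by decide +kernel)
    (by decide +kernel) (by decide +kernel) (by decide +kernel) rfl rfl

/-- certificate, `m = 4`, `j = 7`, symmetric part -/
def NC_4_7_p : NUM_Cert where
  tri := [(0, 1), (0, 5), (0, 6), (1, 5)]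
  fre := [(0, 0), (1, 1)]
  cols := [((0, 0), [.ofNat 0, .ofNat 0, .ofNat 0, .ofNat 0, .ofNat 2, .ofNat 0]), ((0, 4), [.negSucc 5, .negSucc 17, .ofNat 4, .ofNat 42, .ofNat 0, .ofNat 0]), ((1, 1), [.negSucc 9, .negSucc 11, .ofNat 2, .ofNat 42, .ofNat 0, .ofNat 2]), ((1, 5), [.negSucc 1, .negSucc 4, .ofNat 1, .ofNat 11, .ofNat 0, .ofNat 0]), ((2, 2), [.negSucc 5, .negSucc 1, .ofNat 0, .ofNat 10, .ofNat 0, .ofNat 0]), ((3, 3), [.negSucc 1, .ofNat 0, .ofNat 0, .ofNat 0, .ofNat 0, .ofNat 0])]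
  tg := [((0, 0), .ofNat 1, [.ofNat 0, .ofNat 0, .ofNat 0, .ofNat 0, .ofNat 1, .ofNat 0]), ((0, 4), .ofNat 8, [.ofNat 0, .ofNat 5, .ofNat 14, .ofNat 1, .ofNat 0, .negSucc 4]), ((1, 1), .ofNat 1, [.ofNat 0, .ofNat 0, .ofNat 0, .ofNat 0, .ofNat 0, .ofNat 1]), ((1, 5), .ofNat 2, [.ofNat 0, .negSucc 4, .negSucc 11, .negSucc 0, .ofNat 0, .ofNat 3]), ((2, 2), .ofNat 4, [.ofNat 0, .ofNat 1, .negSucc 5, .ofNat 1, .ofNat 0, .negSucc 8]), ((3, 3), .ofNat 2, [.negSucc 1, .ofNat 1, .ofNat 12, .negSucc 0, .ofNat 0, .ofNat 5])]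

/-- certificate, `m = 4`, `j = 7`, antisymmetric part -/
def NC_4_7_m : NUM_Cert where
  tri := [(0, 6), (0, 7)]
  fre := []
  cols := [((0, 4), [.negSucc 9, .ofNat 2]), ((1, 5), [.negSucc 0, .ofNat 0])]
  tg := [((0, 4), .ofNat 2, [.ofNat 0, .ofNat 1]), ((1, 5), .ofNat 1, [.negSucc 0, .negSucc 4])]

theorem NUM_4_7 : NUM_stmt 4 7 1 :=
  NUM_of_certs 4 7 1 (by norm_num) NC_4_7_p NC_4_7_m
    (by decide +kernel) (by decide +kernel) (by decide +kernel)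
    (by decide +kernel) (by decide +kernel) (by decide +kernel) rfl rfl

/-- certificate, `m = 4`, `j = 8`, symmetric part -/
def NC_4_8_p : NUM_Cert where
  tri := [(0, 4), (0, 6), (0, 7), (1, 5), (1, 6)]
  fre := [(0, 0)]
  cols := [((0, 0), [.ofNat 0, .ofNat 0, .ofNat 0, .ofNat 0, .ofNat 0, .ofNat 2]), ((0, 4), [.ofNat 70, .ofNat 22, .negSucc 3, .ofNat 192, .negSucc 63, .ofNat 0]), ((1, 1), [.ofNat 70, .ofNat 14, .negSucc 1, .ofNat 224, .negSucc 55, .ofNat 0]), ((1, 5), [.ofNat 30, .ofNat 7, .negSucc 0, .ofNat 62, .negSucc 17, .ofNat 0]), ((2, 2), [.ofNat 30, .ofNat 2, .ofNat 0, .ofNat 72, .negSucc 11, .ofNat 0]), ((3, 3), [.ofNat 10, .ofNat 0, .ofNat 0, .ofNat 10, .ofNat 0, .ofNat 0])]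
  tg := [((0, 0), .ofNat 1, [.ofNat 0, .ofNat 0, .ofNat 0, .ofNat 0, .ofNat 0, .ofNat 1]), ((0, 4), .ofNat 12, [.ofNat 2, .negSucc 11, .ofNat 14, .negSucc 1, .negSucc 8, .ofNat 0]), ((1, 1), .ofNat 15, [.negSucc 6, .ofNat 33, .negSucc 84, .ofNat 7, .ofNat 30, .ofNat 0]), ((1, 5), .ofNat 5, [.negSucc 0, .ofNat 9, .ofNat 0, .ofNat 1, .ofNat 5, .ofNat 0]), ((2, 2), .ofNat 2, [.ofNat 2, .negSucc 9, .ofNat 28, .negSucc 1, .negSucc 8, .ofNat 0]), ((3, 3), .ofNat 15, [.negSucc 9, .ofNat 42, .negSucc 279, .ofNat 13, .ofNat 60, .ofNat 0])]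

/-- certificate, `m = 4`, `j = 8`, antisymmetric part -/
def NC_4_8_m : NUM_Cert where
  tri := [(0, 8), (1, 7), (2, 6), (3, 4)]
  fre := []
  cols := [((0, 4), [.negSucc 1, .negSucc 63, .negSucc 335, .ofNat 280]), ((0, 8), [.negSucc 1, .ofNat 0, .ofNat 0, .ofNat 0]), ((1, 5), [.ofNat 0, .negSucc 5, .negSucc 41, .ofNat 35]), ((2, 6), [.ofNat 0, .ofNat 0, .negSucc 1, .ofNat 0])]
  tg := [((0, 4), .ofNat 560, [.ofNat 0, .negSucc 34, .ofNat 0, .negSucc 5]), ((0, 8), .ofNat 280, [.negSucc 279, .ofNat 35, .ofNat 0, .ofNat 6]), ((1, 5), .ofNat 70, [.ofNat 0, .ofNat 35, .ofNat 0, .ofNat 8]), ((2, 6), .ofNat 5, [.ofNat 0, .ofNat 0, .negSucc 4, .negSucc 5])]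

theorem NUM_4_8 : NUM_stmt 4 8 0 :=
  NUM_of_certs 4 8 0 (by norm_num) NC_4_8_p NC_4_8_m
    (by decide +kernel) (by decide +kernel) (by decide +kernel)
    (by decide +kernel) (by decide +kernel) (by decide +kernel) rfl rfl

/-- certificate, `m = 4`, `j = 9`, symmetric part -/
def NC_4_9_p : NUM_Cert where
  tri := [(0, 1), (0, 6), (0, 7), (0, 8), (1, 7), (2, 6)]
  fre := [(0, 0), (1, 5), (2, 6)]
  cols := [((0, 0), [.ofNat 0, .ofNat 0, .ofNat 0, .ofNat 0, .ofNat 0, .ofNat 0, .ofNat 2, .ofNat 0, .ofNat 0]), ((0, 4), [.negSucc 9, .ofNat 74, .negSucc 25, .ofNat 4, .ofNat 90, .ofNat 480, .ofNat 0, .ofNat 0, .ofNat 0]), ((0, 8), [.negSucc 1, .ofNat 56, .negSucc 27, .ofNat 8, .ofNat 36, .ofNat 0, .ofNat 0, .ofNat 0, .ofNat 0]), ((1, 1), [.negSucc 13, .ofNat 56, .negSucc 15, .ofNat 2, .ofNat 72, .ofNat 672, .ofNat 0, .ofNat 0, .ofNat 0]), ((1, 5), [.negSucc 5, .ofNat 28,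 .negSucc 7, .ofNat 1, .ofNat 26, .ofNat 136, .ofNat 0, .ofNat 1, .ofNat 0]), ((2, 2), [.negSucc 9, .ofNat 14, .negSucc 1, .ofNat 0, .ofNat 14, .ofNat 224, .ofNat 0, .ofNat 0, .ofNat 0]), ((2, 6), [.negSucc 1, .ofNat 6, .negSucc 0, .ofNat 0, .ofNat 3, .ofNat 20, .ofNat 0, .ofNat 0, .ofNat 1]), ((3, 3), [.negSucc 5, .ofNat 2, .ofNat 0, .ofNat 0, .ofNat 0, .ofNat 30, .ofNat 0, .ofNat 0, .ofNat 0]), ((4, 4), [.negSucc 1, .ofNat 0, .ofNat 0, .ofNat 0, .ofNat 0, .ofNat 0, .ofNat 0, .ofNat 0, .ofNat 0])]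
  tg := [((0, 0), .ofNat 1, [.ofNat 0, .ofNat 0, .ofNat 0, .ofNat 0, .ofNat 0, .ofNat 0, .ofNat 1, .ofNat 0, .ofNat 0]), ((0, 4), .ofNat 12, [.ofNat 0, .ofNat 0, .negSucc 6, .negSucc 19, .negSucc 0, .ofNat 0, .ofNat 0, .negSucc 9, .negSucc 3]), ((0, 8), .ofNat 84, [.ofNat 0, .negSucc 14, .negSucc 139, .negSucc 279, .negSucc 20, .ofNat 1, .ofNat 0, .negSucc 9, .negSucc 6]), ((1, 1), .ofNat 21, [.ofNat 0, .ofNat 30, .ofNat 329, .ofNat 721, .ofNat 49, .negSucc 1, .ofNat 0, .ofNat 69, .ofNat 42]), ((1, 5), .ofNat 1, [.ofNat 0, .ofNat 0, .ofNat 0, .ofNat 0, .ofNat 0, .ofNat 0, .ofNat 0, .ofNat 1, .ofNat 0]), ((2, 2), .ofNat 14, [.ofNat 0, .negSucc 89, .negSucc 902, .negSucc 1931, .negSucc 132, .ofNat 6, .ofNat 0, .negSucc 129, .negSucc 83]), ((2, 6), .ofNat 1, [.ofNat 0, .ofNat 0, .ofNat 0, .ofNat 0, .ofNat 0, .ofNat 0, .ofNat 0, .ofNat 0, .ofNat 1]), ((3, 3), .ofNat 3,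 [.ofNat 0, .ofNat 48, .ofNat 448, .ofNat 944, .ofNat 64, .negSucc 2, .ofNat 0, .ofNat 40, .ofNat 28]), ((4, 4), .ofNat 2, [.negSucc 1, .negSucc 50, .negSucc 451, .negSucc 941, .negSucc 62, .ofNat 3, .ofNat 0, .negSucc 27, .negSucc 20])]

/-- certificate, `m = 4`, `j = 9`, antisymmetric part -/
def NC_4_9_m : NUM_Cert where
  tri := [(0, 1), (0, 8), (0, 9), (4, 5)]
  fre := []
  cols := [((0, 4), [.ofNat 8, .negSucc 13, .ofNat 2, .ofNat 1008]), ((0, 8), [.ofNat 16, .negSucc 9, .ofNat 2, .ofNat 0]), ((1, 5), [.ofNat 8, .negSucc 0, .ofNat 0, .ofNat 112]), ((2, 6), [.ofNat 8, .ofNat 0, .ofNat 0, .ofNat 0])]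
  tg := [((0, 4), .ofNat 560, [.ofNat 0, .ofNat 112, .ofNat 560, .ofNat 1]), ((0, 8), .ofNat 560, [.ofNat 0, .negSucc 111, .negSucc 279, .negSucc 0]), ((1, 5), .ofNat 140, [.ofNat 0, .negSucc 251, .negSucc 1259, .negSucc 0]), ((2, 6), .ofNat 112, [.ofNat 14, .ofNat 224, .ofNat 1008, .ofNat 1])]

theorem NUM_4_9 : NUM_stmt 4 9 2 :=
  NUM_of_certs 4 9 2 (by norm_num) NC_4_9_p NC_4_9_m
    (by decide +kernel) (by decide +kernel) (by decide +kernel)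
    (by decide +kernel) (by decide +kernel) (by decide +kernel) rfl rfl

/-- certificate, `m = 4`, `j = 10`, symmetric part -/
def NC_4_10_p : NUM_Cert where
  tri := [(0, 6), (0, 7), (0, 8), (0, 9), (1, 7), (1, 8), (2, 7)]
  fre := [(0, 0), (0, 8)]
  cols := [((0, 0), [.ofNat 0, .ofNat 0, .ofNat 0, .ofNat 0, .ofNat 0, .ofNat 0, .ofNat 0, .ofNat 2, .ofNat 0]), ((0, 4), [.ofNat 196, .negSucc 99, .ofNat 30, .negSucc 3, .ofNat 520, .negSucc 119, .negSucc 899, .ofNat 0, .ofNat 0]), ((0, 8), [.ofNat 182, .negSucc 111, .ofNat 44, .negSucc 7, .ofNat 240, .negSucc 79, .negSucc 119, .ofNat 0, .ofNat 1]), ((1, 1), [.ofNat 168, .negSucc 71, .ofNat 18, .negSucc 1, .ofNat 480, .negSucc 89, .negSucc 1079, .ofNat 0, .ofNat 0]), ((1, 5), [.ofNat 84, .negSucc 35, .ofNat 9, .negSucc 0, .ofNat 170, .negSucc 34, .negSucc 269, .ofNat 0, .ofNat 0]), ((2, 2), [.ofNat 56, .negSucc 15, .ofNat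 2, .ofNat 0, .ofNat 128, .negSucc 15, .negSucc 335, .ofNat 0, .ofNat 0]), ((2, 6), [.ofNat 27, .negSucc 7, .ofNat 1, .ofNat 0, .ofNat 32, .negSucc 3, .negSucc 43, .ofNat 0, .ofNat 0]), ((3, 3), [.ofNat 14, .negSucc 1, .ofNat 0, .ofNat 0, .ofNat 14, .ofNat 0, .negSucc 41, .ofNat 0, .ofNat 0]), ((4, 4), [.ofNat 2, .ofNat 0, .ofNat 0, .ofNat 0, .ofNat 0, .ofNat 0, .ofNat 0, .ofNat 0, .ofNat 0])]
  tg := [((0, 0), .ofNat 1, [.ofNat 0, .ofNat 0, .ofNat 0, .ofNat 0, .ofNat 0, .ofNat 0, .ofNat 0, .ofNat 1, .ofNat 0]), ((0, 4), .ofNat 12, [.ofNat 0, .ofNat 7, .negSucc 23, .negSucc 92, .ofNat 4, .ofNat 1, .ofNat 1, .ofNat 0, .ofNat 336]), ((0, 8), .ofNat 1, [.ofNat 0, .ofNat 0, .ofNat 0, .ofNat 0, .ofNat 0, .ofNat 0, .ofNat 0, .ofNat 0, .ofNat 1]), ((1, 1), .ofNat 30, [.ofNat 0, .negSucc 69, .ofNat 0, .ofNat 225, .negSucc 30, .negSucc 30, .negSucc 6, .ofNat 0, .negSucc 1919]),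 ((1, 5), .ofNat 10, [.ofNat 0, .ofNat 0, .ofNat 80, .ofNat 225, .negSucc 2, .ofNat 7, .negSucc 0, .ofNat 0, .negSucc 559]), ((2, 2), .ofNat 4, [.ofNat 0, .ofNat 21, .ofNat 4, .negSucc 44, .ofNat 9, .ofNat 9, .ofNat 2, .ofNat 0, .ofNat 616]), ((2, 6), .ofNat 4, [.ofNat 0, .negSucc 6, .negSucc 47, .negSucc 104, .negSucc 0, .negSucc 6, .ofNat 0, .ofNat 0, .ofNat 168]), ((3, 3), .ofNat 3, [.ofNat 0, .negSucc 9, .ofNat 0, .negSucc 14, .negSucc 3, .negSucc 0, .negSucc 0, .ofNat 0, .negSucc 479]), ((4, 4), .ofNat 4, [.ofNat 4, .ofNat 21, .ofNat 64, .ofNat 231, .negSucc 0, .negSucc 6, .ofNat 0, .ofNat 0, .ofNat 336])]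

/-- certificate, `m = 4`, `j = 10`, antisymmetric part -/
def NC_4_10_m : NUM_Cert where
  tri := [(0, 1), (0, 3), (0, 7), (0, 9), (0, 10), (1, 9)]
  fre := []
  cols := [((0, 4), [.ofNat 8, .ofNat 104, .ofNat 140, .ofNat 16, .negSucc 1, .negSucc 119]), ((0, 8), [.ofNat 16, .ofNat 176, .ofNat 128, .ofNat 12, .negSucc 1, .negSucc 39]), ((1, 5), [.ofNat 8, .ofNat 84, .ofNat 36, .ofNat 1, .ofNat 0, .negSucc 9]), ((1, 9), [.ofNat 16, .ofNat 168, .ofNat 72, .ofNat 2, .ofNat 0, .negSucc 1]), ((2, 6), [.ofNat 8, .ofNat 72, .ofNat 8, .ofNat 0, .ofNat 0, .ofNat 0]), ((3, 7), [.ofNat 8, .ofNat 68, .ofNat 2, .ofNat 0, .ofNat 0, .ofNat 0])]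
  tg := [((0, 4), .ofNat 40, [.negSucc 24, .ofNat 3, .negSucc 1, .ofNat 20, .ofNat 56, .ofNat 0]), ((0, 8), .ofNat 40, [.ofNat 25, .negSucc 2, .ofNat 2, .negSucc 19, .negSucc 75, .ofNat 0]), ((1, 5), .ofNat 90, [.ofNat 475, .negSucc 56, .ofNat 38, .negSucc 389, .negSucc 923, .negSucc 9]), ((1, 9), .ofNat 9, [.negSucc 24, .ofNat 3, .negSucc 1, .ofNat 30, .ofNat 96, .ofNat 1]), ((2, 6), .ofNat 40, [.negSucc 509, .ofNat 61, .negSucc 33, .ofNat 180, .ofNat 192, .ofNat 0]), ((3, 7), .ofNat 10, [.ofNat 195, .negSucc 22, .ofNat 12, .negSucc 59, .negSucc 55, .ofNat 0])]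

theorem NUM_4_10 : NUM_stmt 4 10 1 :=
  NUM_of_certs 4 10 1 (by norm_num) NC_4_10_p NC_4_10_m
    (by decide +kernel) (by decide +kernel) (by decide +kernel)
    (by decide +kernel) (by decide +kernel) (by decide +kernel) rfl rfl

/-- certificate, `m = 4`, `j = 11`, symmetric part -/
def NC_4_11_p : NUM_Cert where
  tri := [(0, 1), (0, 7), (0, 8), (0, 9), (0, 10), (1, 7), (1, 8), (1, 9), (2, 8)]
  fre := [(0, 0), (0, 8), (4, 4)]
  cols := [((0, 0), [.ofNat 0, .ofNat 0, .ofNat 0, .ofNat 0, .ofNat 0, .ofNat 0, .ofNat 0, .ofNat 0, .ofNat 0, .ofNat 2, .ofNat 0, .ofNat 0]), ((0, 4), [.negSucc 13, .negSucc 295, .ofNat 130, .negSucc 33, .ofNat 4, .ofNat 1936, .negSucc 769, .ofNat 154, .ofNat 1540, .ofNat 0, .ofNat 0, .ofNat 0]), ((0, 8), [.negSucc 5, .negSucc 321, .ofNat 164, .negSucc 51, .ofNat 8, .ofNat 990, .negSucc 483, .ofNat 132, .ofNat 440, .ofNat 0, .ofNat 1, .ofNat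 0]), ((1, 1), [.negSucc 17, .negSucc 239, .ofNat 90, .negSucc 19, .ofNat 2, .ofNat 1980, .negSucc 659, .ofNat 110, .ofNat 1650, .ofNat 0, .ofNat 0, .ofNat 0]), ((1, 5), [.negSucc 9, .negSucc 119, .ofNat 45, .negSucc 9, .ofNat 1, .ofNat 705, .negSucc 249, .ofNat 45, .ofNat 475, .ofNat 0, .ofNat 0, .ofNat 0]), ((1, 9), [.negSucc 1, .negSucc 83, .ofNat 36, .negSucc 8, .ofNat 1, .ofNat 204, .negSucc 80, .ofNat 19, .ofNat 45, .ofNat 0, .ofNat 0, .ofNat 0]), ((2, 2), [.negSucc 13, .negSucc 71, .ofNat 18, .negSucc 1, .ofNat 0, .ofNat 648, .negSucc 161, .ofNat 18, .ofNat 480, .ofNat 0, .ofNat 0, .ofNat 0]), ((2, 6), [.negSucc 5, .negSucc 35, .ofNat 9, .negSucc 0, .ofNat 0, .ofNat 180, .negSucc 44, .ofNat 5, .ofNat 80, .ofNat 0, .ofNat 0, .ofNat 0]), ((3, 3), [.negSucc 9, .negSucc 15, .ofNat 2, .ofNat 0, .ofNat 0, .ofNat 128, .negSucc 15, .ofNat 0, .ofNat 56, .ofNat 0, .ofNat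 0, .ofNat 0]), ((3, 7), [.negSucc 1, .negSucc 6, .ofNat 1, .ofNat 0, .ofNat 0, .ofNat 29, .negSucc 3, .ofNat 0, .ofNat 6, .ofNat 0, .ofNat 0, .ofNat 0]), ((4, 4), [.negSucc 5, .negSucc 1, .ofNat 0, .ofNat 0, .ofNat 0, .ofNat 14, .ofNat 0, .ofNat 0, .ofNat 0, .ofNat 0, .ofNat 0, .ofNat 2]), ((5, 5), [.negSucc 1, .ofNat 0, .ofNat 0, .ofNat 0, .ofNat 0, .ofNat 0, .ofNat 0, .ofNat 0, .ofNat 0, .ofNat 0, .ofNat 0, .ofNat 0])]
  tg := [((0, 0), .ofNat 1, [.ofNat 0, .ofNat 0, .ofNat 0, .ofNat 0, .ofNat 0, .ofNat 0, .ofNat 0, .ofNat 0, .ofNat 0, .ofNat 1, .ofNat 0, .ofNat 0]), ((0, 4), .ofNat 48, [.ofNat 0, .ofNat 124, .ofNat 988, .ofNat 3588, .ofNat 4705, .ofNat 22, .ofNat 200, .ofNat 728, .ofNat 7, .ofNat 0, .ofNat 2676, .negSucc 29]), ((0, 8), .ofNat 1, [.ofNat 0, .ofNat 0, .ofNat 0, .ofNat 0, .ofNat 0, .ofNat 0, .ofNat 0, .ofNat 0, .ofNat 0, .ofNat 0, .ofNat 1, .ofNat 0]),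 ((1, 1), .ofNat 30, [.ofNat 0, .negSucc 189, .negSucc 1475, .negSucc 5363, .negSucc 7514, .negSucc 31, .negSucc 281, .negSucc 1025, .negSucc 8, .ofNat 0, .negSucc 3339, .ofNat 34]), ((1, 5), .ofNat 10, [.ofNat 0, .negSucc 41, .negSucc 347, .negSucc 1259, .negSucc 1484, .negSucc 7, .negSucc 75, .negSucc 275, .negSucc 2, .ofNat 0, .negSucc 1203, .ofNat 14]), ((1, 9), .ofNat 60, [.ofNat 0, .ofNat 12, .ofNat 100, .ofNat 348, .ofNat 475, .ofNat 2, .ofNat 20, .ofNat 68, .ofNat 1, .ofNat 0, .ofNat 44, .negSucc 1]), ((2, 2), .ofNat 120, [.ofNat 0, .ofNat 1716, .ofNat 13340, .ofNat 48474, .ofNat 68525, .ofNat 286, .ofNat 2530, .ofNat 9184, .ofNat 83, .ofNat 0, .ofNat 29812, .negSucc 285]), ((2, 6), .ofNat 20, [.ofNat 0, .ofNat 28, .ofNat 280, .ofNat 987, .ofNat 300, .ofNat 8, .ofNat 85, .ofNat 312, .ofNat 4, .ofNat 0, .ofNat 2296, .negSucc 27]), ((3, 3), .ofNat 12, [.ofNat 0,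 .negSucc 135, .negSucc 1071, .negSucc 3911, .negSucc 5604, .negSucc 21, .negSucc 199, .negSucc 727, .negSucc 6, .ofNat 0, .negSucc 2411, .ofNat 18]), ((3, 7), .ofNat 1, [.ofNat 0, .ofNat 1, .ofNat 8, .ofNat 36, .ofNat 120, .ofNat 0, .ofNat 0, .ofNat 0, .ofNat 0, .ofNat 0, .negSucc 77, .ofNat 1]), ((4, 4), .ofNat 1, [.ofNat 0, .ofNat 0, .ofNat 0, .ofNat 0, .ofNat 0, .ofNat 0, .ofNat 0, .ofNat 0, .ofNat 0, .ofNat 0, .ofNat 0, .ofNat 1]), ((5, 5), .ofNat 20, [.negSucc 19, .ofNat 172, .ofNat 1356, .ofNat 4907, .ofNat 7190, .ofNat 24, .ofNat 237, .ofNat 864, .ofNat 10, .ofNat 0, .ofNat 3024, .negSucc 55])]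

/-- certificate, `m = 4`, `j = 11`, antisymmetric part -/
def NC_4_11_m : NUM_Cert where
  tri := [(0, 10), (0, 11), (1, 9), (1, 10), (2, 9), (3, 8)]
  fre := []
  cols := [((0, 4), [.negSucc 17, .ofNat 2, .negSucc 615, .ofNat 154, .ofNat 2310, .ofNat 11550]), ((0, 8), [.negSucc 13, .ofNat 2, .negSucc 197, .ofNat 66, .ofNat 330, .ofNat 330]), ((1, 5), [.negSucc 0, .ofNat 0, .negSucc 74, .ofNat 12, .ofNat 300, .ofNat 1800]), ((1, 9), [.negSucc 0, .ofNat 0, .negSucc 20, .ofNat 4, .ofNat 20, .ofNat 0]), ((2, 6), [.ofNat 0, .ofNat 0, .negSucc 4, .ofNat 0, .ofNat 20, .ofNat 180]), ((3, 7), [.ofNat 0, .ofNat 0, .ofNat 0, .ofNat 0, .ofNat 0, .ofNat 8])]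
  tg := [((0, 4), .ofNat 12, [.ofNat 96, .ofNat 177, .negSucc 3, .ofNat 8, .negSucc 0, .ofNat 0]), ((0, 8), .ofNat 12, [.negSucc 95, .negSucc 170, .ofNat 4, .negSucc 7, .ofNat 1, .ofNat 0]), ((1, 5), .ofNat 8, [.negSucc 571, .negSucc 1066, .ofNat 24, .negSucc 46, .ofNat 6, .ofNat 0]), ((1, 9), .ofNat 24, [.ofNat 924, .ofNat 1617, .negSucc 39, .ofNat 77, .negSucc 9, .ofNat 0]), ((2, 6), .ofNat 60, [.ofNat 14520, .ofNat 27885, .negSucc 619, .ofNat 1135, .negSucc 151, .ofNat 0]), ((3, 7), .ofNat 8, [.negSucc 4619, .negSucc 9239, .ofNat 200, .negSucc 309, .ofNat 41, .ofNat 1])]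

theorem NUM_4_11 : NUM_stmt 4 11 2 :=
  NUM_of_certs 4 11 2 (by norm_num) NC_4_11_p NC_4_11_m
    (by decide +kernel) (by decide +kernel) (by decide +kernel)
    (by decide +kernel) (by decide +kernel) (by decide +kernel) rfl rfl

/-- certificate, `m = 4`, `j = 12`, symmetric part -/
def NC_4_12_p : NUM_Cert where
  tri := [(0, 6), (0, 8), (0, 9), (0, 10), (0, 11), (1, 7), (1, 8), (1, 9), (1, 10), (2, 8), (2, 9)]
  fre := [(0, 0)]
  cols := [((0, 0), [.ofNat 0, .ofNat 0, .ofNat 0, .ofNat 0, .ofNat 0, .ofNat 0, .ofNat 0, .ofNat 0, .ofNat 0, .ofNat 0, .ofNat 0, .ofNat 2]), ((0, 4), [.ofNat 924, .ofNat 426, .negSucc 163, .ofNat 38, .negSucc 3, .ofNat 5760, .negSucc 3131, .ofNat 1088, .negSucc 191, .ofNat 9306, .negSucc 2463, .ofNat 0]), ((0, 8), [.ofNat 896, .ofNat 494, .negSucc 215, .ofNat 60, .negSucc 7, .ofNat 3168, .negSucc 1967, .ofNat 832, .negSucc 191, .ofNat 2904,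 .negSucc 1055, .ofNat 0]), ((1, 1), [.ofNat 924, .ofNat 330, .negSucc 109, .ofNat 22, .negSucc 1, .ofNat 6336, .negSucc 2969, .ofNat 880, .negSucc 131, .ofNat 10890, .negSucc 2419, .ofNat 0]), ((1, 5), [.ofNat 469, .ofNat 165, .negSucc 54, .ofNat 11, .negSucc 0, .ofNat 2300, .negSucc 1119, .ofNat 350, .negSucc 55, .ofNat 3080, .negSucc 769, .ofNat 0]), ((1, 9), [.ofNat 378, .ofNat 156, .negSucc 53, .ofNat 11, .negSucc 0, .ofNat 954, .negSucc 485, .ofNat 164, .negSucc 29, .ofNat 495, .negSucc 153, .ofNat 0]), ((2, 2), [.ofNat 420, .ofNat 90, .negSucc 19, .ofNat 2, .ofNat 0, .ofNat 2400, .negSucc 899, .ofNat 200, .negSucc 19, .ofNat 3630, .negSucc 659, .ofNat 0]), ((2, 6), [.ofNat 210, .ofNat 45, .negSucc 9, .ofNat 1, .ofNat 0, .ofNat 720, .negSucc 269, .ofNat 60, .negSucc 5, .ofNat 660, .negSucc 129, .ofNat 0]), ((3, 3), [.ofNat 168, .ofNat 18, .negSucc 1, .ofNat 0,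 .ofNat 0, .ofNat 648, .negSucc 161, .ofNat 18, .ofNat 0, .ofNat 648, .negSucc 71, .ofNat 0]), ((3, 7), [.ofNat 77, .ofNat 9, .negSucc 0, .ofNat 0, .ofNat 0, .ofNat 177, .negSucc 44, .ofNat 5, .ofNat 0, .ofNat 90, .negSucc 9, .ofNat 0]), ((4, 4), [.ofNat 56, .ofNat 2, .ofNat 0, .ofNat 0, .ofNat 0, .ofNat 128, .negSucc 15, .ofNat 0, .ofNat 0, .ofNat 56, .ofNat 0, .ofNat 0]), ((5, 5), [.ofNat 14, .ofNat 0, .ofNat 0, .ofNat 0, .ofNat 0, .ofNat 14, .ofNat 0, .ofNat 0, .ofNat 0, .ofNat 0, .ofNat 0, .ofNat 0])]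
  tg := [((0, 0), .ofNat 1, [.ofNat 0, .ofNat 0, .ofNat 0, .ofNat 0, .ofNat 0, .ofNat 0, .ofNat 0, .ofNat 0, .ofNat 0, .ofNat 0, .ofNat 0, .ofNat 1]), ((0, 4), .ofNat 36, [.negSucc 20, .ofNat 5300, .ofNat 31455, .ofNat 74180, .ofNat 94666, .ofNat 21, .ofNat 1653, .ofNat 9904, .ofNat 18495, .ofNat 256, .ofNat 1652, .ofNat 0]), ((0, 8), .ofNat 168, [.negSucc 2, .ofNat 1548, .ofNat 9387, .ofNat 22710, .ofNat 30558, .ofNat 3, .ofNat 473, .ofNat 2904, .ofNat 5460, .ofNat 76, .ofNat 492, .ofNat 0]), ((1, 1), .ofNat 105, [.ofNat 155, .negSucc 39827, .negSucc 237026, .negSucc 561759, .negSucc 722309, .negSucc 154, .negSucc 12395, .negSucc 74418, .negSucc 139369, .negSucc 1919, .negSucc 12399, .ofNat 0]), ((1, 5), .ofNat 15, [.ofNat 15, .negSucc 4115, .negSucc 24443, .negSucc 57569, .negSucc 73589, .negSucc 14, .negSucc 1281, .negSucc 7697, .negSucc 14339, .negSucc 199, .negSucc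 1289, .ofNat 0]), ((1, 9), .ofNat 9, [.ofNat 0, .negSucc 79, .negSucc 494, .negSucc 1219, .negSucc 1704, .ofNat 0, .negSucc 23, .negSucc 150, .negSucc 284, .negSucc 3, .negSucc 25, .ofNat 0]), ((2, 2), .ofNat 6, [.negSucc 20, .ofNat 5676, .ofNat 33849, .ofNat 80436, .ofNat 104016, .ofNat 21, .ofNat 1763, .ofNat 10608, .ofNat 19881, .ofNat 274, .ofNat 1770, .ofNat 0]), ((2, 6), .ofNat 6, [.negSucc 2, .ofNat 1172, .ofNat 6993, .ofNat 16460, .ofNat 21274, .ofNat 3, .ofNat 363, .ofNat 2200, .ofNat 4074, .ofNat 58, .ofNat 374, .ofNat 0]), ((3, 3), .ofNat 18, [.ofNat 60, .negSucc 18895, .negSucc 113273, .negSucc 270859, .negSucc 355299, .negSucc 59, .negSucc 5837, .negSucc 35337, .negSucc 66314, .negSucc 915, .negSucc 5920, .ofNat 0]), ((3, 7), .ofNat 6, [.ofNat 0, .negSucc 383, .negSucc 2321, .negSucc 5459, .negSucc 7259, .ofNat 0, .negSucc 117, .negSucc 731, .negSucc 1334,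 .negSucc 19, .negSucc 128, .ofNat 0]), ((4, 4), .ofNat 12, [.negSucc 14, .ofNat 7752, .ofNat 47043, .ofNat 114090, .ofNat 154770, .ofNat 15, .ofNat 2365, .ofNat 14520, .ofNat 27300, .ofNat 380, .ofNat 2460, .ofNat 0]), ((5, 5), .ofNat 70, [.ofNat 0, .negSucc 16511, .negSucc 102437, .negSucc 255539, .negSucc 370919, .ofNat 10, .negSucc 4853, .negSucc 30695, .negSucc 57854, .negSucc 819, .negSucc 5324, .ofNat 0])]

/-- certificate, `m = 4`, `j = 12`, antisymmetric part -/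
def NC_4_12_m : NUM_Cert where
  tri := [(0, 10), (0, 11), (0, 12), (1, 8), (1, 9), (1, 10), (1, 11), (2, 9), (2, 10)]
  fre := []
  cols := [((0, 4), [.negSucc 93, .ofNat 20, .negSucc 1, .ofNat 4788, .negSucc 2431, .ofNat 864, .negSucc 191, .ofNat 9856, .negSucc 3695]), ((0, 8), [.negSucc 71, .ofNat 16, .negSucc 1, .ofNat 1992, .negSucc 927, .ofNat 336, .negSucc 95, .ofNat 1584, .negSucc 791]), ((0, 12), [.negSucc 131, .ofNat 24, .negSucc 1, .ofNat 0, .ofNat 0, .ofNat 0, .ofNat 0, .ofNat 0, .ofNat 0]), ((1, 5), [.negSucc 10, .ofNat 1, .ofNat 0, .ofNat 1190, .negSucc 419, .ofNat 98, .negSucc 13, .ofNat 1540, .negSucc 461]), ((1, 9), [.negSucc 10, .ofNat 1, .ofNat 0, .ofNat 504, .negSucc 165, .ofNat 36, .negSucc 5, .ofNat 176, .negSucc 65]), ((2, 6), [.negSucc 0, .ofNat 0, .ofNat 0, .ofNat 270, .negSucc 59, .ofNat 6, .ofNat 0, .ofNat 170, .negSucc 29]), ((2, 10), [.negSucc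 1, .ofNat 0, .ofNat 0, .ofNat 180, .negSucc 39, .ofNat 4, .ofNat 0, .ofNat 20, .negSucc 1]), ((3, 7), [.ofNat 0, .ofNat 0, .ofNat 0, .ofNat 45, .negSucc 4, .ofNat 0, .ofNat 0, .ofNat 10, .ofNat 0]), ((4, 8), [.ofNat 0, .ofNat 0, .ofNat 0, .ofNat 8, .ofNat 0, .ofNat 0, .ofNat 0, .ofNat 0, .ofNat 0])]
  tg := [((0, 4), .ofNat 46656, [.negSucc 122363, .negSucc 743513, .negSucc 846143, .ofNat 0, .ofNat 7452, .negSucc 163, .negSucc 110260, .ofNat 3726, .ofNat 10256]), ((0, 8), .ofNat 10368, [.ofNat 26676, .ofNat 161598, .ofNat 178560, .ofNat 0, .negSucc 1619, .ofNat 76, .ofNat 24007, .negSucc 809, .negSucc 2223]), ((0, 12), .ofNat 46656, [.ofNat 4644, .ofNat 32646, .ofNat 38592, .ofNat 0, .negSucc 323, .negSucc 355, .ofNat 4459, .negSucc 161, .negSucc 495]), ((1, 5), .ofNat 216, [.ofNat 5292, .ofNat 32178, .ofNat 36864, .ofNat 0, .negSucc 323, .negSucc 7, .ofNat 4753, .negSucc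 161, .negSucc 447]), ((1, 9), .ofNat 2916, [.negSucc 42011, .negSucc 253769, .negSucc 272447, .ofNat 0, .ofNat 2592, .ofNat 238, .negSucc 37714, .ofNat 1296, .ofNat 3608]), ((2, 6), .ofNat 486, [.negSucc 44495, .negSucc 271055, .negSucc 315935, .ofNat 0, .ofNat 2754, .ofNat 320, .negSucc 39567, .ofNat 1377, .ofNat 3826]), ((2, 10), .ofNat 432, [.ofNat 14796, .ofNat 88962, .ofNat 91008, .ofNat 0, .negSucc 971, .negSucc 363, .ofNat 13289, .negSucc 485, .negSucc 1375]), ((3, 7), .ofNat 810, [.ofNat 145908, .ofNat 893550, .ofNat 1092672, .ofNat 0, .negSucc 9233, .negSucc 3061, .ofNat 125305, .negSucc 4535, .negSucc 12711]), ((4, 8), .ofNat 12, [.negSucc 2789, .negSucc 17249, .negSucc 22859, .ofNat 3, .ofNat 207, .ofNat 220, .negSucc 2134, .ofNat 90, .ofNat 260])]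

theorem NUM_4_12 : NUM_stmt 4 12 0 :=
  NUM_of_certs 4 12 0 (by norm_num) NC_4_12_p NC_4_12_m
    (by decide +kernel) (by decide +kernel) (by decide +kernel)
    (by decide +kernel) (by decide +kernel) (by decide +kernel) rfl rfl

end Pool.Agent.OD
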