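import Pool.Agent.helper21.OD.NUMG

/-!
# Project OD: certificates of the period relations
-/

namespace Pool.Agent.OD

set_option maxRecDepth 100000

/-- certificate, `m = 4`, `j = 13`, symmetric part -/
def NC_4_13_p : NUM_Cert where
  tri := [(0, 1), (0, 8), (0, 9), (0, 10), (0, 11), (0, 12), (1, 9), (1, 10), (1, 11), (2, 9), (2, 10), (3, 9)]
  fre := [(0, 0), (1, 9), (2, 10), (4, 4)]
  cols := [((0, 0), [.ofNat 0, .ofNat 0, .ofNat 0, .ofNat 0, .ofNat 0, .ofNat 0, .ofNat 0, .ofNat 0, .ofNat 0, .ofNat 0, .ofNat 0, .ofNat 0, .ofNat 2, .ofNat 0, .ofNat 0, .ofNat 0]), ((0, 4), [.negSucc 17, .ofNat 1170, .negSucc 589, .ofNat 202, .negSucc 41, .ofNat 4, .ofNat 4810, .negSucc 1481, .ofNat 234, .negSucc 15989, .ofNat 3744, .ofNat 24310, .ofNat 0, .ofNat 0, .ofNat 0, .ofNat 0]), ((0, 8), [.negSucc 9, .ofNat 1286, .negSucc 709, .ofNat 276, .negSucc 67, .ofNat 8, .ofNat 3510, .negSucc 1299, .ofNat 260, .negSucc 6759, .ofNat 2080, .ofNat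 5720, .ofNat 0, .ofNat 0, .ofNat 0, .ofNat 0]), ((0, 12), [.negSucc 1, .ofNat 792, .negSucc 494, .ofNat 220, .negSucc 65, .ofNat 12, .ofNat 715, .negSucc 285, .ofNat 78, .ofNat 0, .ofNat 0, .ofNat 0, .ofNat 0, .ofNat 0, .ofNat 0, .ofNat 0]), ((1, 1), [.negSucc 21, .ofNat 990, .negSucc 439, .ofNat 132, .negSucc 23, .ofNat 2, .ofNat 4290, .negSucc 1143, .ofNat 156, .negSucc 17159, .ofNat 3432, .ofNat 31460, .ofNat 0, .ofNat 0, .ofNat 0, .ofNat 0]), ((1, 5), [.negSucc 13, .ofNat 496, .negSucc 219, .ofNat 66, .negSucc 11, .ofNat 1, .ofNat 1690, .negSucc 471, .ofNat 68, .negSucc 5319, .ofNat 1176, .ofNat 7700, .ofNat 0, .ofNat 0, .ofNat 0, .ofNat 0]), ((1, 9), [.negSucc 5, .ofNat 486, .negSucc 218, .ofNat 66, .negSucc 11, .ofNat 1, .ofNat 879, .negSucc 259, .ofNat 42, .negSucc 1307, .ofNat 348, .ofNat 814, .ofNat 0, .ofNat 1, .ofNat 0, .ofNat 0]), ((2, 2), [.negSucc 17, .ofNat 330, .negSucc 109, .ofNat 22, .negSucc 1, .ofNat 0,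 .ofNat 1210, .negSucc 241, .ofNat 22, .negSucc 5389, .ofNat 880, .ofNat 10890, .ofNat 0, .ofNat 0, .ofNat 0, .ofNat 0]), ((2, 6), [.negSucc 9, .ofNat 165, .negSucc 54, .ofNat 11, .negSucc 0, .ofNat 0, .ofNat 385, .negSucc 76, .ofNat 7, .negSucc 1119, .ofNat 196, .ofNat 1540, .ofNat 0, .ofNat 0, .ofNat 0, .ofNat 0]), ((2, 10), [.negSucc 1, .ofNat 120, .negSucc 44, .ofNat 10, .negSucc 0, .ofNat 0, .ofNat 145, .negSucc 30, .ofNat 3, .negSucc 154, .ofNat 32, .ofNat 55, .ofNat 0, .ofNat 0, .ofNat 1, .ofNat 0]), ((3, 3), [.negSucc 13, .ofNat 90, .negSucc 19, .ofNat 2, .ofNat 0, .ofNat 0, .ofNat 200, .negSucc 19, .ofNat 0, .negSucc 899, .ofNat 90, .ofNat 1980, .ofNat 0, .ofNat 0, .ofNat 0, .ofNat 0]), ((3, 7), [.negSucc 5, .ofNat 45, .negSucc 9, .ofNat 1, .ofNat 0, .ofNat 0, .ofNat 60, .negSucc 5, .ofNat 0, .negSucc 149, .ofNat 15, .ofNat 185, .ofNat 0, .ofNat 0, .ofNat 0, .ofNat 0]), ((4, 4), [.negSucc 9, .ofNat 18, .negSucc 1, .ofNat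 0, .ofNat 0, .ofNat 0, .ofNat 18, .ofNat 0, .ofNat 0, .negSucc 71, .ofNat 0, .ofNat 168, .ofNat 0, .ofNat 0, .ofNat 0, .ofNat 2]), ((4, 8), [.negSucc 1, .ofNat 8, .negSucc 0, .ofNat 0, .ofNat 0, .ofNat 0, .ofNat 5, .ofNat 0, .ofNat 0, .negSucc 9, .ofNat 0, .ofNat 10, .ofNat 0, .ofNat 0, .ofNat 0, .ofNat 0]), ((5, 5), [.negSucc 5, .ofNat 2, .ofNat 0, .ofNat 0, .ofNat 0, .ofNat 0, .ofNat 0, .ofNat 0, .ofNat 0, .ofNat 0, .ofNat 0, .ofNat 0, .ofNat 0, .ofNat 0, .ofNat 0, .ofNat 0]), ((6, 6), [.negSucc 1, .ofNat 0, .ofNat 0, .ofNat 0, .ofNat 0, .ofNat 0, .ofNat 0, .ofNat 0, .ofNat 0, .ofNat 0, .ofNat 0, .ofNat 0, .ofNat 0, .ofNat 0, .ofNat 0, .ofNat 0])]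
  tg := [((0, 0), .ofNat 1, [.ofNat 0, .ofNat 0, .ofNat 0, .ofNat 0, .ofNat 0, .ofNat 0, .ofNat 0, .ofNat 0, .ofNat 0, .ofNat 0, .ofNat 0, .ofNat 0, .ofNat 1, .ofNat 0, .ofNat 0, .ofNat 0]), ((0, 4), .ofNat 120, [.ofNat 0, .ofNat 0, .ofNat 3180, .ofNat 310, .negSucc 29424, .negSucc 50439, .ofNat 1364, .ofNat 1635, .negSucc 4339, .ofNat 440, .ofNat 760, .ofNat 76, .ofNat 0, .ofNat 30900, .ofNat 16200, .ofNat 360]), ((0, 8), .ofNat 1680, [.ofNat 0, .ofNat 0, .ofNat 360, .negSucc 929, .negSucc 7314, .negSucc 10639, .ofNat 176, .negSucc 24, .negSucc 1349, .ofNat 64, .ofNat 80, .ofNat 12, .ofNat 0, .ofNat 4680, .ofNat 2640, .ofNat 72]), ((0, 12), .ofNat 4290, [.ofNat 0, .ofNat 0, .ofNat 330, .ofNat 585, .negSucc 934, .negSucc 2709, .ofNat 130, .ofNat 295, .ofNat 15, .ofNat 38, .ofNat 85, .ofNat 6, .ofNat 0, .ofNat 2190, .ofNat 1155, .ofNat 24]), ((1, 1), .ofNat 15015, [.ofNat 0, .ofNat 0, .negSucc 595154, .ofNat 277160, .ofNat 6921145,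 .ofNat 11214910, .negSucc 261286, .negSucc 233324, .ofNat 1111910, .negSucc 86251, .negSucc 139419, .negSucc 15123, .ofNat 0, .negSucc 6474641, .negSucc 3390419, .negSucc 78227]), ((1, 5), .ofNat 15, [.ofNat 0, .ofNat 0, .negSucc 1034, .negSucc 389, .ofNat 8360, .ofNat 14905, .negSucc 438, .negSucc 594, .ofNat 1155, .negSucc 139, .negSucc 249, .negSucc 23, .ofNat 0, .negSucc 9422, .negSucc 4949, .negSucc 107]), ((1, 9), .ofNat 1, [.ofNat 0, .ofNat 0, .ofNat 0, .ofNat 0, .ofNat 0, .ofNat 0, .ofNat 0, .ofNat 0, .ofNat 0, .ofNat 0, .ofNat 0, .ofNat 0, .ofNat 0, .ofNat 1, .ofNat 0, .ofNat 0]), ((2, 2), .ofNat 330, [.ofNat 0, .ofNat 0, .ofNat 26730, .negSucc 17939, .negSucc 333849, .negSucc 532159, .ofNat 11846, .ofNat 9305, .negSucc 54854, .ofNat 3946, .ofNat 6230, .ofNat 696, .ofNat 0, .ofNat 301230, .ofNat 157740, .ofNat 3708]), ((2, 6), .ofNat 10, [.ofNat 0, .ofNat 0, .ofNat 900, .ofNat 650, .negSucc 5994, .negSucc 11479, .ofNat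 376, .ofNat 585, .negSucc 729, .ofNat 118, .ofNat 220, .ofNat 20, .ofNat 0, .ofNat 7500, .ofNat 3960, .ofNat 84]), ((2, 10), .ofNat 1, [.ofNat 0, .ofNat 0, .ofNat 0, .ofNat 0, .ofNat 0, .ofNat 0, .ofNat 0, .ofNat 0, .ofNat 0, .ofNat 0, .ofNat 0, .ofNat 0, .ofNat 0, .ofNat 0, .ofNat 1, .ofNat 0]), ((3, 3), .ofNat 15, [.ofNat 0, .ofNat 0, .negSucc 839, .ofNat 910, .ofNat 11935, .ofNat 18480, .negSucc 379, .negSucc 219, .ofNat 2035, .negSucc 128, .negSucc 194, .negSucc 22, .ofNat 0, .negSucc 10079, .negSucc 5279, .negSucc 131]), ((3, 7), .ofNat 15, [.ofNat 0, .ofNat 0, .negSucc 1259, .negSucc 1169, .ofNat 7535, .ofNat 15760, .negSucc 519, .negSucc 879, .ofNat 795, .negSucc 160, .negSucc 309, .negSucc 26, .ofNat 0, .negSucc 9899, .negSucc 5279, .negSucc 107]), ((4, 4), .ofNat 1, [.ofNat 0, .ofNat 0, .ofNat 0, .ofNat 0, .ofNat 0, .ofNat 0, .ofNat 0, .ofNat 0, .ofNat 0, .ofNat 0, .ofNat 0, .ofNat 0, .ofNat 0, .ofNat 0, .ofNat 0,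 .ofNat 1]), ((4, 8), .ofNat 8, [.ofNat 0, .ofNat 0, .ofNat 552, .ofNat 390, .negSucc 4124, .negSucc 8919, .ofNat 232, .ofNat 385, .negSucc 429, .ofNat 72, .ofNat 140, .ofNat 12, .ofNat 0, .ofNat 4488, .ofNat 2420, .ofNat 48]), ((5, 5), .ofNat 40, [.ofNat 0, .ofNat 40, .ofNat 1440, .negSucc 989, .negSucc 15344, .negSucc 17839, .ofNat 536, .ofNat 5, .negSucc 3609, .ofNat 192, .ofNat 240, .ofNat 36, .ofNat 0, .ofNat 15048, .ofNat 7920, .ofNat 144]), ((6, 6), .ofNat 420, [.negSucc 419, .negSucc 1259, .negSucc 23639, .negSucc 8789, .ofNat 118895, .ofNat 57400, .negSucc 6927, .ofNat 125, .ofNat 43290, .negSucc 2503, .negSucc 2919, .negSucc 479, .ofNat 0, .negSucc 182159, .negSucc 96359, .negSucc 1871])]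

/-- certificate, `m = 4`, `j = 13`, antisymmetric part -/
def NC_4_13_m : NUM_Cert where
  tri := [(0, 1), (0, 4), (0, 9), (0, 10), (0, 11), (0, 12), (0, 13), (1, 2), (1, 12)]
  fre := []
  cols := [((0, 4), [.ofNat 8, .negSucc 589, .ofNat 840, .negSucc 369, .ofNat 114, .negSucc 21, .ofNat 2, .ofNat 234, .ofNat 234]), ((0, 8), [.ofNat 16, .negSucc 779, .ofNat 720, .negSucc 295, .ofNat 88, .negSucc 17, .ofNat 2, .ofNat 260, .ofNat 130]), ((0, 12), [.ofNat 24, .negSucc 1209, .ofNat 935, .negSucc 351, .ofNat 90, .negSucc 13, .ofNat 2, .ofNat 78, .ofNat 26]), ((1, 5), [.ofNat 8, .negSucc 429, .ofNat 220, .negSucc 65, .ofNat 12, .negSucc 0, .ofNat 0, .ofNat 202, .ofNat 16]), ((1, 9), [.ofNat 16, .negSucc 619, .ofNat 221, .negSucc 65, .ofNat 12, .negSucc 0, .ofNat 0, .ofNat 228, .ofNat 8]), ((2, 6), [.ofNat 8, .negSucc 309, .ofNat 55, .negSucc 10, .ofNat 1, .ofNat 0, .ofNat 0, .ofNat 178, .ofNat 0]), ((2, 10), [.ofNat 16, .negSucc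 539, .ofNat 65, .negSucc 11, .ofNat 1, .ofNat 0, .ofNat 0, .ofNat 212, .ofNat 0]), ((3, 7), [.ofNat 8, .negSucc 229, .ofNat 10, .negSucc 0, .ofNat 0, .ofNat 0, .ofNat 0, .ofNat 162, .ofNat 0]), ((4, 8), [.ofNat 8, .negSucc 189, .ofNat 1, .ofNat 0, .ofNat 0, .ofNat 0, .ofNat 0, .ofNat 154, .ofNat 0])]
  tg := [((0, 4), .ofNat 6000, [.ofNat 2075, .ofNat 92, .ofNat 880, .ofNat 4240, .ofNat 10160, .ofNat 12720, .negSucc 2559, .ofNat 0, .ofNat 0]), ((0, 8), .ofNat 8000, [.negSucc 2974, .negSucc 131, .negSucc 1279, .negSucc 6239, .negSucc 15359, .negSucc 21119, .negSucc 639, .ofNat 0, .ofNat 0]), ((0, 12), .ofNat 24000, [.ofNat 625, .ofNat 28, .ofNat 320, .ofNat 1760, .ofNat 5440, .ofNat 12480, .ofNat 24160, .ofNat 0, .ofNat 0]), ((1, 5), .ofNat 1600, [.negSucc 4604, .negSucc 203, .negSucc 1919, .negSucc 9119, .negSucc 21119, .negSucc 21439, .ofNat 22040, .ofNat 0, .ofNat 200]), ((1, 9), .ofNat 960, [.ofNat 1535, .ofNat 68, .ofNat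 640, .ofNat 3040, .ofNat 7040, .ofNat 5760, .negSucc 16359, .ofNat 0, .negSucc 119]), ((2, 6), .ofNat 32000, [.ofNat 240775, .ofNat 10866, .ofNat 99840, .ofNat 465920, .ofNat 1063680, .ofNat 1218560, .negSucc 282079, .ofNat 250, .negSucc 3999]), ((2, 10), .ofNat 32000, [.negSucc 38974, .negSucc 1937, .negSucc 17919, .negSucc 85759, .negSucc 202239, .negSucc 174079, .ofNat 419040, .negSucc 249, .ofNat 4000]), ((3, 7), .ofNat 6400, [.negSucc 68964, .negSucc 2997, .negSucc 25599, .negSucc 116479, .negSucc 259839, .negSucc 327679, .negSucc 111199, .ofNat 50, .negSucc 799]), ((4, 8), .ofNat 16, [.ofNat 93, .ofNat 4, .ofNat 32, .ofNat 144, .ofNat 320, .ofNat 432, .ofNat 286, .ofNat 0, .ofNat 2])]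

theorem NUM_4_13 : NUM_stmt 4 13 3 :=
  NUM_of_certs 4 13 3 (by norm_num) NC_4_13_p NC_4_13_m
    (by decide +kernel) (by decide +kernel) (by decide +kernel)
    (by decide +kernel) (by decide +kernel) (by decide +kernel) rfl rfl

/-- certificate, `m = 4`, `j = 14`, symmetric part -/
def NC_4_14_p : NUM_Cert where
  tri := [(0, 8), (0, 9), (0, 10), (0, 11), (0, 12), (0, 13), (1, 9), (1, 10), (1, 11), (1, 12), (2, 9), (2, 10), (2, 11), (3, 10)]
  fre := [(0, 0), (0, 12)]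
  cols := [((0, 0), [.ofNat 0, .ofNat 0, .ofNat 0, .ofNat 0, .ofNat 0, .ofNat 0, .ofNat 0, .ofNat 0, .ofNat 0, .ofNat 0, .ofNat 0, .ofNat 0, .ofNat 0, .ofNat 0, .ofNat 2, .ofNat 0]), ((0, 4), [.ofNat 2838, .negSucc 1759, .ofNat 792, .negSucc 243, .ofNat 46, .negSucc 3, .ofNat 16632, .negSucc 7083, .ofNat 1960, .negSucc 279, .negSucc 68067, .ofNat 26026, .negSucc 5459, .negSucc 44043, .ofNat 0, .ofNat 0]), ((0, 8), [.ofNat 3002, .negSucc 1995, .ofNat 986, .negSucc 343, .ofNat 76, .negSucc 7, .ofNat 11928, .negSucc 5795, .ofNat 1904, .negSucc 335, .negSucc 29483, .ofNat 13650, .negSucc 3639, .negSucc 14559, .ofNat 0, .ofNat 0]), ((0, 12), [.ofNat 2508, .negSucc 1781, .ofNat 935, .negSucc 351, .ofNat 90, .negSucc 11, .ofNat 4004, .negSucc 2001, .ofNat 728, .negSucc 167, .negSucc 2001, .ofNat 1001, .negSucc 363, .ofNat 0, .ofNat 0, .ofNat 1]), ((1, 1), [.ofNat 2574, .negSucc 1429, .ofNat 572, .negSucc 155, .ofNat 26, .negSucc 1,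 .ofNat 16016, .negSucc 6005, .ofNat 1456, .negSucc 181, .negSucc 78077, .ofNat 26026, .negSucc 4731, .negSucc 52051, .ofNat 0, .ofNat 0]), ((1, 5), [.ofNat 1296, .negSucc 715, .ofNat 286, .negSucc 77, .ofNat 13, .negSucc 0, .ofNat 6322, .negSucc 2447, .ofNat 618, .negSucc 80, .negSucc 24179, .ofNat 8658, .negSucc 1715, .negSucc 14195, .ofNat 0, .ofNat 0]), ((1, 9), [.ofNat 1278, .negSucc 713, .ofNat 286, .negSucc 77, .ofNat 13, .negSucc 0, .ofNat 3574, .negSucc 1424, .ofNat 380, .negSucc 54, .negSucc 7136, .ofNat 2795, .negSucc 649, .negSucc 2469, .ofNat 0, .ofNat 0]), ((2, 2), [.ofNat 990, .negSucc 439, .ofNat 132, .negSucc 23, .ofNat 2, .ofNat 0, .ofNat 5280, .negSucc 1583, .ofNat 288, .negSucc 23, .negSucc 27455, .ofNat 7722, .negSucc 1143, .negSucc 17159, .ofNat 0, .ofNat 0]), ((2, 6), [.ofNat 496, .negSucc 219, .ofNat 66, .negSucc 11, .ofNat 1, .ofNat 0, .ofNat 1760, .negSucc 527, .ofNat 96, .negSucc 7, .negSucc 6103,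 .ofNat 1778, .negSucc 279, .negSucc 2855, .ofNat 0, .ofNat 0]), ((2, 10), [.ofNat 450, .negSucc 209, .ofNat 65, .negSucc 11, .ofNat 1, .ofNat 0, .ofNat 860, .negSucc 261, .ofNat 48, .negSucc 3, .negSucc 1309, .ofNat 395, .negSucc 67, .negSucc 251, .ofNat 0, .ofNat 0]), ((3, 3), [.ofNat 330, .negSucc 109, .ofNat 22, .negSucc 1, .ofNat 0, .ofNat 0, .ofNat 1210, .negSucc 241, .ofNat 22, .ofNat 0, .negSucc 6049, .ofNat 1210, .negSucc 109, .negSucc 2969, .ofNat 0, .ofNat 0]), ((3, 7), [.ofNat 165, .negSucc 54, .ofNat 11, .negSucc 0, .ofNat 0, .ofNat 0, .ofNat 385, .negSucc 76, .ofNat 7, .ofNat 0, .negSucc 1154, .ofNat 231, .negSucc 20, .negSucc 349, .ofNat 0, .ofNat 0]), ((4, 4), [.ofNat 90, .negSucc 19, .ofNat 2, .ofNat 0, .ofNat 0, .ofNat 0, .ofNat 200, .negSucc 19, .ofNat 0, .ofNat 0, .negSucc 899, .ofNat 90, .ofNat 0, .negSucc 239, .ofNat 0, .ofNat 0]), ((4, 8), [.ofNat 44, .negSucc 9, .ofNat 1, .ofNat 0, .ofNat 0, .ofNat 0,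 .ofNat 60, .negSucc 5, .ofNat 0, .ofNat 0, .negSucc 149, .ofNat 15, .ofNat 0, .negSucc 19, .ofNat 0, .ofNat 0]), ((5, 5), [.ofNat 18, .negSucc 1, .ofNat 0, .ofNat 0, .ofNat 0, .ofNat 0, .ofNat 18, .ofNat 0, .ofNat 0, .ofNat 0, .negSucc 71, .ofNat 0, .ofNat 0, .ofNat 0, .ofNat 0, .ofNat 0]), ((6, 6), [.ofNat 2, .ofNat 0, .ofNat 0, .ofNat 0, .ofNat 0, .ofNat 0, .ofNat 0, .ofNat 0, .ofNat 0, .ofNat 0, .ofNat 0, .ofNat 0, .ofNat 0, .ofNat 0, .ofNat 0, .ofNat 0])]
  tg := [((0, 0), .ofNat 1, [.ofNat 0, .ofNat 0, .ofNat 0, .ofNat 0, .ofNat 0, .ofNat 0, .ofNat 0, .ofNat 0, .ofNat 0, .ofNat 0, .ofNat 0, .ofNat 0, .ofNat 0, .ofNat 0, .ofNat 1, .ofNat 0]), ((0, 4), .ofNat 216, [.ofNat 0, .negSucc 6695, .negSucc 96179, .negSucc 591139, .negSucc 1963959, .negSucc 3572464, .negSucc 951, .negSucc 16869, .negSucc 110984, .negSucc 305396, .negSucc 51, .negSucc 1519, .negSucc 11044, .negSucc 5, .ofNat 0, .ofNat 727056]), ((0, 8), .ofNat 504,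 [.ofNat 0, .negSucc 755, .negSucc 15899, .negSucc 111913, .negSucc 394647, .negSucc 737320, .negSucc 15, .negSucc 2154, .negSucc 19028, .negSucc 58508, .ofNat 17, .negSucc 55, .negSucc 1504, .ofNat 12, .ofNat 0, .ofNat 111672]), ((0, 12), .ofNat 1, [.ofNat 0, .ofNat 0, .ofNat 0, .ofNat 0, .ofNat 0, .ofNat 0, .ofNat 0, .ofNat 0, .ofNat 0, .ofNat 0, .ofNat 0, .ofNat 0, .ofNat 0, .ofNat 0, .ofNat 0, .ofNat 1]), ((1, 1), .ofNat 315, [.ofNat 0, .ofNat 24003, .ofNat 374130, .ofNat 2383700, .ofNat 8048680, .ofNat 14742881, .ofNat 2887, .ofNat 61945, .ofNat 436395, .ofNat 1236075, .ofNat 55, .ofNat 4760, .ofNat 41195, .negSucc 59, .ofNat 0, .negSucc 2682719]), ((1, 5), .ofNat 180, [.ofNat 0, .ofNat 10584, .ofNat 145740, .ofNat 877030, .ofNat 2886800, .ofNat 5231863, .ofNat 1616, .ofNat 26360, .ofNat 166965, .ofNat 451935, .ofNat 110, .ofNat 2560, .ofNat 17095, .ofNat 30, .ofNat 0, .negSucc 1164239]), ((1, 9), .ofNat 108, [.ofNat 0,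 .ofNat 108, .ofNat 3900, .ofNat 30646, .ofNat 112832, .ofNat 214981, .negSucc 27, .ofNat 380, .ofNat 4791, .ofNat 16137, .negSucc 9, .negSucc 31, .ofNat 289, .negSucc 5, .ofNat 0, .negSucc 28511]), ((2, 2), .ofNat 360, [.ofNat 0, .negSucc 66959, .negSucc 1080299, .negSucc 6977277, .negSucc 23702527, .negSucc 43531734, .negSucc 7399, .negSucc 174739, .negSucc 1265072, .negSucc 3622922, .ofNat 10, .negSucc 12471, .negSucc 116934, .ofNat 258, .ofNat 0, .ofNat 7664976]), ((2, 6), .ofNat 180, [.ofNat 0, .negSucc 7559, .negSucc 96599, .negSucc 557556, .negSucc 1803871, .negSucc 3250974, .negSucc 1279, .negSucc 18409, .negSucc 108686, .negSucc 285416, .negSucc 109, .negSucc 2007, .negSucc 11679, .negSucc 47, .ofNat 0, .ofNat 906444]), ((2, 10), .ofNat 120, [.ofNat 0, .ofNat 0, .negSucc 2099, .negSucc 19095, .negSucc 73975, .negSucc 144234, .ofNat 40, .negSucc 79, .negSucc 2660, .negSucc 10130, .ofNat 10, .ofNat 56, .negSucc 84, .ofNat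 6, .ofNat 0, .ofNat 16632]), ((3, 3), .ofNat 108, [.ofNat 0, .ofNat 21168, .ofNat 370020, .ofNat 2460262, .ofNat 8464064, .ofNat 15629887, .ofNat 1832, .ofNat 56780, .ofNat 437025, .ofNat 1281123, .negSucc 129, .ofNat 3328, .ofNat 38551, .negSucc 149, .ofNat 0, .negSucc 2588543]), ((3, 7), .ofNat 36, [.ofNat 0, .ofNat 432, .ofNat 4380, .ofNat 21626, .ofNat 66112, .ofNat 118157, .ofNat 88, .ofNat 940, .ofNat 4431, .ofNat 10593, .ofNat 10, .ofNat 128, .ofNat 533, .ofNat 6, .ofNat 0, .negSucc 76031]), ((4, 4), .ofNat 720, [.ofNat 0, .negSucc 75599, .negSucc 1620779, .negSucc 11459293, .negSucc 40428303, .negSucc 75422164, .negSucc 1239, .negSucc 219099, .negSucc 1950878, .negSucc 6004448, .ofNat 1790, .negSucc 5455, .negSucc 154324, .ofNat 1254, .ofNat 0, .ofNat 11209968]), ((4, 8), .ofNat 240, [.ofNat 0, .ofNat 0, .ofNat 6300, .ofNat 53746, .ofNat 189056, .ofNat 343525, .negSucc 39, .ofNat 1040, .ofNat 10671, .ofNat 30921, .negSucc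 9, .ofNat 64, .ofNat 1105, .negSucc 5, .ofNat 0, .ofNat 121968]), ((5, 5), .ofNat 135, [.ofNat 0, .ofNat 3402, .ofNat 132720, .ofNat 1051820, .ofNat 3865960, .ofNat 7308119, .negSucc 1006, .ofNat 13030, .ofNat 166200, .ofNat 558855, .negSucc 349, .negSucc 1119, .ofNat 10115, .negSucc 209, .ofNat 0, .negSucc 914759]), ((6, 6), .ofNat 720, [.ofNat 720, .ofNat 6480, .negSucc 198299, .negSucc 1966293, .negSucc 7646863, .negSucc 14531724, .ofNat 4360, .negSucc 9439, .negSucc 294398, .negSucc 1105928, .ofNat 1090, .ofNat 5984, .negSucc 10164, .ofNat 654, .ofNat 0, .ofNat 1515888])]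

/-- certificate, `m = 4`, `j = 14`, antisymmetric part -/
def NC_4_14_m : NUM_Cert where
  tri := [(0, 13), (0, 14), (1, 11), (1, 12), (1, 13), (2, 11), (2, 12), (3, 10), (3, 11), (4, 10), (5, 9), (6, 7)]
  fre := []
  cols := [((0, 4), [.ofNat 24, .negSucc 1, .negSucc 5319, .ofNat 1540, .negSucc 279, .ofNat 27300, .negSucc 8189, .ofNat 196196, .negSucc 87359, .negSucc 418417, .negSucc 968967, .ofNat 566280]), ((0, 8), [.ofNat 20, .negSucc 1, .negSucc 2463, .ofNat 756, .negSucc 167, .ofNat 7280, .negSucc 2729, .ofNat 25480, .negSucc 14559, .negSucc 30029, .negSucc 24023, .ofNat 3432]), ((0, 12), [.ofNat 16, .negSucc 1, .negSucc 727, .ofNat 196, .negSucc 55, .ofNat 364, .negSucc 181, .ofNat 0, .ofNat 0, .ofNat 0, .ofNat 0, .ofNat 0]), ((1, 5), [.ofNat 1, .ofNat 0, .negSucc 785, .ofNat 153, .negSucc 17, .ofNat 3900, .negSucc 935, .ofNat 33852, .negSucc 13103, .negSucc 72071, .negSucc 177605, .ofNat 113256]), ((1, 9), [.ofNat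 1, .ofNat 0, .negSucc 399, .ofNat 75, .negSucc 9, .ofNat 910, .negSucc 259, .ofNat 3250, .negSucc 1559, .negSucc 2859, .negSucc 1429, .ofNat 0]), ((1, 13), [.ofNat 2, .ofNat 0, .negSucc 155, .ofNat 26, .negSucc 1, .ofNat 0, .ofNat 0, .ofNat 0, .ofNat 0, .ofNat 0, .ofNat 0, .ofNat 0]), ((2, 6), [.ofNat 0, .ofNat 0, .negSucc 95, .ofNat 8, .ofNat 0, .ofNat 392, .negSucc 55, .ofNat 4536, .negSucc 1343, .negSucc 9239, .negSucc 24639, .ofNat 17952]), ((2, 10), [.ofNat 0, .ofNat 0, .negSucc 47, .ofNat 4, .ofNat 0, .ofNat 76, .negSucc 11, .ofNat 276, .negSucc 95, .negSucc 131, .ofNat 0, .ofNat 0]), ((3, 7), [.ofNat 0, .ofNat 0, .negSucc 6, .ofNat 0, .ofNat 0, .ofNat 21, .ofNat 0, .ofNat 420, .negSucc 69, .negSucc 769, .negSucc 2309, .ofNat 2013]), ((3, 11), [.ofNat 0, .ofNat 0, .negSucc 5, .ofNat 0, .ofNat 0, .ofNat 6, .ofNat 0, .ofNat 22, .negSucc 1, .ofNat 0, .ofNat 0, .ofNat 0]), ((4, 8), [.ofNat 0, .ofNat 0, .ofNat 0, .ofNat 0,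 .ofNat 0, .ofNat 0, .ofNat 0, .ofNat 20, .ofNat 0, .negSucc 29, .negSucc 119, .ofNat 120]), ((5, 9), [.ofNat 0, .ofNat 0, .ofNat 0, .ofNat 0, .ofNat 0, .ofNat 0, .ofNat 0, .ofNat 0, .ofNat 0, .ofNat 0, .negSucc 1, .ofNat 0])]
  tg := [((0, 4), .ofNat 61326720, [.negSucc 229197149, .negSucc 1187955677, .negSucc 623765, .ofNat 13400946, .negSucc 6331103, .negSucc 6526664, .negSucc 1273187, .ofNat 1713039, .ofNat 1134732, .negSucc 252569, .ofNat 0, .negSucc 348648]), ((0, 8), .ofNat 74954880, [.ofNat 226125900, .ofNat 1117103988, .ofNat 585156, .negSucc 13482611, .ofNat 5209776, .ofNat 6044247, .ofNat 1228458, .negSucc 1595120, .negSucc 1169057, .ofNat 261966, .ofNat 0, .ofNat 331345]), ((0, 12), .ofNat 25945920, [.ofNat 18693675, .ofNat 102933831, .ofNat 61347, .negSucc 1002572, .ofNat 875160, .ofNat 669042, .ofNat 113421, .negSucc 172589, .negSucc 75404, .ofNat 16176, .ofNat 0, .ofNat 32809]), ((1, 5), .ofNat 2676960, [.ofNat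 97297200, .ofNat 519807288, .ofNat 250536, .negSucc 5786351, .ofNat 2532816, .ofNat 2865357, .ofNat 559218, .negSucc 758570, .negSucc 499817, .ofNat 109866, .ofNat 0, .ofNat 153895]), ((1, 9), .ofNat 12046320, [.negSucc 183963779, .negSucc 945644699, .negSucc 317459, .ofNat 12010284, .negSucc 3068207, .negSucc 5243732, .negSucc 1120349, .ofNat 1448403, .ofNat 1153614, .negSucc 248393, .ofNat 0, .negSucc 303498]), ((1, 13), .ofNat 4015440, [.negSucc 9008999, .negSucc 49489439, .negSucc 68639, .ofNat 545688, .negSucc 576575, .negSucc 426590, .negSucc 61709, .ofNat 99561, .ofNat 21318, .negSucc 5837, .ofNat 0, .negSucc 18052]), ((2, 6), .ofNat 1235520, [.negSucc 179504324, .negSucc 1022266244, .negSucc 413984, .ofNat 11033451, .negSucc 3778631, .negSucc 5649731, .negSucc 1145594, .ofNat 1518792, .ofNat 999471, .negSucc 215075, .ofNat 0, .negSucc 306900]), ((2, 10), .ofNat 823680, [.ofNat 22522500, .ofNat 153237084, .negSucc 29171,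 .negSucc 1899611, .ofNat 102960, .ofNat 971883, .ofNat 279114, .negSucc 297164, .negSucc 265649, .ofNat 52854, .ofNat 0, .ofNat 62741]), ((3, 7), .ofNat 13860, [.ofNat 4504500, .ofNat 29249220, .ofNat 8580, .negSucc 293435, .ofNat 20592, .ofNat 160677, .ofNat 39270, .negSucc 44186, .negSucc 29765, .ofNat 6186, .ofNat 0, .ofNat 8911]), ((3, 11), .ofNat 33, [.ofNat 0, .negSucc 12011, .ofNat 0, .ofNat 0, .ofNat 0, .negSucc 98, .negSucc 65, .ofNat 33, .ofNat 33, .negSucc 5, .ofNat 0, .negSucc 6]), ((4, 8), .ofNat 187200, [.negSucc 88062974, .negSucc 730524794, .negSucc 152294, .ofNat 6217497, .ofNat 4643496, .negSucc 3874463, .negSucc 1586804, .ofNat 1089264, .ofNat 815397, .negSucc 158171, .ofNat 0, .negSucc 219526]), ((5, 9), .ofNat 9360, [.ofNat 9009000, .ofNat 161921760, .ofNat 68640, .negSucc 545687, .negSucc 3438863, .ofNat 735471, .ofNat 679470, .negSucc 202520, .negSucc 227237, .ofNat 61998, .negSucc 9359, .ofNat 39893])]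

theorem NUM_4_14 : NUM_stmt 4 14 1 :=
  NUM_of_certs 4 14 1 (by norm_num) NC_4_14_p NC_4_14_m
    (by decide +kernel) (by decide +kernel) (by decide +kernel)
    (by decide +kernel) (by decide +kernel) (by decide +kernel) rfl rfl

/-- certificate, `m = 4`, `j = 15`, symmetric part -/
def NC_4_15_p : NUM_Cert where
  tri := [(0, 9), (0, 10), (0, 11), (0, 12), (0, 13), (0, 14), (1, 9), (1, 10), (1, 11), (1, 12), (1, 13), (2, 10), (2, 11), (2, 12), (3, 11), (6, 8)]
  fre := [(0, 0), (1, 9), (2, 10), (4, 8)]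
  cols := [((0, 0), [.ofNat 0, .ofNat 0, .ofNat 0, .ofNat 0, .ofNat 0, .ofNat 0, .ofNat 0, .ofNat 0, .ofNat 0, .ofNat 0, .ofNat 0, .ofNat 0, .ofNat 0, .ofNat 0, .ofNat 0, .ofNat 0, .ofNat 2, .ofNat 0, .ofNat 0, .ofNat 0]), ((0, 4), [.negSucc 4597, .ofNat 2552, .negSucc 1035, .ofNat 290, .negSucc 49, .ofNat 4, .ofNat 48950, .negSucc 26267, .ofNat 10080, .negSucc 2529, .ofNat 330, .ofNat 117810, .negSucc 40529, .ofNat 7700, .ofNat 75530, .ofNat 1793220, .ofNat 0, .ofNat 0, .ofNat 0, .ofNat 0]), ((0, 8), [.negSucc 4997, .ofNat 2982, .negSucc 1329, .ofNat 420, .negSucc 83, .ofNat 8, .ofNat 34930, .negSucc 20705, .ofNat 9030, .negSucc 2659, .ofNat 420, .ofNat 60858, .negSucc 24989, .ofNat 5880, .ofNat 31850, .ofNat 40040, .ofNat 0, .ofNat 0, .ofNat 0, .ofNat 0]), ((0, 12), [.negSucc 4784, .ofNat 2937, .negSucc 1352, .ofNat 454, .negSucc 101, .ofNat 12, .ofNat 15015, .negSucc 9008, .ofNat 4095, .negSucc 1349, .ofNat 270, .ofNat 9009,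 .negSucc 4094, .ofNat 1260, .ofNat 1365, .ofNat 0, .ofNat 0, .ofNat 0, .ofNat 0, .ofNat 0]), ((1, 1), [.negSucc 4003, .ofNat 2002, .negSucc 727, .ofNat 182, .negSucc 27, .ofNat 2, .ofNat 50050, .negSucc 24023, .ofNat 8190, .negSucc 1819, .ofNat 210, .ofNat 126126, .negSucc 38219, .ofNat 6370, .ofNat 82810, .ofNat 4294290, .ofNat 0, .ofNat 0, .ofNat 0, .ofNat 0]), ((1, 5), [.negSucc 2011, .ofNat 1002, .negSucc 363, .ofNat 91, .negSucc 13, .ofNat 1, .ofNat 19950, .negSucc 9771, .ofNat 3430, .negSucc 789, .ofNat 95, .ofNat 41608, .negSucc 13439, .ofNat 2415, .ofNat 24570, .ofNat 491205, .ofNat 0, .ofNat 0, .ofNat 0, .ofNat 0]), ((1, 9), [.negSucc 2000, .ofNat 1001, .negSucc 363, .ofNat 91, .negSucc 13, .ofNat 1, .ofNat 12011, .negSucc 5999, .ofNat 2169, .negSucc 525, .ofNat 69, .ofNat 14931, .negSucc 5249, .ofNat 1085, .ofNat 5915, .ofNat 3003, .ofNat 0, .ofNat 1, .ofNat 0, .ofNat 0]), ((1, 13), [.negSucc 1286, .ofNat 715, .negSucc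 285, .ofNat 78, .negSucc 12, .ofNat 1, .ofNat 3289, .negSucc 1715, .ofNat 650, .negSucc 168, .ofNat 27, .ofNat 1001, .negSucc 363, .ofNat 91, .ofNat 0, .ofNat 0, .ofNat 0, .ofNat 0, .ofNat 0, .ofNat 0]), ((2, 2), [.negSucc 1429, .ofNat 572, .negSucc 155, .ofNat 26, .negSucc 1, .ofNat 0, .ofNat 18590, .negSucc 7435, .ofNat 2028, .negSucc 337, .ofNat 26, .ofNat 42042, .negSucc 10737, .ofNat 1456, .ofNat 26026, .ofNat 1963104, .ofNat 0, .ofNat 0, .ofNat 0, .ofNat 0]), ((2, 6), [.negSucc 715, .ofNat 286, .negSucc 77, .ofNat 13, .negSucc 0, .ofNat 0, .ofNat 6448, .negSucc 2573, .ofNat 702, .negSucc 116, .ofNat 9, .ofNat 10170, .negSucc 2681, .ofNat 384, .ofNat 4914, .ofNat 96096, .ofNat 0, .ofNat 0, .ofNat 0, .ofNat 0]), ((2, 10), [.negSucc 704, .ofNat 285, .negSucc 77, .ofNat 13, .negSucc 0, .ofNat 0, .ofNat 3555, .negSucc 1427, .ofNat 390, .negSucc 64, .ofNat 5, .ofNat 2859, .negSucc 774, .ofNat 120, .ofNat 715, .ofNat 0, .ofNat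 0, .ofNat 0, .ofNat 1, .ofNat 0]), ((3, 3), [.negSucc 439, .ofNat 132, .negSucc 23, .ofNat 2, .ofNat 0, .ofNat 0, .ofNat 5280, .negSucc 1583, .ofNat 288, .negSucc 23, .ofNat 0, .ofNat 8712, .negSucc 1583, .ofNat 132, .ofNat 4290, .ofNat 566280, .ofNat 0, .ofNat 0, .ofNat 0, .ofNat 0]), ((3, 7), [.negSucc 219, .ofNat 66, .negSucc 11, .ofNat 1, .ofNat 0, .ofNat 0, .ofNat 1760, .negSucc 527, .ofNat 96, .negSucc 7, .ofNat 0, .ofNat 1848, .negSucc 335, .ofNat 28, .ofNat 602, .ofNat 13024, .ofNat 0, .ofNat 0, .ofNat 0, .ofNat 0]), ((3, 11), [.negSucc 164, .ofNat 55, .negSucc 10, .ofNat 1, .ofNat 0, .ofNat 0, .ofNat 715, .negSucc 230, .ofNat 45, .negSucc 3, .ofNat 0, .ofNat 363, .negSucc 68, .ofNat 6, .ofNat 47, .ofNat 0, .ofNat 0, .ofNat 0, .ofNat 0, .ofNat 0]), ((4, 4), [.negSucc 109, .ofNat 22, .negSucc 1, .ofNat 0, .ofNat 0, .ofNat 0, .ofNat 1210, .negSucc 241, .ofNat 22, .ofNat 0, .ofNat 0, .ofNat 1210, .negSucc 109, .ofNat 0,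 .ofNat 330, .ofNat 116160, .ofNat 0, .ofNat 0, .ofNat 0, .ofNat 0]), ((4, 8), [.negSucc 54, .ofNat 11, .negSucc 0, .ofNat 0, .ofNat 0, .ofNat 0, .ofNat 385, .negSucc 76, .ofNat 7, .ofNat 0, .ofNat 0, .ofNat 231, .negSucc 20, .ofNat 0, .ofNat 35, .ofNat 1100, .ofNat 0, .ofNat 0, .ofNat 0, .ofNat 1]), ((5, 5), [.negSucc 19, .ofNat 2, .ofNat 0, .ofNat 0, .ofNat 0, .ofNat 0, .ofNat 200, .negSucc 19, .ofNat 0, .ofNat 0, .ofNat 0, .ofNat 90, .ofNat 0, .ofNat 0, .ofNat 0, .ofNat 16500, .ofNat 0, .ofNat 0, .ofNat 0, .ofNat 0]), ((5, 9), [.negSucc 8, .ofNat 1, .ofNat 0, .ofNat 0, .ofNat 0, .ofNat 0, .ofNat 55, .negSucc 5, .ofNat 0, .ofNat 0, .ofNat 0, .ofNat 15, .ofNat 0, .ofNat 0, .ofNat 0, .ofNat 45, .ofNat 0, .ofNat 0, .ofNat 0, .ofNat 0]), ((6, 6), [.negSucc 1, .ofNat 0, .ofNat 0, .ofNat 0, .ofNat 0, .ofNat 0, .ofNat 18, .ofNat 0, .ofNat 0, .ofNat 0, .ofNat 0, .ofNat 0, .ofNat 0, .ofNat 0, .ofNat 0, .ofNat 1440, .ofNat 0, .ofNat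 0, .ofNat 0, .ofNat 0]), ((7, 7), [.ofNat 0, .ofNat 0, .ofNat 0, .ofNat 0, .ofNat 0, .ofNat 0, .ofNat 0, .ofNat 0, .ofNat 0, .ofNat 0, .ofNat 0, .ofNat 0, .ofNat 0, .ofNat 0, .ofNat 0, .ofNat 56, .ofNat 0, .ofNat 0, .ofNat 0, .ofNat 0])]
  tg := [((0, 0), .ofNat 1, [.ofNat 0, .ofNat 0, .ofNat 0, .ofNat 0, .ofNat 0, .ofNat 0, .ofNat 0, .ofNat 0, .ofNat 0, .ofNat 0, .ofNat 0, .ofNat 0, .ofNat 0, .ofNat 0, .ofNat 0, .ofNat 0, .ofNat 1, .ofNat 0, .ofNat 0, .ofNat 0]), ((0, 4), .ofNat 66528, [.negSucc 827225, .negSucc 5391779, .negSucc 17532404, .negSucc 53715563, .negSucc 190691201, .negSucc 403273751, .negSucc 91913, .negSucc 336890, .ofNat 1005924, .ofNat 5404086, .negSucc 6041439, .ofNat 65378, .ofNat 867634, .ofNat 3158808, .ofNat 49848, .ofNat 0, .ofNat 0, .negSucc 1235141, .negSucc 814769, .ofNat 57876]), ((0, 8), .ofNat 2688, [.negSucc 1133, .negSucc 7259, .negSucc 23066, .negSucc 71603, .negSucc 264497, .negSucc 574223,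 .negSucc 125, .negSucc 428, .ofNat 1684, .ofNat 8334, .negSucc 7551, .ofNat 94, .ofNat 1246, .ofNat 4512, .ofNat 72, .ofNat 0, .ofNat 0, .negSucc 2897, .negSucc 1229, .ofNat 44]), ((0, 12), .ofNat 7128, [.ofNat 54, .negSucc 659, .negSucc 7424, .negSucc 26747, .negSucc 40442, .negSucc 10793, .ofNat 6, .negSucc 230, .negSucc 2495, .negSucc 9476, .negSucc 14191, .negSucc 37, .negSucc 465, .negSucc 1697, .negSucc 23, .ofNat 0, .ofNat 0, .negSucc 53, .negSucc 89, .ofNat 12]), ((1, 1), .ofNat 180180, [.ofNat 5446386, .ofNat 35178060, .ofNat 113436939, .ofNat 350644356, .ofNat 1268618910, .ofNat 2716124040, .ofNat 605154, .ofNat 2137821, .negSucc 7241099, .negSucc 37295633, .ofNat 39086600, .negSucc 441141, .negSucc 5818117, .negSucc 21141047, .negSucc 332519, .ofNat 0, .ofNat 0, .ofNat 8283330, .ofNat 5005350, .negSucc 293339]), ((1, 5), .ofNat 90, [.ofNat 2052, .ofNat 13620, .ofNat 45243, .ofNat 137772, .ofNat 473460, .ofNat 979860,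 .ofNat 228, .ofNat 897, .negSucc 1979, .negSucc 11717, .ofNat 16850, .negSucc 153, .negSucc 2065, .negSucc 7535, .negSucc 119, .ofNat 0, .ofNat 0, .ofNat 3240, .ofNat 2250, .negSucc 179]), ((1, 9), .ofNat 1, [.ofNat 0, .ofNat 0, .ofNat 0, .ofNat 0, .ofNat 0, .ofNat 0, .ofNat 0, .ofNat 0, .ofNat 0, .ofNat 0, .ofNat 0, .ofNat 0, .ofNat 0, .ofNat 0, .ofNat 0, .ofNat 0, .ofNat 0, .ofNat 1, .ofNat 0, .ofNat 0]), ((1, 13), .ofNat 144144, [.negSucc 917, .ofNat 47220, .ofNat 434313, .ofNat 1572732, .ofNat 2752230, .ofNat 1901760, .negSucc 101, .ofNat 12927, .ofNat 129300, .ofNat 493110, .ofNat 786640, .ofNat 1846, .ofNat 22454, .ofNat 82560, .ofNat 1128, .ofNat 0, .ofNat 0, .ofNat 918, .ofNat 2970, .negSucc 419]), ((2, 2), .ofNat 20592, [.negSucc 1482353, .negSucc 9637619, .negSucc 31436360, .negSucc 97643483, .negSucc 350232401, .negSucc 745974599, .negSucc 164705, .negSucc 597638, .ofNat 1816260, .ofNat 9537750, .negSucc 11736639,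 .ofNat 117962, .ofNat 1558186, .ofNat 5658504, .ofNat 89304, .ofNat 0, .ofNat 0, .negSucc 2347757, .negSucc 1376297, .ofNat 74820]), ((2, 6), .ofNat 864, [.negSucc 12041, .negSucc 86099, .negSucc 311552, .negSucc 937691, .negSucc 2852381, .negSucc 5379359, .negSucc 1337, .negSucc 6806, .negSucc 1859, .ofNat 23058, .negSucc 155103, .ofNat 698, .ofNat 9850, .ofNat 36240, .ofNat 600, .ofNat 0, .ofNat 0, .negSucc 24245, .negSucc 18377, .ofNat 1860]), ((2, 10), .ofNat 1, [.ofNat 0, .ofNat 0, .ofNat 0, .ofNat 0, .ofNat 0, .ofNat 0, .ofNat 0, .ofNat 0, .ofNat 0, .ofNat 0, .ofNat 0, .ofNat 0, .ofNat 0, .ofNat 0, .ofNat 0, .ofNat 0, .ofNat 0, .ofNat 0, .ofNat 1, .ofNat 0]), ((3, 3), .ofNat 7128, [.ofNat 496314, .ofNat 3362340, .ofNat 11681901, .ofNat 36897084, .ofNat 125252790, .ofNat 257474280, .ofNat 55146, .ofNat 233979, .negSucc 283739, .negSucc 1959497, .ofNat 5964896, .negSucc 34977, .negSucc 467689, .negSucc 1695863, .negSucc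 27263, .ofNat 0, .ofNat 0, .ofNat 900774, .ofNat 497970, .negSucc 22547]), ((3, 7), .ofNat 1008, [.ofNat 1350, .ofNat 19500, .ofNat 111375, .ofNat 331380, .ofNat 508170, .ofNat 155400, .ofNat 150, .ofNat 3225, .ofNat 22620, .ofNat 75546, .ofNat 119680, .ofNat 250, .ofNat 2714, .ofNat 9480, .ofNat 120, .ofNat 0, .ofNat 0, .ofNat 10746, .ofNat 9270, .negSucc 1595]), ((3, 11), .ofNat 594, [.ofNat 432, .ofNat 2820, .ofNat 8613, .ofNat 25452, .ofNat 95550, .ofNat 212835, .ofNat 48, .ofNat 177, .negSucc 689, .negSucc 3617, .ofNat 1808, .negSucc 33, .negSucc 487, .negSucc 1784, .negSucc 29, .ofNat 0, .ofNat 0, .negSucc 431, .negSucc 989, .negSucc 11]), ((4, 4), .ofNat 6336, [.negSucc 158165, .negSucc 1465259, .negSucc 7066718, .negSucc 23673635, .negSucc 61343489, .negSucc 99647519, .negSucc 17573, .negSucc 173000, .negSucc 854363, .negSucc 2934449, .negSucc 7622655, .negSucc 1977, .negSucc 9625, .negSucc 39791, .ofNat 744, .ofNat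 0, .ofNat 0, .negSucc 507113, .negSucc 254069, .ofNat 6204]), ((4, 8), .ofNat 1, [.ofNat 0, .ofNat 0, .ofNat 0, .ofNat 0, .ofNat 0, .ofNat 0, .ofNat 0, .ofNat 0, .ofNat 0, .ofNat 0, .ofNat 0, .ofNat 0, .ofNat 0, .ofNat 0, .ofNat 0, .ofNat 0, .ofNat 0, .ofNat 0, .ofNat 0, .ofNat 1]), ((5, 5), .ofNat 360, [.negSucc 3347, .ofNat 25980, .ofNat 335808, .ofNat 1223352, .ofNat 1765335, .ofNat 329910, .negSucc 371, .ofNat 10632, .ofNat 119760, .ofNat 456237, .ofNat 664720, .ofNat 1876, .ofNat 23144, .ofNat 84414, .ofNat 1200, .ofNat 0, .ofNat 0, .ofNat 12420, .ofNat 5940, .ofNat 120]), ((5, 9), .ofNat 432, [.ofNat 1566, .ofNat 3540, .negSucc 21680, .negSucc 65483, .ofNat 216060, .ofNat 1062516, .ofNat 174, .negSucc 1190, .negSucc 19571, .negSucc 73439, .negSucc 72591, .negSucc 381, .negSucc 4837, .negSucc 17435, .negSucc 263, .ofNat 0, .ofNat 0, .negSucc 1565, .negSucc 1745, .negSucc 299]), ((6, 6), .ofNat 648, [.ofNat 8694, .negSucc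 54239, .negSucc 762398, .negSucc 2802635, .negSucc 3991376, .negSucc 667589, .ofNat 1038, .negSucc 23600, .negSucc 276179, .negSucc 1056806, .negSucc 1519503, .negSucc 4413, .negSucc 54697, .negSucc 199469, .negSucc 2855, .ofNat 0, .ofNat 0, .negSucc 8693, .negSucc 6497, .negSucc 299]), ((7, 7), .ofNat 672, [.negSucc 123983, .negSucc 1123139, .negSucc 5289965, .negSucc 16876223, .negSucc 43866614, .negSucc 72986549, .negSucc 15695, .negSucc 169193, .negSucc 874439, .negSucc 2533076, .negSucc 5795295, .negSucc 9711, .negSucc 94675, .negSucc 187589, .negSucc 11135, .ofNat 24, .ofNat 0, .ofNat 5184, .ofNat 7200, .ofNat 192])]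

/-- certificate, `m = 4`, `j = 15`, antisymmetric part -/
def NC_4_15_m : NUM_Cert where
  tri := [(0, 1), (0, 4), (0, 5), (0, 11), (0, 12), (0, 13), (0, 14), (0, 15), (1, 2), (1, 4), (1, 6), (1, 14)]
  fre := []
  cols := [((0, 4), [.ofNat 8, .negSucc 1035, .ofNat 2552, .ofNat 1694, .negSucc 619, .ofNat 160, .negSucc 25, .ofNat 2, .ofNat 330, .ofNat 10080, .ofNat 48950, .ofNat 330]), ((0, 8), [.ofNat 16, .negSucc 1399, .ofNat 3038, .ofNat 1400, .negSucc 489, .ofNat 126, .negSucc 21, .ofNat 2, .ofNat 420, .ofNat 9030, .ofNat 34930, .ofNat 210]), ((0, 12), [.ofNat 24, .negSucc 1859, .ofNat 3795, .ofNat 1377, .negSucc 455, .ofNat 108, .negSucc 17, .ofNat 2, .ofNat 270, .ofNat 4095, .ofNat 15015, .ofNat 90]), ((1, 5), [.ofNat 8, .negSucc 795, .ofNat 1751, .ofNat 364, .negSucc 90, .ofNat 14, .negSucc 0, .ofNat 0, .ofNat 290, .ofNat 7075, .ofNat 27100, .ofNat 20]), ((1, 9), [.ofNat 16, .negSucc 1111, .ofNat 2122, .ofNat 364, .negSucc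 90, .ofNat 14, .negSucc 0, .ofNat 0, .ofNat 372, .ofNat 5922, .ofNat 18088, .ofNat 12]), ((1, 13), [.ofNat 24, .negSucc 1715, .ofNat 3289, .ofNat 442, .negSucc 103, .ofNat 15, .negSucc 0, .ofNat 0, .ofNat 246, .ofNat 2717, .ofNat 7722, .ofNat 4]), ((2, 6), [.ofNat 8, .negSucc 603, .ofNat 1167, .ofNat 78, .negSucc 12, .ofNat 1, .ofNat 0, .ofNat 0, .ofNat 258, .ofNat 4827, .ofNat 14354, .ofNat 0]), ((2, 10), [.ofNat 16, .negSucc 919, .ofNat 1538, .ofNat 78, .negSucc 12, .ofNat 1, .ofNat 0, .ofNat 0, .ofNat 340, .ofNat 3930, .ofNat 9000, .ofNat 0]), ((3, 7), [.ofNat 8, .negSucc 459, .ofNat 757, .ofNat 12, .negSucc 0, .ofNat 0, .ofNat 0, .ofNat 0, .ofNat 234, .ofNat 3225, .ofNat 7077, .ofNat 0]), ((3, 11), [.ofNat 16, .negSucc 823, .ofNat 1254, .ofNat 13, .negSucc 0, .ofNat 0, .ofNat 0, .ofNat 0, .ofNat 324, .ofNat 2958, .ofNat 5082, .ofNat 0]), ((4, 8), [.ofNat 8, .negSucc 363, .ofNat 497, .ofNat 1, .ofNat 0, .ofNat 0, .ofNat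 0, .ofNat 0, .ofNat 218, .ofNat 2197, .ofNat 3269, .ofNat 0]), ((5, 9), [.ofNat 8, .negSucc 315, .ofNat 371, .ofNat 0, .ofNat 0, .ofNat 0, .ofNat 0, .ofNat 0, .ofNat 210, .ofNat 1695, .ofNat 1670, .ofNat 0])]
  tg := [((0, 4), .ofNat 3600, [.ofNat 34657, .ofNat 1610, .ofNat 624, .negSucc 1343, .negSucc 7103, .negSucc 20543, .negSucc 42047, .negSucc 66047, .ofNat 0, .ofNat 0, .ofNat 0, .ofNat 0]), ((0, 8), .ofNat 4800, [.negSucc 48016, .negSucc 2229, .negSucc 863, .ofNat 1824, .ofNat 9504, .ofNat 26784, .ofNat 52128, .ofNat 75648, .ofNat 0, .ofNat 0, .ofNat 0, .ofNat 0]), ((0, 12), .ofNat 14400, [.ofNat 5423, .ofNat 250, .ofNat 96, .negSucc 95, .negSucc 95, .ofNat 1824, .ofNat 11808, .ofNat 44448, .ofNat 0, .ofNat 0, .ofNat 0, .ofNat 0]), ((1, 5), .ofNat 960, [.negSucc 753759, .negSucc 14914, .negSucc 2999, .negSucc 479, .negSucc 1439, .negSucc 2399, .negSucc 33119, .negSucc 145919, .ofNat 21462, .negSucc 1319, .ofNat 96, .negSucc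 1535]), ((1, 9), .ofNat 2880, [.ofNat 4176227, .ofNat 73396, .ofNat 11760, .ofNat 16608, .ofNat 82272, .ofNat 232800, .ofNat 668160, .ofNat 1656024, .negSucc 128771, .ofNat 7920, .negSucc 575, .ofNat 9576]), ((1, 13), .ofNat 960, [.negSucc 673836, .negSucc 11200, .negSucc 1559, .negSucc 3647, .negSucc 18431, .negSucc 52799, .negSucc 142559, .negSucc 334343, .ofNat 21462, .negSucc 1319, .ofNat 96, .negSucc 1655]), ((2, 6), .ofNat 15360, [.negSucc 6399559, .ofNat 22091, .ofNat 52776, .negSucc 232127, .negSucc 1233983, .negSucc 3650495, .negSucc 8359871, .negSucc 15571967, .ofNat 341082, .negSucc 20999, .ofNat 1536, .negSucc 32255]), ((2, 10), .ofNat 76800, [.ofNat 101071384, .ofNat 1490585, .ofNat 134328, .ofNat 841152, .ofNat 4329792, .ofNat 12541632, .ofNat 32151744, .ofNat 71589504, .negSucc 3422369, .ofNat 210600, .negSucc 15359, .ofNat 293760]), ((3, 7), .ofNat 76800, [.negSucc 37557631, .negSucc 1734114, .negSucc 671303,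 .ofNat 1550784, .ofNat 8495424, .ofNat 25708224, .ofNat 55420608, .ofNat 90271488, .ofNat 12150, .negSucc 599, .ofNat 0, .ofNat 19200]), ((3, 11), .ofNat 25600, [.ofNat 1284928, .ofNat 55585, .ofNat 21016, .negSucc 47935, .negSucc 258495, .negSucc 773695, .negSucc 1812031, .negSucc 3639551, .negSucc 4049, .ofNat 200, .ofNat 0, .negSucc 6399]), ((4, 8), .ofNat 25600, [.ofNat 11753488, .ofNat 551615, .ofNat 215016, .negSucc 520895, .negSucc 2895935, .negSucc 8872895, .negSucc 18973631, .negSucc 29720831, .ofNat 4050, .negSucc 199, .ofNat 0, .ofNat 6400]), ((5, 9), .ofNat 76800, [.negSucc 175547767, .negSucc 3345864, .negSucc 632375, .negSucc 222143, .negSucc 746303, .negSucc 1278143, .negSucc 9862847, .negSucc 42718847, .ofNat 5139330, .negSucc 316199, .ofNat 23040, .negSucc 416639])]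

theorem NUM_4_15 : NUM_stmt 4 15 3 :=
  NUM_of_certs 4 15 3 (by norm_num) NC_4_15_p NC_4_15_m
    (by decide +kernel) (by decide +kernel) (by decide +kernel)
    (by decide +kernel) (by decide +kernel) (by decide +kernel) rfl rfl

/-- certificate, `m = 4`, `j = 16`, symmetric part -/
def NC_4_16_p : NUM_Cert where
  tri := [(0, 10), (0, 11), (0, 12), (0, 13), (0, 14), (0, 15), (1, 10), (1, 11), (1, 12), (1, 13), (1, 14), (2, 11), (2, 12), (2, 13), (3, 10), (3, 11), (3, 12), (6, 8)]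
  fre := [(0, 0), (3, 11)]
  cols := [((0, 0), [.ofNat 0, .ofNat 0, .ofNat 0, .ofNat 0, .ofNat 0, .ofNat 0, .ofNat 0, .ofNat 0, .ofNat 0, .ofNat 0, .ofNat 0, .ofNat 0, .ofNat 0, .ofNat 0, .ofNat 0, .ofNat 0, .ofNat 0, .ofNat 0, .ofNat 2, .ofNat 0]), ((0, 4), [.ofNat 7150, .negSucc 3587, .ofNat 1326, .negSucc 339, .ofNat 54, .negSucc 3, .negSucc 82367, .ofNat 39936, .negSucc 13935, .ofNat 3200, .negSucc 383, .negSucc 194687, .ofNat 60840, .negSucc 10559, .negSucc 1281279, .ofNat 524160, .negSucc 123759, .ofNat 11042460, .ofNat 0, .ofNat 0]), ((0, 8), [.ofNat 7980, .negSucc 4311, .ofNat 1750, .negSucc 503, .ofNat 92, .negSucc 7, .negSucc 63615, .ofNat 34048, .negSucc 13439, .ofNat 3584, .negSucc 511, .negSucc 115583, .ofNat 42560, .negSucc 8959, .negSucc 432767, .ofNat 213248, .negSucc 62719, .ofNat 360360, .ofNat 0, .ofNat 0]), ((0, 12), [.ofNat 7942, .negSucc 4355, .ofNat 1819, .negSucc 555, .ofNat 114, .negSucc 11, .negSucc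 32031, .ofNat 17472, .negSucc 7263, .ofNat 2176, .negSucc 383, .negSucc 26207, .ofNat 10800, .negSucc 2879, .negSucc 32031, .ofNat 17472, .negSucc 6719, .ofNat 0, .ofNat 0, .ofNat 0]), ((1, 1), [.ofNat 6006, .negSucc 2729, .ofNat 910, .negSucc 209, .ofNat 30, .negSucc 1, .negSucc 80079, .ofNat 34944, .negSucc 10919, .ofNat 2240, .negSucc 239, .negSucc 196559, .ofNat 54600, .negSucc 8399, .negSucc 1681679, .ofNat 611520, .negSucc 127399, .ofNat 25765740, .ofNat 0, .ofNat 0]), ((1, 5), [.ofNat 3014, .negSucc 1365, .ofNat 455, .negSucc 104, .ofNat 15, .negSucc 0, .negSucc 32735, .ofNat 14568, .negSucc 4674, .ofNat 990, .negSucc 109, .negSucc 68249, .ofNat 20075, .negSucc 3299, .negSucc 451989, .ofNat 177170, .negSucc 40424, .ofNat 3232515, .ofNat 0, .ofNat 0]), ((1, 9), [.ofNat 3003, .negSucc 1364, .ofNat 455, .negSucc 104, .ofNat 15, .negSucc 0, .negSucc 21013, .ofNat 9534, .negSucc 3149, .ofNat 700, .negSucc 83, .negSucc 28349,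 .ofNat 9030, .negSucc 1679, .negSucc 104369, .ofNat 45570, .negSucc 12249, .ofNat 45045, .ofNat 0, .ofNat 0]), ((1, 13), [.ofNat 2717, .negSucc 1286, .ofNat 442, .negSucc 103, .ofNat 15, .negSucc 0, .negSucc 8722, .ofNat 4017, .negSucc 1351, .ofNat 314, .negSucc 41, .negSucc 4094, .ofNat 1365, .negSucc 299, .negSucc 3002, .ofNat 1365, .negSucc 454, .ofNat 0, .ofNat 0, .ofNat 0]), ((2, 2), [.ofNat 2002, .negSucc 727, .ofNat 182, .negSucc 27, .ofNat 2, .ofNat 0, .negSucc 28027, .ofNat 10192, .negSucc 2547, .ofNat 392, .negSucc 27, .negSucc 62243, .ofNat 14560, .negSucc 1819, .negSucc 644643, .ofNat 208936, .negSucc 38219, .ofNat 12024012, .ofNat 0, .ofNat 0]), ((2, 6), [.ofNat 1002, .negSucc 363, .ofNat 91, .negSucc 13, .ofNat 1, .ofNat 0, .negSucc 10023, .ofNat 3640, .negSucc 909, .ofNat 140, .negSucc 9, .negSucc 16127, .ofNat 3885, .negSucc 509, .negSucc 117543, .ofNat 40152, .negSucc 7979, .ofNat 717717, .ofNat 0, .ofNat 0]),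 ((2, 10), [.ofNat 1000, .negSucc 363, .ofNat 91, .negSucc 13, .ofNat 1, .ofNat 0, .negSucc 6003, .ofNat 2184, .negSucc 545, .ofNat 84, .negSucc 5, .negSucc 5453, .ofNat 1350, .negSucc 189, .negSucc 20005, .ofNat 7196, .negSucc 1609, .ofNat 3003, .ofNat 0, .ofNat 0]), ((3, 3), [.ofNat 572, .negSucc 155, .ofNat 26, .negSucc 1, .ofNat 0, .ofNat 0, .negSucc 7435, .ofNat 2028, .negSucc 337, .ofNat 26, .ofNat 0, .negSucc 12167, .ofNat 2028, .negSucc 155, .negSucc 160159, .ofNat 42042, .negSucc 6005, .ofNat 3680820, .ofNat 0, .ofNat 0]), ((3, 7), [.ofNat 286, .negSucc 77, .ofNat 13, .negSucc 0, .ofNat 0, .ofNat 0, .negSucc 2573, .ofNat 702, .negSucc 116, .ofNat 9, .ofNat 0, .negSucc 2807, .ofNat 468, .negSucc 35, .negSucc 23939, .ofNat 6426, .negSucc 965, .ofNat 120978, .ofNat 0, .ofNat 0]), ((3, 11), [.ofNat 275, .negSucc 76, .ofNat 13, .negSucc 0, .ofNat 0, .ofNat 0, .negSucc 1396, .ofNat 387, .negSucc 64, .ofNat 5, .ofNat 0, .negSucc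 776, .ofNat 130, .negSucc 9, .negSucc 2848, .ofNat 779, .negSucc 124, .ofNat 0, .ofNat 0, .ofNat 1]), ((4, 4), [.ofNat 132, .negSucc 23, .ofNat 2, .ofNat 0, .ofNat 0, .ofNat 0, .negSucc 1583, .ofNat 288, .negSucc 23, .ofNat 0, .ofNat 0, .negSucc 1583, .ofNat 132, .ofNat 0, .negSucc 29039, .ofNat 5280, .negSucc 439, .ofNat 849420, .ofNat 0, .ofNat 0]), ((4, 8), [.ofNat 66, .negSucc 11, .ofNat 1, .ofNat 0, .ofNat 0, .ofNat 0, .negSucc 527, .ofNat 96, .negSucc 7, .ofNat 0, .ofNat 0, .negSucc 335, .ofNat 28, .ofNat 0, .negSucc 3695, .ofNat 672, .negSucc 55, .ofNat 14718, .ofNat 0, .ofNat 0]), ((5, 5), [.ofNat 22, .negSucc 1, .ofNat 0, .ofNat 0, .ofNat 0, .ofNat 0, .negSucc 241, .ofNat 22, .ofNat 0, .ofNat 0, .ofNat 0, .negSucc 109, .ofNat 0, .ofNat 0, .negSucc 3629, .ofNat 330, .ofNat 0, .ofNat 148830, .ofNat 0, .ofNat 0]), ((5, 9), [.ofNat 11, .negSucc 0, .ofNat 0, .ofNat 0, .ofNat 0, .ofNat 0, .negSucc 76, .ofNat 7, .ofNat 0,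 .ofNat 0, .ofNat 0, .negSucc 20, .ofNat 0, .ofNat 0, .negSucc 384, .ofNat 35, .ofNat 0, .ofNat 1155, .ofNat 0, .ofNat 0]), ((6, 6), [.ofNat 2, .ofNat 0, .ofNat 0, .ofNat 0, .ofNat 0, .ofNat 0, .negSucc 19, .ofNat 0, .ofNat 0, .ofNat 0, .ofNat 0, .ofNat 0, .ofNat 0, .ofNat 0, .negSucc 239, .ofNat 0, .ofNat 0, .ofNat 18810, .ofNat 0, .ofNat 0]), ((7, 7), [.ofNat 0, .ofNat 0, .ofNat 0, .ofNat 0, .ofNat 0, .ofNat 0, .ofNat 0, .ofNat 0, .ofNat 0, .ofNat 0, .ofNat 0, .ofNat 0, .ofNat 0, .ofNat 0, .ofNat 0, .ofNat 0, .ofNat 0, .ofNat 1512, .ofNat 0, .ofNat 0])]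
  tg := [((0, 0), .ofNat 1, [.ofNat 0, .ofNat 0, .ofNat 0, .ofNat 0, .ofNat 0, .ofNat 0, .ofNat 0, .ofNat 0, .ofNat 0, .ofNat 0, .ofNat 0, .ofNat 0, .ofNat 0, .ofNat 0, .ofNat 0, .ofNat 0, .ofNat 0, .ofNat 0, .ofNat 1, .ofNat 0]), ((0, 4), .ofNat 336, [.ofNat 19420, .ofNat 293238, .ofNat 976176, .ofNat 142402, .negSucc 2484019, .negSucc 357223, .ofNat 3430, .ofNat 106708, .ofNat 489390, .ofNat 486312, .negSucc 386630, .ofNat 27768, .ofNat 167784, .ofNat 229367, .negSucc 123, .ofNat 3776, .ofNat 28938, .ofNat 0, .ofNat 0, .negSucc 54599]), ((0, 8), .ofNat 2688, [.ofNat 11740, .ofNat 161634, .ofNat 911872, .ofNat 3295838, .ofNat 9201332, .ofNat 17028648, .ofNat 1750, .ofNat 36824, .ofNat 219330, .ofNat 689224, .ofNat 1393847, .ofNat 6044, .ofNat 42088, .ofNat 101569, .negSucc 47, .ofNat 512, .ofNat 4870, .ofNat 0, .ofNat 0, .negSucc 23399]), ((0, 12), .ofNat 14784, [.negSucc 699, .negSucc 5697, .negSucc 94911, .negSucc 662557,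 .negSucc 2065811, .negSucc 3292295, .negSucc 69, .ofNat 2552, .ofNat 1470, .negSucc 99207, .negSucc 326598, .ofNat 1492, .ofNat 7832, .ofNat 735, .ofNat 0, .ofNat 288, .ofNat 1946, .ofNat 0, .ofNat 0, .negSucc 1399]), ((1, 1), .ofNat 60060, [.negSucc 9883199, .negSucc 141803023, .negSucc 601114879, .negSucc 1189930663, .negSucc 2445139815, .negSucc 5660938499, .negSucc 1642115, .negSucc 43758109, .negSucc 217878135, .negSucc 383310951, .negSucc 376020098, .negSucc 10054288, .negSucc 62685699, .negSucc 101684248, .ofNat 54483, .negSucc 1239659, .negSucc 9890449, .ofNat 0, .ofNat 0, .ofNat 23165280]), ((1, 5), .ofNat 210, [.negSucc 20299, .negSucc 324785, .negSucc 807679, .ofNat 2230514, .ofNat 10471916, .ofNat 12608400, .negSucc 3793, .negSucc 135109, .negSucc 583463, .negSucc 221077, .ofNat 1631539, .negSucc 38120, .negSucc 226219, .negSucc 274350, .ofNat 147, .negSucc 5479, .negSucc 41089, .ofNat 0, .ofNat 0, .ofNat 68460]),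 ((1, 9), .ofNat 168, [.negSucc 739, .negSucc 10141, .negSucc 69247, .negSucc 308073, .negSucc 919211, .negSucc 1651999, .negSucc 97, .negSucc 1659, .negSucc 12453, .negSucc 56151, .negSucc 137318, .negSucc 121, .negSucc 1263, .negSucc 5720, .ofNat 2, .ofNat 8, .negSucc 13, .ofNat 0, .ofNat 0, .ofNat 1512]), ((1, 13), .ofNat 2184, [.ofNat 140, .ofNat 1386, .ofNat 19328, .ofNat 126958, .ofNat 393988, .ofNat 636720, .ofNat 14, .negSucc 359, .ofNat 378, .ofNat 19568, .ofNat 61971, .negSucc 243, .negSucc 1239, .ofNat 189, .ofNat 0, .negSucc 47, .negSucc 321, .ofNat 0, .ofNat 0, .ofNat 168]), ((2, 2), .ofNat 6720, [.ofNat 2823900, .ofNat 40074210, .ofNat 179925888, .ofNat 423023094, .ofNat 975352308, .ofNat 2061186960, .ofNat 460950, .ofNat 11768360, .ofNat 60179370, .ofNat 119683080, .ofNat 149629655, .ofNat 2588260, .ofNat 16334952, .ofNat 28046737, .negSucc 14879, .ofNat 307160, .ofNat 2490894, .ofNat 0, .ofNat 0, .negSucc 6343679]),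 ((2, 6), .ofNat 1120, [.ofNat 49700, .ofNat 1021790, .negSucc 487295, .negSucc 33515637, .negSucc 118357875, .negSucc 174040719, .ofNat 11690, .ofNat 613880, .ofNat 2302230, .negSucc 2837639, .negSucc 18502574, .ofNat 202540, .ofNat 1165176, .ofNat 1091671, .negSucc 559, .ofNat 31880, .ofNat 231042, .ofNat 0, .ofNat 0, .negSucc 310239]), ((2, 10), .ofNat 960, [.ofNat 1300, .ofNat 18150, .ofNat 160384, .ofNat 855842, .ofNat 2691164, .ofNat 4789680, .ofNat 130, .ofNat 1080, .ofNat 18750, .ofNat 138520, .ofNat 394485, .negSucc 499, .negSucc 1543, .ofNat 8451, .ofNat 0, .negSucc 119, .negSucc 757, .ofNat 0, .ofNat 0, .negSucc 3839]), ((3, 3), .ofNat 312, [.negSucc 151299, .negSucc 2111053, .negSucc 10449535, .negSucc 30639257, .negSucc 78921835, .negSucc 153710479, .negSucc 23865, .negSucc 562839, .negSucc 3038981, .negSucc 7389895, .negSucc 12044668, .negSucc 112443, .negSucc 730375, .negSucc 1412058, .ofNat 728, .negSucc 12159,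 .negSucc 102745, .ofNat 0, .ofNat 0, .ofNat 317744]), ((3, 7), .ofNat 168, [.ofNat 3300, .negSucc 1121, .ofNat 721536, .ofNat 6343818, .ofNat 20452236, .ofNat 32143440, .ofNat 42, .negSucc 45639, .negSucc 113705, .ofNat 843792, .ofNat 3201653, .negSucc 19891, .negSucc 109271, .negSucc 55708, .ofNat 24, .negSucc 3519, .negSucc 24485, .ofNat 0, .ofNat 0, .ofNat 23352]), ((3, 11), .ofNat 1, [.ofNat 0, .ofNat 0, .ofNat 0, .ofNat 0, .ofNat 0, .ofNat 0, .ofNat 0, .ofNat 0, .ofNat 0, .ofNat 0, .ofNat 0, .ofNat 0, .ofNat 0, .ofNat 0, .ofNat 0, .ofNat 0, .ofNat 0, .ofNat 0, .ofNat 0, .ofNat 1]), ((4, 4), .ofNat 24, [.ofNat 7600, .ofNat 103620, .ofNat 598912, .ofNat 2240576, .ofNat 6324752, .ofNat 11624340, .ofNat 1120, .ofNat 22640, .ofNat 137880, .ofNat 456880, .ofNat 955955, .ofNat 3470, .ofNat 24712, .ofNat 63583, .negSucc 29, .ofNat 260, .ofNat 2638, .ofNat 0, .ofNat 0, .negSucc 14579]), ((4, 8), .ofNat 224, [.negSucc 7699, .negSucc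 66989, .negSucc 982207, .negSucc 6652593, .negSucc 20829787, .negSucc 33750359, .negSucc 769, .ofNat 22640, .ofNat 3570, .negSucc 987799, .negSucc 3240964, .ofNat 14060, .ofNat 73608, .ofNat 4557, .ofNat 0, .ofNat 2720, .ofNat 18382, .ofNat 0, .ofNat 0, .negSucc 10919]), ((5, 5), .ofNat 880, [.negSucc 114899, .negSucc 1509221, .negSucc 11026559, .negSucc 52381601, .negSucc 158527067, .negSucc 281804879, .negSucc 14657, .negSucc 195359, .negSucc 1698317, .negSucc 9107255, .negSucc 23611496, .ofNat 3668, .negSucc 64679, .negSucc 763886, .ofNat 264, .ofNat 4920, .ofNat 24270, .ofNat 0, .ofNat 0, .ofNat 196560]), ((5, 9), .ofNat 336, [.ofNat 6580, .ofNat 65142, .ofNat 797824, .ofNat 5079698, .ofNat 15863036, .ofNat 26129040, .ofNat 658, .negSucc 12239, .ofNat 20622, .ofNat 765160, .ofNat 2437617, .negSucc 9163, .negSucc 46807, .ofNat 6615, .ofNat 0, .negSucc 1799, .negSucc 12109, .ofNat 0, .ofNat 0, .ofNat 4368]), ((6, 6), .ofNat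 960, [.ofNat 38060, .ofNat 451770, .ofNat 4472192, .ofNat 25902526, .ofNat 82019812, .ofNat 143708880, .ofNat 3710, .negSucc 14679, .ofNat 320610, .ofNat 3935720, .ofNat 11996075, .negSucc 30539, .negSucc 143031, .ofNat 129373, .ofNat 0, .negSucc 6279, .negSucc 41673, .ofNat 0, .ofNat 0, .negSucc 49919]), ((7, 7), .ofNat 24192, [.ofNat 701580, .ofNat 6208026, .ofNat 8012928, .negSucc 86888801, .negSucc 428581691, .negSucc 883214639, .ofNat 147774, .ofNat 2395800, .ofNat 9316098, .ofNat 2696232, .negSucc 42111068, .ofNat 462396, .ofNat 2884200, .ofNat 4104837, .negSucc 3959, .ofNat 35640, .ofNat 387750, .ofNat 32, .ofNat 0, .ofNat 164736])]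

/-- certificate, `m = 4`, `j = 16`, antisymmetric part -/
def NC_4_16_m : NUM_Cert where
  tri := [(0, 12), (0, 13), (0, 14), (0, 15), (0, 16), (1, 12), (1, 13), (1, 14), (1, 15), (2, 10), (2, 12), (2, 13), (2, 14), (3, 10), (3, 12), (3, 13), (4, 12)]
  fre := []
  cols := [((0, 4), [.negSucc 2313, .ofNat 780, .negSucc 185, .ofNat 28, .negSucc 1, .ofNat 29744, .negSucc 10239, .ofNat 2496, .negSucc 383, .negSucc 631487, .negSucc 179399, .ofNat 63360, .negSucc 15839, .ofNat 2242240, .ofNat 677040, .negSucc 246399, .negSucc 1798159]), ((0, 8), [.negSucc 1889, .ofNat 616, .negSucc 147, .ofNat 24, .negSucc 1, .ofNat 15680, .negSucc 5375, .ofNat 1408, .negSucc 255, .negSucc 227583, .negSucc 59359, .ofNat 22400, .negSucc 6719, .ofNat 464128, .ofNat 141120, .negSucc 62719, .negSucc 254799]), ((0, 12), [.negSucc 1820, .ofNat 564, .negSucc 125, .ofNat 20, .negSucc 1, .ofNat 7296, .negSucc 2303, .ofNat 576, .negSucc 127, .negSucc 48047,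 .negSucc 11039, .ofNat 3840, .negSucc 1439, .ofNat 32032, .ofNat 7840, .negSucc 4479, .negSucc 3639]), ((0, 16), [.negSucc 3639, .ofNat 1120, .negSucc 239, .ofNat 32, .negSucc 1, .ofNat 0, .ofNat 0, .ofNat 0, .ofNat 0, .ofNat 0, .ofNat 0, .ofNat 0, .ofNat 0, .ofNat 0, .ofNat 0, .ofNat 0, .ofNat 0]), ((1, 5), [.negSucc 454, .ofNat 105, .negSucc 14, .ofNat 1, .ofNat 0, .ofNat 5335, .negSucc 1319, .ofNat 220, .negSucc 21, .negSucc 170939, .negSucc 29974, .ofNat 8250, .negSucc 1649, .ofNat 539000, .ofNat 109725, .negSucc 34649, .negSucc 300299]), ((1, 9), [.negSucc 454, .ofNat 105, .negSucc 14, .ofNat 1, .ofNat 0, .ofNat 3220, .negSucc 769, .ofNat 126, .negSucc 13, .negSucc 63167, .negSucc 10079, .ofNat 2730, .negSucc 629, .ofNat 105840, .ofNat 19600, .negSucc 7349, .negSucc 31849]), ((1, 13), [.negSucc 467, .ofNat 106, .negSucc 14, .ofNat 1, .ofNat 0, .ofNat 1378, .negSucc 315, .ofNat 48, .negSucc 5, .negSucc 9008, .negSucc 1364,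 .ofNat 330, .negSucc 89, .ofNat 3003, .ofNat 455, .negSucc 209, .ofNat 0]), ((2, 6), [.negSucc 90, .ofNat 14, .negSucc 0, .ofNat 0, .ofNat 0, .ofNat 910, .negSucc 139, .ofNat 10, .ofNat 0, .negSucc 45163, .negSucc 4304, .ofNat 750, .negSucc 89, .ofNat 122696, .ofNat 13860, .negSucc 3359, .negSucc 38219]), ((2, 10), [.negSucc 90, .ofNat 14, .negSucc 0, .ofNat 0, .ofNat 0, .ofNat 546, .negSucc 83, .ofNat 6, .ofNat 0, .negSucc 15015, .negSucc 1379, .ofNat 230, .negSucc 29, .ofNat 20034, .ofNat 2030, .negSucc 559, .negSucc 2729]), ((2, 14), [.negSucc 181, .ofNat 28, .negSucc 1, .ofNat 0, .ofNat 0, .ofNat 364, .negSucc 55, .ofNat 4, .ofNat 0, .negSucc 2001, .negSucc 181, .ofNat 28, .negSucc 1, .ofNat 0, .ofNat 0, .ofNat 0, .ofNat 0]), ((3, 7), [.negSucc 12, .ofNat 1, .ofNat 0, .ofNat 0, .ofNat 0, .ofNat 117, .negSucc 8, .ofNat 0, .ofNat 0, .negSucc 10295, .negSucc 467, .ofNat 36, .ofNat 0, .ofNat 24108, .ofNat 1218, .negSucc 167,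 .negSucc 3275]), ((3, 11), [.negSucc 12, .ofNat 1, .ofNat 0, .ofNat 0, .ofNat 0, .ofNat 65, .negSucc 4, .ofNat 0, .ofNat 0, .negSucc 2892, .negSucc 129, .ofNat 10, .ofNat 0, .ofNat 2871, .ofNat 135, .negSucc 19, .negSucc 129]), ((4, 8), [.negSucc 0, .ofNat 0, .ofNat 0, .ofNat 0, .ofNat 0, .ofNat 8, .ofNat 0, .ofNat 0, .ofNat 0, .negSucc 1847, .negSucc 27, .ofNat 0, .ofNat 0, .ofNat 3696, .ofNat 56, .ofNat 0, .negSucc 139]), ((4, 12), [.negSucc 1, .ofNat 0, .ofNat 0, .ofNat 0, .ofNat 0, .ofNat 8, .ofNat 0, .ofNat 0, .ofNat 0, .negSucc 791, .negSucc 11, .ofNat 0, .ofNat 0, .ofNat 528, .ofNat 8, .ofNat 0, .negSucc 1]), ((5, 9), [.ofNat 0, .ofNat 0, .ofNat 0, .ofNat 0, .ofNat 0, .ofNat 0, .ofNat 0, .ofNat 0, .ofNat 0, .negSucc 230, .ofNat 0, .ofNat 0, .ofNat 0, .ofNat 385, .ofNat 0, .ofNat 0, .ofNat 0]), ((6, 10), [.ofNat 0, .ofNat 0, .ofNat 0, .ofNat 0, .ofNat 0, .ofNat 0, .ofNat 0, .ofNat 0, .ofNat 0, .negSucc 29, .ofNat 0, .ofNat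 0, .ofNat 0, .ofNat 40, .ofNat 0, .ofNat 0, .ofNat 0])]
  tg := [((0, 4), .ofNat 26880, [.negSucc 197551860472511999, .negSucc 597931150452556499, .negSucc 1705383116378987899, .negSucc 15765681870946526309, .negSucc 22901994163125672959, .negSucc 157893906803006219, .negSucc 575120092009733199, .negSucc 71660270329709949, .negSucc 1166125168931185854, .ofNat 0, .negSucc 89545094677963223, .negSucc 495864626014454075, .negSucc 258583837999937119, .ofNat 0, .negSucc 25819224065329111, .negSucc 110836365299444631, .negSucc 30094933049983]), ((0, 8), .ofNat 53760, [.ofNat 366724971733114624, .ofNat 1109968206442587052, .ofNat 3165784283946392324, .ofNat 29266589667377946330, .ofNat 42514067658060195840, .ofNat 293106014646821460, .ofNat 1067622947113493680, .ofNat 133026388859191170, .ofNat 2164733951837862755, .ofNat 0, .ofNat 166226844111062680, .ofNat 920497233099472124, .ofNat 480021552084366496, .ofNat 0, .ofNat 47929461119127744,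 .ofNat 205750848583352358, .ofNat 55866664306112]), ((0, 12), .ofNat 13440, [.ofNat 7534931781912192, .ofNat 22806013662246636, .ofNat 65045934840589252, .ofNat 601327353277188570, .ofNat 873517279342233600, .ofNat 6022316437287780, .ofNat 21935964811139120, .ofNat 2733232919754050, .ofNat 44477807376989630, .ofNat 0, .ofNat 3415387626264960, .ofNat 18913039447698096, .ofNat 9862785268504864, .ofNat 0, .ofNat 984784914345412, .ofNat 4227469432527947, .ofNat 1147867030816]), ((0, 16), .ofNat 26880, [.negSucc 1760977915739391, .negSucc 5329960186460595, .negSucc 15201790550773531, .negSucc 140535338593647989, .negSucc 204148449177811199, .negSucc 1407466789960139, .negSucc 5126622338583759, .negSucc 638779878787469, .negSucc 10394843483449564, .ofNat 0, .negSucc 798205260196071, .negSucc 4420138861356355, .negSucc 2305017158511711, .ofNat 0, .negSucc 230152645851167, .negSucc 987995714574881, .negSucc 268266329407]), ((1, 5),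 .ofNat 1680, [.ofNat 116076328237967104, .ofNat 351328771683689332, .ofNat 1002038704747273724, .ofNat 9263504071134749190, .ofNat 13456615318249036800, .ofNat 92774347500468060, .ofNat 337925587826394400, .ofNat 42105708549210390, .ofNat 685184779083579845, .ofNat 0, .ofNat 52614365549776360, .ofNat 291357140110860332, .ofNat 151937128736330848, .ofNat 0, .ofNat 15170703633407664, .ofNat 65124561664109394, .ofNat 17682998877632]), ((1, 9), .ofNat 3360, [.negSucc 122977333942702847, .negSucc 372216078289895363, .negSucc 1061612219199411627, .negSucc 9814240775259945149, .negSucc 14256642166851947519, .negSucc 98289996651957179, .negSucc 358016044207695439, .negSucc 44608990133982469, .negSucc 725920596119119204, .ofNat 0, .negSucc 55742411055019751, .negSucc 308678994760655987, .negSucc 160970141824250079, .ofNat 0, .negSucc 16072636989744783, .negSucc 68996367211239565, .negSucc 18734293986495]), ((1, 13), .ofNat 1120, [.negSucc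 661323852397823, .negSucc 2001632031909371, .negSucc 5708933996555283, .negSucc 52777136320758049, .negSucc 76666628050703359, .negSucc 528565038402659, .negSucc 1925269819931919, .negSucc 239889646811849, .negSucc 3903716154577714, .ofNat 0, .negSucc 299760816396119, .negSucc 1659954525153787, .negSucc 865634266894111, .ofNat 0, .negSucc 86432335711663, .negSucc 371035392480505, .negSucc 100745682751]), ((2, 6), .ofNat 1120, [.negSucc 291355842383027967, .negSucc 881848106165469843, .negSucc 2515153910825835227, .negSucc 23251735069797629749, .negSucc 33776598133214059519, .negSucc 232867015849434539, .negSucc 848205622959519439, .negSucc 105686873195458309, .negSucc 1719838932953251004, .ofNat 0, .negSucc 132063987799277703, .negSucc 731317110731491419, .negSucc 381367767263264895, .ofNat 0, .negSucc 38079022689219279, .negSucc 163465039009271409, .negSucc 44384975921087]), ((2, 10), .ofNat 840, [.ofNat 64034102592970496,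 .ofNat 193812321180034148, .ofNat 552779797534351516, .ofNat 5110259594405490150, .ofNat 7423410947978480640, .ofNat 51179445249696540, .ofNat 186418385971890800, .ofNat 23227830358857180, .ofNat 377985702209941210, .ofNat 0, .ofNat 29024984961373160, .ofNat 160728662633134714, .ofNat 83816897354282096, .ofNat 0, .ofNat 8368996569891696, .ofNat 35926298895090033, .ofNat 9754917143488]), ((2, 14), .ofNat 112, [.negSucc 2093430527, .negSucc 6336196883, .negSucc 18071719067, .negSucc 167066808149, .negSucc 242689336319, .negSucc 1673180459, .negSucc 6094470479, .negSucc 759376589, .negSucc 12357273704, .ofNat 0, .negSucc 948897287, .negSucc 5254610627, .negSucc 2740178415, .ofNat 0, .negSucc 273602831, .negSucc 1174518005, .negSucc 318911]), ((3, 7), .ofNat 672, [.ofNat 351640471599192832, .ofNat 1064311878541978276, .ofNat 3035566062837185612, .ofNat 28062766885224627150, .ofNat 40765336296108641280, .ofNat 281049683450463900,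 .ofNat 1023708406981111600, .ofNat 127554613726878870, .ofNat 2075691939148514645, .ofNat 0, .ofNat 159389434483893544, .ofNat 882634415712562772, .ofNat 460276823132591584, .ofNat 0, .ofNat 45957978350304144, .ofNat 197287697878512150, .ofNat 53568700518080]), ((3, 11), .ofNat 160, [.negSucc 7477888933521663, .negSucc 22633361803229451, .negSucc 64553507635282243, .negSucc 596775032693599449, .negSucc 866904357662786559, .negSucc 5976724772567219, .negSucc 21769899616226159, .negSucc 2712541107865329, .negSucc 44141090217975414, .ofNat 0, .negSucc 3389531594093751, .negSucc 18769859167763419, .negSucc 9788119514247327, .ofNat 0, .negSucc 977329646243119, .negSucc 4195465573051009, .negSucc 1139177157183]), ((4, 8), .ofNat 224, [.negSucc 138112932453963711, .negSucc 418027065890599395, .negSucc 1192271551364381291, .negSucc 11022141477810694349, .negSucc 16011297313767060479, .negSucc 110387168377044299, .negSucc 402079343776702479,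 .negSucc 50099300770664319, .negSucc 815264236460108644, .ofNat 0, .negSucc 62602982241027479, .negSucc 346670071520681061, .negSucc 180781755565068447, .ofNat 0, .negSucc 18050798108505587, .negSucc 77488186633285301, .negSucc 21040042070959]), ((4, 12), .ofNat 192, [.negSucc 25961787087841023, .negSucc 78578663770185291, .negSucc 224117319192893923, .negSucc 2071887731399733449, .negSucc 3009724610681564159, .negSucc 20750034857084819, .negSucc 75580889711613999, .negSucc 9417419185661969, .negSucc 153249345671438764, .ofNat 0, .negSucc 11767799489354439, .negSucc 65165328305114995, .negSucc 33982461772092063, .ofNat 0, .negSucc 3393099899712023, .negSucc 14565846712915187, .negSucc 3955003219903]), ((5, 9), .ofNat 32340, [.ofNat 1401714724698376704, .ofNat 4242576586893798672, .ofNat 12100420718526661184, .ofNat 111864238436184001200, .ofNat 162499418465226332160, .ofNat 1120324625529055380, .ofNat 4080722396188780860, .ofNat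 508460187800221020, .ofNat 8274155536676290065, .ofNat 560, .ofNat 635360646236503944, .ofNat 3518371054976542364, .ofNat 1834762641186070912, .ofNat 420, .ofNat 183198409097406816, .ofNat 786431294047256703, .ofNat 213536388337536]), ((6, 10), .ofNat 4200, [.ofNat 28828128341806823680, .ofNat 87254232400476505540, .ofNat 248861252095315929180, .ofNat 2300636902556563117350, .ofNat 3342016751645522380800, .ofNat 23040966553384445820, .ofNat 83925485615538997360, .ofNat 10457160287657342070, .ofNat 170169017655252274925, .negSucc 1399, .ofNat 13067037058425933304, .ofNat 72359982055925180748, .ofNat 37734334929320092008, .negSucc 839, .ofNat 3767719034691954672, .ofNat 16174005935196067146, .ofNat 4391659943511104])]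

theorem NUM_4_16 : NUM_stmt 4 16 1 :=
  NUM_of_certs 4 16 1 (by norm_num) NC_4_16_p NC_4_16_m
    (by decide +kernel) (by decide +kernel) (by decide +kernel)
    (by decide +kernel) (by decide +kernel) (by decide +kernel) rfl rfl

/-- certificate, `m = 4`, `j = 17`, symmetric part -/
def NC_4_17_p : NUM_Cert where
  tri := [(0, 12), (0, 13), (0, 14), (0, 15), (0, 16), (1, 11), (1, 12), (1, 13), (1, 14), (1, 15), (2, 10), (2, 11), (2, 12), (2, 13), (2, 14), (3, 12), (3, 13), (4, 12), (5, 9), (5, 11)]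
  fre := [(0, 0), (0, 16), (2, 14), (4, 12), (5, 9)]
  cols := [((0, 0), [.ofNat 0, .ofNat 0, .ofNat 0, .ofNat 0, .ofNat 0, .ofNat 0, .ofNat 0, .ofNat 0, .ofNat 0, .ofNat 0, .ofNat 0, .ofNat 0, .ofNat 0, .ofNat 0, .ofNat 0, .ofNat 0, .ofNat 0, .ofNat 0, .ofNat 0, .ofNat 0, .ofNat 2, .ofNat 0, .ofNat 0, .ofNat 0, .ofNat 0]), ((0, 4), [.ofNat 4914, .negSucc 1665, .ofNat 394, .negSucc 57, .ofNat 4, .ofNat 133042, .negSucc 58785, .ofNat 18802, .negSucc 3977, .ofNat 442, .ofNat 1322464, .negSucc 742559, .ofNat 309400, .negSucc 88535, .ofNat 14144, .negSucc 903447, .ofNat 195160, .ofNat 1386112, .ofNat 27431404, .ofNat 5631080, .ofNat 0, .ofNat 0, .ofNat 0, .ofNat 0, .ofNat 0]), ((0, 8), [.ofNat 6062, .negSucc 2253, .ofNat 596, .negSucc 99, .ofNat 8, .ofNat 109956, .negSucc 53549, .ofNat 19278, .negSucc 4691, .ofNat 612, .ofNat 695232, .negSucc 434111, .ofNat 205632, .negSucc 68543, .ofNat 13056, .negSucc 434111, .ofNat 114240, .ofNat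 479808, .ofNat 3013556, .ofNat 1039584, .ofNat 0, .ofNat 0, .ofNat 0, .ofNat 0, .ofNat 0]), ((0, 12), [.ofNat 6187, .negSucc 2374, .ofNat 670, .negSucc 125, .ofNat 12, .ofNat 61880, .negSucc 30922, .ofNat 11815, .negSucc 3229, .ofNat 510, .ofNat 194480, .negSucc 123759, .ofNat 61744, .negSucc 23119, .ofNat 5440, .negSucc 61199, .ofNat 20400, .ofNat 28560, .ofNat 24310, .ofNat 12376, .ofNat 0, .ofNat 0, .ofNat 0, .ofNat 0, .ofNat 0]), ((0, 16), [.ofNat 4368, .negSucc 1819, .ofNat 560, .negSucc 119, .ofNat 16, .ofNat 12376, .negSucc 6187, .ofNat 2380, .negSucc 679, .ofNat 136, .ofNat 0, .ofNat 0, .ofNat 0, .ofNat 0, .ofNat 0, .ofNat 0, .ofNat 0, .ofNat 0, .ofNat 0, .ofNat 0, .ofNat 0, .ofNat 1, .ofNat 0, .ofNat 0, .ofNat 0]), ((1, 1), [.ofNat 3640, .negSucc 1119, .ofNat 240, .negSucc 31, .ofNat 2, .ofNat 123760, .negSucc 49503, .ofNat 14280, .negSucc 2719, .ofNat 272, .ofNat 1555840, .negSucc 792063, .ofNat 297024, .negSucc 76159,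 .ofNat 10880, .negSucc 990079, .ofNat 190400, .ofNat 1732640, .ofNat 53093040, .ofNat 9009728, .ofNat 0, .ofNat 0, .ofNat 0, .ofNat 0, .ofNat 0]), ((1, 5), [.ofNat 1821, .negSucc 559, .ofNat 120, .negSucc 15, .ofNat 1, .ofNat 51684, .negSucc 21063, .ofNat 6225, .negSucc 1219, .ofNat 126, .ofNat 523776, .negSucc 274943, .ofNat 107568, .negSucc 29039, .ofNat 4400, .negSucc 305919, .ofNat 63800, .ofNat 459200, .ofNat 9107670, .ofNat 1822184, .ofNat 0, .ofNat 0, .ofNat 0, .ofNat 0, .ofNat 0]), ((1, 9), [.ofNat 1820, .negSucc 559, .ofNat 120, .negSucc 15, .ofNat 1, .ofNat 34916, .negSucc 14503, .ofNat 4410, .negSucc 903, .ofNat 100, .ofNat 224096, .negSucc 121855, .ofNat 50064, .negSucc 14559, .ofNat 2464, .negSucc 95199, .ofNat 22960, .ofNat 96040, .ofNat 638820, .ofNat 193648, .ofNat 0, .ofNat 0, .ofNat 0, .ofNat 0, .ofNat 0]), ((1, 13), [.ofNat 1807, .negSucc 558, .ofNat 120, .negSucc 15, .ofNat 1, .ofNat 17394, .negSucc 7266,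 .ofNat 2239, .negSucc 475, .ofNat 58, .ofNat 48048, .negSucc 26207, .ofNat 10920, .negSucc 3343, .ofNat 656, .negSucc 7279, .ofNat 2120, .ofNat 1820, .ofNat 0, .ofNat 0, .ofNat 0, .ofNat 0, .ofNat 0, .ofNat 0, .ofNat 0]), ((2, 2), [.ofNat 910, .negSucc 209, .ofNat 30, .negSucc 1, .ofNat 0, .ofNat 40950, .negSucc 13649, .ofNat 3150, .negSucc 449, .ofNat 30, .ofNat 617760, .negSucc 276639, .ofNat 89544, .negSucc 19319, .ofNat 2240, .negSucc 323959, .ofNat 54600, .ofNat 611520, .ofNat 24204180, .ofNat 3643640, .ofNat 0, .ofNat 0, .ofNat 0, .ofNat 0, .ofNat 0]), ((2, 6), [.ofNat 455, .negSucc 104, .ofNat 15, .negSucc 0, .ofNat 0, .ofNat 15030, .negSucc 5004, .ofNat 1155, .negSucc 164, .ofNat 11, .ofNat 165990, .negSucc 74717, .ofNat 24563, .negSucc 5444, .ofNat 660, .negSucc 68144, .ofNat 12375, .ofNat 101640, .ofNat 2402400, .ofNat 423423, .ofNat 0, .ofNat 0, .ofNat 0, .ofNat 0, .ofNat 0]), ((2, 10), [.ofNat 455, .negSucc 104,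 .ofNat 15, .negSucc 0, .ofNat 0, .ofNat 9555, .negSucc 3184, .ofNat 735, .negSucc 104, .ofNat 7, .ofNat 63062, .negSucc 28657, .ofNat 9534, .negSucc 2169, .ofNat 280, .negSucc 15609, .ofNat 3150, .ofNat 13720, .ofNat 105105, .ofNat 25480, .ofNat 0, .ofNat 0, .ofNat 0, .ofNat 0, .ofNat 0]), ((2, 14), [.ofNat 364, .negSucc 90, .ofNat 14, .negSucc 0, .ofNat 0, .ofNat 3367, .negSucc 1182, .ofNat 287, .negSucc 42, .ofNat 3, .ofNat 8008, .negSucc 3730, .ofNat 1274, .negSucc 300, .ofNat 44, .negSucc 454, .ofNat 105, .ofNat 0, .ofNat 0, .ofNat 0, .ofNat 0, .ofNat 0, .ofNat 1, .ofNat 0, .ofNat 0]), ((3, 3), [.ofNat 182, .negSucc 27, .ofNat 2, .ofNat 0, .ofNat 0, .ofNat 10192, .negSucc 2547, .ofNat 392, .negSucc 27, .ofNat 0, .ofNat 182182, .negSucc 66247, .ofNat 16562, .negSucc 2547, .ofNat 182, .negSucc 62243, .ofNat 8190, .ofNat 126126, .ofNat 7469462, .ofNat 910910, .ofNat 0, .ofNat 0, .ofNat 0, .ofNat 0, .ofNat 0]), ((3, 7), [.ofNat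 91, .negSucc 13, .ofNat 1, .ofNat 0, .ofNat 0, .ofNat 3640, .negSucc 909, .ofNat 140, .negSucc 9, .ofNat 0, .ofNat 45136, .negSucc 16379, .ofNat 4095, .negSucc 629, .ofNat 45, .negSucc 10667, .ofNat 1470, .ofNat 15582, .ofNat 520429, .ofNat 72618, .ofNat 0, .ofNat 0, .ofNat 0, .ofNat 0, .ofNat 0]), ((3, 11), [.ofNat 91, .negSucc 13, .ofNat 1, .ofNat 0, .ofNat 0, .ofNat 2181, .negSucc 545, .ofNat 84, .negSucc 5, .ofNat 0, .ofNat 14982, .negSucc 5456, .ofNat 1365, .negSucc 209, .ofNat 15, .negSucc 1813, .ofNat 265, .ofNat 1281, .ofNat 12012, .ofNat 2093, .ofNat 0, .ofNat 0, .ofNat 0, .ofNat 0, .ofNat 0]), ((4, 4), [.ofNat 26, .negSucc 1, .ofNat 0, .ofNat 0, .ofNat 0, .ofNat 2028, .negSucc 337, .ofNat 26, .ofNat 0, .ofNat 0, .ofNat 44616, .negSucc 12167, .ofNat 2028, .negSucc 155, .ofNat 0, .negSucc 7435, .ofNat 572, .ofNat 16016, .ofNat 1806948, .ofNat 156156, .ofNat 0, .ofNat 0, .ofNat 0, .ofNat 0, .ofNat 0]), ((4, 8), [.ofNat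 13, .negSucc 0, .ofNat 0, .ofNat 0, .ofNat 0, .ofNat 702, .negSucc 116, .ofNat 9, .ofNat 0, .ofNat 0, .ofNat 10296, .negSucc 2807, .ofNat 468, .negSucc 35, .ofNat 0, .negSucc 1091, .ofNat 84, .ofNat 1512, .ofNat 91260, .ofNat 8736, .ofNat 0, .ofNat 0, .ofNat 0, .ofNat 0, .ofNat 0]), ((4, 12), [.ofNat 12, .negSucc 0, .ofNat 0, .ofNat 0, .ofNat 0, .ofNat 342, .negSucc 60, .ofNat 5, .ofNat 0, .ofNat 0, .ofNat 2464, .negSucc 707, .ofNat 124, .negSucc 9, .ofNat 0, .negSucc 125, .ofNat 10, .ofNat 64, .ofNat 715, .ofNat 78, .ofNat 0, .ofNat 0, .ofNat 0, .ofNat 1, .ofNat 0]), ((5, 5), [.ofNat 2, .ofNat 0, .ofNat 0, .ofNat 0, .ofNat 0, .ofNat 288, .negSucc 23, .ofNat 0, .ofNat 0, .ofNat 0, .ofNat 8712, .negSucc 1583, .ofNat 132, .ofNat 0, .ofNat 0, .negSucc 439, .ofNat 0, .ofNat 990, .ofNat 347490, .ofNat 17160, .ofNat 0, .ofNat 0, .ofNat 0, .ofNat 0, .ofNat 0]), ((5, 9), [.ofNat 1, .ofNat 0, .ofNat 0, .ofNat 0, .ofNat 0, .ofNat 96,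 .negSucc 7, .ofNat 0, .ofNat 0, .ofNat 0, .ofNat 1848, .negSucc 335, .ofNat 28, .ofNat 0, .ofNat 0, .negSucc 55, .ofNat 0, .ofNat 70, .ofNat 12319, .ofNat 644, .ofNat 0, .ofNat 0, .ofNat 0, .ofNat 0, .ofNat 1]), ((6, 6), [.ofNat 0, .ofNat 0, .ofNat 0, .ofNat 0, .ofNat 0, .ofNat 22, .ofNat 0, .ofNat 0, .ofNat 0, .ofNat 0, .ofNat 1210, .negSucc 109, .ofNat 0, .ofNat 0, .ofNat 0, .ofNat 0, .ofNat 0, .ofNat 0, .ofNat 50820, .ofNat 924, .ofNat 0, .ofNat 0, .ofNat 0, .ofNat 0, .ofNat 0]), ((6, 10), [.ofNat 0, .ofNat 0, .ofNat 0, .ofNat 0, .ofNat 0, .ofNat 7, .ofNat 0, .ofNat 0, .ofNat 0, .ofNat 0, .ofNat 216, .negSucc 20, .ofNat 0, .ofNat 0, .ofNat 0, .ofNat 0, .ofNat 0, .ofNat 0, .ofNat 1095, .ofNat 21, .ofNat 0, .ofNat 0, .ofNat 0, .ofNat 0, .ofNat 0]), ((7, 7), [.ofNat 0, .ofNat 0, .ofNat 0, .ofNat 0, .ofNat 0, .ofNat 0, .ofNat 0, .ofNat 0, .ofNat 0, .ofNat 0, .ofNat 90, .ofNat 0, .ofNat 0, .ofNat 0, .ofNat 0, .ofNat 0, .ofNat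 0, .ofNat 0, .ofNat 5040, .ofNat 0, .ofNat 0, .ofNat 0, .ofNat 0, .ofNat 0, .ofNat 0]), ((8, 8), [.ofNat 0, .ofNat 0, .ofNat 0, .ofNat 0, .ofNat 0, .ofNat 0, .ofNat 0, .ofNat 0, .ofNat 0, .ofNat 0, .ofNat 0, .ofNat 0, .ofNat 0, .ofNat 0, .ofNat 0, .ofNat 0, .ofNat 0, .ofNat 0, .ofNat 252, .ofNat 0, .ofNat 0, .ofNat 0, .ofNat 0, .ofNat 0, .ofNat 0])]
  tg := [((0, 0), .ofNat 1, [.ofNat 0, .ofNat 0, .ofNat 0, .ofNat 0, .ofNat 0, .ofNat 0, .ofNat 0, .ofNat 0, .ofNat 0, .ofNat 0, .ofNat 0, .ofNat 0, .ofNat 0, .ofNat 0, .ofNat 0, .ofNat 0, .ofNat 0, .ofNat 0, .ofNat 0, .ofNat 0, .ofNat 1, .ofNat 0, .ofNat 0, .ofNat 0, .ofNat 0]), ((0, 4), .ofNat 13440, [.ofNat 35066336, .ofNat 265045430, .ofNat 914525794, .ofNat 1889241725, .ofNat 2458808576, .negSucc 563879, .ofNat 6279778, .ofNat 65882976, .ofNat 245739991, .ofNat 415498090, .ofNat 0, .negSucc 198119, .ofNat 539880, .ofNat 9050810, .ofNat 36411200, .ofNat 315530, .ofNat 425016,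 .ofNat 172800, .ofNat 0, .negSucc 10159, .ofNat 0, .ofNat 4078368000, .negSucc 25511359, .negSucc 718143, .negSucc 263871]), ((0, 8), .ofNat 40320, [.ofNat 6104288, .ofNat 45911450, .ofNat 156593262, .ofNat 321026475, .ofNat 417579008, .negSucc 93239, .ofNat 1149774, .ofNat 11695968, .ofNat 42634753, .ofNat 71080870, .ofNat 0, .negSucc 32759, .ofNat 118440, .ofNat 1717830, .ofNat 6487600, .ofNat 56390, .ofNat 102888, .ofNat 28640, .ofNat 0, .negSucc 1679, .ofNat 0, .ofNat 801964800, .negSucc 4520879, .negSucc 123551, .negSucc 43775]), ((0, 12), .ofNat 1330560, [.ofNat 1295072, .ofNat 10302110, .ofNat 38119578, .ofNat 90362265, .ofNat 139822592, .negSucc 13319, .ofNat 290586, .ofNat 2751072, .ofNat 9976267, .ofNat 17874850, .ofNat 0, .negSucc 4679, .ofNat 45480, .ofNat 484530, .ofNat 1570240, .ofNat 11810, .ofNat 44952, .ofNat 4160, .ofNat 0, .negSucc 239, .ofNat 0, .ofNat 120637440, .negSucc 813119, .negSucc 29567, .negSucc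 12863]), ((0, 16), .ofNat 1, [.ofNat 0, .ofNat 0, .ofNat 0, .ofNat 0, .ofNat 0, .ofNat 0, .ofNat 0, .ofNat 0, .ofNat 0, .ofNat 0, .ofNat 0, .ofNat 0, .ofNat 0, .ofNat 0, .ofNat 0, .ofNat 0, .ofNat 0, .ofNat 0, .ofNat 0, .ofNat 0, .ofNat 0, .ofNat 1, .ofNat 0, .ofNat 0, .ofNat 0]), ((1, 1), .ofNat 21621600, [.negSucc 138100680943, .negSucc 1041791815609, .negSucc 3580156253645, .negSucc 7357870090514, .negSucc 9523492480543, .ofNat 2212119000, .negSucc 24886103981, .negSucc 259993189583, .negSucc 965475656088, .negSucc 1625204747109, .ofNat 0, .ofNat 777231000, .negSucc 2190989639, .negSucc 36047199269, .negSucc 143720427759, .negSucc 1248281749, .negSucc 1755628823, .negSucc 677796079, .ofNat 0, .ofNat 39858000, .ofNat 0, .negSucc 16602564686399, .ofNat 100685193840, .ofNat 2818346256, .ofNat 1019146608]), ((1, 5), .ofNat 5040, [.negSucc 25764079, .negSucc 195041209, .negSucc 675023789, .negSucc 1401358034, .negSucc 1835368639,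 .ofNat 412920, .negSucc 4617149, .negSucc 48440159, .negSucc 180980904, .negSucc 306954549, .ofNat 0, .ofNat 145080, .negSucc 398519, .negSucc 6654869, .negSucc 26780319, .negSucc 231541, .negSucc 313271, .negSucc 126607, .ofNat 0, .ofNat 7440, .ofNat 0, .negSucc 2936082239, .ofNat 18738720, .ofNat 529200, .ofNat 196848]), ((1, 9), .ofNat 151200, [.negSucc 24150415, .negSucc 181345189, .negSucc 614239793, .negSucc 1268853284, .negSucc 1693548415, .ofNat 333000, .negSucc 4915697, .negSucc 47848175, .negSucc 169322670, .negSucc 279325689, .ofNat 0, .ofNat 117000, .negSucc 627959, .negSucc 7717529, .negSucc 26719839, .negSucc 230569, .negSucc 593255, .negSucc 102799, .ofNat 0, .ofNat 6000, .ofNat 0, .negSucc 3562574399, .ofNat 18516960, .ofNat 476784, .ofNat 171792]), ((1, 13), .ofNat 2600, [.negSucc 1167, .negSucc 10269, .negSucc 41761, .negSucc 114554, .negSucc 203167, .ofNat 0, .negSucc 353, .negSucc 3047, .negSucc 10632, .negSucc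 20369, .ofNat 0, .ofNat 0, .negSucc 79, .negSucc 689, .negSucc 1819, .negSucc 9, .negSucc 87, .ofNat 0, .ofNat 0, .ofNat 0, .ofNat 0, .negSucc 95199, .negSucc 419, .ofNat 32, .ofNat 16]), ((2, 2), .ofNat 168000, [.ofNat 2650694752, .ofNat 19985694430, .ofNat 68600093618, .ofNat 140838531645, .ofNat 182174058752, .negSucc 42290999, .ofNat 479694906, .ofNat 4998360672, .ofNat 18523379287, .ofNat 31136965930, .ofNat 0, .negSucc 14858999, .ofNat 42928120, .ofNat 697026010, .ofNat 2763850880, .ofNat 24014890, .ofNat 34739032, .ofNat 12960000, .ofNat 0, .negSucc 761999, .ofNat 0, .ofNat 322433260800, .negSucc 1934493119, .negSucc 54051647, .negSucc 19449023]), ((2, 6), .ofNat 36000, [.ofNat 148063712, .ofNat 1125057830, .ofNat 3920055258, .ofNat 8241131745, .ofNat 10981171712, .negSucc 2330999, .ofNat 26808786, .ofNat 279851232, .ofNat 1046592547, .ofNat 1786681330, .ofNat 0, .negSucc 818999, .ofNat 2415720, .ofNat 38889810, .ofNat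 154959280, .ofNat 1331090, .ofNat 1930392, .ofNat 716000, .ofNat 0, .negSucc 41999, .ofNat 0, .ofNat 16258636800, .negSucc 107904719, .negSucc 3062687, .negSucc 1172543]), ((2, 10), .ofNat 504000, [.ofNat 33826976, .ofNat 253889090, .ofNat 847880334, .ofNat 1805767635, .ofNat 2613502976, .negSucc 332999, .ofNat 8227878, .ofNat 73035936, .ofNat 240634681, .ofNat 387809590, .ofNat 0, .negSucc 116999, .ofNat 1459560, .ofNat 14250630, .ofNat 41453440, .ofNat 346070, .ofNat 1520616, .ofNat 104000, .ofNat 0, .negSucc 5999, .ofNat 0, .ofNat 6484262400, .negSucc 29050559, .negSucc 532223, .negSucc 251711]), ((2, 14), .ofNat 1, [.ofNat 0, .ofNat 0, .ofNat 0, .ofNat 0, .ofNat 0, .ofNat 0, .ofNat 0, .ofNat 0, .ofNat 0, .ofNat 0, .ofNat 0, .ofNat 0, .ofNat 0, .ofNat 0, .ofNat 0, .ofNat 0, .ofNat 0, .ofNat 0, .ofNat 0, .ofNat 0, .ofNat 0, .ofNat 0, .ofNat 1, .ofNat 0, .ofNat 0]), ((3, 3), .ofNat 151200, [.negSucc 2618768863, .negSucc 19728655309,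 .negSucc 67574031125, .negSucc 138578899514, .negSucc 179326052863, .ofNat 41292000, .negSucc 479367641, .negSucc 4960747103, .negSucc 18295203408, .negSucc 30670933509, .ofNat 0, .ofNat 14508000, .negSucc 44766839, .negSucc 702345569, .negSucc 2745604959, .negSucc 23858329, .negSucc 37092623, .negSucc 12660799, .ofNat 0, .ofNat 744000, .ofNat 0, .negSucc 326433945599, .ofNat 1915247040, .ofNat 53348736, .ofNat 19008768]), ((3, 7), .ofNat 25200, [.negSucc 45310431, .negSucc 347525229, .negSucc 1229765837, .negSucc 2670061694, .negSucc 3721618431, .ofNat 666000, .negSucc 8561945, .negSucc 87430751, .negSucc 325639516, .negSucc 563759629, .ofNat 0, .ofNat 234000, .negSucc 898919, .negSucc 12775409, .negSucc 48668479, .negSucc 409689, .negSucc 766511, .negSucc 205599, .ofNat 0, .ofNat 12000, .ofNat 0, .negSucc 4674700799, .ofNat 33430320, .ofNat 953568, .ofNat 393984]), ((3, 11), .ofNat 2400, [.negSucc 25887, .negSucc 193569,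 .negSucc 610441, .negSucc 1412004, .negSucc 2533887, .ofNat 0, .negSucc 9013, .negSucc 68767, .negSucc 189902, .negSucc 282169, .ofNat 0, .ofNat 0, .negSucc 2279, .negSucc 18189, .negSucc 40319, .negSucc 309, .negSucc 2607, .ofNat 0, .ofNat 0, .ofNat 0, .ofNat 0, .negSucc 9139199, .ofNat 32480, .negSucc 1087, .ofNat 256]), ((4, 4), .ofNat 187200, [.ofNat 1995273632, .ofNat 15019342130, .ofNat 51274576038, .ofNat 105293512695, .ofNat 137182341632, .negSucc 30302999, .ofNat 377249046, .ofNat 3831790752, .ofNat 13961402917, .ofNat 23293165630, .ofNat 0, .negSucc 10646999, .ofNat 39310920, .ofNat 565349310, .ofNat 2127077680, .ofNat 18428990, .ofNat 34338312, .ofNat 9308000, .ofNat 0, .negSucc 545999, .ofNat 0, .ofNat 262057420800, .negSucc 1464991919, .negSucc 40668767, .negSucc 14203583]), ((4, 8), .ofNat 67200, [.ofNat 28261472, .ofNat 221997230, .ofNat 813925098, .ofNat 1904457345, .ofNat 2925289472, .negSucc 332999, .ofNat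 5973066, .ofNat 57712992, .ofNat 211400707, .ofNat 377463730, .ofNat 0, .negSucc 116999, .ofNat 841320, .ofNat 9563010, .ofNat 32529280, .ofNat 258290, .ofNat 798552, .ofNat 104000, .ofNat 0, .negSucc 5999, .ofNat 0, .ofNat 2664076800, .negSucc 21880319, .negSucc 620927, .negSucc 329663]), ((4, 12), .ofNat 1, [.ofNat 0, .ofNat 0, .ofNat 0, .ofNat 0, .ofNat 0, .ofNat 0, .ofNat 0, .ofNat 0, .ofNat 0, .ofNat 0, .ofNat 0, .ofNat 0, .ofNat 0, .ofNat 0, .ofNat 0, .ofNat 0, .ofNat 0, .ofNat 0, .ofNat 0, .ofNat 0, .ofNat 0, .ofNat 0, .ofNat 0, .ofNat 1, .ofNat 0]), ((5, 5), .ofNat 240, [.negSucc 992671, .negSucc 7484749, .negSucc 25477577, .negSucc 53077184, .negSucc 71332351, .ofNat 13320, .negSucc 204905, .negSucc 1984991, .negSucc 7018626, .negSucc 11630289, .ofNat 0, .ofNat 4680, .negSucc 26999, .negSucc 324929, .negSucc 1111599, .negSucc 9457, .negSucc 25799, .negSucc 4111, .ofNat 0, .ofNat 240, .ofNat 0, .negSucc 146227199, .ofNat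 730800, .ofNat 20448, .ofNat 6816]), ((5, 9), .ofNat 1, [.ofNat 0, .ofNat 0, .ofNat 0, .ofNat 0, .ofNat 0, .ofNat 0, .ofNat 0, .ofNat 0, .ofNat 0, .ofNat 0, .ofNat 0, .ofNat 0, .ofNat 0, .ofNat 0, .ofNat 0, .ofNat 0, .ofNat 0, .ofNat 0, .ofNat 0, .ofNat 0, .ofNat 0, .ofNat 0, .ofNat 0, .ofNat 0, .ofNat 1]), ((6, 6), .ofNat 198000, [.ofNat 213487808, .ofNat 1636484720, .ofNat 5629391922, .ofNat 12494167455, .ofNat 18405271808, .negSucc 1858499, .ofNat 53352024, .ofNat 472543488, .ofNat 1573522573, .ofNat 2621627470, .ofNat 0, .negSucc 652499, .ofNat 9807480, .ofNat 94046040, .ofNat 269355520, .ofNat 2135060, .ofNat 10399428, .ofNat 572000, .ofNat 0, .negSucc 32999, .ofNat 0, .ofNat 40187347200, .negSucc 150630479, .negSucc 4653791, .negSucc 1329695]), ((6, 10), .ofNat 42000, [.negSucc 2311135, .negSucc 21101989, .negSucc 94347273, .negSucc 300634984, .negSucc 611803135, .ofNat 15000, .negSucc 499857, .negSucc 4873695, .negSucc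 18216890, .negSucc 41559489, .ofNat 0, .ofNat 3000, .negSucc 110159, .negSucc 1042429, .negSucc 2667839, .negSucc 17269, .negSucc 150175, .ofNat 0, .ofNat 0, .ofNat 0, .ofNat 0, .negSucc 178214399, .ofNat 2526160, .ofNat 64064, .negSucc 2367]), ((7, 7), .ofNat 63000, [.negSucc 14673151, .negSucc 121246579, .negSucc 455260217, .negSucc 1188746894, .negSucc 1948093951, .ofNat 7500, .negSucc 4625555, .negSucc 38155071, .negSucc 124068636, .negSucc 231349229, .ofNat 1400, .ofNat 16900, .negSucc 1001619, .negSucc 8732309, .negSucc 21339079, .negSucc 143989, .negSucc 1223231, .negSucc 399, .ofNat 0, .ofNat 0, .ofNat 0, .negSucc 3920716799, .ofNat 6126120, .ofNat 391248, .ofNat 49824]), ((8, 8), .ofNat 2116800, [.negSucc 472916191, .negSucc 4417461229, .negSucc 17498905577, .negSucc 35282386544, .negSucc 37949902591, .ofNat 51597000, .ofNat 371685174, .ofNat 783101088, .negSucc 630508626, .negSucc 3583642929, .negSucc 940799, .ofNat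 8488200, .ofNat 141726480, .ofNat 546812490, .ofNat 577596320, .ofNat 19373410, .ofNat 107922528, .negSucc 927199, .ofNat 16800, .ofNat 90000, .ofNat 0, .ofNat 54890035200, .ofNat 23543520, .negSucc 7399391, .ofNat 273504])]

/-- certificate, `m = 4`, `j = 17`, antisymmetric part -/
def NC_4_17_m : NUM_Cert where
  tri := [(0, 1), (0, 3), (0, 6), (0, 7), (0, 13), (0, 14), (0, 15), (0, 16), (0, 17), (1, 2), (1, 4), (1, 12), (1, 14), (1, 15), (1, 16), (2, 4)]
  fre := []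
  cols := [((0, 4), [.ofNat 8, .ofNat 398, .negSucc 10737, .ofNat 18018, .ofNat 3094, .negSucc 965, .ofNat 214, .negSucc 29, .ofNat 2, .ofNat 442, .ofNat 18802, .ofNat 102102, .ofNat 13702, .negSucc 3093, .ofNat 442, .negSucc 88535]), ((0, 8), [.ofNat 16, .ofNat 652, .negSucc 12319, .ofNat 19420, .ofNat 2506, .negSucc 763, .ofNat 172, .negSucc 25, .ofNat 2, .ofNat 612, .ofNat 19278, .ofNat 57834, .ofNat 7548, .negSucc 1835, .ofNat 306, .negSucc 68543]), ((0, 12), [.ofNat 24, .ofNat 890, .negSucc 13299, .ofNat 20240, .ofNat 2385, .negSucc 689, .ofNat 146, .negSucc 21, .ofNat 2, .ofNat 510, .ofNat 11815, .ofNat 30957, .ofNat 3570, .negSucc 849, .ofNat 170, .negSucc 23119]), ((0, 16), [.ofNat 32, .ofNat 1240, .negSucc 20383, .ofNat 30888, .ofNat 2940, .negSucc 799, .ofNat 152, .negSucc 17, .ofNat 2, .ofNat 136, .ofNat 2380, .ofNat 6188, .ofNat 680, .negSucc 135, .ofNat 34, .ofNat 0]), ((1, 5), [.ofNat 8, .ofNat 350, .negSucc 7083,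 .ofNat 10648, .ofNat 560, .negSucc 119, .ofNat 16, .negSucc 0, .ofNat 0, .ofNat 394, .ofNat 13925, .ofNat 22616, .ofNat 1660, .negSucc 257, .ofNat 24, .negSucc 60719]), ((1, 9), [.ofNat 16, .ofNat 588, .negSucc 8063, .ofNat 11468, .ofNat 560, .negSucc 119, .ofNat 16, .negSucc 0, .ofNat 0, .ofNat 548, .ofNat 13566, .ofNat 14616, .ofNat 1016, .negSucc 155, .ofNat 16, .negSucc 42559]), ((1, 13), [.ofNat 24, .ofNat 842, .negSucc 9723, .ofNat 13156, .ofNat 561, .negSucc 119, .ofNat 16, .negSucc 0, .ofNat 0, .ofNat 462, .ofNat 7979, .ofNat 7293, .ofNat 484, .negSucc 69, .ofNat 8, .negSucc 10799]), ((2, 6), [.ofNat 8, .ofNat 310, .negSucc 4543, .ofNat 6105, .ofNat 105, .negSucc 14, .ofNat 1, .ofNat 0, .ofNat 0, .ofNat 354, .ofNat 10095, .ofNat 5005, .ofNat 165, .negSucc 10, .ofNat 0, .negSucc 40439]), ((2, 10), [.ofNat 16, .ofNat 540, .negSucc 5207, .ofNat 6554, .ofNat 105, .negSucc 14, .ofNat 1, .ofNat 0, .ofNat 0, .ofNat 500, .ofNat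 9450, .ofNat 3185, .ofNat 105, .negSucc 6, .ofNat 0, .negSucc 25199]), ((2, 14), [.ofNat 24, .ofNat 818, .negSucc 8007, .ofNat 9867, .ofNat 119, .negSucc 15, .ofNat 1, .ofNat 0, .ofNat 0, .ofNat 438, .ofNat 6097, .ofNat 1547, .ofNat 47, .negSucc 2, .ofNat 0, .negSucc 5095]), ((3, 7), [.ofNat 8, .ofNat 278, .negSucc 2799, .ofNat 3313, .ofNat 14, .negSucc 0, .ofNat 0, .ofNat 0, .ofNat 0, .ofNat 322, .ofNat 7175, .ofNat 910, .ofNat 10, .ofNat 0, .ofNat 0, .negSucc 26039]), ((3, 11), [.ofNat 16, .ofNat 508, .negSucc 3463, .ofNat 3762, .ofNat 14, .negSucc 0, .ofNat 0, .ofNat 0, .ofNat 0, .ofNat 468, .ofNat 6786, .ofNat 546, .ofNat 6, .ofNat 0, .ofNat 0, .negSucc 14639]), ((4, 8), [.ofNat 8, .ofNat 254, .negSucc 1659, .ofNat 1688, .ofNat 1, .ofNat 0, .ofNat 0, .ofNat 0, .ofNat 0, .ofNat 298, .ofNat 5069, .ofNat 117, .ofNat 0, .ofNat 0, .ofNat 0, .negSucc 16303]), ((4, 12), [.ofNat 16, .ofNat 492, .negSucc 2639, .ofNat 2508, .ofNat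 1, .ofNat 0, .ofNat 0, .ofNat 0, .ofNat 0, .ofNat 452, .ofNat 5478, .ofNat 69, .ofNat 0, .ofNat 0, .ofNat 0, .negSucc 9663]), ((5, 9), [.ofNat 8, .ofNat 238, .negSucc 979, .ofNat 820, .ofNat 0, .ofNat 0, .ofNat 0, .ofNat 0, .ofNat 0, .ofNat 282, .ofNat 3705, .ofNat 8, .ofNat 0, .ofNat 0, .ofNat 0, .negSucc 10319]), ((6, 10), [.ofNat 8, .ofNat 230, .negSucc 663, .ofNat 449, .ofNat 0, .ofNat 0, .ofNat 0, .ofNat 0, .ofNat 0, .ofNat 274, .ofNat 3035, .ofNat 0, .ofNat 0, .ofNat 0, .ofNat 0, .negSucc 7479])]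
  tg := [((0, 4), .ofNat 96000, [.negSucc 171056118, .ofNat 6515474, .ofNat 293548, .ofNat 113856, .negSucc 410111, .negSucc 2621439, .negSucc 9080575, .negSucc 24584191, .negSucc 33399935, .ofNat 88490, .negSucc 3479, .ofNat 2560, .negSucc 85759, .negSucc 491519, .negSucc 1573759, .ofNat 0]), ((0, 8), .ofNat 4608000, [.ofNat 7181336241, .negSucc 273794685, .negSucc 12361651, .negSucc 4793663, .ofNat 16670208, .ofNat 105492480, .ofNat 361945344, .ofNat 968552448, .ofNat 1300631424, .negSucc 3451109, .ofNat 135720, .negSucc 99839, .ofNat 3344640, .ofNat 19169280, .ofNat 61376640, .ofNat 0]), ((0, 12), .ofNat 6144000, [.ofNat 1492071547, .negSucc 56459561, .negSucc 2506043, .negSucc 973247, .ofNat 4348416, .ofNat 29286400, .ofNat 106251008, .ofNat 303374336, .ofNat 433707648, .negSucc 1150369, .ofNat 45240, .negSucc 33279, .ofNat 1114880, .ofNat 6389760, .ofNat 20458880, .ofNat 0]), ((0, 16), .ofNat 18432000, [.negSucc 358784756,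 .ofNat 13586422, .ofNat 603524, .ofNat 234048, .negSucc 984575, .negSucc 6512639, .negSucc 23063807, .negSucc 64167935, .negSucc 81644927, .ofNat 265470, .negSucc 10439, .ofNat 7680, .negSucc 257279, .negSucc 1474559, .negSucc 4721279, .ofNat 0]), ((1, 5), .ofNat 230400, [.ofNat 3902824341, .negSucc 148617285, .negSucc 6691795, .negSucc 2595647, .ofNat 9436800, .ofNat 60446976, .ofNat 209659008, .ofNat 567638016, .ofNat 770075520, .negSucc 2059709, .ofNat 81000, .negSucc 59519, .ofNat 1991040, .ofNat 11393280, .ofNat 36401280, .ofNat 0]), ((1, 9), .ofNat 1228800, [.negSucc 9908895658, .ofNat 377831114, .ofNat 17063164, .ofNat 6616512, .negSucc 22817279, .negSucc 143704063, .negSucc 489079551, .negSucc 1285218303, .negSucc 1677793919, .ofNat 4714690, .negSucc 185399, .ofNat 135680, .negSucc 4514559, .negSucc 25681919, .negSucc 81243519, .ofNat 0]), ((1, 13), .ofNat 3686400, [.negSucc 3437366498, .ofNat 129841754, .ofNat 5741404,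 .ofNat 2231232, .negSucc 10682879, .negSucc 73519103, .negSucc 274428671, .negSucc 828678143, .negSucc 1295253119, .ofNat 2883090, .negSucc 113399, .ofNat 84480, .negSucc 2876159, .negSucc 16773119, .negSucc 55413119, .ofNat 0]), ((2, 6), .ofNat 344064000, [.negSucc 23371925583572, .ofNat 889438239158, .ofNat 39993730756, .ofNat 15515260992, .negSucc 57689716223, .negSucc 371781795839, .negSucc 1297458124031, .negSucc 3544231993343, .negSucc 4861227891071, .ofNat 12895768830, .negSucc 507257159, .ofNat 372395520, .negSucc 12453745919, .negSucc 71327907839, .negSucc 228403297919, .negSucc 23999]), ((2, 10), .ofNat 516096000, [.ofNat 10735402369797, .negSucc 408797938261, .negSucc 18406210563, .negSucc 7139323967, .ofNat 25835582976, .ofNat 164942561280, .ofNat 570042832128, .ofNat 1541603352576, .ofNat 2108758124928, .negSucc 5667027869, .ofNat 223210440, .negSucc 162516479, .ofNat 5405594880, .ofNat 30867701760, .ofNat 98629668480,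 .ofNat 72000]), ((2, 14), .ofNat 1032192000, [.ofNat 827218852677, .negSucc 31255395541, .negSucc 1383281283, .negSucc 537488447, .ofNat 2582877696, .ofNat 17798430720, .ofNat 66548606208, .ofNat 202107150336, .ofNat 316539285888, .negSucc 683072669, .ofNat 26506440, .negSucc 20590079, .ofNat 702670080, .ofNat 4108124160, .ofNat 13631882880, .negSucc 71999]), ((3, 7), .ofNat 206438400, [.ofNat 30551037068853, .negSucc 1161885512437, .negSucc 52170647619, .negSucc 20243259455, .ofNat 77089076736, .ofNat 499850674176, .ofNat 1754206008576, .ofNat 4822206799872, .ofNat 6649448147328, .negSucc 17630848829, .ofNat 693255240, .negSucc 508300799, .ofNat 16999691520, .ofNat 97407959040, .ofNat 312154066560, .negSucc 14399]), ((3, 11), .ofNat 34406400, [.negSucc 979068770840, .ofNat 37234848686, .ofNat 1671855892, .ofNat 648669504, .negSucc 2444348927, .negSucc 15770173439, .negSucc 55152969983, .negSucc 152519958527, .negSucc 215540621183,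 .ofNat 564793110, .negSucc 22182119, .ofNat 16074240, .negSucc 534186239, .negSucc 3060449279, .negSucc 9860135039, .ofNat 4800]), ((4, 8), .ofNat 1228800, [.negSucc 240783458690, .ofNat 9150812186, .ofNat 410293468, .ofNat 159253440, .negSucc 623940095, .negSucc 4073754623, .negSucc 14379651839, .negSucc 39714201599, .negSucc 54840010367, .ofNat 145555410, .negSucc 5723639, .ofNat 4200960, .negSucc 140624639, .negSucc 805908479, .negSucc 2581487999, .ofNat 0]), ((4, 12), .ofNat 3686400, [.ofNat 51269207949, .negSucc 1948422853, .negSucc 87351651, .negSucc 33898559, .ofNat 129836544, .ofNat 840769536, .ofNat 2953340160, .ofNat 8238489600, .ofNat 11805370752, .negSucc 30990989, .ofNat 1217160, .negSucc 867839, .ofNat 28796160, .ofNat 165150720, .ofNat 533827200, .ofNat 0]), ((5, 9), .ofNat 147456, [.ofNat 23715763911, .negSucc 900677905, .negSucc 40330155, .negSucc 15661247, .ofNat 63306240, .ofNat 416280576, .ofNat 1477494528,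 .ofNat 4093059072, .ofNat 5641071744, .negSucc 14987369, .ofNat 589464, .negSucc 434687, .ofNat 14571264, .ofNat 83496960, .ofNat 267090816, .ofNat 0]), ((6, 10), .ofNat 22937600, [.negSucc 1372920397428, .ofNat 52114661494, .ofNat 2331486276, .ofNat 905758784, .negSucc 3745527295, .negSucc 24748982271, .negSucc 88149316863, .negSucc 244461887487, .negSucc 335906003327, .ofNat 895481790, .negSucc 35243079, .ofNat 26037760, .negSucc 873698559, .negSucc 5004984319, .negSucc 15985925759, .negSucc 4799])]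

theorem NUM_4_17 : NUM_stmt 4 17 4 :=
  NUM_of_certs 4 17 4 (by norm_num) NC_4_17_p NC_4_17_m
    (by decide +kernel) (by decide +kernel) (by decide +kernel)
    (by decide +kernel) (by decide +kernel) (by decide +kernel) rfl rfl

end Pool.Agent.OD
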