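import Pool.Agent.helper21.OD.NUMG

/-!
# Project OD: certificates of the period relations
-/

namespace Pool.Agent.OD

set_option maxRecDepth 100000

/-- certificate, `m = 4`, `j = 18`, symmetric part -/
def NC_4_18_p : NUM_Cert where
  tri := [(0, 12), (0, 13), (0, 14), (0, 15), (0, 16), (0, 17), (1, 11), (1, 12), (1, 13), (1, 14), (1, 15), (1, 16), (2, 12), (2, 13), (2, 14), (2, 15), (3, 12), (3, 13), (3, 14), (4, 10), (4, 12), (4, 13), (5, 12)]
  fre := [(0, 0), (0, 16)]
  cols := [((0, 0), [.ofNat 0, .ofNat 0, .ofNat 0, .ofNat 0, .ofNat 0, .ofNat 0, .ofNat 0, .ofNat 0, .ofNat 0, .ofNat 0, .ofNat 0, .ofNat 0, .ofNat 0, .ofNat 0, .ofNat 0, .ofNat 0, .ofNat 0, .ofNat 0, .ofNat 0, .ofNat 0, .ofNat 0, .ofNat 0, .ofNat 0, .ofNat 2, .ofNat 0]), ((0, 4), [.ofNat 15652, .negSucc 6579, .ofNat 2060, .negSucc 451, .ofNat 62, .negSucc 3, .ofNat 390312, .negSucc 207479, .ofNat 84168, .negSucc 24839, .ofNat 4872, .negSucc 503, .ofNat 1243788, .negSucc 475523, .ofNat 125460, .negSucc 18563, .negSucc 4381103, .ofNat 1496544, .negSucc 297839,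 .ofNat 37631880, .ofNat 9653280, .negSucc 2484719, .negSucc 11955215, .ofNat 0, .ofNat 0]), ((0, 8), [.ofNat 18354, .negSucc 8315, .ofNat 2850, .negSucc 695, .ofNat 108, .negSucc 7, .ofNat 316080, .negSucc 181859, .ofNat 81144, .negSucc 26819, .ofNat 6000, .negSucc 719, .ofNat 803250, .negSucc 347003, .ofNat 105570, .negSucc 18359, .negSucc 2056319, .ofNat 822528, .negSucc 195839, .ofNat 9054540, .ofNat 3255840, .negSucc 1028159, .negSucc 2878847, .ofNat 0, .ofNat 0]), ((0, 12), [.ofNat 18563, .negSucc 8561, .ofNat 3045, .negSucc 795, .ofNat 138, .negSucc 11, .ofNat 190944, .negSucc 111365, .ofNat 51300, .negSucc 18089, .ofNat 4536, .negSucc 647, .ofNat 278307, .negSucc 127601, .ofNat 43605, .negSucc 9179, .negSucc 370463, .ofNat 166464, .negSucc 48959, .ofNat 656370, .ofNat 275400, .negSucc 110159, .negSucc 102815, .ofNat 0, .ofNat 0]), ((0, 16), [.ofNat 16744, .negSucc 8007, .ofNat 2940, .negSucc 799, .ofNat 152, .negSucc 15, .ofNat 63648, .negSucc 37127, .ofNat 17136, .negSucc 6119, .ofNat 1632, .negSucc 287, .ofNat 18564, .negSucc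 8567, .ofNat 3060, .negSucc 815, .ofNat 0, .ofNat 0, .ofNat 0, .ofNat 0, .ofNat 0, .ofNat 0, .ofNat 0, .ofNat 0, .ofNat 1]), ((1, 1), [.ofNat 12376, .negSucc 4759, .ofNat 1360, .negSucc 271, .ofNat 34, .negSucc 1, .ofNat 381888, .negSucc 185639, .ofNat 68544, .negSucc 18359, .ofNat 3264, .negSucc 305, .ofNat 1262352, .negSucc 436967, .ofNat 104040, .negSucc 13871, .negSucc 5049407, .ofNat 1553664, .negSucc 277439, .ofNat 59510880, .ofNat 12623520, .negSucc 2913119, .negSucc 17672927, .ofNat 0, .ofNat 0]), ((1, 5), [.ofNat 6201, .negSucc 2380, .ofNat 680, .negSucc 135, .ofNat 17, .negSucc 0, .ofNat 160498, .negSucc 78948, .ofNat 29670, .negSucc 8124, .ofNat 1482, .negSucc 142, .ofNat 455260, .negSucc 163896, .ofNat 40885, .negSucc 5745, .negSucc 1545231, .ofNat 506328, .negSucc 97239, .ofNat 13710840, .ofNat 3288480, .negSucc 828919, .negSucc 3947943, .ofNat 0, .ofNat 0]), ((1, 9), [.ofNat 6188, .negSucc 2379, .ofNat 680, .negSucc 135, .ofNat 17, .negSucc 0, .ofNat 111348, .negSucc 55607, .ofNat 21294, .negSucc 5993, .ofNat 1140,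 .negSucc 116, .ofNat 221340, .negSucc 83537, .ofNat 22338, .negSucc 3467, .negSucc 508367, .ofNat 182784, .negSucc 39983, .ofNat 2444328, .ofNat 722568, .negSucc 214199, .negSucc 579767, .ofNat 0, .ofNat 0]), ((1, 13), [.ofNat 6175, .negSucc 2378, .ofNat 680, .negSucc 135, .ofNat 17, .negSucc 0, .ofNat 61802, .negSucc 30926, .ofNat 11899, .negSucc 3394, .ofNat 670, .negSucc 74, .ofNat 61880, .negSucc 23782, .ofNat 6715, .negSucc 1189, .negSucc 61879, .ofNat 23664, .negSucc 6119, .ofNat 97240, .ofNat 30940, .negSucc 11219, .negSucc 6187, .ofNat 0, .ofNat 0]), ((2, 2), [.ofNat 3640, .negSucc 1119, .ofNat 240, .negSucc 31, .ofNat 2, .ofNat 0, .ofNat 139776, .negSucc 58239, .ofNat 17920, .negSucc 3839, .ofNat 512, .negSucc 31, .ofNat 420784, .negSucc 125663, .ofNat 25160, .negSucc 2719, .negSucc 1782143, .ofNat 487424, .negSucc 76159, .ofNat 26060320, .ofNat 4702880, .negSucc 990079, .negSucc 6930559, .ofNat 0, .ofNat 0]), ((2, 6), [.ofNat 1821, .negSucc 559, .ofNat 120, .negSucc 15, .ofNat 1, .ofNat 0, .ofNat 52608, .negSucc 21855,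 .ofNat 6720, .negSucc 1439, .ofNat 192, .negSucc 11, .ofNat 119316, .negSucc 36167, .ofNat 7425, .negSucc 835, .negSucc 386175, .ofNat 110528, .negSucc 18479, .ofNat 4024680, .ofNat 791840, .negSucc 182159, .negSucc 928367, .ofNat 0, .ofNat 0]), ((2, 10), [.ofNat 1820, .negSucc 559, .ofNat 120, .negSucc 15, .ofNat 1, .ofNat 0, .ofNat 34944, .negSucc 14559, .ofNat 4480, .negSucc 959, .ofNat 128, .negSucc 7, .ofNat 50932, .negSucc 15623, .ofNat 3290, .negSucc 391, .negSucc 101471, .ofNat 30464, .negSucc 5599, .ofNat 560440, .ofNat 124040, .negSucc 32479, .negSucc 86239, .ofNat 0, .ofNat 0]), ((2, 14), [.ofNat 1729, .negSucc 545, .ofNat 119, .negSucc 15, .ofNat 1, .ofNat 0, .ofNat 16744, .negSucc 7097, .ofNat 2212, .negSucc 477, .ofNat 64, .negSucc 3, .ofNat 10829, .negSucc 3345, .ofNat 719, .negSucc 91, .negSucc 7279, .ofNat 2240, .negSucc 463, .ofNat 8008, .ofNat 1820, .negSucc 559, .ofNat 0, .ofNat 0, .ofNat 0]), ((3, 3), [.ofNat 910, .negSucc 209, .ofNat 30, .negSucc 1, .ofNat 0, .ofNat 0, .ofNat 40950, .negSucc 13649, .ofNat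 3150, .negSucc 449, .ofNat 30, .ofNat 0, .ofNat 95550, .negSucc 22049, .ofNat 3150, .negSucc 209, .negSucc 404039, .ofNat 89544, .negSucc 10919, .ofNat 8005140, .ofNat 1092000, .negSucc 196559, .negSucc 1681679, .ofNat 0, .ofNat 0]), ((3, 7), [.ofNat 455, .negSucc 104, .ofNat 15, .negSucc 0, .ofNat 0, .ofNat 0, .ofNat 15030, .negSucc 5004, .ofNat 1155, .negSucc 164, .ofNat 11, .ofNat 0, .ofNat 25025, .negSucc 5774, .ofNat 825, .negSucc 54, .negSucc 74612, .ofNat 16863, .negSucc 2144, .ofNat 1003530, .ofNat 143220, .negSucc 27719, .negSucc 161699, .ofNat 0, .ofNat 0]), ((3, 11), [.ofNat 455, .negSucc 104, .ofNat 15, .negSucc 0, .ofNat 0, .ofNat 0, .ofNat 9552, .negSucc 3184, .ofNat 735, .negSucc 104, .ofNat 7, .ofNat 0, .ofNat 9555, .negSucc 2204, .ofNat 315, .negSucc 20, .negSucc 15917, .ofNat 3654, .negSucc 489, .ofNat 105105, .ofNat 15820, .negSucc 3359, .negSucc 8819, .ofNat 0, .ofNat 0]), ((4, 4), [.ofNat 182, .negSucc 27, .ofNat 2, .ofNat 0, .ofNat 0, .ofNat 0, .ofNat 10192, .negSucc 2547, .ofNat 392, .negSucc 27, .ofNat 0,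 .ofNat 0, .ofNat 16562, .negSucc 2547, .ofNat 182, .ofNat 0, .negSucc 66247, .ofNat 10192, .negSucc 727, .ofNat 1997996, .ofNat 176176, .negSucc 24023, .negSucc 280279, .ofNat 0, .ofNat 0]), ((4, 8), [.ofNat 91, .negSucc 13, .ofNat 1, .ofNat 0, .ofNat 0, .ofNat 0, .ofNat 3640, .negSucc 909, .ofNat 140, .negSucc 9, .ofNat 0, .ofNat 0, .ofNat 4095, .negSucc 629, .ofNat 45, .ofNat 0, .negSucc 10919, .ofNat 1680, .negSucc 119, .ofNat 211166, .ofNat 18900, .negSucc 2687, .negSucc 19991, .ofNat 0, .ofNat 0]), ((4, 12), [.ofNat 90, .negSucc 13, .ofNat 1, .ofNat 0, .ofNat 0, .ofNat 0, .ofNat 2136, .negSucc 541, .ofNat 84, .negSucc 5, .ofNat 0, .ofNat 0, .ofNat 1359, .negSucc 209, .ofNat 15, .ofNat 0, .negSucc 1815, .ofNat 280, .negSucc 19, .ofNat 14949, .ofNat 1364, .negSucc 203, .negSucc 531, .ofNat 0, .ofNat 0]), ((5, 5), [.ofNat 26, .negSucc 1, .ofNat 0, .ofNat 0, .ofNat 0, .ofNat 0, .ofNat 2028, .negSucc 337, .ofNat 26, .ofNat 0, .ofNat 0, .ofNat 0, .ofNat 2028, .negSucc 155, .ofNat 0, .ofNat 0, .negSucc 7435, .ofNat 572, .ofNat 0,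 .ofNat 408980, .ofNat 18590, .negSucc 1429, .negSucc 30029, .ofNat 0, .ofNat 0]), ((5, 9), [.ofNat 13, .negSucc 0, .ofNat 0, .ofNat 0, .ofNat 0, .ofNat 0, .ofNat 702, .negSucc 116, .ofNat 9, .ofNat 0, .ofNat 0, .ofNat 0, .ofNat 468, .negSucc 35, .ofNat 0, .ofNat 0, .negSucc 1091, .ofNat 84, .ofNat 0, .ofNat 36036, .ofNat 1638, .negSucc 125, .negSucc 1553, .ofNat 0, .ofNat 0]), ((6, 6), [.ofNat 2, .ofNat 0, .ofNat 0, .ofNat 0, .ofNat 0, .ofNat 0, .ofNat 288, .negSucc 23, .ofNat 0, .ofNat 0, .ofNat 0, .ofNat 0, .ofNat 132, .ofNat 0, .ofNat 0, .ofNat 0, .negSucc 439, .ofNat 0, .ofNat 0, .ofNat 65340, .ofNat 990, .ofNat 0, .negSucc 1583, .ofNat 0, .ofNat 0]), ((6, 10), [.ofNat 1, .ofNat 0, .ofNat 0, .ofNat 0, .ofNat 0, .ofNat 0, .ofNat 96, .negSucc 7, .ofNat 0, .ofNat 0, .ofNat 0, .ofNat 0, .ofNat 28, .ofNat 0, .ofNat 0, .ofNat 0, .negSucc 55, .ofNat 0, .ofNat 0, .ofNat 4605, .ofNat 70, .ofNat 0, .negSucc 55, .ofNat 0, .ofNat 0]), ((7, 7), [.ofNat 0, .ofNat 0, .ofNat 0, .ofNat 0, .ofNat 0, .ofNat 0, .ofNat 22, .ofNat 0, .ofNat 0, .ofNat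 0, .ofNat 0, .ofNat 0, .ofNat 0, .ofNat 0, .ofNat 0, .ofNat 0, .ofNat 0, .ofNat 0, .ofNat 0, .ofNat 7260, .ofNat 0, .ofNat 0, .ofNat 0, .ofNat 0, .ofNat 0]), ((8, 8), [.ofNat 0, .ofNat 0, .ofNat 0, .ofNat 0, .ofNat 0, .ofNat 0, .ofNat 0, .ofNat 0, .ofNat 0, .ofNat 0, .ofNat 0, .ofNat 0, .ofNat 0, .ofNat 0, .ofNat 0, .ofNat 0, .ofNat 0, .ofNat 0, .ofNat 0, .ofNat 420, .ofNat 0, .ofNat 0, .ofNat 0, .ofNat 0, .ofNat 0])]
  tg := [((0, 0), .ofNat 1, [.ofNat 0, .ofNat 0, .ofNat 0, .ofNat 0, .ofNat 0, .ofNat 0, .ofNat 0, .ofNat 0, .ofNat 0, .ofNat 0, .ofNat 0, .ofNat 0, .ofNat 0, .ofNat 0, .ofNat 0, .ofNat 0, .ofNat 0, .ofNat 0, .ofNat 0, .ofNat 0, .ofNat 0, .ofNat 0, .ofNat 0, .ofNat 1, .ofNat 0]), ((0, 4), .ofNat 7392, [.negSucc 46608183999, .negSucc 383539954797, .negSucc 1507311740675, .negSucc 3933815801467, .negSucc 7374244102399, .negSucc 8859535520912, .ofNat 0, .negSucc 17108258313, .negSucc 140836753487, .negSucc 524918485587, .negSucc 1217319123026, .negSucc 1705900752982, .negSucc 5147260591, .negSucc 42561012601, .negSucc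 144424396703, .negSucc 253022147510, .negSucc 1135653021, .negSucc 9469359133, .negSucc 25170603345, .ofNat 0, .negSucc 139012031, .negSucc 1174253639, .ofNat 5588, .ofNat 0, .ofNat 6910928640]), ((0, 8), .ofNat 14784, [.negSucc 4795495007, .negSucc 39463086233, .negSucc 155094419507, .negSucc 404781920759, .negSucc 758814739199, .negSucc 911663813906, .ofNat 0, .negSucc 1760233085, .negSucc 14490636399, .negSucc 54009978679, .negSucc 125256568660, .negSucc 175534895108, .negSucc 529584471, .negSucc 4379009625, .negSucc 14859769567, .negSucc 26034060380, .negSucc 116842661, .negSucc 974271029, .negSucc 2589744037, .ofNat 0, .negSucc 14302271, .negSucc 120814683, .ofNat 616, .ofNat 0, .ofNat 815278464]), ((0, 12), .ofNat 121968, [.negSucc 498406319, .negSucc 4101082985, .negSucc 16115691479, .negSucc 42054556445, .negSucc 78827531327, .negSucc 94700190122, .ofNat 0, .negSucc 182958725, .negSucc 1506034031, .negSucc 5612732957, .negSucc 13014897230, .negSucc 18236606940, .negSucc 55048667, .negSucc 455153503, .negSucc 1544396895,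 .negSucc 2705435648, .negSucc 12146147, .negSucc 101271427, .negSucc 269179077, .ofNat 0, .negSucc 1486911, .negSucc 12558629, .ofNat 22, .ofNat 0, .ofNat 51019584]), ((0, 16), .ofNat 1, [.ofNat 0, .ofNat 0, .ofNat 0, .ofNat 0, .ofNat 0, .ofNat 0, .ofNat 0, .ofNat 0, .ofNat 0, .ofNat 0, .ofNat 0, .ofNat 0, .ofNat 0, .ofNat 0, .ofNat 0, .ofNat 0, .ofNat 0, .ofNat 0, .ofNat 0, .ofNat 0, .ofNat 0, .ofNat 0, .ofNat 0, .ofNat 0, .ofNat 1]), ((1, 1), .ofNat 3963960, [.ofNat 58693642160640, .ofNat 482994814351764, .ofNat 1898186737757520, .ofNat 4953980870619060, .ofNat 9286699173024000, .ofNat 11157234472488951, .ofNat 0, .ofNat 21544302544020, .ofNat 177355638686728, .ofNat 661034655999494, .ofNat 1532996718127245, .ofNat 2148299834851625, .ofNat 6481880498300, .ofNat 53596762839580, .ofNat 181873551890240, .ofNat 318633379841665, .ofNat 1430109352830, .ofNat 11924650988110, .ofNat 31697133845370, .ofNat 0, .ofNat 175054839840, .ofNat 1478721810788, .negSucc 7307299, .ofNat 0, .negSucc 9059165660159]), ((1, 5), .ofNat 9240, [.ofNat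 117655002720, .ofNat 968181428214, .ofNat 3804928278060, .ofNat 9930116740320, .ofNat 18614671931520, .ofNat 22363904552451, .ofNat 0, .ofNat 43187253210, .ofNat 355520060248, .ofNat 1325066456924, .ofNat 3072891347645, .ofNat 4306193340085, .ofNat 12993531920, .ofNat 107438938870, .ofNat 364576503200, .ofNat 638710535645, .ofNat 2866802190, .ofNat 23904046190, .ofNat 63539463470, .ofNat 0, .ofNat 350918400, .ofNat 2964238788, .negSucc 13639, .ofNat 0, .negSucc 16991694719]), ((1, 9), .ofNat 504, [.ofNat 161685120, .ofNat 1330557228, .ofNat 5229345072, .ofNat 13648388460, .ofNat 25586050560, .ofNat 30740160087, .ofNat 0, .ofNat 59347500, .ofNat 488566936, .ofNat 1821034166, .ofNat 4223318085, .ofNat 5918688545, .ofNat 17855180, .ofNat 147641140, .ofNat 501013184, .ofNat 877782745, .ofNat 3939390, .ofNat 32847910, .ofNat 87314850, .ofNat 0, .ofNat 482208, .ofNat 4073300, .negSucc 19, .ofNat 0, .negSucc 30885119]), ((1, 13), .ofNat 3432, [.ofNat 13833888, .ofNat 113823138, .ofNat 447242628, .ofNat 1166981592, .ofNat 2187214848, .ofNat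 2627496795, .ofNat 0, .ofNat 5078526, .ofNat 41801816, .ofNat 155776600, .ofNat 361182325, .ofNat 506042173, .ofNat 1528104, .ofNat 12634082, .ofNat 42866656, .ofNat 75086501, .ofNat 337182, .ofNat 2811206, .ofNat 7471870, .ofNat 0, .ofNat 41280, .ofNat 348628, .ofNat 0, .ofNat 0, .negSucc 1005311]), ((2, 2), .ofNat 73920, [.negSucc 2668922482463, .negSucc 21962830739849, .negSucc 86314961486627, .negSucc 225269772926183, .negSucc 422290323508031, .negSucc 507349074498650, .ofNat 0, .negSucc 979662829613, .negSucc 8064731658607, .negSucc 30058703098311, .negSucc 69708971427164, .negSucc 97688572042172, .negSucc 294743794343, .negSucc 2437152562681, .negSucc 8270170478751, .negSucc 14488966267796, .negSucc 65029820813, .negSucc 542237272781, .negSucc 1441332121109, .ofNat 0, .negSucc 7960072895, .negSucc 67240364323, .ofNat 335280, .ofNat 0, .ofNat 417547557504]), ((2, 6), .ofNat 480, [.negSucc 5256207647, .negSucc 43252831049, .negSucc 169980319235, .negSucc 443608863767, .negSucc 831564929663, .negSucc 999047003786, .ofNat 0,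 .negSucc 1929394157, .negSucc 15882759535, .negSucc 59196328743, .negSucc 137277094604, .negSucc 192370383820, .negSucc 580490727, .negSucc 4799842233, .negSucc 16287354943, .negSucc 28533870868, .negSucc 128076077, .negSucc 1067920413, .negSucc 2838632229, .ofNat 0, .negSucc 15677631, .negSucc 132428547, .ofNat 560, .ofNat 0, .ofNat 720763008]), ((2, 10), .ofNat 73920, [.negSucc 9274029983, .negSucc 76320374129, .negSucc 299962163507, .negSucc 782908721783, .negSucc 1467713705471, .negSucc 1763401572470, .ofNat 0, .negSucc 3404045093, .negSucc 28023596847, .negSucc 104455183111, .negSucc 242257270464, .negSucc 339513982912, .negSucc 1024122183, .negSucc 8468360961, .negSucc 28737740191, .negSucc 50350257096, .negSucc 225950213, .negSucc 1884045381, .negSucc 5008205229, .ofNat 0, .negSucc 27658175, .negSucc 233626483, .ofNat 880, .ofNat 0, .ofNat 2293087104]), ((2, 14), .ofNat 88, [.negSucc 171551, .negSucc 1411409, .negSucc 5545259, .negSucc 14467361, .negSucc 27112415, .negSucc 32567732, .ofNat 0, .negSucc 62981, .negSucc 518383,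 .negSucc 1931619, .negSucc 4478114, .negSucc 6273378, .negSucc 18951, .negSucc 156685, .negSucc 531591, .negSucc 931060, .negSucc 4181, .negSucc 34865, .negSucc 92665, .ofNat 0, .negSucc 511, .negSucc 4323, .ofNat 0, .ofNat 0, .ofNat 7392]), ((3, 3), .ofNat 504, [.ofNat 19484476800, .ofNat 160340386206, .ofNat 630148990800, .ofNat 1644610057734, .ofNat 3082999277568, .ofNat 3703993833519, .ofNat 0, .ofNat 7152009114, .ofNat 58876599696, .ofNat 219444733998, .ofNat 508916388183, .ofNat 713188472633, .ofNat 2151766308, .ofNat 17792379712, .ofNat 60376402688, .ofNat 105777320817, .ofNat 474747252, .ofNat 3958583704, .ofNat 10522409618, .ofNat 0, .ofNat 58112096, .ofNat 490885752, .negSucc 2479, .ofNat 0, .negSucc 3132562943]), ((3, 7), .ofNat 924, [.ofNat 5179243008, .ofNat 42618618042, .ofNat 167483442168, .ofNat 437079351534, .ofNat 819304883712, .ofNat 984305781921, .ofNat 0, .ofNat 1901172366, .ofNat 15650174768, .ofNat 58328168038, .ofNat 135259780453, .ofNat 189537797463, .ofNat 572007044, .ofNat 4729629908, .ofNat 16048853632,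 .ofNat 28115336319, .ofNat 126205632, .ofNat 1052309472, .ofNat 2797113718, .ofNat 0, .ofNat 15448992, .ofNat 130493216, .negSucc 439, .ofNat 0, .negSucc 642453503]), ((3, 11), .ofNat 264, [.ofNat 5205120, .ofNat 42835650, .ofNat 168352128, .ofNat 439359762, .ofNat 823604736, .ofNat 989568657, .ofNat 0, .ofNat 1910598, .ofNat 15729520, .ofNat 58631258, .ofNat 135968121, .ofNat 190530567, .ofNat 574796, .ofNat 4753272, .ofNat 16131840, .ofNat 28262863, .ofNat 126804, .ofNat 1057416, .ofNat 2811310, .ofNat 0, .ofNat 15520, .ofNat 131096, .ofNat 0, .ofNat 0, .negSucc 2568191]), ((4, 4), .ofNat 528, [.negSucc 11990591039, .negSucc 98672955809, .negSucc 387796061747, .negSucc 1012112202839, .negSucc 1897332952319, .negSucc 2279514954914, .ofNat 0, .negSucc 4401263909, .negSucc 36232179119, .negSucc 135045757631, .negSucc 313189899044, .negSucc 438905552244, .negSucc 1324167159, .negSucc 10949216129, .negSucc 37155135551, .negSucc 65095173964, .negSucc 292152569, .negSucc 2436056929, .negSucc 6475357685, .ofNat 0, .negSucc 35761391,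 .negSucc 302084455, .ofNat 1540, .ofNat 0, .ofNat 2037615360]), ((4, 8), .ofNat 2464, [.negSucc 4984336703, .negSucc 41013142169, .negSucc 161165549579, .negSucc 420564955523, .negSucc 788307217151, .negSucc 947040083450, .ofNat 0, .negSucc 1829682893, .negSucc 15061213807, .negSucc 56130675691, .negSucc 130155884984, .negSucc 182374240572, .negSucc 550510703, .negSucc 4551781901, .negSucc 15444939775, .negSucc 27056000516, .negSucc 121464713, .negSucc 1012756321, .negSucc 2691949245, .ofNat 0, .negSucc 14869119, .negSucc 125588455, .ofNat 220, .ofNat 0, .ofNat 512058624]), ((4, 12), .ofNat 24, [.ofNat 40128, .ofNat 330330, .ofNat 1299648, .ofNat 3398178, .ofNat 6378624, .ofNat 7661577, .ofNat 0, .ofNat 14718, .ofNat 121136, .ofNat 451738, .ofNat 1049545, .ofNat 1473871, .ofNat 4428, .ofNat 36584, .ofNat 124096, .ofNat 217679, .ofNat 978, .ofNat 8144, .ofNat 21616, .ofNat 0, .ofNat 120, .ofNat 1012, .ofNat 0, .ofNat 0, .ofNat 51072]), ((5, 5), .ofNat 715, [.ofNat 5785446120, .ofNat 47610213651, .ofNat 187117634760, .ofNat 488372047905,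 .ofNat 915533411520, .ofNat 1099959972804, .ofNat 0, .ofNat 2123584455, .ofNat 17481953232, .ofNat 65160404316, .ofNat 151119761625, .ofNat 211785018900, .ofNat 638900260, .ofNat 5282917820, .ofNat 17927253400, .ofNat 31408874000, .ofNat 140961825, .ofNat 1175376260, .ofNat 3124304715, .ofNat 0, .ofNat 17254920, .ofNat 145754182, .negSucc 714, .ofNat 0, .negSucc 1102590719]), ((5, 9), .ofNat 264, [.ofNat 153233760, .ofNat 1260787242, .ofNat 4953894036, .ofNat 12925578120, .ofNat 24224874240, .ofNat 29100715413, .ofNat 0, .ofNat 56253030, .ofNat 463033504, .ofNat 1725521588, .ofNat 4000642835, .ofNat 5604935315, .ofNat 16925760, .ofNat 139944850, .ofNat 474839456, .ofNat 831730795, .ofNat 3734490, .ofNat 31137610, .ofNat 82765970, .ofNat 0, .ofNat 457152, .ofNat 3861116, .ofNat 0, .ofNat 0, .negSucc 11235839]), ((6, 6), .ofNat 2640, [.negSucc 4665007871, .negSucc 38390502149, .negSucc 150888616283, .negSucc 393836422391, .negSucc 738343339775, .negSucc 887093038292, .ofNat 0, .negSucc 1712298881, .negSucc 14096168463, .negSucc 52542038695,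 .negSucc 121861566994, .negSucc 170790878418, .negSucc 515163991, .negSucc 4259697525, .negSucc 14455097215, .negSucc 25326538810, .negSucc 113665481, .negSucc 947734465, .negSucc 2519147329, .ofNat 0, .negSucc 13914767, .negSucc 117530531, .ofNat 440, .ofNat 0, .ofNat 1138781952]), ((6, 10), .ofNat 5280, [.negSucc 734069567, .negSucc 6039294689, .negSucc 23724707075, .negSucc 61881117647, .negSucc 115934832383, .negSucc 139224406166, .ofNat 0, .negSucc 269508437, .negSucc 2218383535, .negSucc 8266029183, .negSucc 19159501304, .negSucc 26832998240, .negSucc 81091287, .negSucc 670528313, .negSucc 2275171583, .negSucc 3984483208, .negSucc 17889557, .negSucc 149182253, .negSucc 396598789, .ofNat 0, .negSucc 2189311, .negSucc 18494307, .ofNat 0, .ofNat 0, .ofNat 31519488]), ((7, 7), .ofNat 6776, [.ofNat 1333573632, .ofNat 10974593058, .ofNat 43137037440, .ofNat 112604426802, .ofNat 211117681152, .ofNat 253625118285, .ofNat 616, .ofNat 489509334, .ofNat 4029545776, .ofNat 15020039202, .ofNat 34840121365, .ofNat 48835624747, .ofNat 147286652,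 .ofNat 1217699304, .ofNat 4131937152, .ofNat 7239911763, .ofNat 32504172, .ofNat 270959816, .ofNat 720104294, .ofNat 0, .ofNat 3980704, .ofNat 33611560, .ofNat 0, .ofNat 0, .negSucc 602714111]), ((8, 8), .ofNat 517440, [.ofNat 2766067008, .ofNat 23015802810, .ofNat 93938036724, .ofNat 263327217888, .ofNat 538723229184, .ofNat 713179253787, .negSucc 813119, .ofNat 985863198, .ofNat 8058200816, .ofNat 30366820512, .ofNat 74242687925, .ofNat 112624462461, .ofNat 301621048, .ofNat 2422251474, .ofNat 8043666624, .ofNat 14430591189, .ofNat 69483078, .ofNat 556150134, .ofNat 1404387110, .ofNat 2464, .ofNat 9040992, .ofNat 73462452, .negSucc 6159, .ofNat 0, .ofNat 6979644672])]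

/-- certificate, `m = 4`, `j = 18`, antisymmetric part -/
def NC_4_18_m : NUM_Cert where
  tri := [(0, 1), (0, 11), (0, 12), (0, 13), (0, 14), (0, 15), (0, 16), (0, 17), (0, 18), (1, 2), (1, 5), (1, 8), (1, 14), (1, 15), (1, 16), (1, 17), (2, 3), (2, 14), (2, 15), (2, 16), (4, 14)]
  fre := []
  cols := [((0, 4), [.ofNat 8, .ofNat 34892, .negSucc 21475, .ofNat 10556, .negSucc 4059, .ofNat 1180, .negSucc 243, .ofNat 32, .negSucc 1, .ofNat 504, .negSucc 84167, .ofNat 576576, .ofNat 60840, .negSucc 17975, .ofNat 3780, .negSucc 503, .ofNat 18564, .negSucc 431459, .ofNat 129948, .negSucc 27845, .negSucc 6119999]), ((0, 8), [.ofNat 16, .ofNat 31944, .negSucc 18773, .ofNat 8820, .negSucc 3269, .ofNat 936, .negSucc 197, .ofNat 28, .negSucc 1, .ofNat 720, .negSucc 81143, .ofNat 436788, .ofNat 34380, .negSucc 10319, .ofNat 2340, .negSucc 359, .ofNat 18360, .negSucc 169829, .ofNat 55080, .negSucc 13769, .negSucc 1285199]), ((0, 12), [.ofNat 24, .ofNat 31836, .negSucc 18564, .ofNat 8574, .negSucc 3074, .ofNat 836, .negSucc 167, .ofNat 24,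 .negSucc 1, .ofNat 648, .negSucc 51299, .ofNat 262548, .ofNat 18630, .negSucc 5255, .ofNat 1188, .negSucc 215, .ofNat 9180, .negSucc 48194, .ofNat 15300, .negSucc 4589, .negSucc 91799]), ((0, 16), [.ofNat 32, .ofNat 36192, .negSucc 20383, .ofNat 9128, .negSucc 3179, .ofNat 832, .negSucc 153, .ofNat 20, .negSucc 1, .ofNat 288, .negSucc 17135, .ofNat 87516, .ofNat 6120, .negSucc 1631, .ofNat 324, .negSucc 71, .ofNat 816, .negSucc 3059, .ofNat 816, .negSucc 305, .ofNat 0]), ((1, 5), [.ofNat 8, .ofNat 12298, .negSucc 6174, .ofNat 2379, .negSucc 679, .ofNat 136, .negSucc 16, .ofNat 1, .ofNat 0, .ofNat 452, .negSucc 58565, .ofNat 294437, .ofNat 9555, .negSucc 2053, .ofNat 299, .negSucc 25, .ofNat 14144, .negSucc 65194, .ofNat 15470, .negSucc 2651, .negSucc 972399]), ((1, 9), [.ofNat 16, .ofNat 12376, .negSucc 6187, .ofNat 2380, .negSucc 679, .ofNat 136, .negSucc 16, .ofNat 1, .ofNat 0, .ofNat 648, .negSucc 53675, .ofNat 218646, .ofNat 6246, .negSucc 1307, .ofNat 189, .negSucc 17, .ofNat 13056, .negSucc 26621, .ofNat 6324, .negSucc 1223,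 .negSucc 171359]), ((1, 13), [.ofNat 24, .ofNat 12454, .negSucc 6200, .ofNat 2381, .negSucc 679, .ofNat 136, .negSucc 16, .ofNat 1, .ofNat 0, .ofNat 588, .negSucc 32209, .ofNat 122837, .ofNat 3405, .negSucc 689, .ofNat 95, .negSucc 9, .ofNat 5440, .negSucc 6884, .ofNat 1530, .negSucc 339, .negSucc 6799]), ((1, 17), [.ofNat 32, .ofNat 24752, .negSucc 12375, .ofNat 4760, .negSucc 1359, .ofNat 272, .negSucc 33, .ofNat 2, .ofNat 0, .ofNat 272, .negSucc 12375, .ofNat 48620, .ofNat 1360, .negSucc 271, .ofNat 34, .negSucc 1, .ofNat 0, .ofNat 0, .ofNat 0, .ofNat 0, .ofNat 0]), ((2, 6), [.ofNat 8, .ofNat 4356, .negSucc 1818, .ofNat 560, .negSucc 119, .ofNat 16, .negSucc 0, .ofNat 0, .ofNat 0, .ofNat 408, .negSucc 39755, .ofNat 146520, .ofNat 1440, .negSucc 191, .ofNat 12, .ofNat 0, .ofNat 10580, .negSucc 8414, .ofNat 1276, .negSucc 131, .negSucc 118799]), ((2, 10), [.ofNat 16, .ofNat 4368, .negSucc 1819, .ofNat 560, .negSucc 119, .ofNat 16, .negSucc 0, .ofNat 0, .ofNat 0, .ofNat 592, .negSucc 34551, .ofNat 103034, .ofNat 960, .negSucc 127,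 .ofNat 8, .ofNat 0, .ofNat 9080, .negSucc 3429, .ofNat 504, .negSucc 55, .negSucc 16799]), ((2, 14), [.ofNat 24, .ofNat 4732, .negSucc 1910, .ofNat 574, .negSucc 120, .ofNat 16, .negSucc 0, .ofNat 0, .ofNat 0, .ofNat 552, .negSucc 21475, .ofNat 57486, .ofNat 482, .negSucc 63, .ofNat 4, .ofNat 0, .ofNat 3244, .negSucc 720, .ofNat 100, .negSucc 11, .negSucc 239]), ((3, 7), [.ofNat 8, .ofNat 1364, .negSucc 454, .ofNat 105, .negSucc 14, .ofNat 1, .ofNat 0, .ofNat 0, .ofNat 0, .ofNat 372, .negSucc 26165, .ofNat 68310, .ofNat 165, .negSucc 10, .ofNat 0, .ofNat 0, .ofNat 7784, .negSucc 824, .ofNat 55, .ofNat 0, .negSucc 9899]), ((3, 11), [.ofNat 16, .ofNat 1366, .negSucc 454, .ofNat 105, .negSucc 14, .ofNat 1, .ofNat 0, .ofNat 0, .ofNat 0, .ofNat 552, .negSucc 22091, .ofNat 45540, .ofNat 105, .negSucc 6, .ofNat 0, .ofNat 0, .ofNat 6320, .negSucc 314, .ofNat 21, .ofNat 0, .negSucc 1049]), ((3, 15), [.ofNat 24, .ofNat 2730, .negSucc 909, .ofNat 210, .negSucc 29, .ofNat 2, .ofNat 0, .ofNat 0, .ofNat 0, .ofNat 540, .negSucc 18017, .ofNat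 38610, .ofNat 90, .negSucc 5, .ofNat 0, .ofNat 0, .ofNat 2520, .negSucc 89, .ofNat 6, .ofNat 0, .ofNat 0]), ((4, 8), [.ofNat 8, .ofNat 364, .negSucc 90, .ofNat 14, .negSucc 0, .ofNat 0, .ofNat 0, .ofNat 0, .ofNat 0, .ofNat 344, .negSucc 16715, .ofNat 29404, .ofNat 10, .ofNat 0, .ofNat 0, .ofNat 0, .ofNat 5684, .negSucc 44, .ofNat 0, .ofNat 0, .negSucc 419]), ((4, 12), [.ofNat 16, .ofNat 376, .negSucc 91, .ofNat 14, .negSucc 0, .ofNat 0, .ofNat 0, .ofNat 0, .ofNat 0, .ofNat 528, .negSucc 15095, .ofNat 19998, .ofNat 6, .ofNat 0, .ofNat 0, .ofNat 0, .ofNat 4696, .negSucc 14, .ofNat 0, .ofNat 0, .negSucc 29]), ((5, 9), [.ofNat 8, .ofNat 78, .negSucc 12, .ofNat 1, .ofNat 0, .ofNat 0, .ofNat 0, .ofNat 0, .ofNat 0, .ofNat 324, .negSucc 10565, .ofNat 11511, .ofNat 0, .ofNat 0, .ofNat 0, .ofNat 0, .ofNat 4224, .ofNat 0, .ofNat 0, .ofNat 0, .ofNat 0]), ((5, 13), [.ofNat 16, .ofNat 156, .negSucc 25, .ofNat 2, .ofNat 0, .ofNat 0, .ofNat 0, .ofNat 0, .ofNat 0, .ofNat 520, .negSucc 12843, .ofNat 12870, .ofNat 0, .ofNat 0, .ofNat 0, .ofNat 0,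 .ofNat 4160, .ofNat 0, .ofNat 0, .ofNat 0, .ofNat 0]), ((6, 10), [.ofNat 8, .ofNat 12, .negSucc 0, .ofNat 0, .ofNat 0, .ofNat 0, .ofNat 0, .ofNat 0, .ofNat 0, .ofNat 312, .negSucc 7115, .ofNat 4218, .ofNat 0, .ofNat 0, .ofNat 0, .ofNat 0, .ofNat 3364, .ofNat 0, .ofNat 0, .ofNat 0, .ofNat 0]), ((7, 11), [.ofNat 8, .ofNat 2, .ofNat 0, .ofNat 0, .ofNat 0, .ofNat 0, .ofNat 0, .ofNat 0, .ofNat 0, .ofNat 308, .negSucc 6005, .ofNat 2310, .ofNat 0, .ofNat 0, .ofNat 0, .ofNat 0, .ofNat 3080, .ofNat 0, .ofNat 0, .ofNat 0, .ofNat 0])]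
  tg := [((0, 4), .ofNat 447174000, [.ofNat 3144349025448261464396736624192, .negSucc 707087165131556630839243244537, .negSucc 5721227171866312751868651761039, .negSucc 25818434196222488397021986461031, .negSucc 85842693847395288195091570254383, .negSucc 234896816137753199955657587385923, .negSucc 560482429350544365222819161312495, .negSucc 1206443978529078006707087295145031, .negSucc 2432059931453961242265770789713295, .negSucc 117373735119282765856410287084, .negSucc 2134598974045035932015044019, .negSucc 302341384706272547168189439, .ofNat 32638402743106536825423546880, .ofNat 263035181338323521555522062080, .ofNat 1393617572188047901490732554240, .ofNat 3310302506241225592695120230400, .ofNat 93668735056206885245170500, .ofNat 1501547435975131737454080000, .ofNat 14119712006988797416806144000, .ofNat 74117928069348982061836320000, .negSucc 4940924080083975362695679]), ((0, 8), .ofNat 596232000, [.negSucc 4118466788030084373265077891677, .ofNat 926142416846204264186218643142, .ofNat 7493660501237637685083602300160, .ofNat 33816972255783112190775196480488,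 .ofNat 112436717662133869083416047475856, .ofNat 307667732827283740229567933031516, .ofNat 734119606911499785068594178263664, .ofNat 1580199722415530932431818892819288, .ofNat 3185510887349384234111317865524464, .ofNat 153736059821441881285145853615, .ofNat 2795896673434425695615371980, .ofNat 396006595159166808971893760, .negSucc 42749763662979876125695358719, .negSucc 344523349557519150571258547519, .negSucc 1825359602200444499254310960959, .negSucc 4335832574548129890604573747199, .negSucc 122687262541021941212950499, .negSucc 1966726084052867525955839999, .negSucc 18493991756860650960466991999, .negSucc 97079625283551173148428087999, .ofNat 6471619900116836289726720]), ((0, 12), .ofNat 3577392000, [.negSucc 1905168119278319838885943134371, .ofNat 428425697547198911617119554058, .ofNat 3466504361561663304270249683040, .ofNat 15643447124422169722155735204312, .ofNat 52012280528466962392727643621744, .ofNat 142324507172618968678732884217284, .ofNat 339597559676789341139687682917136, .ofNat 730987109569117847652966111728712, .ofNat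 1473590561378519021226748591178736, .ofNat 71117009078849512283510524785, .ofNat 1293358300837817927828612220, .ofNat 183189322374520916219709440, .negSucc 19775681346783046799623940479, .negSucc 159373605690266712540229939679, .negSucc 844396009320311113045362278239, .negSucc 2005719705101381844797699635199, .negSucc 56754096430746018635330999, .negSucc 909790955600452426650239999, .negSucc 8555165139554253887138471999, .negSucc 44908218674788104234009683999, .ofNat 2993716970020076553751680]), ((0, 16), .ofNat 170352000, [.ofNat 69579840184415922062024642424, .negSucc 15646803693903402381927878885, .negSucc 126602380669380352372507114079, .negSucc 571324147111473128125286780903, .negSucc 1899573129624184349166255544847, .negSucc 5197922620680752876708561110427, .negSucc 12402655540068244274699974380911, .negSucc 26696838849032351837484814642103, .negSucc 53817925421101642274690059776911, .negSucc 2597308907297079673481111894, .negSucc 47235549956384983114309139, .negSucc 6690372175206732985978879, .ofNat 722240065705238521447986560,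 .ofNat 5820583444228259215409748960, .ofNat 30838716429456899840255600480, .ofNat 73252147736207449850675251200, .ofNat 2072751963201075426270000, .ofNat 33227046291266842035840000, .ofNat 312448553562275253118632000, .ofNat 1640121229585870791899412000, .negSucc 109335415716632923359359]), ((1, 5), .ofNat 794976000, [.negSucc 48275216312796232540939485127331, .ofNat 10855915031207923150941321880998, .ofNat 87838047577151287858030184353440, .ofNat 396390631444818475004788851914472, .ofNat 1317943580950071686790706627346064, .ofNat 3606372739941159261329500137308604, .ofNat 8605091323334161485805395275228016, .ofNat 18522544272723919854978350624982072, .ofNat 37339436025199691890490041145264016, .ofNat 1802039915564538316452654897735, .ofNat 32772515512461713634742726020, .ofNat 4641849752962741621525027840, .negSucc 501097664341828979252178393279, .negSucc 4038381291075948579829209353279, .negSucc 21396221987506882905558815180639, .negSucc 50823101461137771824564549881599, .negSucc 1438096855656710551052750999, .negSucc 23053270069244346564843391999,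 .negSucc 216780053961915465406065407999, .negSucc 1137933156035056308456023403999, .ofNat 75858047825067195485557760]), ((1, 9), .ofNat 3577392000, [.ofNat 120688055356788621133754988340668, .negSucc 27139790855535295155312594607001, .negSucc 219595145462113169325640967768159, .negSucc 990976698286567389777315871701527, .negSucc 3294859350276276038826632669997935, .negSucc 9015932938654945154886011761548995, .negSucc 21512730906303423968148349146263183, .negSucc 46306366273961685786589148249547527, .negSucc 93348601336169617206611607143070383, .negSucc 4505100332966242589512946625464, .negSucc 81931298675523099646636859579, .negSucc 11604625783830355547447509759, .ofNat 1252744312141253561410909056320, .ofNat 10095954446919866064133547056320, .ofNat 53490561428512768250977505444960, .ofNat 127057768996875924976398656745600, .ofNat 3595242573318416768660913000, .ofNat 57633182133136757103535488000, .ofNat 541950200352978166718020416000, .ofNat 2844833233641687728094213468000, .negSucc 189645142465014393109155839]), ((1, 13), .ofNat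 794976000, [.negSucc 2241789688747205305812851, .ofNat 504123652625185892353278, .ofNat 4078996312771552686654240, .ofNat 18407466566927539888192392, .ofNat 61202259788555187802513104, .ofNat 167471631194661881403270444, .ofNat 399600591624180070467702576, .ofNat 860144229927552923147242392, .ofNat 1733957277841148119066487376, .ofNat 83682576899249345029635, .ofNat 1521880023780863881620, .ofNat 215556795136459696640, .negSucc 23269819646133899948479, .negSucc 187533111791868933948479, .negSucc 993591194267321460089439, .negSucc 2360107597809963234822399, .negSucc 66781900707428906999, .negSucc 1070540684857384831999, .negSucc 10066765657745893823999, .negSucc 52842990886961691051999, .ofNat 3522672758644981760]), ((1, 17), .ofNat 3312400, [.negSucc 1507172821224660827, .ofNat 338926292500471242, .ofNat 2742341269272877920, .ofNat 12375484398254508888, .ofNat 41146760114831135856, .ofNat 112592493457158236676, .ofNat 268654617364001389584, .ofNat 578281723832989707048, .ofNat 1165753101392283209904, .ofNat 56260453933603185, .ofNat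 1023171897221340, .ofNat 144920526974720, .negSucc 15644482576244479, .negSucc 126079984482120479, .negSucc 667999166424274719, .negSucc 1586718881060027119, .negSucc 44897996543399, .negSucc 719732913535999, .negSucc 6767965645022399, .negSucc 35526757953887199, .ofNat 2368320572800]), ((2, 6), .ofNat 9539712000, [.ofNat 1568954696672825561095346669364276, .negSucc 352819524712932959327330796063413, .negSucc 2854755044488791024579370806585119, .negSucc 12882778999741196900366846277712295, .negSucc 42833443932871835413701343993204751, .negSucc 117207873531241104841488712754270171, .negSucc 279667280195387231994383000144111087, .negSucc 601986589614045491577836280634834295, .negSucc 1213539534308059099163753499939049487, .negSucc 58566676755986934543398009028254, .negSucc 1065113655874606536822083829059, .negSucc 150861094520461732199590376319, .ofNat 16285779619645101833908468354240, .ofNat 131248242421853126825337129714240, .ofNat 695381720525922037752099143866720, .ofNat 1651761500565152850434205179539200, .ofNat 46738450664486042365614711000,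 .ofNat 749236132148010537410505216000, .ofNat 7045397406502791629800520832000, .ofNat 36983067213884009501139112620000, .negSucc 2465402529621045579400442879]), ((2, 10), .ofNat 1589952000, [.negSucc 2071201923338875942133431835, .ofNat 465762637842002893615130754, .ofNat 3768607309914910625250157920, .ofNat 17006760423865713118572808056, .ofNat 56545107162831071948751277872, .ofNat 154727968629797415647457307092, .ofNat 369193202240962395457679183568, .ofNat 794692023215775789127472839656, .ofNat 1602012743157461167331834133168, .ofNat 77314796786552341834165005, .ofNat 1406073392240220846949260, .ofNat 199154118210301894613120, .negSucc 21499115393716128240914239, .negSucc 173262881787131653051026239, .negSucc 917984413483879721495231519, .negSucc 2180516495551207995450886399, .negSucc 61700168344854060020999, .negSucc 989078474496920743935999, .negSucc 9300740607731041096991999, .negSucc 48821932275550319060083999, .ofNat 3254616893645354298880]), ((2, 14), .ofNat 9784320, [.negSucc 265243857156385539151385504243, .ofNat 59646853929814873091188300566,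 .ofNat 482618294105375498286191551776, .ofNat 2177932861943687701889414211624, .ofNat 7241323097562887602203236095248, .ofNat 19814892380545990638458572551324, .ofNat 47279904433677167941743283037424, .ofNat 101770462413131268936543161178360, .ofNat 205158190720376148589646929579536, .ofNat 9901147099104930961146049167, .ofNat 180065654536252425014936196, .ofNat 25504228191099682479437696, .negSucc 2753236286729003460388074175, .negSucc 22188524715719175240076781375, .negSucc 117559627527474606388909234015, .negSucc 279242984160989832176924489471, .negSucc 7901494516094925614308439, .negSucc 126664129967106992863948799, .negSucc 1191078612571364819935127039, .negSucc 6252271922246610983612678879, .ofNat 416795257241363761453056]), ((3, 7), .ofNat 9539712000, [.ofNat 475472666852165409889155668285388, .negSucc 106922169702235777574757160016081, .negSucc 865135237550971628950111412552159, .negSucc 3904133943742131949989339809550647, .negSucc 12980701010943357720842084019433775, .negSucc 35519916745940145415866104527184435, .negSucc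 84753337892917934477219349112209743, .negSucc 182432398959647900900402951903122247, .negSucc 367763887594461679614028161248400143, .negSucc 17748666704584106549596171437764, .negSucc 322783335639528158813851474379, .negSucc 45718545658452799376460213759, .ofNat 4935415333495790766464329169920, .ofNat 39774859004097383686158083094720, .ofNat 210735849696528685654250257168960, .ofNat 500567318701376487999237716044800, .ofNat 14164115655543161699844453000, .ofNat 227056461610951831737889920000, .ofNat 2135111932171847847336728064000, .ofNat 11207740818679099929359807136000, .negSucc 747141723154189292189070719]), ((3, 11), .ofNat 4769856000, [.negSucc 2217276185603902835268642021775307, .ofNat 498611165523797626799523455854962, .ofNat 4034393337998054943398481808404960, .ofNat 18206184755429443796575346648758968, .ofNat 60533025829974972385694359019386416, .ofNat 165640363802224058409259815618953076, .ofNat 395231042416233395130831643647783504, .ofNat 850738731994422134383046184163312968, .ofNat 1714996816298267521441633817590114704,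 .ofNat 82767525357101427478429711110165, .ofNat 1505238582822351030422612371980, .ofNat 213199726495425213424813506560, .negSucc 23015369016841989403120844299519, .negSucc 185482476289134033883711323433919, .negSucc 982726481584266283925251253773759, .negSucc 2334300312983609561295529658265599, .negSucc 66051654537988373084211380999, .negSucc 1058834545528108440106963583999, .negSucc 9956687672806471855517829023999, .negSucc 52265163792064112359773947279999, .ofNat 3484153066018254089636292480]), ((3, 15), .ofNat 1907942400, [.ofNat 307846573437407063609781102178524, .negSucc 69227162489153968631878806994985, .negSucc 560135076119593499268449280574559, .negSucc 2527746263057796786996671758610903, .negSucc 8404403881909914470744185493901167, .negSucc 22997504212833068112873948711795107, .negSucc 54873868629402816195568109830221071, .negSucc 118116545532480214279969422923702183, .negSucc 238110117621494477329727092724954831, .negSucc 11491441273085094685757732400704, .negSucc 208987289421246097245362307419, .negSucc 29600645010099680032399976959,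 .ofNat 3195453292753661807040508966400, .ofNat 25752382643636736611359163106240, .ofNat 136441721579902301774373243421760, .ofNat 324094200529263181297952169845760, .ofNat 9170610161878828707171527400, .ofNat 147008563387065594458808345600, .ofNat 1382386282214597535981212889600, .ofNat 7256494111106666687788911820800, .negSucc 483739729704905320291392383]), ((4, 8), .ofNat 1059968000, [.negSucc 1140650990863220648136360048952427, .ofNat 256504500297639416558209173999642, .ofNat 2075444993455378002601273580129760, .ofNat 9365952160561961062900743382558488, .ofNat 31140485042509061409004631387481456, .ofNat 85211687350753572918770515151458116, .ofNat 203321842844396749546173671962590864, .ofNat 437652279817752189065182589440290888, .ofNat 882259427372638594998770687943450864, .ofNat 42578755151407109308282011097065, .ofNat 774351834078906797958808919580, .ofNat 109678027869378633251041311360, .negSucc 11839978999726318153299701101119, .negSucc 95419222801664929355024841117119, .negSucc 505551785674961253805482665718559, .negSucc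 1200852641752376920989369010310399, .negSucc 33979477020536925079771568999, .negSucc 544704661222840003769648127999, .negSucc 5122097884530820030372796351999, .negSucc 26887183136731884550375324259999, .ofNat 1792380522045983222700605440]), ((4, 12), .ofNat 1589952000, [.ofNat 1837995935496857106496904587415892, .negSucc 413320316871795280458569963462837, .negSucc 3344282776128947226218030980254239, .negSucc 15091892385192475494139226380856231, .negSucc 50178437923608223630731463684007183, .negSucc 137306447162236941831970060357618523, .negSucc 327624070587025136548089925572224495, .negSucc 705214055753553832849462907937813431, .negSucc 1421634886178032200922893599721855695, .negSucc 68609574298950928299975149028734, .negSucc 1247757232564605557893266281219, .negSucc 176730455723947224145028608639, .ofNat 19078432800375002924668294153280, .ofNat 153754430656308965323367237417280, .ofNat 814624398432825111511817302081440, .ofNat 1935002285844856277017104111852800, .ofNat 54753067462635302728022055000, .ofNat 877713657721115803734345472000,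 .ofNat 8253528176800233513773993952000, .ofNat 43324850211083353131451416548000, .negSucc 2888164864426347010559541759]), ((5, 9), .ofNat 99372000, [.ofNat 253839720868903233888640158820947, .negSucc 57082342696161285159043636329107, .negSucc 461868163038004916994048922697639, .negSucc 2084292830280491626762183088089511, .negSucc 6929983048478879543277658678232543, .negSucc 18962952827064417848701184687135783, .negSucc 45247109104875666126012973640757935, .negSucc 97394850341123275680857836251415511, .negSucc 196337432371620052302888494254979735, .negSucc 9475448151234369931456894528484, .negSucc 172323747571691105296368611069, .negSucc 24407676145308611812073219039, .ofNat 2634861134964462865188416843280, .ofNat 21234531048951464824034730443280, .ofNat 112505161691387282757427872874840, .ofNat 267236956640368980762648027766400, .ofNat 7561770454989854861554797000, .ofNat 121218216850149876339736672000, .ofNat 1139868292481423487651785844000, .ofNat 5983456041373409814613186607000, .negSucc 398875181849177325753348159]), ((5, 13),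 .ofNat 198744000, [.negSucc 371333652554400615190088669618513, .ofNat 83503853286518020676710548493146, .ofNat 675651515028530554462243843324080, .ofNat 3049042391835610175328393893849544, .ofNat 10137640825963380960722031083417328, .ofNat 27740270562806390706628242421455108, .ofNat 66190485216134931817791986306381232, .ofNat 142475674781554841449031094115021944, .ofNat 287215474576413154676479337801005632, .ofNat 13861316737757031245626382436495, .ofNat 252086656842434549882982075240, .ofNat 35705174518700298580846498880, .negSucc 3854450382591200139233248417759, .negSucc 31063286501009318733166095257759, .negSucc 164580044758488286944182614970479, .negSucc 390932021462630433621397295529599, .negSucc 11061861529069002146169674999, .negSucc 177326082242047611812232383999, .negSucc 1667475267579085558326382103999, .negSucc 8752998069554972498188585661999, .ofNat 583501186033256372312296320]), ((6, 10), .ofNat 3179904000, [.negSucc 9010325469598113278652545788823531, .ofNat 2026201748485133105149594821998298, .ofNat 16394528243147175671676533904553440,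 .ofNat 73984310692163718583536248679195672, .ofNat 245987517445469430611173156096324464, .ofNat 673111269787161408187715770862456004, .ofNat 1606096863791857099679483756904041616, .ofNat 3457139401321432029570818873423539272, .ofNat 6969217274104816331784216368377637616, .ofNat 336341654965089966422066784134985, .ofNat 6116824610612065384455814789020, .ofNat 866377827997044704283699379840, .negSucc 93527349903940466085281424393279, .negSucc 753743485418315038452441793913279, .negSucc 3993496842728941166984397809220639, .negSucc 9485875372823037645650277333177599, .negSucc 268413519730577339912050256999, .negSucc 4302776503714533697032241151999, .negSucc 40460902937397158385779448383999, .negSucc 212389480185613309553264394467999, .ofNat 14158521755002866287862466560]), ((7, 11), .ofNat 3179904000, [.ofNat 9325318289669273820611163736889676, .negSucc 2097035926999765133771337201410513, .negSucc 16967666106198814643320959173668319, .negSucc 76570735205304531346116569683344695, .negSucc 254587018327417953880562364243381551, .negSucc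 696642630314296137300622831047749171, .negSucc 1662244555919099279759163595227236687, .negSucc 3577997864545173150033240346139725895, .negSucc 7212854799770893856569720067255017487, .negSucc 348099854684104157466775579614404, .negSucc 6330663260556340024487624173259, .negSucc 896665612407133082281292331519, .ofNat 96796981372795543403829409661440, .ofNat 780093675195951397231311687157440, .ofNat 4133105876462610733333984464089920, .ofNat 9817492986927089842225439144985600, .ofNat 277797013346921894616027237000, .ofNat 4453197674360816868778252416000, .ofNat 41875379469002924397754219200000, .ofNat 219814424106101699712225565632000, .negSucc 14653490855807851032809066879])]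

theorem NUM_4_18 : NUM_stmt 4 18 1 :=
  NUM_of_certs 4 18 1 (by norm_num) NC_4_18_p NC_4_18_m
    (by decide +kernel) (by decide +kernel) (by decide +kernel)
    (by decide +kernel) (by decide +kernel) (by decide +kernel) rfl rfl

/-- certificate, `m = 4`, `j = 19`, symmetric part -/
def NC_4_19_p : NUM_Cert where
  tri := [(0, 3), (0, 12), (0, 13), (0, 14), (0, 15), (0, 16), (0, 17), (0, 18), (1, 1), (1, 3), (1, 13), (1, 14), (1, 15), (1, 16), (1, 17), (2, 12), (2, 13), (2, 14), (2, 15), (2, 16), (3, 13), (3, 14), (3, 15), (4, 13), (4, 14)]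
  fre := [(0, 0), (0, 16), (1, 17), (3, 15), (4, 12)]
  cols := [((0, 0), [.ofNat 0, .ofNat 0, .ofNat 0, .ofNat 0, .ofNat 0, .ofNat 0, .ofNat 0, .ofNat 0, .ofNat 0, .ofNat 0, .ofNat 0, .ofNat 0, .ofNat 0, .ofNat 0, .ofNat 0, .ofNat 0, .ofNat 0, .ofNat 0, .ofNat 0, .ofNat 0, .ofNat 0, .ofNat 0, .ofNat 0, .ofNat 0, .ofNat 0, .ofNat 2, .ofNat 0, .ofNat 0, .ofNat 0, .ofNat 0]), ((0, 4), [.negSucc 1419, .ofNat 44408, .negSucc 22231, .ofNat 8640, .negSucc 2511, .ofNat 514, .negSucc 65, .ofNat 4, .ofNat 570, .ofNat 23180, .ofNat 313880, .negSucc 117647, .ofNat 32224, .negSucc 5889, .ofNat 570, .ofNat 4268160, .negSucc 2010959, .ofNat 709992, .negSucc 173735, .ofNat 23940, .ofNat 7596960, .negSucc 2395367, .ofNat 441864, .negSucc 18015647, .ofNat 4279104, .ofNat 0, .ofNat 0, .ofNat 0, .ofNat 0, .ofNat 0]), ((0, 8), [.negSucc 1077, .ofNat 50058, .negSucc 26669, .ofNat 11166, .negSucc 3545, .ofNat 804, .negSucc 115, .ofNat 8, .ofNat 418, .ofNat 13794, .ofNat 289674, .negSucc 119129, .ofNat 36366, .negSucc 7523, .ofNat 836, .ofNat 2714910,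 .negSucc 1413257, .ofNat 560538, .negSucc 156749, .ofNat 25080, .ofNat 4029102, .negSucc 1470941, .ofNat 319770, .negSucc 7162847, .ofNat 2046528, .ofNat 0, .ofNat 0, .ofNat 0, .ofNat 0, .ofNat 0]), ((0, 12), [.negSucc 783, .ofNat 50387, .negSucc 27124, .ofNat 11607, .negSucc 3840, .ofNat 934, .negSucc 149, .ofNat 12, .ofNat 266, .ofNat 7448, .ofNat 189791, .negSucc 80996, .ofNat 26467, .negSucc 6117, .ofNat 798, .ofNat 1057977, .negSucc 568574, .ofNat 240597, .negSucc 75410, .ofNat 14364, .ofNat 942837, .negSucc 386630, .ofNat 101745, .negSucc 922487, .ofNat 325584, .ofNat 0, .ofNat 0, .ofNat 0, .ofNat 0, .ofNat 0]), ((0, 16), [.negSucc 409, .ofNat 48568, .negSucc 26571, .ofNat 11508, .negSucc 3859, .ofNat 968, .negSucc 167, .ofNat 16, .ofNat 114, .ofNat 2926, .ofNat 81396, .negSucc 34883, .ofNat 11628, .negSucc 2887, .ofNat 456, .ofNat 151164, .negSucc 81395, .ofNat 34884, .negSucc 11627, .ofNat 2736, .ofNat 27132, .negSucc 11627, .ofNat 3876, .ofNat 0, .ofNat 0, .ofNat 0, .ofNat 1, .ofNat 0, .ofNat 0, .ofNat 0]), ((1, 1), [.negSucc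 1631, .ofNat 37128, .negSucc 17135, .ofNat 6120, .negSucc 1631, .ofNat 306, .negSucc 35, .ofNat 2, .ofNat 646, .ofNat 29070, .ofNat 271320, .negSucc 93023, .ofNat 23256, .negSucc 3875, .ofNat 342, .ofNat 4534920, .negSucc 1953503, .ofNat 627912, .negSucc 139535, .ofNat 17442, .ofNat 8302392, .negSucc 2372111, .ofNat 395352, .negSucc 22139711, .ofNat 4744224, .ofNat 0, .ofNat 0, .ofNat 0, .ofNat 0, .ofNat 0]), ((1, 5), [.negSucc 1169, .ofNat 18655, .negSucc 8581, .ofNat 3061, .negSucc 815, .ofNat 153, .negSucc 17, .ofNat 1, .ofNat 494, .ofNat 17966, .ofNat 117201, .negSucc 40855, .ofNat 10423, .negSucc 1777, .ofNat 161, .ofNat 1641471, .negSucc 727775, .ofNat 242577, .negSucc 56237, .ofNat 7371, .ofNat 2670717, .negSucc 808349, .ofNat 143871, .negSucc 6168959, .ofNat 1432488, .ofNat 0, .ofNat 0, .ofNat 0, .ofNat 0, .ofNat 0]), ((1, 9), [.negSucc 851, .ofNat 18564, .negSucc 8567, .ofNat 3060, .negSucc 815, .ofNat 153, .negSucc 17, .ofNat 1, .ofNat 342, .ofNat 10236, .ofNat 85470, .negSucc 30347, .ofNat 7950, .negSucc 1409, .ofNat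 135, .ofNat 833220, .negSucc 381779, .ofNat 133164, .negSucc 32939, .ofNat 4725, .ofNat 996030, .negSucc 328643, .ofNat 65790, .negSucc 1627919, .ofNat 436968, .ofNat 0, .ofNat 0, .ofNat 0, .ofNat 0, .ofNat 0]), ((1, 13), [.negSucc 549, .ofNat 18551, .negSucc 8566, .ofNat 3060, .negSucc 815, .ofNat 153, .negSucc 17, .ofNat 1, .ofNat 190, .ofNat 4970, .ofNat 51407, .negSucc 18353, .ofNat 4881, .negSucc 897, .ofNat 93, .ofNat 278460, .negSucc 128501, .ofNat 45792, .negSucc 11969, .ofNat 1935, .ofNat 171207, .negSucc 60281, .ofNat 14025, .negSucc 127703, .ofNat 41004, .ofNat 0, .ofNat 0, .ofNat 0, .ofNat 0, .ofNat 0]), ((1, 17), [.negSucc 135, .ofNat 12376, .negSucc 6187, .ofNat 2380, .negSucc 679, .ofNat 136, .negSucc 16, .ofNat 1, .ofNat 38, .ofNat 952, .ofNat 14756, .negSucc 5439, .ofNat 1496, .negSucc 288, .ofNat 35, .ofNat 18564, .negSucc 8567, .ofNat 3060, .negSucc 815, .ofNat 153, .ofNat 0, .ofNat 0, .ofNat 0, .ofNat 0, .ofNat 0, .ofNat 0, .ofNat 0, .ofNat 1, .ofNat 0, .ofNat 0]), ((2, 2), [.negSucc 1359, .ofNat 12376, .negSucc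 4759, .ofNat 1360, .negSucc 271, .ofNat 34, .negSucc 1, .ofNat 0, .ofNat 570, .ofNat 23120, .ofNat 80920, .negSucc 23119, .ofNat 4624, .negSucc 577, .ofNat 34, .ofNat 1644240, .negSucc 622607, .ofNat 172584, .negSucc 32231, .ofNat 3264, .ofNat 2816016, .negSucc 714407, .ofNat 104040, .negSucc 7962527, .ofNat 1553664, .ofNat 0, .ofNat 0, .ofNat 0, .ofNat 0, .ofNat 0]), ((2, 6), [.negSucc 945, .ofNat 6201, .negSucc 2380, .ofNat 680, .negSucc 135, .ofNat 17, .negSucc 0, .ofNat 0, .ofNat 418, .ofNat 13662, .ofNat 30957, .negSucc 8839, .ofNat 1768, .negSucc 220, .ofNat 13, .ofNat 482716, .negSucc 184059, .ofNat 51753, .negSucc 9892, .ofNat 1040, .ofNat 652188, .negSucc 172600, .ofNat 26741, .negSucc 1470703, .ofNat 311168, .ofNat 0, .ofNat 0, .ofNat 0, .ofNat 0, .ofNat 0]), ((2, 10), [.negSucc 643, .ofNat 6188, .negSucc 2379, .ofNat 680, .negSucc 135, .ofNat 17, .negSucc 0, .ofNat 0, .ofNat 266, .ofNat 7308, .ofNat 21420, .negSucc 6119, .ofNat 1224, .negSucc 152, .ofNat 9, .ofNat 222732, .negSucc 85595, .ofNat 24354, .negSucc 4769,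 .ofNat 528, .ofNat 198492, .negSucc 54977, .ofNat 9282, .negSucc 288455, .ofNat 68544, .ofNat 0, .ofNat 0, .ofNat 0, .ofNat 0, .ofNat 0]), ((2, 14), [.negSucc 325, .ofNat 6097, .negSucc 2365, .ofNat 679, .negSucc 135, .ofNat 17, .negSucc 0, .ofNat 0, .ofNat 114, .ofNat 2842, .ofNat 11872, .negSucc 3397, .ofNat 680, .negSucc 84, .ofNat 5, .ofNat 61789, .negSucc 23785, .ofNat 6799, .negSucc 1354, .ofNat 160, .ofNat 23800, .negSucc 6782, .ofNat 1275, .negSucc 11899, .ofNat 3264, .ofNat 0, .ofNat 0, .ofNat 0, .ofNat 0, .ofNat 0]), ((3, 3), [.negSucc 1117, .ofNat 3640, .negSucc 1119, .ofNat 240, .negSucc 31, .ofNat 2, .ofNat 0, .ofNat 0, .ofNat 494, .ofNat 17914, .ofNat 17920, .negSucc 3839, .ofNat 512, .negSucc 31, .ofNat 0, .ofNat 436800, .negSucc 134399, .ofNat 28800, .negSucc 3839, .ofNat 240, .ofNat 611184, .negSucc 125663, .ofNat 14280, .negSucc 1782143, .ofNat 297024, .ofNat 0, .ofNat 0, .ofNat 0, .ofNat 0, .ofNat 0]), ((3, 7), [.negSucc 743, .ofNat 1821, .negSucc 559, .ofNat 120, .negSucc 15, .ofNat 1, .ofNat 0, .ofNat 0, .ofNat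 342, .ofNat 10128, .ofNat 6720, .negSucc 1439, .ofNat 192, .negSucc 11, .ofNat 0, .ofNat 120240, .negSucc 36959, .ofNat 7920, .negSucc 1055, .ofNat 66, .ofNat 122276, .negSucc 25607, .ofNat 3025, .negSucc 262415, .ofNat 46728, .ofNat 0, .ofNat 0, .ofNat 0, .ofNat 0, .ofNat 0]), ((3, 11), [.negSucc 449, .ofNat 1820, .negSucc 559, .ofNat 120, .negSucc 15, .ofNat 1, .ofNat 0, .ofNat 0, .ofNat 190, .ofNat 4870, .ofNat 4480, .negSucc 959, .ofNat 128, .negSucc 7, .ofNat 0, .ofNat 50960, .negSucc 15679, .ofNat 3360, .negSucc 447, .ofNat 28, .ofNat 31332, .negSucc 6663, .ofNat 826, .negSucc 38751, .ofNat 7504, .ofNat 0, .ofNat 0, .ofNat 0, .ofNat 0, .ofNat 0]), ((3, 15), [.negSucc 107, .ofNat 1365, .negSucc 454, .ofNat 105, .negSucc 14, .ofNat 1, .ofNat 0, .ofNat 0, .ofNat 38, .ofNat 924, .ofNat 1925, .negSucc 434, .ofNat 61, .negSucc 3, .ofNat 0, .ofNat 9555, .negSucc 3044, .ofNat 675, .negSucc 92, .ofNat 6, .ofNat 2135, .negSucc 464, .ofNat 63, .negSucc 559, .ofNat 120, .ofNat 0, .ofNat 0, .ofNat 0, .ofNat 1, .ofNat 0]), ((4, 4), [.negSucc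 901, .ofNat 910, .negSucc 209, .ofNat 30, .negSucc 1, .ofNat 0, .ofNat 0, .ofNat 0, .ofNat 418, .ofNat 13618, .ofNat 3150, .negSucc 449, .ofNat 30, .ofNat 0, .ofNat 0, .ofNat 95550, .negSucc 22049, .ofNat 3150, .negSucc 209, .ofNat 0, .ofNat 95550, .negSucc 13649, .ofNat 910, .negSucc 276639, .ofNat 34944, .ofNat 0, .ofNat 0, .ofNat 0, .ofNat 0, .ofNat 0]), ((4, 8), [.negSucc 559, .ofNat 455, .negSucc 104, .ofNat 15, .negSucc 0, .ofNat 0, .ofNat 0, .ofNat 0, .ofNat 266, .ofNat 7224, .ofNat 1155, .negSucc 164, .ofNat 11, .ofNat 0, .ofNat 0, .ofNat 25025, .negSucc 5774, .ofNat 825, .negSucc 54, .ofNat 0, .ofNat 17325, .negSucc 2474, .ofNat 165, .negSucc 34187, .ofNat 4488, .ofNat 0, .ofNat 0, .ofNat 0, .ofNat 0, .ofNat 0]), ((4, 12), [.negSucc 265, .ofNat 454, .negSucc 104, .ofNat 15, .negSucc 0, .ofNat 0, .ofNat 0, .ofNat 0, .ofNat 114, .ofNat 2782, .ofNat 735, .negSucc 104, .ofNat 7, .ofNat 0, .ofNat 0, .ofNat 9549, .negSucc 2204, .ofNat 315, .negSucc 20, .ofNat 0, .ofNat 3675, .negSucc 524, .ofNat 35, .negSucc 3667, .ofNat 504,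 .ofNat 0, .ofNat 0, .ofNat 0, .ofNat 0, .ofNat 1]), ((5, 5), [.negSucc 707, .ofNat 182, .negSucc 27, .ofNat 2, .ofNat 0, .ofNat 0, .ofNat 0, .ofNat 0, .ofNat 342, .ofNat 10092, .ofNat 392, .negSucc 27, .ofNat 0, .ofNat 0, .ofNat 0, .ofNat 16562, .negSucc 2547, .ofNat 182, .ofNat 0, .ofNat 0, .ofNat 10192, .negSucc 727, .ofNat 0, .negSucc 28027, .ofNat 2002, .ofNat 0, .ofNat 0, .ofNat 0, .ofNat 0, .ofNat 0]), ((5, 9), [.negSucc 389, .ofNat 91, .negSucc 13, .ofNat 1, .ofNat 0, .ofNat 0, .ofNat 0, .ofNat 0, .ofNat 190, .ofNat 4810, .ofNat 140, .negSucc 9, .ofNat 0, .ofNat 0, .ofNat 0, .ofNat 4095, .negSucc 629, .ofNat 45, .ofNat 0, .ofNat 0, .ofNat 1680, .negSucc 119, .ofNat 0, .negSucc 2939, .ofNat 210, .ofNat 0, .ofNat 0, .ofNat 0, .ofNat 0, .ofNat 0]), ((5, 13), [.negSucc 87, .ofNat 78, .negSucc 12, .ofNat 1, .ofNat 0, .ofNat 0, .ofNat 0, .ofNat 0, .ofNat 38, .ofNat 904, .ofNat 79, .negSucc 5, .ofNat 0, .ofNat 0, .ofNat 0, .ofNat 1235, .negSucc 199, .ofNat 15, .ofNat 0, .ofNat 0, .ofNat 270, .negSucc 19, .ofNat 0, .negSucc 204,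 .ofNat 15, .ofNat 0, .ofNat 0, .ofNat 0, .ofNat 0, .ofNat 0]), ((6, 6), [.negSucc 531, .ofNat 26, .negSucc 1, .ofNat 0, .ofNat 0, .ofNat 0, .ofNat 0, .ofNat 0, .ofNat 266, .ofNat 7196, .ofNat 26, .ofNat 0, .ofNat 0, .ofNat 0, .ofNat 0, .ofNat 2028, .negSucc 155, .ofNat 0, .ofNat 0, .ofNat 0, .ofNat 572, .ofNat 0, .ofNat 0, .negSucc 1429, .ofNat 0, .ofNat 0, .ofNat 0, .ofNat 0, .ofNat 0, .ofNat 0]), ((6, 10), [.negSucc 229, .ofNat 13, .negSucc 0, .ofNat 0, .ofNat 0, .ofNat 0, .ofNat 0, .ofNat 0, .ofNat 114, .ofNat 2746, .ofNat 9, .ofNat 0, .ofNat 0, .ofNat 0, .ofNat 0, .ofNat 468, .negSucc 35, .ofNat 0, .ofNat 0, .ofNat 0, .ofNat 84, .ofNat 0, .ofNat 0, .negSucc 125, .ofNat 0, .ofNat 0, .ofNat 0, .ofNat 0, .ofNat 0, .ofNat 0]), ((7, 7), [.negSucc 369, .ofNat 2, .ofNat 0, .ofNat 0, .ofNat 0, .ofNat 0, .ofNat 0, .ofNat 0, .ofNat 190, .ofNat 4790, .ofNat 0, .ofNat 0, .ofNat 0, .ofNat 0, .ofNat 0, .ofNat 132, .ofNat 0, .ofNat 0, .ofNat 0, .ofNat 0, .ofNat 0, .ofNat 0, .ofNat 0, .ofNat 0, .ofNat 0, .ofNat 0, .ofNat 0, .ofNat 0, .ofNat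 0, .ofNat 0]), ((7, 11), [.negSucc 75, .ofNat 1, .ofNat 0, .ofNat 0, .ofNat 0, .ofNat 0, .ofNat 0, .ofNat 0, .ofNat 38, .ofNat 892, .ofNat 0, .ofNat 0, .ofNat 0, .ofNat 0, .ofNat 0, .ofNat 28, .ofNat 0, .ofNat 0, .ofNat 0, .ofNat 0, .ofNat 0, .ofNat 0, .ofNat 0, .ofNat 0, .ofNat 0, .ofNat 0, .ofNat 0, .ofNat 0, .ofNat 0, .ofNat 0]), ((8, 8), [.negSucc 217, .ofNat 0, .ofNat 0, .ofNat 0, .ofNat 0, .ofNat 0, .ofNat 0, .ofNat 0, .ofNat 114, .ofNat 2734, .ofNat 0, .ofNat 0, .ofNat 0, .ofNat 0, .ofNat 0, .ofNat 0, .ofNat 0, .ofNat 0, .ofNat 0, .ofNat 0, .ofNat 0, .ofNat 0, .ofNat 0, .ofNat 0, .ofNat 0, .ofNat 0, .ofNat 0, .ofNat 0, .ofNat 0, .ofNat 0]), ((9, 9), [.negSucc 71, .ofNat 0, .ofNat 0, .ofNat 0, .ofNat 0, .ofNat 0, .ofNat 0, .ofNat 0, .ofNat 38, .ofNat 888, .ofNat 0, .ofNat 0, .ofNat 0, .ofNat 0, .ofNat 0, .ofNat 0, .ofNat 0, .ofNat 0, .ofNat 0, .ofNat 0, .ofNat 0, .ofNat 0, .ofNat 0, .ofNat 0, .ofNat 0, .ofNat 0, .ofNat 0, .ofNat 0, .ofNat 0, .ofNat 0])]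
  tg := [((0, 0), .ofNat 1, [.ofNat 0, .ofNat 0, .ofNat 0, .ofNat 0, .ofNat 0, .ofNat 0, .ofNat 0, .ofNat 0, .ofNat 0, .ofNat 0, .ofNat 0, .ofNat 0, .ofNat 0, .ofNat 0, .ofNat 0, .ofNat 0, .ofNat 0, .ofNat 0, .ofNat 0, .ofNat 0, .ofNat 0, .ofNat 0, .ofNat 0, .ofNat 0, .ofNat 0, .ofNat 1, .ofNat 0, .ofNat 0, .ofNat 0, .ofNat 0]), ((0, 4), .ofNat 67721472, [.ofNat 4426793280, .ofNat 29875862016, .negSucc 70364688575, .ofNat 82573255723560, .ofNat 826554991934364, .ofNat 3771544820309760, .ofNat 10639149721780797, .ofNat 17720208528369822, .ofNat 5431974912, .ofNat 126479808, .negSucc 2615878842815, .ofNat 3429475146720, .ofNat 160628491341192, .ofNat 787638107350707, .ofNat 1786853500275456, .negSucc 452664575, .negSucc 1533766353603, .negSucc 6739553710367, .ofNat 11624322760974, .ofNat 91387052539538, .negSucc 499358583643, .negSucc 3189977089209, .negSucc 3322392192415, .negSucc 79985252143, .negSucc 599256975847, .ofNat 0, .negSucc 616440015015551, .negSucc 19671761403839, .negSucc 1284394151039, .ofNat 343079798880]), ((0, 8),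 .ofNat 67721472, [.ofNat 243996480, .ofNat 1646701056, .negSucc 4658397119, .ofNat 4183543291144, .ofNat 41959405050156, .ofNat 191597040870144, .ofNat 540694034917937, .ofNat 900782616287430, .ofNat 299400192, .ofNat 6971328, .negSucc 133766948543, .ofNat 166947186784, .ofNat 8135272635720, .ofNat 39970553890239, .ofNat 90754906107968, .negSucc 24950015, .negSucc 78189858547, .negSucc 344723493791, .ofNat 582341799558, .ofNat 4629190712170, .negSucc 25417700075, .negSucc 162517801729, .negSucc 170152453823, .negSucc 4068332015, .negSucc 30491452551, .ofNat 0, .negSucc 30678421797503, .negSucc 740373054719, .negSucc 65204087519, .ofNat 17428201440]), ((0, 12), .ofNat 106419456, [.ofNat 1659840, .ofNat 11202048, .negSucc 116390975, .ofNat 85955403128, .ofNat 858945458004, .ofNat 3913721799936, .ofNat 11025120633127, .ofNat 18340339472154, .ofNat 2036736, .ofNat 47424, .negSucc 2662585151, .ofNat 4030239776, .ofNat 168591093720, .ofNat 821532629481, .ofNat 1857787401280, .negSucc 169727, .negSucc 1574838859, .negSucc 6845658463,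 .ofNat 12653849802, .ofNat 96001393974, .negSucc 515809171, .negSucc 3286284109, .negSucc 3365258527, .negSucc 82807951, .negSucc 619793207, .ofNat 0, .negSucc 668125531007, .negSucc 32482120319, .negSucc 1342336319, .ofNat 356747040]), ((0, 16), .ofNat 1, [.ofNat 0, .ofNat 0, .ofNat 0, .ofNat 0, .ofNat 0, .ofNat 0, .ofNat 0, .ofNat 0, .ofNat 0, .ofNat 0, .ofNat 0, .ofNat 0, .ofNat 0, .ofNat 0, .ofNat 0, .ofNat 0, .ofNat 0, .ofNat 0, .ofNat 0, .ofNat 0, .ofNat 0, .ofNat 0, .ofNat 0, .ofNat 0, .ofNat 0, .ofNat 0, .ofNat 1, .ofNat 0, .ofNat 0, .ofNat 0]), ((1, 1), .ofNat 18157819680, [.negSucc 2894408243999, .negSucc 19533991276799, .ofNat 45494268685632, .negSucc 51769526683859991, .negSucc 518435309738909699, .negSucc 2366062146577768703, .negSucc 6675302461679535754, .negSucc 11119226127609038993, .negSucc 3551634777599, .negSucc 82697378399, .ofNat 1644338174236224, .negSucc 2123098836134751, .negSucc 100664918426258231, .negSucc 493919438275388420, .negSucc 1120842988682670847, .ofNat 295969564800, .ofNat 963228674887772, .ofNat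 4237031304313824, .negSucc 7258949154981281, .negSucc 57271312982459325, .ofNat 313437595277316, .ofNat 2002843297874390, .ofNat 2089453974375264, .ofNat 50193550848336, .ofNat 376096233192280, .ofNat 0, .ofNat 384469562557941120, .ofNat 11424992409130560, .ofNat 805572442047360, .negSucc 215203965493919]), ((1, 5), .ofNat 62985, [.negSucc 8039849, .negSucc 54259919, .ofNat 133241121, .negSucc 155508524555, .negSucc 1556291909894, .negSucc 7100468767391, .negSucc 20027870521559, .negSucc 33355291430006, .negSucc 9865439, .negSucc 229709, .ofNat 4918192497, .negSucc 6514858880, .negSucc 302631108605, .negSucc 1483302739337, .negSucc 3364350528113, .ofNat 822120, .ofNat 2885462666, .ofNat 12669821472, .negSucc 21955368215, .negSucc 172182182032, .ofNat 939801378, .ofNat 6002460130, .ofNat 6244469682, .ofNat 150557508, .ofNat 1127908180, .ofNat 0, .ofNat 1164887923680, .ofNat 38808081780, .ofNat 2418498030, .negSucc 645974159]), ((1, 9), .ofNat 25395552, [.negSucc 87141599, .negSucc 588107519, .ofNat 2478962304, .negSucc 1530845632903,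 .negSucc 15391424473739, .negSucc 70329257686271, .negSucc 198521919547272, .negSucc 330753552446357, .negSucc 106928639, .negSucc 2489759, .ofNat 49352469888, .negSucc 59425507903, .negSucc 2981310110183, .negSucc 14667822893510, .negSucc 33318759310623, .ofNat 8910720, .ofNat 28778446804, .ofNat 127167723168, .negSucc 211955868725, .negSucc 1697217701017, .ofNat 9347841612, .ofNat 59807872210, .ofNat 62840789952, .ofNat 1495464432, .ofNat 11211408200, .ofNat 0, .ofNat 11048250245760, .ofNat 186025240128, .ofNat 23919788256, .negSucc 6402500831]), ((1, 13), .ofNat 8112, [.ofNat 0, .ofNat 0, .ofNat 8112, .negSucc 6338471, .negSucc 63162875, .negSucc 287399423, .negSucc 808771004, .negSucc 1344275189, .ofNat 0, .ofNat 0, .ofNat 192432, .negSucc 322559, .negSucc 12479879, .negSucc 60527666, .negSucc 136564991, .ofNat 0, .ofNat 114644, .ofNat 494112, .negSucc 961085, .negSucc 7107897, .ofNat 37708, .ofNat 239738, .ofNat 242224, .ofNat 6064, .ofNat 45352, .ofNat 0, .ofNat 50284416, .ofNat 2970240, .ofNat 100464, .negSucc 26207]), ((1,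 17), .ofNat 1, [.ofNat 0, .ofNat 0, .ofNat 0, .ofNat 0, .ofNat 0, .ofNat 0, .ofNat 0, .ofNat 0, .ofNat 0, .ofNat 0, .ofNat 0, .ofNat 0, .ofNat 0, .ofNat 0, .ofNat 0, .ofNat 0, .ofNat 0, .ofNat 0, .ofNat 0, .ofNat 0, .ofNat 0, .ofNat 0, .ofNat 0, .ofNat 0, .ofNat 0, .ofNat 0, .ofNat 0, .ofNat 1, .ofNat 0, .ofNat 0]), ((2, 2), .ofNat 56434560, [.ofNat 22133966400, .ofNat 149379310080, .negSucc 351823442879, .ofNat 391753332842200, .ofNat 3923825369476068, .ofNat 17909003571194112, .ofNat 50528276674845095, .ofNat 84168595598126202, .ofNat 27159874560, .ofNat 632399040, .negSucc 12454427477951, .ofNat 16000361281072, .ofNat 761698804554744, .ofNat 3738092961995433, .ofNat 8483556408296192, .negSucc 2263322879, .negSucc 7293354100139, .negSucc 32092862999519, .ofNat 54863781637770, .ofNat 433357286009494, .negSucc 2372890353363, .negSucc 15163983542605, .negSucc 15828257266143, .negSucc 379963403343, .negSucc 2847140311415, .ofNat 0, .negSucc 2904257776387967, .negSucc 84106857097535, .negSucc 6097110854015, .ofNat 1628867883552]),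 ((2, 6), .ofNat 12093120, [.ofNat 1219982400, .ofNat 8233505280, .negSucc 23291985599, .ofNat 25804858007320, .ofNat 258164451326628, .ofNat 1177596637631232, .ofNat 3320944349456615, .ofNat 5529947513472522, .ofNat 1497000960, .ofNat 34856640, .negSucc 813496489151, .ofNat 1100228233552, .ofNat 50269509861144, .ofNat 246171175094313, .ofNat 558105990838592, .negSucc 124750079, .negSucc 477860052619, .negSucc 2095108192799, .ofNat 3665773150410, .ofNat 28603647308614, .negSucc 155767388723, .negSucc 994498788205, .negSucc 1032171720383, .negSucc 24962255183, .negSucc 186978505335, .ofNat 0, .negSucc 194574726073727, .negSucc 7000458855935, .negSucc 401269473695, .ofNat 107166407712]), ((2, 10), .ofNat 24186240, [.ofNat 24897600, .ofNat 168030720, .negSucc 1745864639, .ofNat 555566908120, .ofNat 5621096719332, .ofNat 25723064410368, .ofNat 72634347566375, .ofNat 121000660547418, .ofNat 30551040, .ofNat 711360, .negSucc 18224991167, .ofNat 20617055728, .ofNat 1088654713656, .ofNat 5367526839657, .ofNat 12197418150848, .negSucc 2545919,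 .negSucc 10580010859, .negSucc 46921640159, .ofNat 76674768330, .ofNat 620671245046, .negSucc 3434258195, .negSucc 21996726733, .negSucc 23240892575, .negSucc 548997455, .negSucc 4117905783, .ofNat 0, .negSucc 3851460392831, .ofNat 6386779776, .negSucc 8725589183, .ofNat 2352918048]), ((2, 14), .ofNat 936, [.ofNat 0, .ofNat 0, .ofNat 0, .ofNat 305200, .ofNat 3020796, .ofNat 13715520, .ofNat 38558261, .ofNat 64059354, .ofNat 0, .ofNat 0, .negSucc 9023, .ofNat 16624, .ofNat 599208, .ofNat 2892987, .ofNat 6515840, .ofNat 0, .negSucc 5419, .negSucc 23159, .ofNat 47154, .ofNat 340918, .negSucc 1787, .negSucc 11341, .negSucc 11303, .negSucc 287, .negSucc 2151, .ofNat 0, .negSucc 2448575, .negSucc 169727, .negSucc 5303, .ofNat 1248]), ((3, 3), .ofNat 2418624, [.negSucc 1029100799, .negSucc 6945269759, .ofNat 17054863488, .negSucc 17920870372887, .negSucc 179568189420803, .negSucc 819699604421567, .negSucc 2312880622041298, .negSucc 3852919956207617, .negSucc 1262776319, .negSucc 29402879, .ofNat 570792789888, .negSucc 726099518799, .negSucc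 34841836548455, .negSucc 171057504214844, .negSucc 388279249877311, .ofNat 105231360, .ofNat 334050557804, .ofNat 1470904944352, .negSucc 2504098374017, .negSucc 19823419224973, .ofNat 108649665396, .ofNat 694453009238, .ofNat 725639282016, .ofNat 17395144464, .ofNat 130354917848, .ofNat 0, .ofNat 132382383329664, .ofNat 3628554361536, .ofNat 279042294336, .negSucc 74552069279]), ((3, 7), .ofNat 2821728, [.negSucc 116188799, .negSucc 784143359, .ofNat 3305283072, .negSucc 3107410015751, .negSucc 31074753546059, .negSucc 141687256468991, .negSucc 399416046848048, .negSucc 664862860327589, .negSucc 142571519, .negSucc 3319679, .ofNat 97365550848, .negSucc 137160673775, .negSucc 6068126609495, .negSucc 29662886303486, .negSucc 67188064870271, .ofNat 11880960, .ofNat 57333404196, .ofNat 250608351648, .negSucc 447132343349, .negSucc 3453724099209, .ofNat 18720925436, .ofNat 119432752850, .ofNat 123367230368, .ofNat 3002069168, .ofNat 22480357320, .ofNat 0, .ofNat 23712165509760, .ofNat 966486987648, .ofNat 48327735456, .negSucc 12903762143]),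 ((3, 11), .ofNat 7488, [.ofNat 0, .ofNat 0, .ofNat 194688, .negSucc 26867847, .negSucc 275942699, .negSucc 1266195839, .negSucc 3575634496, .negSucc 5952053141, .ofNat 0, .ofNat 0, .ofNat 912768, .negSucc 943599, .negSucc 53684663, .negSucc 265217390, .negSucc 602214271, .ofNat 0, .ofNat 526052, .ofNat 2342304, .negSucc 3763829, .negSucc 30735129, .ofNat 170940, .ofNat 1096274, .ofNat 1164192, .ofNat 27312, .ofNat 205000, .ofNat 0, .ofNat 160617600, .negSucc 11032319, .ofNat 421824, .negSucc 121055]), ((3, 15), .ofNat 1, [.ofNat 0, .ofNat 0, .ofNat 0, .ofNat 0, .ofNat 0, .ofNat 0, .ofNat 0, .ofNat 0, .ofNat 0, .ofNat 0, .ofNat 0, .ofNat 0, .ofNat 0, .ofNat 0, .ofNat 0, .ofNat 0, .ofNat 0, .ofNat 0, .ofNat 0, .ofNat 0, .ofNat 0, .ofNat 0, .ofNat 0, .ofNat 0, .ofNat 0, .ofNat 0, .ofNat 0, .ofNat 0, .ofNat 1, .ofNat 0]), ((4, 4), .ofNat 4837248, [.ofNat 1219982400, .ofNat 8233505280, .negSucc 23291985599, .ofNat 20913916166920, .ofNat 209761508268972, .ofNat 957833650146048, .ofNat 2703058598024489, .ofNat 4503232022151510, .ofNat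 1497000960, .ofNat 34856640, .negSucc 668713191359, .ofNat 834471487360, .ofNat 40668649287432, .ofNat 199818882214983, .ofNat 453702989543744, .negSucc 124750079, .negSucc 390871333459, .negSucc 1723312970399, .ofNat 2910948518838, .ofNat 23141543321434, .negSucc 127061135819, .negSucc 812423723089, .negSucc 850628686655, .negSucc 20337008879, .negSucc 152423515719, .ofNat 0, .negSucc 153353914077311, .negSucc 3704387092223, .negSucc 326052685919, .ofNat 87118433376]), ((4, 8), .ofNat 744192, [.ofNat 5745600, .ofNat 38776320, .negSucc 402891839, .ofNat 298122593720, .ofNat 2978736146100, .ofNat 13570802662656, .ofNat 38227097376127, .ofNat 63589961571498, .ofNat 7050240, .ofNat 164160, .negSucc 9235341119, .ofNat 13991514080, .ofNat 584771307672, .ofNat 2848980215313, .ofNat 6441808849984, .negSucc 587519, .negSucc 5463359019, .negSucc 23743355999, .ofNat 43918784538, .ofNat 332991015974, .negSucc 1789703219, .negSucc 11401027389, .negSucc 11669522975, .negSucc 287358479, .negSucc 2150629879, .ofNat 0, .negSucc 2317252026239,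 .negSucc 112050136703, .negSucc 4640843327, .ofNat 1237622304]), ((4, 12), .ofNat 1, [.ofNat 0, .ofNat 0, .ofNat 0, .ofNat 0, .ofNat 0, .ofNat 0, .ofNat 0, .ofNat 0, .ofNat 0, .ofNat 0, .ofNat 0, .ofNat 0, .ofNat 0, .ofNat 0, .ofNat 0, .ofNat 0, .ofNat 0, .ofNat 0, .ofNat 0, .ofNat 0, .ofNat 0, .ofNat 0, .ofNat 0, .ofNat 0, .ofNat 0, .ofNat 0, .ofNat 0, .ofNat 0, .ofNat 0, .ofNat 1]), ((5, 5), .ofNat 3023280, [.negSucc 261424799, .negSucc 1764322559, .ofNat 7436886912, .negSucc 4590579647911, .negSucc 46157386541939, .negSucc 210922757220863, .negSucc 595401128226594, .negSucc 991991941933553, .negSucc 320785919, .negSucc 7469279, .ofNat 147989579664, .negSucc 178093996411, .negSucc 8939752438601, .negSucc 43987363040060, .negSucc 99925885916127, .ofNat 26732160, .ofNat 86288718592, .ofNat 381339834864, .negSucc 635344201796, .negSucc 5089239461005, .ofNat 28026189426, .ofNat 179323694965, .ofNat 188461625184, .ofNat 4483311876, .ofNat 33612396260, .ofNat 0, .ofNat 33118629598080, .ofNat 563434584960, .ofNat 71829101760, .negSucc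 19189765919]), ((5, 9), .ofNat 3744, [.ofNat 0, .ofNat 0, .ofNat 535392, .negSucc 416765607, .negSucc 4151241755, .negSucc 18879514367, .negSucc 53112800884, .negSucc 88267285997, .ofNat 0, .ofNat 0, .ofNat 12660000, .negSucc 21276303, .negSucc 820904927, .negSucc 3978167354, .negSucc 8970964735, .ofNat 0, .ofNat 7546772, .ofNat 32495808, .negSucc 63386273, .negSucc 467587905, .ofNat 2483748, .ofNat 15782942, .ofNat 15913632, .ofNat 399648, .ofNat 2987992, .ofNat 0, .ofNat 3298928256, .ofNat 188822400, .ofNat 6524544, .negSucc 1723487]), ((5, 13), .ofNat 3744, [.ofNat 0, .ofNat 0, .ofNat 0, .negSucc 419719, .negSucc 4281083, .negSucc 20077823, .negSucc 57216780, .negSucc 94429565, .ofNat 0, .ofNat 0, .ofNat 13152, .negSucc 8455, .negSucc 767027, .negSucc 4036994, .negSucc 9498879, .ofNat 0, .ofNat 7516, .ofNat 36672, .negSucc 34079, .negSucc 427921, .ofNat 2352, .ofNat 15796, .ofNat 20448, .ofNat 360, .ofNat 2768, .ofNat 0, .ofNat 12714624, .ofNat 3139968, .ofNat 12480, .negSucc 6239]), ((6, 6), .ofNat 157210560, [.ofNat 2265681600,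 .ofNat 15290795520, .negSucc 158873682239, .ofNat 50813139786920, .ofNat 514227486608892, .ofNat 2353907351947008, .ofNat 6647974751559085, .ofNat 11075202175040478, .ofNat 2780144640, .ofNat 64733760, .negSucc 1665491616767, .ofNat 1884061230128, .ofNat 99543887443056, .ofNat 491030174485827, .ofNat 1116220517171008, .negSucc 231678719, .negSucc 966592310739, .negSucc 4288788785759, .ofNat 7000290980970, .ofNat 56747818714706, .negSucc 313641497075, .negSucc 2009525948613, .negSucc 2125516658015, .negSucc 50120397695, .negSucc 376017524503, .ofNat 0, .negSucc 351718135396991, .negSucc 134506130303, .negSucc 803453187263, .ofNat 214341280608]), ((6, 10), .ofNat 18720, [.ofNat 0, .ofNat 0, .ofNat 0, .ofNat 338233000, .ofNat 3338432748, .ofNat 15107569152, .ofNat 42355318355, .ofNat 70201173762, .ofNat 0, .ofNat 0, .negSucc 10008671, .ofNat 18958072, .ofNat 666585024, .ofNat 3200768253, .ofNat 7180854272, .ofNat 0, .negSucc 6035419, .negSucc 25606079, .ofNat 53503590, .ofNat 379655374, .negSucc 1998443, .negSucc 12635785, .negSucc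 12405983, .negSucc 322943, .negSucc 2408775, .ofNat 0, .negSucc 2624888447, .negSucc 134848895, .negSucc 5730815, .ofNat 1371552]), ((7, 7), .ofNat 248976, [.ofNat 0, .negSucc 183455, .ofNat 58649760, .negSucc 10126904143, .negSucc 103544949851, .negSucc 475546049471, .negSucc 1344510729360, .negSucc 2239031413349, .ofNat 0, .ofNat 0, .ofNat 335313408, .negSucc 377860279, .negSucc 20099858303, .negSucc 99385186526, .negSucc 226147507263, .ofNat 6552, .ofNat 193941676, .ofNat 862728864, .negSucc 1410849473, .negSucc 11479493833, .ofNat 62941044, .ofNat 404063182, .ofNat 429700320, .ofNat 10039680, .ofNat 75424424, .ofNat 0, .ofNat 62484581952, .negSucc 1210118207, .ofNat 162071520, .negSucc 43191407]), ((7, 11), .ofNat 497952, [.ofNat 0, .ofNat 864864, .ofNat 11243232, .ofNat 4034201864, .ofNat 39745393380, .ofNat 181425144576, .ofNat 513956064475, .ofNat 861693745842, .ofNat 0, .ofNat 0, .negSucc 116911487, .ofNat 204528128, .ofNat 7721380632, .ofNat 37685041461, .ofNat 85746909952, .negSucc 13103, .negSucc 69971931, .negSucc 303403487,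 .ofNat 578327946, .ofNat 4364503262, .negSucc 22887875, .negSucc 146041533, .negSucc 149868287, .negSucc 3666095, .negSucc 27475159, .ofNat 0, .negSucc 35464141439, .negSucc 4210018175, .negSucc 42491903, .ofNat 16764384]), ((8, 8), .ofNat 895356, [.negSucc 727775, .negSucc 1790711, .negSucc 13918715, .ofNat 11757172868, .ofNat 117543088593, .ofNat 538267255716, .ofNat 1522943210257, .ofNat 2535920397666, .negSucc 1490831, .ofNat 4788, .negSucc 347394251, .ofNat 612880226, .ofNat 23057852097, .ofNat 112718799999, .ofNat 256494616540, .negSucc 40697, .negSucc 207481956, .negSucc 900255263, .ofNat 1726619433, .ofNat 13048778162, .negSucc 67726316, .negSucc 432704688, .negSucc 445305887, .negSucc 10825667, .negSucc 81218995, .ofNat 0, .negSucc 91156845527, .negSucc 12635318135, .negSucc 168354059, .ofNat 48403488]), ((9, 9), .ofNat 7469280, [.ofNat 22407840, .ofNat 74692800, .ofNat 709581600, .negSucc 133462999599, .negSucc 1351027939463, .negSucc 6195012959615, .negSucc 17508309545614, .negSucc 29096985545225, .ofNat 42850080, .ofNat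 0, .ofNat 4053582816, .negSucc 7045516995, .negSucc 267487416671, .negSucc 1305824854688, .negSucc 2963629723135, .ofNat 0, .ofNat 2417026100, .ofNat 10477785600, .negSucc 20184943169, .negSucc 151906877541, .ofNat 791709252, .ofNat 5055015398, .ofNat 5195012832, .ofNat 126709632, .ofNat 950112328, .ofNat 0, .ofNat 1198775620224, .ofNat 168784482048, .ofNat 1912467648, .negSucc 565839455])]

/-- certificate, `m = 4`, `j = 19`, antisymmetric part -/
def NC_4_19_m : NUM_Cert where
  tri := [(0, 1), (0, 4), (0, 10), (0, 13), (0, 14), (0, 15), (0, 16), (0, 17), (0, 18), (0, 19), (1, 2), (1, 7), (1, 12), (1, 14), (1, 15), (1, 16), (1, 17), (1, 18), (2, 16), (2, 17)]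
  fre := []
  cols := [((0, 4), [.ofNat 8, .negSucc 2511, .negSucc 94379, .ofNat 32032, .negSucc 14615, .ofNat 5240, .negSucc 1423, .ofNat 276, .negSucc 33, .ofNat 2, .ofNat 570, .negSucc 642199, .ofNat 869440, .ofNat 231192, .negSucc 84055, .ofNat 23180, .negSucc 4559, .ofNat 570, .negSucc 179549, .ofNat 35910]), ((0, 8), [.ofNat 16, .negSucc 3615, .negSucc 92421, .ofNat 27594, .negSucc 12089, .ofNat 4206, .negSucc 1133, .ofNat 226, .negSucc 29, .ofNat 2, .ofNat 836, .negSucc 547997, .ofNat 560538, .ofNat 136686, .negSucc 48905, .ofNat 13794, .negSucc 2925, .ofNat 418, .negSucc 81509, .ofNat 18810]), ((0, 12), [.ofNat 24, .negSucc 4335, .negSucc 92443, .ofNat 27139, .negSucc 11648, .ofNat 3911, .negSucc 1003, .ofNat 192, .negSucc 25, .ofNat 2, .ofNat 798, .negSucc 352696, .ofNat 352735, .ofNat 81795, .negSucc 27796, .ofNat 7448, .negSucc 1595, .ofNat 266, .negSucc 26333, .ofNat 7182]), ((0, 16), [.ofNat 32, .negSucc 5695, .negSucc 100385, .ofNat 27692, .negSucc 11747, .ofNat 3892, .negSucc 969, .ofNat 174, .negSucc 21, .ofNat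 2, .ofNat 456, .negSucc 151163, .ofNat 151164, .ofNat 34884, .negSucc 11627, .ofNat 2926, .negSucc 569, .ofNat 114, .negSucc 3077, .ofNat 1026]), ((1, 5), [.ofNat 8, .negSucc 2063, .negSucc 42756, .ofNat 8554, .negSucc 3058, .ofNat 816, .negSucc 152, .ofNat 18, .negSucc 0, .ofNat 0, .ofNat 514, .negSucc 383850, .ofNat 261690, .ofNat 44824, .negSucc 12424, .ofNat 2506, .negSucc 342, .ofNat 28, .negSucc 20474, .ofNat 3276]), ((1, 9), [.ofNat 16, .negSucc 2975, .negSucc 43756, .ofNat 8568, .negSucc 3059, .ofNat 816, .negSucc 152, .ofNat 18, .negSucc 0, .ofNat 0, .ofNat 756, .negSucc 316115, .ofNat 185760, .ofNat 30852, .negSucc 8369, .ofNat 1650, .negSucc 224, .ofNat 20, .negSucc 9044, .ofNat 1620]), ((1, 13), [.ofNat 24, .negSucc 3759, .negSucc 44043, .ofNat 8569, .negSucc 3059, .ofNat 816, .negSucc 152, .ofNat 18, .negSucc 0, .ofNat 0, .ofNat 726, .negSucc 192659, .ofNat 111397, .ofNat 18366, .negSucc 4910, .ofNat 938, .negSucc 122, .ofNat 12, .negSucc 2654, .ofNat 540]), ((1, 17), [.ofNat 32, .negSucc 5439, .negSucc 63205, .ofNat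 10948, .negSucc 3739, .ofNat 952, .negSucc 169, .ofNat 19, .negSucc 0, .ofNat 0, .ofNat 424, .negSucc 83095, .ofNat 43316, .ofNat 6800, .negSucc 1767, .ofNat 323, .negSucc 36, .ofNat 4, .negSucc 152, .ofNat 36]), ((2, 6), [.ofNat 8, .negSucc 1679, .negSucc 19161, .ofNat 2379, .negSucc 679, .ofNat 136, .negSucc 16, .ofNat 1, .ofNat 0, .ofNat 0, .ofNat 466, .negSucc 223651, .ofNat 80223, .ofNat 8840, .negSucc 1767, .ofNat 221, .negSucc 12, .ofNat 0, .negSucc 1611, .ofNat 156]), ((2, 10), [.ofNat 16, .negSucc 2463, .negSucc 19448, .ofNat 2380, .negSucc 679, .ofNat 136, .negSucc 16, .ofNat 1, .ofNat 0, .ofNat 0, .ofNat 692, .negSucc 174659, .ofNat 55692, .ofNat 6120, .negSucc 1223, .ofNat 153, .negSucc 8, .ofNat 0, .negSucc 695, .ofNat 72]), ((2, 14), [.ofNat 24, .negSucc 3375, .negSucc 20448, .ofNat 2394, .negSucc 680, .ofNat 136, .negSucc 16, .ofNat 1, .ofNat 0, .ofNat 0, .ofNat 678, .negSucc 104103, .ofNat 31122, .ofNat 3402, .negSucc 679, .ofNat 85, .negSucc 4, .ofNat 0, .negSucc 179, .ofNat 20]), ((3, 7), [.ofNat 8, .negSucc 1359,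 .negSucc 7941, .ofNat 560, .negSucc 119, .ofNat 16, .negSucc 0, .ofNat 0, .ofNat 0, .ofNat 0, .ofNat 426, .negSucc 124610, .ofNat 21824, .ofNat 1440, .negSucc 191, .ofNat 12, .ofNat 0, .ofNat 0, .negSucc 65, .ofNat 0]), ((3, 11), [.ofNat 16, .negSucc 2079, .negSucc 8018, .ofNat 560, .negSucc 119, .ofNat 16, .negSucc 0, .ofNat 0, .ofNat 0, .ofNat 0, .ofNat 644, .negSucc 92381, .ofNat 14560, .ofNat 960, .negSucc 127, .ofNat 8, .ofNat 0, .ofNat 0, .negSucc 27, .ofNat 0]), ((3, 15), [.ofNat 24, .negSucc 3183, .negSucc 11010, .ofNat 665, .negSucc 134, .ofNat 17, .negSucc 0, .ofNat 0, .ofNat 0, .ofNat 0, .ofNat 654, .negSucc 65064, .ofNat 8645, .ofNat 525, .negSucc 66, .ofNat 4, .ofNat 0, .ofNat 0, .negSucc 5, .ofNat 0]), ((4, 8), [.ofNat 8, .negSucc 1103, .negSucc 2991, .ofNat 105, .negSucc 14, .ofNat 1, .ofNat 0, .ofNat 0, .ofNat 0, .ofNat 0, .ofNat 394, .negSucc 65866, .ofNat 5005, .ofNat 165, .negSucc 10, .ofNat 0, .ofNat 0, .ofNat 0, .ofNat 0, .ofNat 0]), ((4, 12), [.ofNat 16, .negSucc 1823, .negSucc 3068, .ofNat 105, .negSucc 14,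 .ofNat 1, .ofNat 0, .ofNat 0, .ofNat 0, .ofNat 0, .ofNat 612, .negSucc 48197, .ofNat 3189, .ofNat 105, .negSucc 6, .ofNat 0, .ofNat 0, .ofNat 0, .ofNat 0, .ofNat 0]), ((5, 9), [.ofNat 8, .negSucc 911, .negSucc 999, .ofNat 14, .negSucc 0, .ofNat 0, .ofNat 0, .ofNat 0, .ofNat 0, .ofNat 0, .ofNat 370, .negSucc 32819, .ofNat 910, .ofNat 10, .ofNat 0, .ofNat 0, .ofNat 0, .ofNat 0, .ofNat 0, .ofNat 0]), ((5, 13), [.ofNat 16, .negSucc 1695, .negSucc 1286, .ofNat 15, .negSucc 0, .ofNat 0, .ofNat 0, .ofNat 0, .ofNat 0, .ofNat 0, .ofNat 596, .negSucc 29171, .ofNat 611, .ofNat 6, .ofNat 0, .ofNat 0, .ofNat 0, .ofNat 0, .ofNat 0, .ofNat 0]), ((6, 10), [.ofNat 8, .negSucc 783, .negSucc 286, .ofNat 1, .ofNat 0, .ofNat 0, .ofNat 0, .ofNat 0, .ofNat 0, .ofNat 0, .ofNat 354, .negSucc 15695, .ofNat 117, .ofNat 0, .ofNat 0, .ofNat 0, .ofNat 0, .ofNat 0, .ofNat 0, .ofNat 0]), ((7, 11), [.ofNat 8, .negSucc 719, .negSucc 76, .ofNat 0, .ofNat 0, .ofNat 0, .ofNat 0, .ofNat 0, .ofNat 0, .ofNat 0, .ofNat 346, .negSucc 8538, .ofNat 8, .ofNat 0, .ofNat 0,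 .ofNat 0, .ofNat 0, .ofNat 0, .ofNat 0, .ofNat 0])]
  tg := [((0, 4), .ofNat 270270000, [.ofNat 59527364275, .ofNat 277851419, .ofNat 174528880, .ofNat 16542341696, .ofNat 117245425616, .ofNat 466538326976, .ofNat 1349071462736, .ofNat 3142917176672, .ofNat 7481177875808, .ofNat 11225943176448, .negSucc 966982379, .negSucc 8547839, .negSucc 142658879, .ofNat 4442605440, .ofNat 26648643840, .ofNat 96443343360, .ofNat 264521187840, .ofNat 603486723840, .ofNat 0, .ofNat 0]), ((0, 8), .ofNat 665280000, [.negSucc 118799508199, .negSucc 552728712, .negSucc 350351359, .negSucc 33165995391, .negSucc 235006258431, .negSucc 934898781951, .negSucc 2702712105471, .negSucc 6294569849343, .negSucc 14975065186815, .negSucc 22464092023295, .ofNat 1933964760, .ofNat 17095680, .ofNat 285317760, .negSucc 8885210879, .negSucc 53297287679, .negSucc 192886686719, .negSucc 529042375679, .negSucc 1206973447679, .ofNat 0, .ofNat 0]), ((0, 12), .ofNat 2661120000, [.negSucc 120134813599, .negSucc 568288212, .negSucc 343592959, .negSucc 32742539391, .negSucc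 232328453631, .negSucc 925468701951, .negSucc 2679228777471, .negSucc 6250291769343, .negSucc 14912762454015, .negSucc 22409947101695, .ofNat 1933964760, .ofNat 17095680, .ofNat 285317760, .negSucc 8885210879, .negSucc 53297287679, .negSucc 192886686719, .negSucc 529042375679, .negSucc 1206973447679, .ofNat 0, .ofNat 0]), ((0, 16), .ofNat 4942080000, [.ofNat 17117768000, .ofNat 80665459, .ofNat 49326080, .ofNat 4695005056, .ofNat 33311550976, .ofNat 132703419136, .ofNat 384265194496, .ofNat 896860936192, .ofNat 2139790501888, .ofNat 3222666889728, .negSucc 276280679, .negSucc 2442239, .negSucc 40759679, .ofNat 1269315840, .ofNat 7613898240, .ofNat 27555240960, .ofNat 75577482240, .ofNat 172424778240, .ofNat 0, .ofNat 0]), ((1, 5), .ofNat 4324320000, [.negSucc 9384167380039, .negSucc 43829296470, .negSucc 27481191679, .negSucc 2605249968063, .negSucc 18465418411263, .negSucc 73478158169343, .negSucc 212477961781503, .negSucc 495023429799807, .negSucc 1178433695176191, .negSucc 1768440872470271, .ofNat 152375157480, .ofNat 1346929920,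 .ofNat 22477990080, .negSucc 699962914559, .negSucc 4198560038399, .negSucc 15194492127359, .negSucc 41674153597439, .negSucc 95076532911359, .ofNat 0, .ofNat 0]), ((1, 9), .ofNat 1572480000, [.ofNat 1526090293880, .ofNat 7088854537, .ofNat 4513064960, .ofNat 426857708608, .ofNat 3023830091008, .ofNat 12026060839168, .ofNat 34756057727488, .ofNat 80922004648576, .ofNat 192450448013824, .ofNat 288670835491584, .negSucc 24869895959, .negSucc 219824639, .negSucc 3667460159, .ofNat 114180568320, .ofNat 684801062400, .ofNat 2477975310720, .ofNat 6795700154880, .ofNat 15503287537920, .ofNat 0, .ofNat 0]), ((1, 13), .ofNat 34594560000, [.ofNat 6064734506240, .ofNat 28995512101, .ofNat 17004462080, .ofNat 1629434521984, .ofNat 11579032605184, .ofNat 46196550264064, .ofNat 133970596301824, .ofNat 313144756008448, .ofNat 749112848253952, .ofNat 1127163912306432, .negSucc 96923288279, .negSucc 857041919, .negSucc 14323370879, .ofNat 446521071360, .ofNat 2680152384000, .ofNat 9706371816960, .ofNat 26639850531840, .ofNat 60805316732160, .ofNat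 0, .ofNat 0]), ((1, 17), .ofNat 11531520000, [.negSucc 110602579759, .negSucc 536529348, .negSucc 301905919, .negSucc 29225026815, .negSucc 208412655615, .negSucc 835075937535, .negSucc 2435268837375, .negSucc 5735324637951, .negSucc 13862063208447, .negSucc 21148347187967, .ofNat 1749722520, .ofNat 15482880, .ofNat 259633920, .negSucc 8117840639, .negSucc 48827251199, .negSucc 177299216639, .negSucc 488245954559, .negSucc 1119137859839, .ofNat 0, .ofNat 0]), ((2, 6), .ofNat 8200192000, [.ofNat 73137431673840, .ofNat 342035287991, .ofNat 213667809280, .ofNat 20265426502144, .ofNat 143649477970944, .ofNat 571663027005184, .ofNat 1653253497739264, .ofNat 3852260432220928, .ofNat 9173332108408832, .ofNat 13769639090118912, .negSucc 1186534552839, .negSucc 10488289279, .negSucc 175021450239, .ofNat 5449969557760, .ofNat 32689927728640, .ofNat 118303954612480, .ofNat 324485020088320, .ofNat 740335021986560, .ofNat 0, .ofNat 256256000]), ((2, 10), .ofNat 110702592000, [.negSucc 266060428188559, .negSucc 1236398487696, .negSucc 786118522879,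 .negSucc 74349914818047, .negSucc 526670327231487, .negSucc 2094613000937727, .negSucc 6054166085183487, .negSucc 14101070235755775, .negSucc 33564630265513983, .negSucc 50414385227990783, .ofNat 4334555741880, .ofNat 38309160960, .ofNat 638878356480, .negSucc 19886030411519, .negSucc 119257764487679, .negSucc 431540249736959, .negSucc 1183808111216639, .negSucc 2702157722584319, .ofNat 0, .negSucc 6918911999]), ((2, 14), .ofNat 123002880000, [.negSucc 32430347381359, .negSucc 155597647038, .negSucc 90314885119, .negSucc 8669437067775, .negSucc 61620565912575, .negSucc 245828049661695, .negSucc 712437388711935, .negSucc 1661789228899071, .negSucc 3957200054499327, .negSucc 5901940494498047, .ofNat 517043883720, .ofNat 4573255680, .ofNat 76509189120, .negSucc 2386095479039, .negSucc 14321808883199, .negSucc 51845972855039, .negSucc 142043398748159, .negSucc 323145713130239, .ofNat 0, .ofNat 3843840000]), ((3, 7), .ofNat 553512960000, [.negSucc 11585200391938479, .negSucc 54296008073986, .negSucc 33711590287359, .negSucc 3200049258449407,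 .negSucc 22687257602628607, .negSucc 90301851685991167, .negSucc 261211660551845887, .negSucc 608851164544453375, .negSucc 1450741764641921023, .negSucc 2178706630487971583, .ofNat 187679496437160, .ofNat 1658962851840, .ofNat 27682861839360, .negSucc 862017165784319, .negSucc 5170653207283199, .negSucc 18713619016485119, .negSucc 51336727440660479, .negSucc 117148385195761919, .negSucc 34594559999, .negSucc 432431999999]), ((3, 11), .ofNat 92252160000, [.ofNat 331570733809520, .ofNat 1547797636663, .ofNat 971666032640, .ofNat 92062156744192, .ofNat 652469284436992, .ofNat 2596713495308032, .ofNat 7514033444288512, .ofNat 17540308975431424, .ofNat 41920473649739776, .ofNat 63246960521961216, .negSucc 5385483634439, .negSucc 47592437759, .negSucc 793472010239, .ofNat 24699536359680, .ofNat 148159984627200, .ofNat 536507342542080, .ofNat 1474892844472320, .ofNat 3374258389582080, .ofNat 11531520000, .ofNat 144144000000]), ((3, 15), .ofNat 553512960000, [.ofNat 124574809791760, .ofNat 587113843961, .ofNat 358681999360, .ofNat 34093238388224,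 .ofNat 241455268803584, .ofNat 958359286909184, .ofNat 2753341519407104, .ofNat 6307846614987008, .ofNat 14501457617733632, .ofNat 20650952200150272, .negSucc 2010925021559, .negSucc 17789183999, .negSucc 297472680959, .ofNat 9258265685760, .ofNat 55431575646720, .ofNat 199432251083520, .ofNat 536426151905280, .ofNat 1194668351036160, .negSucc 34594559999, .negSucc 432431999999]), ((4, 8), .ofNat 14192640000, [.ofNat 456093156988400, .ofNat 2142285364939, .ofNat 1321665505280, .ofNat 125554771173376, .ofNat 890243295056896, .ofNat 3543676290931456, .ofNat 10250702834722816, .ofNat 23889872138712832, .ofNat 56911065495144448, .ofNat 85414111266156288, .negSucc 7377694360679, .negSucc 65213245439, .negSucc 1088150407679, .ofNat 33882606992640, .ofNat 203229935408640, .ofNat 735447963720960, .ofNat 2016846780426240, .ofNat 4600470928247040, .negSucc 887039999, .negSucc 11087999999]), ((4, 12), .ofNat 4257792000, [.negSucc 16493884891471, .negSucc 77090523738, .negSucc 48198944767, .negSucc 4564716664575, .negSucc 32335096532991, .negSucc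 128572984539903, .negSucc 371382833766399, .negSucc 863346936121599, .negSucc 2046345593012223, .negSucc 3051557232218879, .ofNat 267677188968, .ofNat 2365267968, .ofNat 39412386048, .negSucc 1226122302719, .negSucc 7350287734271, .negSucc 26575448046335, .negSucc 72715141976063, .negSucc 165422821428479, .ofNat 532224000, .ofNat 6652800000]), ((5, 9), .ofNat 85155840000, [.negSucc 2869934688741039, .negSucc 13515518238490, .negSucc 8275441838079, .negSucc 786948706655743, .negSucc 5580985879276543, .negSucc 22219838231546623, .negSucc 64289169621161983, .negSucc 149878903691648767, .negSucc 357311003892856831, .negSucc 536579575449722111, .ofNat 46341641167080, .ofNat 409626040320, .ofNat 6835533895680, .negSucc 212855222549759, .negSucc 1276762180646399, .negSucc 4620592721122559, .negSucc 12672895083018239, .negSucc 28911462641698559, .ofNat 0, .ofNat 2661120000]), ((5, 13), .ofNat 184504320000, [.ofNat 292684022643920, .ofNat 1372540573273, .ofNat 849182013440, .ofNat 80511499666432, .ofNat 570517643103232, .ofNat 2269673834735872,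 .ofNat 6561660474775552, .ofNat 15279801701941504, .ofNat 36329041538922496, .ofNat 54350039700692736, .negSucc 4738860530039, .negSucc 41850869759, .negSucc 696848355839, .ofNat 21678833729280, .ofNat 129983017382400, .ofNat 470238013889280, .ofNat 1288909806213120, .ofNat 2937310415719680, .ofNat 0, .negSucc 11531519999]), ((6, 10), .ofNat 10543104000, [.ofNat 255080156177200, .ofNat 1203710157203, .ofNat 732694620160, .ofNat 69732410250752, .ofNat 494616193313792, .ofNat 1969523150619392, .ofNat 5699385846044672, .ofNat 13290428373657344, .ofNat 31706000839325696, .ofNat 47641850316293376, .negSucc 4113267910439, .negSucc 36361820159, .negSucc 606916976639, .ofNat 18900812186880, .ofNat 113376114009600, .ofNat 410320327322880, .ofNat 1125460839659520, .ofNat 2567895542234880, .ofNat 0, .ofNat 988416000]), ((7, 11), .ofNat 26357760000, [.negSucc 218958391885519, .negSucc 1035546910872, .negSucc 626238371839, .negSucc 59667607800831, .negSucc 423376650898431, .negSucc 1686652049443071, .negSucc 4884657230436351, .negSucc 11408906718287103,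 .negSucc 27306508726122495, .negSucc 41194932967009535, .ofNat 3525599358840, .ofNat 31167682560, .ofNat 520353200640, .negSucc 16208999489279, .negSucc 97251998937599, .negSucc 352152682202879, .negSucc 967417114859519, .negSucc 2211310709287679, .negSucc 4942079999, .negSucc 61775999999])]

theorem NUM_4_19 : NUM_stmt 4 19 4 :=
  NUM_of_certs 4 19 4 (by norm_num) NC_4_19_p NC_4_19_m
    (by decide +kernel) (by decide +kernel) (by decide +kernel)
    (by decide +kernel) (by decide +kernel) (by decide +kernel) rfl rfl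

end Pool.Agent.OD
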