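import Pool.Agent.helper21.OD.NUMG

/-!
# Project OD: certificates of the period relations
-/

namespace Pool.Agent.OD

set_option maxRecDepth 100000

/-- certificate, `m = 6`, `j = 1`, symmetric part -/
def NC_6_1_p : NUM_Cert where
  tri := []
  fre := [(0, 0)]
  cols := [((0, 0), [.ofNat 2])]
  tg := [((0, 0), .ofNat 1, [.ofNat 1])]

/-- certificate, `m = 6`, `j = 1`, antisymmetric part -/
def NC_6_1_m : NUM_Cert where
  tri := []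
  fre := []
  cols := []
  tg := []

theorem NUM_6_1 : NUM_stmt 6 1 0 :=
  NUM_of_certs 6 1 0 (by norm_num) NC_6_1_p NC_6_1_m
    (by decide +kernel) (by decide +kernel) (by decide +kernel)
    (by decide +kernel) (by decide +kernel) (by decide +kernel) rfl rfl

/-- certificate, `m = 6`, `j = 2`, symmetric part -/
def NC_6_2_p : NUM_Cert where
  tri := []
  fre := [(0, 0)]
  cols := [((0, 0), [.ofNat 2])]
  tg := [((0, 0), .ofNat 1, [.ofNat 1])]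

/-- certificate, `m = 6`, `j = 2`, antisymmetric part -/
def NC_6_2_m : NUM_Cert where
  tri := []
  fre := []
  cols := []
  tg := []

theorem NUM_6_2 : NUM_stmt 6 2 0 :=
  NUM_of_certs 6 2 0 (by norm_num) NC_6_2_p NC_6_2_m
    (by decide +kernel) (by decide +kernel) (by decide +kernel)
    (by decide +kernel) (by decide +kernel) (by decide +kernel) rfl rfl

/-- certificate, `m = 6`, `j = 3`, symmetric part -/
def NC_6_3_p : NUM_Cert where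
  tri := [(0, 1)]
  fre := [(0, 0)]
  cols := [((0, 0), [.ofNat 0, .ofNat 2]), ((1, 1), [.negSucc 1, .ofNat 0])]
  tg := [((0, 0), .ofNat 1, [.ofNat 0, .ofNat 1]), ((1, 1), .ofNat 1, [.negSucc 0, .ofNat 0])]

/-- certificate, `m = 6`, `j = 3`, antisymmetric part -/
def NC_6_3_m : NUM_Cert where
  tri := []
  fre := []
  cols := []
  tg := []

theorem NUM_6_3 : NUM_stmt 6 3 0 :=
  NUM_of_certs 6 3 0 (by norm_num) NC_6_3_p NC_6_3_m
    (by decide +kernel) (by decide +kernel) (by decide +kernel)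
    (by decide +kernel) (by decide +kernel) (by decide +kernel) rfl rfl

/-- certificate, `m = 6`, `j = 4`, symmetric part -/
def NC_6_4_p : NUM_Cert where
  tri := [(0, 3)]
  fre := [(0, 0)]
  cols := [((0, 0), [.ofNat 0, .ofNat 2]), ((1, 1), [.negSucc 1, .ofNat 0])]
  tg := [((0, 0), .ofNat 1, [.ofNat 0, .ofNat 1]), ((1, 1), .ofNat 1, [.negSucc 0, .ofNat 0])]

/-- certificate, `m = 6`, `j = 4`, antisymmetric part -/
def NC_6_4_m : NUM_Cert where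
  tri := []
  fre := []
  cols := []
  tg := []

theorem NUM_6_4 : NUM_stmt 6 4 0 :=
  NUM_of_certs 6 4 0 (by norm_num) NC_6_4_p NC_6_4_m
    (by decide +kernel) (by decide +kernel) (by decide +kernel)
    (by decide +kernel) (by decide +kernel) (by decide +kernel) rfl rfl

/-- certificate, `m = 6`, `j = 5`, symmetric part -/
def NC_6_5_p : NUM_Cert where
  tri := [(0, 1), (0, 4)]
  fre := [(0, 0)]
  cols := [((0, 0), [.ofNat 0, .ofNat 0, .ofNat 2]), ((1, 1), [.negSucc 5, .ofNat 2, .ofNat 0]), ((2, 2), [.negSucc 1, .ofNat 0, .ofNat 0])]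
  tg := [((0, 0), .ofNat 1, [.ofNat 0, .ofNat 0, .ofNat 1]), ((1, 1), .ofNat 1, [.ofNat 0, .ofNat 1, .ofNat 0]), ((2, 2), .ofNat 1, [.negSucc 0, .negSucc 2, .ofNat 0])]

/-- certificate, `m = 6`, `j = 5`, antisymmetric part -/
def NC_6_5_m : NUM_Cert where
  tri := []
  fre := []
  cols := []
  tg := []

theorem NUM_6_5 : NUM_stmt 6 5 0 :=
  NUM_of_certs 6 5 0 (by norm_num) NC_6_5_p NC_6_5_m
    (by decide +kernel) (by decide +kernel) (by decide +kernel)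
    (by decide +kernel) (by decide +kernel) (by decide +kernel) rfl rfl

/-- certificate, `m = 6`, `j = 6`, symmetric part -/
def NC_6_6_p : NUM_Cert where
  tri := [(0, 4), (0, 5)]
  fre := [(0, 0)]
  cols := [((0, 0), [.ofNat 0, .ofNat 0, .ofNat 2]), ((1, 1), [.ofNat 10, .negSucc 1, .ofNat 0]), ((2, 2), [.ofNat 2, .ofNat 0, .ofNat 0])]
  tg := [((0, 0), .ofNat 1, [.ofNat 0, .ofNat 0, .ofNat 1]), ((1, 1), .ofNat 1, [.ofNat 0, .negSucc 0, .ofNat 0]), ((2, 2), .ofNat 1, [.ofNat 1, .ofNat 5, .ofNat 0])]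

/-- certificate, `m = 6`, `j = 6`, antisymmetric part -/
def NC_6_6_m : NUM_Cert where
  tri := [(0, 6)]
  fre := []
  cols := [((0, 6), [.negSucc 1])]
  tg := [((0, 6), .ofNat 1, [.negSucc 0])]

theorem NUM_6_6 : NUM_stmt 6 6 0 :=
  NUM_of_certs 6 6 0 (by norm_num) NC_6_6_p NC_6_6_m
    (by decide +kernel) (by decide +kernel) (by decide +kernel)
    (by decide +kernel) (by decide +kernel) (by decide +kernel) rfl rfl

/-- certificate, `m = 6`, `j = 7`, symmetric part -/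
def NC_6_7_p : NUM_Cert where
  tri := [(0, 1), (0, 5), (0, 6)]
  fre := [(0, 0), (0, 6)]
  cols := [((0, 0), [.ofNat 0, .ofNat 0, .ofNat 0, .ofNat 2, .ofNat 0]), ((0, 6), [.negSucc 1, .negSucc 14, .ofNat 6, .ofNat 0, .ofNat 1]), ((1, 1), [.negSucc 9, .negSucc 11, .ofNat 2, .ofNat 0, .ofNat 0]), ((2, 2), [.negSucc 5, .negSucc 1, .ofNat 0, .ofNat 0, .ofNat 0]), ((3, 3), [.negSucc 1, .ofNat 0, .ofNat 0, .ofNat 0, .ofNat 0])]
  tg := [((0, 0), .ofNat 1, [.ofNat 0, .ofNat 0, .ofNat 0, .ofNat 1, .ofNat 0]), ((0, 6), .ofNat 1, [.ofNat 0, .ofNat 0, .ofNat 0, .ofNat 0, .ofNat 1]), ((1, 1), .ofNat 1, [.ofNat 0, .ofNat 0, .ofNat 1, .ofNat 0, .negSucc 5]), ((2, 2), .ofNat 1, [.ofNat 0, .negSucc 0, .negSucc 5, .ofNat 0, .ofNat 21]), ((3, 3), .ofNat 1, [.negSucc 0, .ofNat 3, .ofNat 13, .ofNat 0, .negSucc 34])]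

/-- certificate, `m = 6`, `j = 7`, antisymmetric part -/
def NC_6_7_m : NUM_Cert where
  tri := [(0, 7)]
  fre := []
  cols := [((0, 6), [.ofNat 2])]
  tg := [((0, 6), .ofNat 2, [.ofNat 1])]

theorem NUM_6_7 : NUM_stmt 6 7 1 :=
  NUM_of_certs 6 7 1 (by norm_num) NC_6_7_p NC_6_7_m
    (by decide +kernel) (by decide +kernel) (by decide +kernel)
    (by decide +kernel) (by decide +kernel) (by decide +kernel) rfl rfl

/-- certificate, `m = 6`, `j = 8`, symmetric part -/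
def NC_6_8_p : NUM_Cert where
  tri := [(0, 5), (0, 6), (0, 7), (1, 6)]
  fre := [(0, 0)]
  cols := [((0, 0), [.ofNat 0, .ofNat 0, .ofNat 0, .ofNat 0, .ofNat 2]), ((0, 6), [.negSucc 49, .ofNat 27, .negSucc 5, .negSucc 47, .ofNat 0]), ((1, 1), [.negSucc 41, .ofNat 14, .negSucc 1, .negSucc 55, .ofNat 0]), ((2, 2), [.negSucc 11, .ofNat 2, .ofNat 0, .negSucc 11, .ofNat 0]), ((3, 3), [.negSucc 1, .ofNat 0, .ofNat 0, .ofNat 0, .ofNat 0])]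
  tg := [((0, 0), .ofNat 1, [.ofNat 0, .ofNat 0, .ofNat 0, .ofNat 0, .ofNat 1]), ((0, 6), .ofNat 30, [.ofNat 0, .ofNat 6, .ofNat 14, .ofNat 1, .ofNat 0]), ((1, 1), .ofNat 5, [.ofNat 0, .negSucc 5, .negSucc 18, .negSucc 0, .ofNat 0]), ((2, 2), .ofNat 2, [.ofNat 0, .ofNat 8, .ofNat 28, .ofNat 1, .ofNat 0]), ((3, 3), .ofNat 15, [.negSucc 14, .negSucc 131, .negSucc 412, .negSucc 6, .ofNat 0])]

/-- certificate, `m = 6`, `j = 8`, antisymmetric part -/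
def NC_6_8_m : NUM_Cert where
  tri := [(0, 7), (0, 8)]
  fre := []
  cols := [((0, 6), [.ofNat 10, .negSucc 1]), ((1, 7), [.ofNat 2, .ofNat 0])]
  tg := [((0, 6), .ofNat 2, [.ofNat 0, .negSucc 0]), ((1, 7), .ofNat 1, [.ofNat 1, .ofNat 5])]

theorem NUM_6_8 : NUM_stmt 6 8 0 :=
  NUM_of_certs 6 8 0 (by norm_num) NC_6_8_p NC_6_8_m
    (by decide +kernel) (by decide +kernel) (by decide +kernel)
    (by decide +kernel) (by decide +kernel) (by decide +kernel) rfl rfl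

/-- certificate, `m = 6`, `j = 9`, symmetric part -/
def NC_6_9_p : NUM_Cert where
  tri := [(0, 1), (0, 6), (0, 7), (0, 8), (1, 7)]
  fre := [(0, 0), (0, 6)]
  cols := [((0, 0), [.ofNat 0, .ofNat 0, .ofNat 0, .ofNat 0, .ofNat 0, .ofNat 2, .ofNat 0]), ((0, 6), [.negSucc 5, .ofNat 83, .negSucc 32, .ofNat 6, .ofNat 81, .ofNat 0, .ofNat 1]), ((1, 1), [.negSucc 13, .ofNat 56, .negSucc 15, .ofNat 2, .ofNat 72, .ofNat 0, .ofNat 0]), ((1, 7), [.negSucc 1, .ofNat 21, .negSucc 6, .ofNat 1, .ofNat 15, .ofNat 0, .ofNat 0]), ((2, 2), [.negSucc 9, .ofNat 14, .negSucc 1, .ofNat 0, .ofNat 14, .ofNat 0, .ofNat 0]), ((3, 3), [.negSucc 5, .ofNat 2, .ofNat 0, .ofNat 0, .ofNat 0, .ofNat 0, .ofNat 0]), ((4, 4), [.negSucc 1, .ofNat 0, .ofNat 0, .ofNat 0, .ofNat 0, .ofNat 0, .ofNat 0])]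
  tg := [((0, 0), .ofNat 1, [.ofNat 0, .ofNat 0, .ofNat 0, .ofNat 0, .ofNat 0, .ofNat 1, .ofNat 0]), ((0, 6), .ofNat 1, [.ofNat 0, .ofNat 0, .ofNat 0, .ofNat 0, .ofNat 0, .ofNat 0, .ofNat 1]), ((1, 1), .ofNat 14, [.ofNat 0, .ofNat 0, .ofNat 7, .ofNat 34, .ofNat 1, .ofNat 0, .negSucc 53]), ((1, 7), .ofNat 14, [.ofNat 0, .ofNat 0, .negSucc 6, .negSucc 19, .negSucc 0, .ofNat 0, .negSucc 29]), ((2, 2), .ofNat 14, [.ofNat 0, .ofNat 0, .negSucc 20, .negSucc 131, .negSucc 0, .ofNat 0, .ofNat 180]), ((3, 3), .ofNat 1, [.ofNat 0, .ofNat 1, .ofNat 7, .ofNat 28, .ofNat 0, .ofNat 0, .negSucc 19]), ((4, 4), .ofNat 1, [.negSucc 0, .negSucc 2, .negSucc 15, .negSucc 50, .ofNat 0, .ofNat 0, .ofNat 21])]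

/-- certificate, `m = 6`, `j = 9`, antisymmetric part -/
def NC_6_9_m : NUM_Cert where
  tri := [(0, 8), (0, 9)]
  fre := []
  cols := [((0, 6), [.negSucc 11, .ofNat 2]), ((1, 7), [.negSucc 0, .ofNat 0])]
  tg := [((0, 6), .ofNat 2, [.ofNat 0, .ofNat 1]), ((1, 7), .ofNat 1, [.negSucc 0, .negSucc 5])]

theorem NUM_6_9 : NUM_stmt 6 9 1 :=
  NUM_of_certs 6 9 1 (by norm_num) NC_6_9_p NC_6_9_m
    (by decide +kernel) (by decide +kernel) (by decide +kernel)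
    (by decide +kernel) (by decide +kernel) (by decide +kernel) rfl rfl

/-- certificate, `m = 6`, `j = 10`, symmetric part -/
def NC_6_10_p : NUM_Cert where
  tri := [(0, 6), (0, 7), (0, 8), (0, 9), (1, 8)]
  fre := [(0, 0), (0, 6)]
  cols := [((0, 0), [.ofNat 0, .ofNat 0, .ofNat 0, .ofNat 0, .ofNat 0, .ofNat 2, .ofNat 0]), ((0, 6), [.ofNat 209, .negSucc 115, .ofNat 39, .negSucc 5, .negSucc 119, .ofNat 0, .ofNat 1]), ((1, 1), [.ofNat 168, .negSucc 71, .ofNat 18, .negSucc 1, .negSucc 89, .ofNat 0, .ofNat 0]), ((1, 7), [.ofNat 77, .negSucc 34, .ofNat 9, .negSucc 0, .negSucc 23, .ofNat 0, .ofNat 0]), ((2, 2), [.ofNat 56, .negSucc 15, .ofNat 2, .ofNat 0, .negSucc 15, .ofNat 0, .ofNat 0]), ((3, 3), [.ofNat 14, .negSucc 1, .ofNat 0, .ofNat 0, .ofNat 0, .ofNat 0, .ofNat 0]), ((4, 4), [.ofNat 2, .ofNat 0, .ofNat 0, .ofNat 0, .ofNat 0, .ofNat 0, .ofNat 0])]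
  tg := [((0, 0), .ofNat 1, [.ofNat 0, .ofNat 0, .ofNat 0, .ofNat 0, .ofNat 0, .ofNat 1, .ofNat 0]), ((0, 6), .ofNat 1, [.ofNat 0, .ofNat 0, .ofNat 0, .ofNat 0, .ofNat 0, .ofNat 0, .ofNat 1]), ((1, 1), .ofNat 21, [.ofNat 0, .ofNat 0, .negSucc 7, .negSucc 47, .negSucc 0, .ofNat 0, .negSucc 95]), ((1, 7), .ofNat 21, [.ofNat 0, .ofNat 0, .ofNat 8, .ofNat 27, .ofNat 1, .ofNat 0, .negSucc 29]), ((2, 2), .ofNat 1, [.ofNat 0, .ofNat 0, .ofNat 1, .ofNat 9, .ofNat 0, .ofNat 0, .ofNat 15]), ((3, 3), .ofNat 21, [.ofNat 0, .negSucc 20, .negSucc 159, .negSucc 728, .ofNat 1, .ofNat 0, .negSucc 449]), ((4, 4), .ofNat 1, [.ofNat 1, .ofNat 7, .ofNat 28, .ofNat 84, .ofNat 0, .ofNat 0, .ofNat 15])]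

/-- certificate, `m = 6`, `j = 10`, antisymmetric part -/
def NC_6_10_m : NUM_Cert where
  tri := [(0, 8), (0, 9), (0, 10)]
  fre := []
  cols := [((0, 6), [.negSucc 50, .ofNat 14, .negSucc 1]), ((1, 7), [.negSucc 8, .ofNat 1, .ofNat 0]), ((2, 8), [.negSucc 1, .ofNat 0, .ofNat 0])]
  tg := [((0, 6), .ofNat 2, [.ofNat 0, .ofNat 0, .negSucc 0]), ((1, 7), .ofNat 1, [.ofNat 0, .ofNat 1, .ofNat 7]), ((2, 8), .ofNat 2, [.negSucc 1, .negSucc 17, .negSucc 74])]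

theorem NUM_6_10 : NUM_stmt 6 10 1 :=
  NUM_of_certs 6 10 1 (by norm_num) NC_6_10_p NC_6_10_m
    (by decide +kernel) (by decide +kernel) (by decide +kernel)
    (by decide +kernel) (by decide +kernel) (by decide +kernel) rfl rfl

/-- certificate, `m = 6`, `j = 11`, symmetric part -/
def NC_6_11_p : NUM_Cert where
  tri := [(0, 2), (0, 7), (0, 8), (0, 9), (0, 10), (1, 8), (1, 9)]
  fre := [(0, 0), (1, 7)]
  cols := [((0, 0), [.ofNat 0, .ofNat 0, .ofNat 0, .ofNat 0, .ofNat 0, .ofNat 0, .ofNat 0, .ofNat 2, .ofNat 0]), ((0, 6), [.ofNat 50, .negSucc 324, .ofNat 155, .negSucc 44, .ofNat 6, .negSucc 714, .ofNat 165, .ofNat 0, .ofNat 0]), ((1, 1), [.ofNat 90, .negSucc 239, .ofNat 90, .negSucc 19, .ofNat 2, .negSucc 659, .ofNat 110, .ofNat 0, .ofNat 0]), ((1, 7), [.ofNat 30, .negSucc 118, .ofNat 45, .negSucc 9, .ofNat 1, .negSucc 175, .ofNat 34, .ofNat 0, .ofNat 1]),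 ((2, 2), [.ofNat 70, .negSucc 71, .ofNat 18, .negSucc 1, .ofNat 0, .negSucc 161, .ofNat 18, .ofNat 0, .ofNat 0]), ((2, 8), [.ofNat 10, .negSucc 27, .ofNat 8, .negSucc 0, .ofNat 0, .negSucc 24, .ofNat 3, .ofNat 0, .ofNat 0]), ((3, 3), [.ofNat 50, .negSucc 15, .ofNat 2, .ofNat 0, .ofNat 0, .negSucc 15, .ofNat 0, .ofNat 0, .ofNat 0]), ((4, 4), [.ofNat 30, .negSucc 1, .ofNat 0, .ofNat 0, .ofNat 0, .ofNat 0, .ofNat 0, .ofNat 0, .ofNat 0]), ((5, 5), [.ofNat 10, .ofNat 0, .ofNat 0, .ofNat 0, .ofNat 0, .ofNat 0, .ofNat 0, .ofNat 0, .ofNat 0])]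
  tg := [((0, 0), .ofNat 1, [.ofNat 0, .ofNat 0, .ofNat 0, .ofNat 0, .ofNat 0, .ofNat 0, .ofNat 0, .ofNat 1, .ofNat 0]), ((0, 6), .ofNat 30, [.ofNat 0, .ofNat 0, .negSucc 7, .negSucc 62, .negSucc 159, .negSucc 0, .negSucc 7, .ofNat 0, .negSucc 13]), ((1, 1), .ofNat 5, [.ofNat 0, .ofNat 0, .ofNat 8, .ofNat 63, .ofNat 165, .ofNat 1, .ofNat 8, .ofNat 0, .ofNat 9]), ((1, 7), .ofNat 1, [.ofNat 0, .ofNat 0, .ofNat 0, .ofNat 0, .ofNat 0, .ofNat 0, .ofNat 0, .ofNat 0, .ofNat 1]), ((2, 2), .ofNat 6, [.ofNat 0, .ofNat 0, .negSucc 31, .negSucc 248, .negSucc 664, .negSucc 3, .negSucc 30, .ofNat 0, .negSucc 34]), ((2, 8), .ofNat 6, [.ofNat 0, .ofNat 0, .ofNat 8, .ofNat 54, .ofNat 125, .ofNat 1, .ofNat 7, .ofNat 0, .negSucc 6]), ((3, 3), .ofNat 6, [.ofNat 0, .ofNat 0, .ofNat 46, .ofNat 360, .ofNat 1035, .ofNat 5, .ofNat 39, .ofNat 0, .ofNat 49]), ((4, 4), .ofNat 2, [.ofNat 0,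 .negSucc 1, .negSucc 23, .negSucc 134, .negSucc 399, .negSucc 0, .negSucc 7, .ofNat 0, .negSucc 11]), ((5, 5), .ofNat 5, [.ofNat 1, .ofNat 15, .ofNat 103, .ofNat 413, .ofNat 1140, .ofNat 1, .ofNat 8, .ofNat 0, .ofNat 14])]

/-- certificate, `m = 6`, `j = 11`, antisymmetric part -/
def NC_6_11_m : NUM_Cert where
  tri := [(0, 9), (0, 10), (0, 11)]
  fre := []
  cols := [((0, 6), [.ofNat 65, .negSucc 15, .ofNat 2]), ((1, 7), [.ofNat 10, .negSucc 0, .ofNat 0]), ((2, 8), [.ofNat 1, .ofNat 0, .ofNat 0])]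
  tg := [((0, 6), .ofNat 2, [.ofNat 0, .ofNat 0, .ofNat 1]), ((1, 7), .ofNat 1, [.ofNat 0, .negSucc 0, .negSucc 7]), ((2, 8), .ofNat 2, [.ofNat 2, .ofNat 20, .ofNat 95])]

theorem NUM_6_11 : NUM_stmt 6 11 1 :=
  NUM_of_certs 6 11 1 (by norm_num) NC_6_11_p NC_6_11_m
    (by decide +kernel) (by decide +kernel) (by decide +kernel)
    (by decide +kernel) (by decide +kernel) (by decide +kernel) rfl rfl

/-- certificate, `m = 6`, `j = 12`, symmetric part -/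
def NC_6_12_p : NUM_Cert where
  tri := [(0, 8), (0, 9), (0, 10), (0, 11), (1, 7), (1, 9), (1, 10), (2, 9)]
  fre := [(0, 0)]
  cols := [((0, 0), [.ofNat 0, .ofNat 0, .ofNat 0, .ofNat 0, .ofNat 0, .ofNat 0, .ofNat 0, .ofNat 0, .ofNat 2]), ((0, 6), [.ofNat 480, .negSucc 199, .ofNat 51, .negSucc 5, .ofNat 4680, .ofNat 1080, .negSucc 215, .negSucc 1979, .ofNat 0]), ((1, 1), [.ofNat 330, .negSucc 109, .ofNat 22, .negSucc 1, .ofNat 6336, .ofNat 880, .negSucc 131, .negSucc 2419, .ofNat 0]), ((1, 7), [.ofNat 165, .negSucc 54, .ofNat 11, .negSucc 0, .ofNat 1649, .ofNat 265, .negSucc 44, .negSucc 439, .ofNat 0]), ((2, 2), [.ofNat 90, .negSucc 19, .ofNat 2, .ofNat 0, .ofNat 2400, .ofNat 200, .negSucc 19, .negSucc 659, .ofNat 0]), ((2, 8), [.ofNat 44, .negSucc 9, .ofNat 1, .ofNat 0, .ofNat 464, .ofNat 40, .negSucc 3, .negSucc 55, .ofNat 0]), ((3, 3), [.ofNat 18, .negSucc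 1, .ofNat 0, .ofNat 0, .ofNat 648, .ofNat 18, .ofNat 0, .negSucc 71, .ofNat 0]), ((4, 4), [.ofNat 2, .ofNat 0, .ofNat 0, .ofNat 0, .ofNat 128, .ofNat 0, .ofNat 0, .ofNat 0, .ofNat 0]), ((5, 5), [.ofNat 0, .ofNat 0, .ofNat 0, .ofNat 0, .ofNat 14, .ofNat 0, .ofNat 0, .ofNat 0, .ofNat 0])]
  tg := [((0, 0), .ofNat 1, [.ofNat 0, .ofNat 0, .ofNat 0, .ofNat 0, .ofNat 0, .ofNat 0, .ofNat 0, .ofNat 0, .ofNat 1]), ((0, 6), .ofNat 60, [.ofNat 0, .ofNat 189, .negSucc 9, .negSucc 1264, .ofNat 0, .ofNat 81, .ofNat 125, .ofNat 15, .ofNat 0]), ((1, 1), .ofNat 70, [.ofNat 0, .negSucc 962, .negSucc 129, .ofNat 5705, .ofNat 0, .negSucc 406, .negSucc 644, .negSucc 74, .ofNat 0]), ((1, 7), .ofNat 7, [.ofNat 0, .negSucc 35, .ofNat 20, .ofNat 308, .ofNat 0, .negSucc 15, .negSucc 22, .negSucc 2, .ofNat 0]), ((2, 2), .ofNat 2, [.ofNat 0, .ofNat 90, .ofNat 12, .negSucc 527, .ofNat 0, .ofNat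 38, .ofNat 60, .ofNat 7, .ofNat 0]), ((2, 8), .ofNat 4, [.ofNat 0, .ofNat 9, .negSucc 29, .negSucc 164, .ofNat 0, .ofNat 5, .ofNat 5, .ofNat 1, .ofNat 0]), ((3, 3), .ofNat 3, [.ofNat 0, .negSucc 191, .negSucc 19, .ofNat 1100, .ofNat 0, .negSucc 80, .negSucc 124, .negSucc 14, .ofNat 0]), ((4, 4), .ofNat 2, [.ofNat 2, .ofNat 117, .ofNat 70, .negSucc 384, .ofNat 0, .ofNat 43, .ofNat 65, .ofNat 8, .ofNat 0]), ((5, 5), .ofNat 35, [.negSucc 319, .negSucc 3653, .negSucc 9239, .negSucc 13089, .ofNat 5, .negSucc 685, .negSucc 1504, .negSucc 104, .ofNat 0])]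

/-- certificate, `m = 6`, `j = 12`, antisymmetric part -/
def NC_6_12_m : NUM_Cert where
  tri := [(0, 11), (1, 9), (1, 10), (1, 11), (5, 6)]
  fre := []
  cols := [((0, 6), [.ofNat 18, .negSucc 1559, .ofNat 576, .negSucc 143, .ofNat 5544]), ((0, 12), [.ofNat 24, .ofNat 0, .ofNat 0, .ofNat 0, .ofNat 0]), ((1, 7), [.ofNat 1, .negSucc 284, .ofNat 65, .negSucc 9, .ofNat 462]), ((2, 8), [.ofNat 0, .negSucc 39, .ofNat 4, .ofNat 0, .ofNat 0]), ((3, 9), [.ofNat 0, .negSucc 5, .ofNat 0, .ofNat 0, .ofNat 0])]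
  tg := [((0, 6), .ofNat 5544, [.ofNat 0, .ofNat 0, .ofNat 0, .negSucc 230, .negSucc 4]), ((0, 12), .ofNat 3696, [.ofNat 308, .ofNat 0, .ofNat 0, .ofNat 77, .ofNat 1]), ((1, 7), .ofNat 154, [.ofNat 0, .ofNat 0, .ofNat 0, .ofNat 77, .ofNat 2]), ((2, 8), .ofNat 616, [.ofNat 0, .ofNat 0, .ofNat 154, .negSucc 1308, .negSucc 49]), ((3, 9), .ofNat 126, [.ofNat 0, .negSucc 41, .negSucc 419, .ofNat 315, .ofNat 40])]

theorem NUM_6_12 : NUM_stmt 6 12 0 :=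
  NUM_of_certs 6 12 0 (by norm_num) NC_6_12_p NC_6_12_m
    (by decide +kernel) (by decide +kernel) (by decide +kernel)
    (by decide +kernel) (by decide +kernel) (by decide +kernel) rfl rfl

/-- certificate, `m = 6`, `j = 13`, symmetric part -/
def NC_6_13_p : NUM_Cert where
  tri := [(0, 2), (0, 8), (0, 9), (0, 10), (0, 11), (0, 12), (1, 10), (1, 11), (2, 10)]
  fre := [(0, 0), (1, 7), (2, 8)]
  cols := [((0, 0), [.ofNat 0, .ofNat 0, .ofNat 0, .ofNat 0, .ofNat 0, .ofNat 0, .ofNat 0, .ofNat 0, .ofNat 0, .ofNat 2, .ofNat 0, .ofNat 0]), ((0, 6), [.ofNat 84, .ofNat 1266, .negSucc 679, .ofNat 251, .negSucc 56, .ofNat 6, .negSucc 1546, .ofNat 273, .ofNat 3276, .ofNat 0, .ofNat 0, .ofNat 0]), ((0, 12), [.ofNat 12, .ofNat 792, .negSucc 494, .ofNat 220, .negSucc 65, .ofNat 12, .negSucc 285, .ofNat 78, .ofNat 0, .ofNat 0, .ofNat 0, .ofNat 0]), ((1, 1), [.ofNat 132, .ofNat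 990, .negSucc 439, .ofNat 132, .negSucc 23, .ofNat 2, .negSucc 1143, .ofNat 156, .ofNat 3432, .ofNat 0, .ofNat 0, .ofNat 0]), ((1, 7), [.ofNat 60, .ofNat 495, .negSucc 219, .ofNat 66, .negSucc 11, .ofNat 1, .negSucc 375, .ofNat 57, .ofNat 750, .ofNat 0, .ofNat 1, .ofNat 0]), ((2, 2), [.ofNat 108, .ofNat 330, .negSucc 109, .ofNat 22, .negSucc 1, .ofNat 0, .negSucc 241, .ofNat 22, .ofNat 880, .ofNat 0, .ofNat 0, .ofNat 0]), ((2, 8), [.ofNat 36, .ofNat 164, .negSucc 54, .ofNat 11, .negSucc 0, .ofNat 0, .negSucc 54, .ofNat 5, .ofNat 100, .ofNat 0, .ofNat 0, .ofNat 1]), ((3, 3), [.ofNat 84, .ofNat 90, .negSucc 19, .ofNat 2, .ofNat 0, .ofNat 0, .negSucc 19, .ofNat 0, .ofNat 90, .ofNat 0, .ofNat 0, .ofNat 0]), ((3, 9), [.ofNat 12, .ofNat 36, .negSucc 8, .ofNat 1, .ofNat 0, .ofNat 0, .negSucc 3, .ofNat 0, .ofNat 6, .ofNat 0, .ofNat 0, .ofNat 0]), ((4, 4), [.ofNat 60, .ofNat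 18, .negSucc 1, .ofNat 0, .ofNat 0, .ofNat 0, .ofNat 0, .ofNat 0, .ofNat 0, .ofNat 0, .ofNat 0, .ofNat 0]), ((5, 5), [.ofNat 36, .ofNat 2, .ofNat 0, .ofNat 0, .ofNat 0, .ofNat 0, .ofNat 0, .ofNat 0, .ofNat 0, .ofNat 0, .ofNat 0, .ofNat 0]), ((6, 6), [.ofNat 12, .ofNat 0, .ofNat 0, .ofNat 0, .ofNat 0, .ofNat 0, .ofNat 0, .ofNat 0, .ofNat 0, .ofNat 0, .ofNat 0, .ofNat 0])]
  tg := [((0, 0), .ofNat 1, [.ofNat 0, .ofNat 0, .ofNat 0, .ofNat 0, .ofNat 0, .ofNat 0, .ofNat 0, .ofNat 0, .ofNat 0, .ofNat 1, .ofNat 0, .ofNat 0]), ((0, 6), .ofNat 30, [.ofNat 0, .ofNat 0, .ofNat 0, .ofNat 0, .negSucc 10, .negSucc 53, .ofNat 0, .negSucc 0, .ofNat 0, .ofNat 0, .negSucc 20, .negSucc 5]), ((0, 12), .ofNat 1716, [.ofNat 0, .ofNat 0, .ofNat 0, .ofNat 40, .ofNat 66, .negSucc 105, .ofNat 13, .ofNat 29, .ofNat 2, .ofNat 0, .negSucc 6, .negSucc 3]), ((1, 1), .ofNat 715, [.ofNat 0, .ofNat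 0, .ofNat 0, .negSucc 199, .ofNat 1243, .ofNat 8967, .negSucc 64, .negSucc 1, .negSucc 9, .ofNat 0, .ofNat 2323, .ofNat 878]), ((1, 7), .ofNat 1, [.ofNat 0, .ofNat 0, .ofNat 0, .ofNat 0, .ofNat 0, .ofNat 0, .ofNat 0, .ofNat 0, .ofNat 0, .ofNat 0, .ofNat 1, .ofNat 0]), ((2, 2), .ofNat 22, [.ofNat 0, .ofNat 0, .ofNat 0, .ofNat 40, .negSucc 76, .negSucc 963, .ofNat 13, .ofNat 18, .ofNat 2, .ofNat 0, .negSucc 237, .negSucc 91]), ((2, 8), .ofNat 1, [.ofNat 0, .ofNat 0, .ofNat 0, .ofNat 0, .ofNat 0, .ofNat 0, .ofNat 0, .ofNat 0, .ofNat 0, .ofNat 0, .ofNat 0, .ofNat 1]), ((3, 3), .ofNat 3, [.ofNat 0, .ofNat 0, .ofNat 0, .negSucc 21, .negSucc 21, .ofNat 226, .negSucc 6, .negSucc 16, .negSucc 0, .ofNat 0, .ofNat 49, .ofNat 20]), ((3, 9), .ofNat 6, [.ofNat 0, .ofNat 0, .ofNat 0, .ofNat 10, .ofNat 88, .ofNat 266, .ofNat 1, .ofNat 9, .ofNat 0, .ofNat 0, .negSucc 6, .negSucc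 11]), ((4, 4), .ofNat 12, [.ofNat 0, .ofNat 0, .negSucc 11, .ofNat 100, .negSucc 219, .negSucc 2961, .ofNat 67, .ofNat 157, .ofNat 10, .ofNat 0, .negSucc 174, .negSucc 79]), ((5, 5), .ofNat 20, [.ofNat 0, .ofNat 20, .ofNat 180, .ofNat 300, .ofNat 2354, .ofNat 11706, .negSucc 194, .negSucc 430, .negSucc 29, .ofNat 0, .ofNat 189, .ofNat 104]), ((6, 6), .ofNat 6, [.ofNat 1, .negSucc 17, .negSucc 131, .negSucc 311, .negSucc 1331, .negSucc 5135, .ofNat 78, .ofNat 174, .ofNat 12, .ofNat 0, .negSucc 35, .negSucc 23])]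

/-- certificate, `m = 6`, `j = 13`, antisymmetric part -/
def NC_6_13_m : NUM_Cert where
  tri := [(0, 1), (0, 11), (0, 12), (0, 13), (1, 12)]
  fre := []
  cols := [((0, 6), [.ofNat 12, .ofNat 99, .negSucc 19, .ofNat 2, .ofNat 182]), ((0, 12), [.ofNat 24, .ofNat 90, .negSucc 13, .ofNat 2, .ofNat 26]), ((1, 7), [.ofNat 12, .ofNat 12, .negSucc 0, .ofNat 0, .ofNat 12]), ((2, 8), [.ofNat 12, .ofNat 1, .ofNat 0, .ofNat 0, .ofNat 0]), ((3, 9), [.ofNat 12, .ofNat 0, .ofNat 0, .ofNat 0, .ofNat 0])]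
  tg := [((0, 6), .ofNat 84, [.ofNat 0, .ofNat 0, .ofNat 12, .ofNat 71, .ofNat 1]), ((0, 12), .ofNat 84, [.ofNat 0, .ofNat 0, .negSucc 11, .negSucc 28, .negSucc 0]), ((1, 7), .ofNat 14, [.ofNat 0, .ofNat 0, .negSucc 25, .negSucc 168, .negSucc 0]), ((2, 8), .ofNat 4, [.ofNat 0, .ofNat 4, .ofNat 84, .ofNat 369, .ofNat 3]), ((3, 9), .ofNat 12, [.ofNat 1, .negSucc 11, .negSucc 227, .negSucc 963, .negSucc 7])]

theorem NUM_6_13 : NUM_stmt 6 13 2 :=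
  NUM_of_certs 6 13 2 (by norm_num) NC_6_13_p NC_6_13_m
    (by decide +kernel) (by decide +kernel) (by decide +kernel)
    (by decide +kernel) (by decide +kernel) (by decide +kernel) rfl rfl

/-- certificate, `m = 6`, `j = 14`, symmetric part -/
def NC_6_14_p : NUM_Cert where
  tri := [(0, 8), (0, 9), (0, 10), (0, 11), (0, 12), (0, 13), (1, 10), (1, 11), (1, 12), (2, 11)]
  fre := [(0, 0), (1, 7)]
  cols := [((0, 0), [.ofNat 0, .ofNat 0, .ofNat 0, .ofNat 0, .ofNat 0, .ofNat 0, .ofNat 0, .ofNat 0, .ofNat 0, .ofNat 0, .ofNat 2, .ofNat 0]), ((0, 6), [.ofNat 2976, .negSucc 1945, .ofNat 931, .negSucc 307, .ofNat 63, .negSucc 5, .negSucc 7027, .ofNat 2128, .negSucc 335, .negSucc 5095, .ofNat 0, .ofNat 0]), ((0, 12), [.ofNat 2508, .negSucc 1781, .ofNat 935, .negSucc 351, .ofNat 90, .negSucc 11, .negSucc 2001, .ofNat 728, .negSucc 167, .negSucc 363, .ofNat 0, .ofNat 0]),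 ((1, 1), [.ofNat 2574, .negSucc 1429, .ofNat 572, .negSucc 155, .ofNat 26, .negSucc 1, .negSucc 6005, .ofNat 1456, .negSucc 181, .negSucc 4731, .ofNat 0, .ofNat 0]), ((1, 7), [.ofNat 1287, .negSucc 714, .ofNat 286, .negSucc 77, .ofNat 13, .negSucc 0, .negSucc 1966, .ofNat 511, .negSucc 69, .negSucc 1182, .ofNat 0, .ofNat 1]), ((2, 2), [.ofNat 990, .negSucc 439, .ofNat 132, .negSucc 23, .ofNat 2, .ofNat 0, .negSucc 1583, .ofNat 288, .negSucc 23, .negSucc 1143, .ofNat 0, .ofNat 0]), ((2, 8), [.ofNat 494, .negSucc 219, .ofNat 66, .negSucc 11, .ofNat 1, .ofNat 0, .negSucc 395, .ofNat 72, .negSucc 5, .negSucc 159, .ofNat 0, .ofNat 0]), ((3, 3), [.ofNat 330, .negSucc 109, .ofNat 22, .negSucc 1, .ofNat 0, .ofNat 0, .negSucc 241, .ofNat 22, .ofNat 0, .negSucc 109, .ofNat 0, .ofNat 0]), ((3, 9), [.ofNat 156, .negSucc 53, .ofNat 11, .negSucc 0, .ofNat 0, .ofNat 0, .negSucc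 54, .ofNat 5, .ofNat 0, .negSucc 9, .ofNat 0, .ofNat 0]), ((4, 4), [.ofNat 90, .negSucc 19, .ofNat 2, .ofNat 0, .ofNat 0, .ofNat 0, .negSucc 19, .ofNat 0, .ofNat 0, .ofNat 0, .ofNat 0, .ofNat 0]), ((5, 5), [.ofNat 18, .negSucc 1, .ofNat 0, .ofNat 0, .ofNat 0, .ofNat 0, .ofNat 0, .ofNat 0, .ofNat 0, .ofNat 0, .ofNat 0, .ofNat 0]), ((6, 6), [.ofNat 2, .ofNat 0, .ofNat 0, .ofNat 0, .ofNat 0, .ofNat 0, .ofNat 0, .ofNat 0, .ofNat 0, .ofNat 0, .ofNat 0, .ofNat 0])]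
  tg := [((0, 0), .ofNat 1, [.ofNat 0, .ofNat 0, .ofNat 0, .ofNat 0, .ofNat 0, .ofNat 0, .ofNat 0, .ofNat 0, .ofNat 0, .ofNat 0, .ofNat 1, .ofNat 0]), ((0, 6), .ofNat 1260, [.ofNat 0, .ofNat 0, .ofNat 160, .ofNat 2585, .ofNat 12900, .ofNat 30394, .ofNat 16, .ofNat 401, .ofNat 1696, .ofNat 30, .ofNat 0, .negSucc 664]), ((0, 12), .ofNat 11088, [.ofNat 0, .ofNat 0, .ofNat 10, .negSucc 54, .ofNat 192, .ofNat 1729, .ofNat 1, .negSucc 33, .negSucc 61, .negSucc 5, .ofNat 0, .negSucc 13]), ((1, 1), .ofNat 220, [.ofNat 0, .ofNat 0, .negSucc 169, .negSucc 2694, .negSucc 13559, .negSucc 32472, .negSucc 16, .negSucc 411, .negSucc 1761, .negSucc 29, .ofNat 0, .ofNat 480]), ((1, 7), .ofNat 1, [.ofNat 0, .ofNat 0, .ofNat 0, .ofNat 0, .ofNat 0, .ofNat 0, .ofNat 0, .ofNat 0, .ofNat 0, .ofNat 0, .ofNat 0, .ofNat 1]), ((2, 2), .ofNat 42, [.ofNat 0, .ofNat 0, .ofNat 110, .ofNat 1705,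 .ofNat 8622, .ofNat 20930, .ofNat 11, .ofNat 256, .ofNat 1103, .ofNat 18, .ofNat 0, .negSucc 300]), ((2, 8), .ofNat 168, [.ofNat 0, .ofNat 0, .negSucc 109, .negSucc 1704, .negSucc 8327, .negSucc 19018, .negSucc 10, .negSucc 255, .negSucc 1081, .negSucc 17, .ofNat 0, .negSucc 139]), ((3, 3), .ofNat 396, [.ofNat 0, .ofNat 0, .negSucc 1629, .negSucc 23374, .negSucc 119999, .negSucc 305850, .negSucc 162, .negSucc 3301, .negSucc 14445, .negSucc 209, .ofNat 0, .ofNat 4130]), ((3, 9), .ofNat 36, [.ofNat 0, .ofNat 0, .ofNat 50, .ofNat 649, .ofNat 2976, .ofNat 6461, .ofNat 5, .ofNat 94, .ofNat 386, .ofNat 6, .ofNat 0, .ofNat 14]), ((4, 4), .ofNat 48, [.ofNat 0, .ofNat 0, .ofNat 158, .ofNat 1903, .ofNat 10896, .ofNat 34307, .ofNat 11, .ofNat 166, .ofNat 854, .ofNat 6, .ofNat 0, .negSucc 405]), ((5, 5), .ofNat 90, [.ofNat 0, .negSucc 89, .negSucc 889, .negSucc 4179, .negSucc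 18779, .negSucc 69250, .ofNat 1, .ofNat 221, .ofNat 526, .ofNat 30, .ofNat 0, .ofNat 385]), ((6, 6), .ofNat 112, [.ofNat 112, .ofNat 1008, .ofNat 5010, .ofNat 17105, .ofNat 50720, .ofNat 138957, .negSucc 2, .negSucc 317, .negSucc 989, .negSucc 37, .ofNat 0, .negSucc 153])]

/-- certificate, `m = 6`, `j = 14`, antisymmetric part -/
def NC_6_14_m : NUM_Cert where
  tri := [(0, 1), (0, 13), (0, 14), (1, 2), (1, 12), (1, 13), (6, 8)]
  fre := []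
  cols := [((0, 6), [.ofNat 12, .ofNat 22, .negSucc 1, .ofNat 336, .ofNat 1120, .negSucc 223, .negSucc 162161]), ((0, 12), [.ofNat 24, .ofNat 16, .negSucc 1, .ofNat 168, .ofNat 196, .negSucc 55, .ofNat 0]), ((1, 7), [.ofNat 12, .ofNat 1, .ofNat 0, .ofNat 294, .ofNat 112, .negSucc 13, .negSucc 18017]), ((1, 13), [.ofNat 24, .ofNat 2, .ofNat 0, .ofNat 156, .ofNat 26, .negSucc 1, .ofNat 0]), ((2, 8), [.ofNat 12, .ofNat 0, .ofNat 0, .ofNat 264, .ofNat 6, .ofNat 0, .negSucc 989]), ((3, 9), [.ofNat 12, .ofNat 0, .ofNat 0, .ofNat 246, .ofNat 0, .ofNat 0, .ofNat 0]), ((4, 10), [.ofNat 12, .ofNat 0, .ofNat 0, .ofNat 240, .ofNat 0, .ofNat 0, .ofNat 0])]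
  tg := [((0, 6), .ofNat 20790, [.ofNat 0, .ofNat 29568, .negSucc 20789, .ofNat 0, .negSucc 2144, .ofNat 1683, .negSucc 12]), ((0, 12), .ofNat 20790, [.ofNat 0, .negSucc 29567, .ofNat 10395, .ofNat 0, .ofNat 2145, .negSucc 1682, .ofNat 13]), ((1, 7), .ofNat 385, [.ofNat 0, .negSucc 6852, .ofNat 5390, .ofNat 0, .ofNat 495, .negSucc 417, .ofNat 3]), ((1, 13), .ofNat 495, [.ofNat 0, .ofNat 5082, .ofNat 0, .ofNat 0, .negSucc 329, .ofNat 297, .negSucc 1]), ((2, 8), .ofNat 198, [.ofNat 0, .ofNat 18018, .negSucc 18017, .ofNat 0, .negSucc 1286, .ofNat 1287, .negSucc 7]), ((3, 9), .ofNat 2970, [.negSucc 9899, .negSucc 69233, .ofNat 831600, .ofNat 495, .ofNat 10230, .negSucc 16433, .ofNat 74]), ((4, 10), .ofNat 90, [.ofNat 615, .negSucc 10571, .negSucc 36539, .negSucc 29, .ofNat 420, .negSucc 71, .ofNat 2])]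

theorem NUM_6_14 : NUM_stmt 6 14 1 :=
  NUM_of_certs 6 14 1 (by norm_num) NC_6_14_p NC_6_14_m
    (by decide +kernel) (by decide +kernel) (by decide +kernel)
    (by decide +kernel) (by decide +kernel) (by decide +kernel) rfl rfl

end Pool.Agent.OD
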