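import Pool.Agent.helper21.OD.NUMG

/-!
# Project OD: certificates of the period relations
-/

namespace Pool.Agent.OD

set_option maxRecDepth 100000

/-- certificate, `m = 6`, `j = 15`, symmetric part -/
def NC_6_15_p : NUM_Cert where
  tri := [(0, 7), (0, 9), (0, 10), (0, 11), (0, 12), (0, 13), (0, 14), (1, 10), (1, 11), (1, 12), (1, 13), (2, 12)]
  fre := [(0, 0), (1, 13), (3, 9)]
  cols := [((0, 0), [.ofNat 0, .ofNat 0, .ofNat 0, .ofNat 0, .ofNat 0, .ofNat 0, .ofNat 0, .ofNat 0, .ofNat 0, .ofNat 0, .ofNat 0, .ofNat 0, .ofNat 2, .ofNat 0, .ofNat 0]), ((0, 6), [.negSucc 6461, .negSucc 4921, .ofNat 2877, .negSucc 1238, .ofNat 371, .negSucc 68, .ofNat 6, .negSucc 25136, .ofNat 10395, .negSucc 2834, .ofNat 405, .ofNat 7560, .ofNat 0, .ofNat 0, .ofNat 0]), ((0, 12), [.negSucc 5642, .negSucc 4784, .ofNat 2937, .negSucc 1352, .ofNat 454, .negSucc 101, .ofNat 12, .negSucc 9008, .ofNat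 4095, .negSucc 1349, .ofNat 270, .ofNat 1260, .ofNat 0, .ofNat 0, .ofNat 0]), ((1, 1), [.negSucc 6863, .negSucc 4003, .ofNat 2002, .negSucc 727, .ofNat 182, .negSucc 27, .ofNat 2, .negSucc 24023, .ofNat 8190, .negSucc 1819, .ofNat 210, .ofNat 6370, .ofNat 0, .ofNat 0, .ofNat 0]), ((1, 7), [.negSucc 3438, .negSucc 2001, .ofNat 1001, .negSucc 363, .ofNat 91, .negSucc 13, .ofNat 1, .negSucc 7951, .ofNat 2842, .negSucc 671, .ofNat 84, .ofNat 1764, .ofNat 0, .ofNat 0, .ofNat 0]), ((1, 13), [.negSucc 1715, .negSucc 1286, .ofNat 715, .negSucc 285, .ofNat 78, .negSucc 12, .ofNat 1, .negSucc 1715, .ofNat 650, .negSucc 168, .ofNat 27, .ofNat 91, .ofNat 0, .ofNat 1, .ofNat 0]), ((2, 2), [.negSucc 3431, .negSucc 1429, .ofNat 572, .negSucc 155, .ofNat 26, .negSucc 1, .ofNat 0, .negSucc 7435, .ofNat 2028, .negSucc 337, .ofNat 26, .ofNat 1456, .ofNat 0, .ofNat 0, .ofNat 0]), ((2, 8), [.negSucc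 1708, .negSucc 714, .ofNat 286, .negSucc 77, .ofNat 13, .negSucc 0, .ofNat 0, .negSucc 2001, .ofNat 546, .negSucc 90, .ofNat 7, .ofNat 238, .ofNat 0, .ofNat 0, .ofNat 0]), ((3, 3), [.negSucc 1583, .negSucc 439, .ofNat 132, .negSucc 23, .ofNat 2, .ofNat 0, .ofNat 0, .negSucc 1583, .ofNat 288, .negSucc 23, .ofNat 0, .ofNat 132, .ofNat 0, .ofNat 0, .ofNat 0]), ((3, 9), [.negSucc 755, .negSucc 218, .ofNat 66, .negSucc 11, .ofNat 1, .ofNat 0, .ofNat 0, .negSucc 395, .ofNat 72, .negSucc 5, .ofNat 0, .ofNat 15, .ofNat 0, .ofNat 0, .ofNat 1]), ((4, 4), [.negSucc 659, .negSucc 109, .ofNat 22, .negSucc 1, .ofNat 0, .ofNat 0, .ofNat 0, .negSucc 241, .ofNat 22, .ofNat 0, .ofNat 0, .ofNat 0, .ofNat 0, .ofNat 0, .ofNat 0]), ((4, 10), [.negSucc 209, .negSucc 44, .ofNat 10, .negSucc 0, .ofNat 0, .ofNat 0, .ofNat 0, .negSucc 50, .ofNat 5, .ofNat 0, .ofNat 0, .ofNat 0, .ofNat 0, .ofNat 0, .ofNat 0]),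 ((5, 5), [.negSucc 239, .negSucc 19, .ofNat 2, .ofNat 0, .ofNat 0, .ofNat 0, .ofNat 0, .negSucc 19, .ofNat 0, .ofNat 0, .ofNat 0, .ofNat 0, .ofNat 0, .ofNat 0, .ofNat 0]), ((6, 6), [.negSucc 71, .negSucc 1, .ofNat 0, .ofNat 0, .ofNat 0, .ofNat 0, .ofNat 0, .ofNat 0, .ofNat 0, .ofNat 0, .ofNat 0, .ofNat 0, .ofNat 0, .ofNat 0, .ofNat 0]), ((7, 7), [.negSucc 13, .ofNat 0, .ofNat 0, .ofNat 0, .ofNat 0, .ofNat 0, .ofNat 0, .ofNat 0, .ofNat 0, .ofNat 0, .ofNat 0, .ofNat 0, .ofNat 0, .ofNat 0, .ofNat 0])]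
  tg := [((0, 0), .ofNat 1, [.ofNat 0, .ofNat 0, .ofNat 0, .ofNat 0, .ofNat 0, .ofNat 0, .ofNat 0, .ofNat 0, .ofNat 0, .ofNat 0, .ofNat 0, .ofNat 0, .ofNat 1, .ofNat 0, .ofNat 0]), ((0, 6), .ofNat 90, [.ofNat 0, .ofNat 0, .ofNat 410, .ofNat 4059, .ofNat 23202, .ofNat 89271, .ofNat 192010, .ofNat 41, .ofNat 410, .ofNat 2558, .ofNat 9815, .ofNat 39, .ofNat 0, .negSucc 5914, .negSucc 74]), ((0, 12), .ofNat 1980, [.ofNat 0, .ofNat 0, .ofNat 20, .ofNat 198, .ofNat 1170, .ofNat 4485, .ofNat 9436, .ofNat 2, .ofNat 20, .ofNat 134, .ofNat 509, .ofNat 3, .ofNat 0, .negSucc 1000, .negSucc 2]), ((1, 1), .ofNat 385, [.ofNat 0, .ofNat 0, .negSucc 7489, .negSucc 74150, .negSucc 423677, .negSucc 1628938, .negSucc 3500209, .negSucc 748, .negSucc 7489, .negSucc 46706, .negSucc 179119, .negSucc 710, .ofNat 0, .ofNat 109725, .ofNat 1305]), ((1, 7), .ofNat 35, [.ofNat 0, .ofNat 0, .negSucc 279, .negSucc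 2771, .negSucc 15869, .negSucc 61164, .negSucc 131788, .negSucc 27, .negSucc 279, .negSucc 1750, .negSucc 6725, .negSucc 26, .ofNat 0, .ofNat 4004, .ofNat 57]), ((1, 13), .ofNat 1, [.ofNat 0, .ofNat 0, .ofNat 0, .ofNat 0, .ofNat 0, .ofNat 0, .ofNat 0, .ofNat 0, .ofNat 0, .ofNat 0, .ofNat 0, .ofNat 0, .ofNat 0, .ofNat 1, .ofNat 0]), ((2, 2), .ofNat 10, [.ofNat 0, .ofNat 0, .ofNat 640, .ofNat 6336, .ofNat 36210, .ofNat 139220, .ofNat 299082, .ofNat 64, .ofNat 640, .ofNat 3993, .ofNat 15313, .ofNat 61, .ofNat 0, .negSucc 9466, .negSucc 110]), ((2, 8), .ofNat 2, [.ofNat 0, .ofNat 0, .ofNat 10, .ofNat 99, .ofNat 570, .ofNat 2210, .ofNat 4788, .ofNat 1, .ofNat 10, .ofNat 63, .ofNat 243, .ofNat 1, .ofNat 0, .negSucc 142, .negSucc 2]), ((3, 3), .ofNat 3, [.ofNat 0, .ofNat 0, .negSucc 279, .negSucc 2771, .negSucc 15854, .negSucc 60969, .negSucc 130878, .negSucc 27, .negSucc 279, .negSucc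 1749, .negSucc 6712, .negSucc 26, .ofNat 0, .ofNat 4277, .ofNat 48]), ((3, 9), .ofNat 1, [.ofNat 0, .ofNat 0, .ofNat 0, .ofNat 0, .ofNat 0, .ofNat 0, .ofNat 0, .ofNat 0, .ofNat 0, .ofNat 0, .ofNat 0, .ofNat 0, .ofNat 0, .ofNat 0, .ofNat 1]), ((4, 4), .ofNat 132, [.ofNat 0, .ofNat 0, .ofNat 9960, .ofNat 98714, .ofNat 566490, .ofNat 2179905, .ofNat 4663708, .ofNat 996, .ofNat 9982, .ofNat 62816, .ofNat 241283, .ofNat 999, .ofNat 0, .negSucc 169168, .negSucc 1658]), ((4, 10), .ofNat 30, [.ofNat 0, .ofNat 0, .negSucc 59, .negSucc 648, .negSucc 4109, .negSucc 16964, .negSucc 38317, .negSucc 5, .negSucc 64, .negSucc 456, .negSucc 1851, .negSucc 8, .ofNat 0, .ofNat 1183, .negSucc 20]), ((5, 5), .ofNat 30, [.ofNat 0, .ofNat 0, .negSucc 1109, .negSucc 11010, .negSucc 63743, .negSucc 245231, .negSucc 514975, .negSucc 113, .negSucc 1144, .negSucc 7314, .negSucc 28098, .negSucc 125, .ofNat 0,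 .ofNat 26026, .ofNat 168]), ((6, 6), .ofNat 45, [.ofNat 0, .negSucc 44, .ofNat 70, .ofNat 2673, .ofNat 20520, .ofNat 84435, .ofNat 155246, .ofNat 52, .ofNat 520, .ofNat 3484, .ofNat 13234, .ofNat 78, .ofNat 0, .negSucc 26025, .negSucc 32]), ((7, 7), .ofNat 28, [.negSucc 3, .ofNat 144, .ofNat 960, .ofNat 3960, .ofNat 12054, .ofNat 32565, .ofNat 83096, .ofNat 0, .ofNat 0, .negSucc 155, .negSucc 480, .negSucc 18, .ofNat 0, .ofNat 13013, .negSucc 32])]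

/-- certificate, `m = 6`, `j = 15`, antisymmetric part -/
def NC_6_15_m : NUM_Cert where
  tri := [(0, 13), (0, 14), (0, 15), (1, 13), (2, 12), (4, 11), (7, 8)]
  fre := []
  cols := [((0, 6), [.ofNat 141, .negSucc 23, .ofNat 2, .negSucc 1484, .negSucc 25199, .ofNat 343980, .ofNat 347490]), ((0, 12), [.ofNat 108, .negSucc 17, .ofNat 2, .negSucc 359, .negSucc 1469, .ofNat 0, .ofNat 0]), ((1, 7), [.ofNat 14, .negSucc 0, .ofNat 0, .negSucc 139, .negSucc 3331, .ofNat 50960, .ofNat 41184]), ((1, 13), [.ofNat 15, .negSucc 0, .ofNat 0, .negSucc 28, .negSucc 90, .ofNat 0, .ofNat 0]), ((2, 8), [.ofNat 1, .ofNat 0, .ofNat 0, .negSucc 6, .negSucc 307, .ofNat 5460, .ofNat 2574]), ((3, 9), [.ofNat 0, .ofNat 0, .ofNat 0, .ofNat 0, .negSucc 14, .ofNat 360, .ofNat 0]), ((4, 10), [.ofNat 0, .ofNat 0, .ofNat 0, .ofNat 0, .ofNat 0, .ofNat 10, .ofNat 0])]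
  tg := [((0, 6), .ofNat 378378, [.negSucc 1286, .ofNat 615186, .ofNat 1667952, .negSucc 21878, .ofNat 0, .ofNat 0, .negSucc 58]), ((0, 12), .ofNat 378378, [.ofNat 1287, .negSucc 615185, .negSucc 1478762, .ofNat 21879, .ofNat 0, .ofNat 0, .ofNat 59]), ((1, 7), .ofNat 14014, [.negSucc 285, .negSucc 269697, .negSucc 764477, .ofNat 9152, .ofNat 0, .ofNat 0, .ofNat 25]), ((1, 13), .ofNat 126126, [.ofNat 5148, .ofNat 1070784, .ofNat 2409264, .negSucc 38609, .ofNat 0, .ofNat 0, .negSucc 106]), ((2, 8), .ofNat 18018, [.ofNat 14157, .ofNat 1593306, .ofNat 5003856, .negSucc 47618, .ofNat 0, .ofNat 0, .negSucc 127]), ((3, 9), .ofNat 3510, [.negSucc 22697, .negSucc 577043, .negSucc 2539133, .ofNat 8892, .negSucc 233, .ofNat 0, .ofNat 5]), ((4, 10), .ofNat 4290, [.ofNat 106392, .negSucc 933503, .ofNat 3305016, .ofNat 54912, .ofNat 10296, .ofNat 429, .ofNat 430])]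

theorem NUM_6_15 : NUM_stmt 6 15 2 :=
  NUM_of_certs 6 15 2 (by norm_num) NC_6_15_p NC_6_15_m
    (by decide +kernel) (by decide +kernel) (by decide +kernel)
    (by decide +kernel) (by decide +kernel) (by decide +kernel) rfl rfl

/-- certificate, `m = 6`, `j = 16`, symmetric part -/
def NC_6_16_p : NUM_Cert where
  tri := [(0, 9), (0, 10), (0, 11), (0, 12), (0, 13), (0, 14), (0, 15), (1, 12), (1, 13), (1, 14), (2, 12), (2, 13), (3, 12)]
  fre := [(0, 0), (1, 13)]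
  cols := [((0, 0), [.ofNat 0, .ofNat 0, .ofNat 0, .ofNat 0, .ofNat 0, .ofNat 0, .ofNat 0, .ofNat 0, .ofNat 0, .ofNat 0, .ofNat 0, .ofNat 0, .ofNat 0, .ofNat 2, .ofNat 0]), ((0, 6), [.negSucc 11329, .ofNat 7799, .negSucc 4115, .ofNat 1610, .negSucc 439, .ofNat 75, .negSucc 5, .negSucc 14839, .ofNat 3680, .negSucc 479, .ofNat 56700, .negSucc 10799, .negSucc 100799, .ofNat 0, .ofNat 0]), ((0, 12), [.negSucc 11219, .ofNat 7942, .negSucc 4355, .ofNat 1819, .negSucc 555, .ofNat 114, .negSucc 11, .negSucc 7263, .ofNat 2176, .negSucc 383, .ofNat 10800, .negSucc 2879, .negSucc 6719, .ofNat 0, .ofNat 0]), ((1, 1), [.negSucc 10009, .ofNat 6006, .negSucc 2729, .ofNat 910, .negSucc 209, .ofNat 30, .negSucc 1, .negSucc 10919, .ofNat 2240, .negSucc 239, .ofNat 54600, .negSucc 8399, .negSucc 127399, .ofNat 0, .ofNat 0]), ((1, 7), [.negSucc 5005, .ofNat 3003, .negSucc 1364, .ofNat 455, .negSucc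 104, .ofNat 15, .negSucc 0, .negSucc 3968, .ofNat 861, .negSucc 98, .ofNat 14490, .negSucc 2519, .negSucc 24989, .ofNat 0, .ofNat 0]), ((1, 13), [.negSucc 4289, .ofNat 2717, .negSucc 1286, .ofNat 442, .negSucc 103, .ofNat 15, .negSucc 0, .negSucc 1351, .ofNat 314, .negSucc 41, .ofNat 1365, .negSucc 299, .negSucc 454, .ofNat 0, .ofNat 1]), ((2, 2), [.negSucc 4003, .ofNat 2002, .negSucc 727, .ofNat 182, .negSucc 27, .ofNat 2, .ofNat 0, .negSucc 2547, .ofNat 392, .negSucc 27, .ofNat 14560, .negSucc 1819, .negSucc 38219, .ofNat 0, .ofNat 0]), ((2, 8), [.negSucc 2001, .ofNat 1001, .negSucc 363, .ofNat 91, .negSucc 13, .ofNat 1, .ofNat 0, .negSucc 727, .ofNat 112, .negSucc 7, .ofNat 2478, .negSucc 335, .negSucc 4115, .ofNat 0, .ofNat 0]), ((3, 3), [.negSucc 1429, .ofNat 572, .negSucc 155, .ofNat 26, .negSucc 1, .ofNat 0, .ofNat 0, .negSucc 337, .ofNat 26, .ofNat 0, .ofNat 2028, .negSucc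 155, .negSucc 6005, .ofNat 0, .ofNat 0]), ((3, 9), [.negSucc 713, .ofNat 286, .negSucc 77, .ofNat 13, .negSucc 0, .ofNat 0, .ofNat 0, .negSucc 90, .ofNat 7, .ofNat 0, .ofNat 273, .negSucc 20, .negSucc 419, .ofNat 0, .ofNat 0]), ((4, 4), [.negSucc 439, .ofNat 132, .negSucc 23, .ofNat 2, .ofNat 0, .ofNat 0, .ofNat 0, .negSucc 23, .ofNat 0, .ofNat 0, .ofNat 132, .ofNat 0, .negSucc 439, .ofNat 0, .ofNat 0]), ((4, 10), [.negSucc 209, .ofNat 65, .negSucc 11, .ofNat 1, .ofNat 0, .ofNat 0, .ofNat 0, .negSucc 5, .ofNat 0, .ofNat 0, .ofNat 15, .ofNat 0, .negSucc 19, .ofNat 0, .ofNat 0]), ((5, 5), [.negSucc 109, .ofNat 22, .negSucc 1, .ofNat 0, .ofNat 0, .ofNat 0, .ofNat 0, .ofNat 0, .ofNat 0, .ofNat 0, .ofNat 0, .ofNat 0, .ofNat 0, .ofNat 0, .ofNat 0]), ((6, 6), [.negSucc 19, .ofNat 2, .ofNat 0, .ofNat 0, .ofNat 0, .ofNat 0, .ofNat 0, .ofNat 0, .ofNat 0, .ofNat 0, .ofNat 0, .ofNat 0, .ofNat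 0, .ofNat 0, .ofNat 0]), ((7, 7), [.negSucc 1, .ofNat 0, .ofNat 0, .ofNat 0, .ofNat 0, .ofNat 0, .ofNat 0, .ofNat 0, .ofNat 0, .ofNat 0, .ofNat 0, .ofNat 0, .ofNat 0, .ofNat 0, .ofNat 0])]
  tg := [((0, 0), .ofNat 1, [.ofNat 0, .ofNat 0, .ofNat 0, .ofNat 0, .ofNat 0, .ofNat 0, .ofNat 0, .ofNat 0, .ofNat 0, .ofNat 0, .ofNat 0, .ofNat 0, .ofNat 0, .ofNat 1, .ofNat 0]), ((0, 6), .ofNat 60, [.ofNat 0, .ofNat 0, .ofNat 0, .ofNat 3492, .ofNat 25649, .ofNat 64134, .ofNat 53025, .ofNat 742, .ofNat 6522, .ofNat 15666, .ofNat 52, .ofNat 755, .negSucc 8, .ofNat 0, .negSucc 20279]), ((0, 12), .ofNat 660, [.ofNat 0, .ofNat 0, .ofNat 0, .ofNat 72, .ofNat 481, .ofNat 1162, .ofNat 945, .ofNat 17, .ofNat 126, .ofNat 287, .ofNat 2, .ofNat 16, .ofNat 0, .ofNat 0, .negSucc 740]), ((1, 1), .ofNat 770, [.ofNat 0, .ofNat 0, .ofNat 0, .negSucc 183563, .negSucc 1329912, .negSucc 3321877, .negSucc 2765594,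 .negSucc 40013, .negSucc 339903, .negSucc 810361, .negSucc 3283, .negSucc 40164, .ofNat 363, .ofNat 0, .ofNat 1080960]), ((1, 7), .ofNat 35, [.ofNat 0, .ofNat 0, .ofNat 0, .negSucc 3923, .negSucc 29626, .negSucc 74213, .negSucc 60514, .negSucc 788, .negSucc 7456, .negSucc 18178, .negSucc 33, .negSucc 826, .ofNat 15, .ofNat 0, .ofNat 22282]), ((1, 13), .ofNat 1, [.ofNat 0, .ofNat 0, .ofNat 0, .ofNat 0, .ofNat 0, .ofNat 0, .ofNat 0, .ofNat 0, .ofNat 0, .ofNat 0, .ofNat 0, .ofNat 0, .ofNat 0, .ofNat 0, .ofNat 1]), ((2, 2), .ofNat 10, [.ofNat 0, .ofNat 0, .ofNat 0, .ofNat 7812, .ofNat 56511, .ofNat 141102, .ofNat 117495, .ofNat 1707, .ofNat 14451, .ofNat 34422, .ofNat 142, .ofNat 1711, .negSucc 14, .ofNat 0, .negSucc 46175]), ((2, 8), .ofNat 4, [.ofNat 0, .ofNat 0, .ofNat 0, .ofNat 396, .ofNat 3237, .ofNat 8162, .ofNat 6465, .ofNat 66, .ofNat 792, .ofNat 2012, .negSucc 3, .ofNat 77,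 .negSucc 2, .ofNat 0, .negSucc 2105]), ((3, 3), .ofNat 3, [.ofNat 0, .ofNat 0, .ofNat 0, .negSucc 3383, .negSucc 24377, .negSucc 60787, .negSucc 50609, .negSucc 743, .negSucc 6242, .negSucc 14832, .negSucc 63, .negSucc 742, .ofNat 6, .ofNat 0, .ofNat 20244]), ((3, 9), .ofNat 3, [.ofNat 0, .ofNat 0, .ofNat 0, .negSucc 179, .negSucc 1754, .negSucc 4549, .negSucc 3674, .negSucc 14, .negSucc 404, .negSucc 1119, .ofNat 10, .negSucc 27, .ofNat 3, .ofNat 0, .ofNat 780]), ((4, 4), .ofNat 4, [.ofNat 0, .ofNat 0, .ofNat 0, .ofNat 3560, .ofNat 25350, .ofNat 62860, .ofNat 52150, .ofNat 795, .ofNat 6520, .ofNat 15365, .ofNat 74, .ofNat 787, .negSucc 4, .ofNat 0, .negSucc 22164]), ((4, 10), .ofNat 2, [.ofNat 0, .ofNat 0, .ofNat 0, .ofNat 76, .ofNat 897, .ofNat 2562, .ofNat 2765, .negSucc 0, .ofNat 190, .ofNat 581, .negSucc 7, .ofNat 8, .negSucc 1, .ofNat 0, .negSucc 168]), ((5, 5), .ofNat 110,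 [.ofNat 0, .ofNat 0, .negSucc 109, .negSucc 49091, .negSucc 353248, .negSucc 896573, .negSucc 856274, .negSucc 10371, .negSucc 88121, .negSucc 209635, .negSucc 831, .negSucc 10384, .ofNat 99, .ofNat 0, .ofNat 319410]), ((6, 6), .ofNat 5, [.ofNat 0, .ofNat 5, .ofNat 55, .ofNat 988, .ofNat 6799, .ofNat 18963, .ofNat 28070, .ofNat 108, .ofNat 1294, .ofNat 3318, .negSucc 6, .ofNat 124, .negSucc 4, .ofNat 0, .negSucc 5238]), ((7, 7), .ofNat 21, [.negSucc 20, .negSucc 209, .negSucc 1154, .negSucc 4835, .negSucc 18277, .negSucc 50511, .negSucc 111719, .ofNat 59, .negSucc 653, .negSucc 2155, .ofNat 54, .ofNat 9, .ofNat 12, .ofNat 0, .ofNat 5577])]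

/-- certificate, `m = 6`, `j = 16`, antisymmetric part -/
def NC_6_16_m : NUM_Cert where
  tri := [(0, 1), (0, 11), (0, 12), (0, 13), (0, 14), (0, 15), (0, 16), (1, 14), (1, 15)]
  fre := []
  cols := [((0, 6), [.ofNat 12, .ofNat 4620, .negSucc 2029, .ofNat 680, .negSucc 164, .ofNat 26, .negSucc 1, .ofNat 1920, .negSucc 319]), ((0, 12), [.ofNat 24, .ofNat 4380, .negSucc 1820, .ofNat 564, .negSucc 125, .ofNat 20, .negSucc 1, .ofNat 576, .negSucc 127]), ((1, 7), [.ofNat 12, .ofNat 1365, .negSucc 454, .ofNat 105, .negSucc 14, .ofNat 1, .ofNat 0, .ofNat 171, .negSucc 17]), ((1, 13), [.ofNat 24, .ofNat 1443, .negSucc 467, .ofNat 106, .negSucc 14, .ofNat 1, .ofNat 0, .ofNat 48, .negSucc 5]), ((2, 8), [.ofNat 12, .ofNat 364, .negSucc 90, .ofNat 14, .negSucc 0, .ofNat 0, .ofNat 0, .ofNat 8, .ofNat 0]), ((2, 14), [.ofNat 24, .ofNat 728, .negSucc 181, .ofNat 28, .negSucc 1, .ofNat 0, .ofNat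 0, .ofNat 4, .ofNat 0]), ((3, 9), [.ofNat 12, .ofNat 78, .negSucc 12, .ofNat 1, .ofNat 0, .ofNat 0, .ofNat 0, .ofNat 0, .ofNat 0]), ((4, 10), [.ofNat 12, .ofNat 12, .negSucc 0, .ofNat 0, .ofNat 0, .ofNat 0, .ofNat 0, .ofNat 0, .ofNat 0]), ((5, 11), [.ofNat 12, .ofNat 2, .ofNat 0, .ofNat 0, .ofNat 0, .ofNat 0, .ofNat 0, .ofNat 0, .ofNat 0])]
  tg := [((0, 6), .ofNat 756, [.negSucc 0, .ofNat 6, .ofNat 60, .ofNat 324, .ofNat 1248, .ofNat 3822, .ofNat 9462, .ofNat 0, .ofNat 0]), ((0, 12), .ofNat 756, [.ofNat 1, .negSucc 5, .negSucc 59, .negSucc 323, .negSucc 1247, .negSucc 3821, .negSucc 9839, .ofNat 0, .ofNat 0]), ((1, 7), .ofNat 756, [.ofNat 13, .negSucc 77, .negSucc 779, .negSucc 4211, .negSucc 16223, .negSucc 50063, .negSucc 122753, .ofNat 0, .negSucc 62]), ((1, 13), .ofNat 108, [.negSucc 0, .ofNat 6, .ofNat 60, .ofNat 324, .ofNat 1248, .ofNat 3984, .ofNat 10506, .ofNat 0, .ofNat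 9]), ((2, 8), .ofNat 72, [.negSucc 6, .ofNat 42, .ofNat 420, .ofNat 2268, .ofNat 8760, .ofNat 27276, .ofNat 65526, .ofNat 12, .ofNat 123]), ((2, 14), .ofNat 168, [.ofNat 5, .negSucc 29, .negSucc 299, .negSucc 1619, .negSucc 6463, .negSucc 22847, .negSucc 60273, .negSucc 27, .negSucc 286]), ((3, 9), .ofNat 84, [.ofNat 23, .negSucc 137, .negSucc 1379, .negSucc 7367, .negSucc 27527, .negSucc 79211, .negSucc 180637, .ofNat 0, .negSucc 6]), ((4, 10), .ofNat 126, [.negSucc 79, .ofNat 480, .ofNat 4674, .ofNat 24282, .ofNat 88374, .ofNat 248430, .ofNat 558825, .ofNat 0, .ofNat 0]), ((5, 11), .ofNat 42, [.ofNat 43, .negSucc 215, .negSucc 2075, .negSucc 10655, .negSucc 38375, .negSucc 107015, .negSucc 239789, .ofNat 0, .ofNat 0])]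

theorem NUM_6_16 : NUM_stmt 6 16 1 :=
  NUM_of_certs 6 16 1 (by norm_num) NC_6_16_p NC_6_16_m
    (by decide +kernel) (by decide +kernel) (by decide +kernel)
    (by decide +kernel) (by decide +kernel) (by decide +kernel) rfl rfl

/-- certificate, `m = 6`, `j = 17`, symmetric part -/
def NC_6_17_p : NUM_Cert where
  tri := [(0, 9), (0, 12), (0, 13), (0, 14), (0, 15), (0, 16), (1, 9), (1, 11), (1, 12), (1, 13), (1, 14), (1, 15), (2, 12), (2, 13), (2, 14)]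
  fre := [(0, 0), (1, 13), (2, 14)]
  cols := [((0, 0), [.ofNat 0, .ofNat 0, .ofNat 0, .ofNat 0, .ofNat 0, .ofNat 0, .ofNat 0, .ofNat 0, .ofNat 0, .ofNat 0, .ofNat 0, .ofNat 0, .ofNat 0, .ofNat 0, .ofNat 0, .ofNat 2, .ofNat 0, .ofNat 0]), ((0, 6), [.negSucc 24199, .ofNat 5726, .negSucc 2049, .ofNat 515, .negSucc 80, .ofNat 6, .ofNat 265540, .ofNat 128299, .negSucc 60213, .ofNat 20570, .negSucc 4674, .ofNat 561, .ofNat 277508, .negSucc 86019, .ofNat 14960, .ofNat 0, .ofNat 0, .ofNat 0]), ((0, 12), [.negSucc 24089, .ofNat 6187, .negSucc 2374, .ofNat 670, .negSucc 125, .ofNat 12, .ofNat 121550, .ofNat 61880, .negSucc 30922, .ofNat 11815, .negSucc 3229, .ofNat 510, .ofNat 61744, .negSucc 23119, .ofNat 5440, .ofNat 0, .ofNat 0, .ofNat 0]), ((1, 1), [.negSucc 22879, .ofNat 3640, .negSucc 1119, .ofNat 240, .negSucc 31, .ofNat 2, .ofNat 340340, .ofNat 123760, .negSucc 49503, .ofNat 14280,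 .negSucc 2719, .ofNat 272, .ofNat 297024, .negSucc 76159, .ofNat 10880, .ofNat 0, .ofNat 0, .ofNat 0]), ((1, 7), [.negSucc 11449, .ofNat 1820, .negSucc 559, .ofNat 120, .negSucc 15, .ofNat 1, .ofNat 114515, .ofNat 43470, .negSucc 17947, .ofNat 5390, .negSucc 1079, .ofNat 115, .ofNat 77868, .negSucc 21839, .ofNat 3480, .ofNat 0, .ofNat 0, .ofNat 0]), ((1, 13), [.negSucc 10724, .ofNat 1807, .negSucc 558, .ofNat 120, .negSucc 15, .ofNat 1, .ofNat 45045, .ofNat 17394, .negSucc 7266, .ofNat 2239, .negSucc 475, .ofNat 58, .ofNat 10920, .negSucc 3343, .ofNat 656, .ofNat 0, .ofNat 1, .ofNat 0]), ((2, 2), [.negSucc 10009, .ofNat 910, .negSucc 209, .ofNat 30, .negSucc 1, .ofNat 0, .ofNat 150150, .ofNat 40950, .negSucc 13649, .ofNat 3150, .negSucc 449, .ofNat 30, .ofNat 89544, .negSucc 19319, .ofNat 2240, .ofNat 0, .ofNat 0, .ofNat 0]), ((2, 8), [.negSucc 5005, .ofNat 455, .negSucc 104, .ofNat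 15, .negSucc 0, .ofNat 0, .ofNat 45060, .ofNat 12285, .negSucc 4094, .ofNat 945, .negSucc 134, .ofNat 9, .ofNat 16254, .negSucc 3653, .ofNat 456, .ofNat 0, .ofNat 0, .ofNat 0]), ((2, 14), [.negSucc 3002, .ofNat 364, .negSucc 90, .ofNat 14, .negSucc 0, .ofNat 0, .ofNat 11011, .ofNat 3367, .negSucc 1182, .ofNat 287, .negSucc 42, .ofNat 3, .ofNat 1274, .negSucc 300, .ofNat 44, .ofNat 0, .ofNat 0, .ofNat 1]), ((3, 3), [.negSucc 4003, .ofNat 182, .negSucc 27, .ofNat 2, .ofNat 0, .ofNat 0, .ofNat 56056, .ofNat 10192, .negSucc 2547, .ofNat 392, .negSucc 27, .ofNat 0, .ofNat 16562, .negSucc 2547, .ofNat 182, .ofNat 0, .ofNat 0, .ofNat 0]), ((3, 9), [.negSucc 2000, .ofNat 91, .negSucc 13, .ofNat 1, .ofNat 0, .ofNat 0, .ofNat 16013, .ofNat 2912, .negSucc 727, .ofNat 112, .negSucc 7, .ofNat 0, .ofNat 2548, .negSucc 391, .ofNat 28, .ofNat 0, .ofNat 0, .ofNat 0]), ((4, 4), [.negSucc 1429, .ofNat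 26, .negSucc 1, .ofNat 0, .ofNat 0, .ofNat 0, .ofNat 18590, .ofNat 2028, .negSucc 337, .ofNat 26, .ofNat 0, .ofNat 0, .ofNat 2028, .negSucc 155, .ofNat 0, .ofNat 0, .ofNat 0, .ofNat 0]), ((4, 10), [.negSucc 704, .ofNat 13, .negSucc 0, .ofNat 0, .ofNat 0, .ofNat 0, .ofNat 4965, .ofNat 546, .negSucc 90, .ofNat 7, .ofNat 0, .ofNat 0, .ofNat 273, .negSucc 20, .ofNat 0, .ofNat 0, .ofNat 0, .ofNat 0]), ((5, 5), [.negSucc 439, .ofNat 2, .ofNat 0, .ofNat 0, .ofNat 0, .ofNat 0, .ofNat 5280, .ofNat 288, .negSucc 23, .ofNat 0, .ofNat 0, .ofNat 0, .ofNat 132, .ofNat 0, .ofNat 0, .ofNat 0, .ofNat 0, .ofNat 0]), ((5, 11), [.negSucc 164, .ofNat 1, .ofNat 0, .ofNat 0, .ofNat 0, .ofNat 0, .ofNat 1045, .ofNat 67, .negSucc 5, .ofNat 0, .ofNat 0, .ofNat 0, .ofNat 15, .ofNat 0, .ofNat 0, .ofNat 0, .ofNat 0, .ofNat 0]), ((6, 6), [.negSucc 109, .ofNat 0, .ofNat 0, .ofNat 0, .ofNat 0, .ofNat 0, .ofNat 1210,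 .ofNat 22, .ofNat 0, .ofNat 0, .ofNat 0, .ofNat 0, .ofNat 0, .ofNat 0, .ofNat 0, .ofNat 0, .ofNat 0, .ofNat 0]), ((7, 7), [.negSucc 19, .ofNat 0, .ofNat 0, .ofNat 0, .ofNat 0, .ofNat 0, .ofNat 200, .ofNat 0, .ofNat 0, .ofNat 0, .ofNat 0, .ofNat 0, .ofNat 0, .ofNat 0, .ofNat 0, .ofNat 0, .ofNat 0, .ofNat 0]), ((8, 8), [.negSucc 1, .ofNat 0, .ofNat 0, .ofNat 0, .ofNat 0, .ofNat 0, .ofNat 18, .ofNat 0, .ofNat 0, .ofNat 0, .ofNat 0, .ofNat 0, .ofNat 0, .ofNat 0, .ofNat 0, .ofNat 0, .ofNat 0, .ofNat 0])]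
  tg := [((0, 0), .ofNat 1, [.ofNat 0, .ofNat 0, .ofNat 0, .ofNat 0, .ofNat 0, .ofNat 0, .ofNat 0, .ofNat 0, .ofNat 0, .ofNat 0, .ofNat 0, .ofNat 0, .ofNat 0, .ofNat 0, .ofNat 0, .ofNat 1, .ofNat 0, .ofNat 0]), ((0, 6), .ofNat 30, [.ofNat 0, .negSucc 215, .negSucc 3990, .negSucc 25241, .negSucc 70076, .negSucc 81591, .ofNat 0, .ofNat 0, .negSucc 50, .negSucc 909, .negSucc 6040, .negSucc 14839, .negSucc 5, .negSucc 103, .negSucc 713, .ofNat 0, .negSucc 13051, .negSucc 7895]), ((0, 12), .ofNat 660, [.ofNat 0, .ofNat 0, .negSucc 90, .negSucc 713, .negSucc 2144, .negSucc 2659, .ofNat 0, .ofNat 0, .ofNat 0, .negSucc 18, .negSucc 160, .negSucc 429, .ofNat 0, .negSucc 1, .negSucc 17, .ofNat 0, .negSucc 883, .negSucc 419]), ((1, 1), .ofNat 385, [.ofNat 0, .ofNat 8712, .ofNat 187967, .ofNat 1236074, .ofNat 3495789, .ofNat 4140969, .ofNat 0, .ofNat 0, .ofNat 2057, .ofNat 42340, .ofNat 292572,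 .ofNat 731265, .ofNat 242, .ofNat 4788, .ofNat 34248, .ofNat 0, .ofNat 695349, .ofNat 419202]), ((1, 7), .ofNat 35, [.ofNat 0, .ofNat 720, .ofNat 10907, .ofNat 64778, .ofNat 174105, .ofNat 196420, .ofNat 0, .ofNat 0, .ofNat 170, .ofNat 2533, .ofNat 15792, .ofNat 37675, .ofNat 20, .ofNat 294, .ofNat 1896, .ofNat 0, .ofNat 28678, .ofNat 17430]), ((1, 13), .ofNat 1, [.ofNat 0, .ofNat 0, .ofNat 0, .ofNat 0, .ofNat 0, .ofNat 0, .ofNat 0, .ofNat 0, .ofNat 0, .ofNat 0, .ofNat 0, .ofNat 0, .ofNat 0, .ofNat 0, .ofNat 0, .ofNat 0, .ofNat 1, .ofNat 0]), ((2, 2), .ofNat 10, [.ofNat 0, .negSucc 719, .negSucc 15820, .negSucc 104453, .negSucc 295919, .negSucc 351059, .ofNat 0, .ofNat 0, .negSucc 169, .negSucc 3558, .negSucc 24695, .negSucc 61829, .negSucc 19, .negSucc 401, .negSucc 2887, .ofNat 0, .negSucc 59383, .negSucc 35759]), ((2, 8), .ofNat 2, [.ofNat 0, .negSucc 71, .negSucc 844, .negSucc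 4493, .negSucc 11323, .negSucc 11943, .ofNat 0, .ofNat 0, .negSucc 16, .negSucc 201, .negSucc 1133, .negSucc 2559, .negSucc 1, .negSucc 23, .negSucc 139, .ofNat 0, .negSucc 1351, .negSucc 829]), ((2, 14), .ofNat 1, [.ofNat 0, .ofNat 0, .ofNat 0, .ofNat 0, .ofNat 0, .ofNat 0, .ofNat 0, .ofNat 0, .ofNat 0, .ofNat 0, .ofNat 0, .ofNat 0, .ofNat 0, .ofNat 0, .ofNat 0, .ofNat 0, .ofNat 0, .ofNat 1]), ((3, 3), .ofNat 3, [.ofNat 0, .ofNat 288, .ofNat 6656, .ofNat 44404, .ofNat 126336, .ofNat 150416, .ofNat 0, .ofNat 0, .ofNat 68, .ofNat 1492, .ofNat 10468, .ofNat 26320, .ofNat 8, .ofNat 168, .ofNat 1221, .ofNat 0, .ofNat 26000, .ofNat 15600]), ((3, 9), .ofNat 3, [.ofNat 0, .ofNat 144, .ofNat 1417, .ofNat 6797, .ofNat 16008, .ofNat 15788, .ofNat 0, .ofNat 0, .ofNat 34, .ofNat 347, .ofNat 1775, .ofNat 3790, .ofNat 4, .ofNat 42, .ofNat 225, .ofNat 0, .ofNat 988, .ofNat 615]), ((4, 4), .ofNat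 12, [.ofNat 0, .negSucc 719, .negSucc 19446, .negSucc 133377, .negSucc 383264, .negSucc 459899, .ofNat 0, .ofNat 0, .negSucc 169, .negSucc 4316, .negSucc 31212, .negSucc 79289, .negSucc 19, .negSucc 481, .negSucc 3617, .ofNat 0, .negSucc 85007, .negSucc 50399]), ((4, 10), .ofNat 6, [.ofNat 0, .negSucc 287, .negSucc 2664, .negSucc 12333, .negSucc 28880, .negSucc 30155, .ofNat 0, .ofNat 0, .negSucc 67, .negSucc 656, .negSucc 3240, .negSucc 6809, .negSucc 7, .negSucc 79, .negSucc 413, .ofNat 0, .negSucc 623, .negSucc 377]), ((5, 5), .ofNat 15, [.ofNat 0, .ofNat 93, .ofNat 8398, .ofNat 63861, .ofNat 188226, .ofNat 230076, .ofNat 0, .ofNat 0, .ofNat 23, .ofNat 1800, .ofNat 14623, .ofNat 38160, .ofNat 3, .ofNat 197, .ofNat 1677, .ofNat 0, .ofNat 54756, .ofNat 31143]), ((5, 11), .ofNat 15, [.ofNat 0, .ofNat 570, .ofNat 5408, .ofNat 26082, .ofNat 67440, .ofNat 89880, .ofNat 0, .ofNat 0,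 .ofNat 130, .ofNat 1272, .ofNat 6398, .ofNat 14100, .ofNat 15, .ofNat 151, .ofNat 789, .ofNat 0, .ofNat 312, .ofNat 105]), ((6, 6), .ofNat 165, [.ofNat 0, .ofNat 5010, .ofNat 27274, .ofNat 69846, .ofNat 93750, .negSucc 96599, .ofNat 0, .ofNat 15, .ofNat 1340, .ofNat 8346, .ofNat 27349, .ofNat 50490, .ofNat 135, .ofNat 923, .ofNat 3207, .ofNat 0, .negSucc 203423, .negSucc 97124]), ((7, 7), .ofNat 210, [.ofNat 189, .negSucc 23471, .negSucc 185470, .negSucc 572221, .ofNat 773361, .ofNat 7477806, .ofNat 21, .negSucc 209, .negSucc 11526, .negSucc 95585, .negSucc 415477, .negSucc 632924, .negSucc 1491, .negSucc 13845, .negSucc 66815, .ofNat 0, .ofNat 47424, .negSucc 3149]), ((8, 8), .ofNat 12, [.negSucc 119, .ofNat 8592, .ofNat 56979, .ofNat 70238, .negSucc 1193720, .negSucc 5242235, .negSucc 11, .ofNat 60, .ofNat 5242, .ofNat 42913, .ofNat 176799, .ofNat 204270, .ofNat 772, .ofNat 6982,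 .ofNat 32754, .ofNat 0, .ofNat 572, .ofNat 1980])]

/-- certificate, `m = 6`, `j = 17`, antisymmetric part -/
def NC_6_17_m : NUM_Cert where
  tri := [(0, 1), (0, 13), (0, 14), (0, 15), (0, 16), (0, 17), (1, 15), (1, 16), (2, 15)]
  fre := []
  cols := [((0, 6), [.ofNat 12, .ofNat 2710, .negSucc 844, .ofNat 191, .negSucc 27, .ofNat 2, .negSucc 2430, .ofNat 374, .ofNat 14960]), ((0, 12), [.ofNat 24, .ofNat 2385, .negSucc 689, .ofNat 146, .negSucc 21, .ofNat 2, .negSucc 849, .ofNat 170, .ofNat 2720]), ((1, 7), [.ofNat 12, .ofNat 560, .negSucc 119, .ofNat 16, .negSucc 0, .ofNat 0, .negSucc 204, .ofNat 20, .ofNat 1440]), ((1, 13), [.ofNat 24, .ofNat 561, .negSucc 119, .ofNat 16, .negSucc 0, .ofNat 0, .negSucc 69, .ofNat 8, .ofNat 192]), ((2, 8), [.ofNat 12, .ofNat 105, .negSucc 14, .ofNat 1, .ofNat 0, .ofNat 0, .negSucc 8, .ofNat 0, .ofNat 72]), ((2, 14), [.ofNat 24, .ofNat 119, .negSucc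 15, .ofNat 1, .ofNat 0, .ofNat 0, .negSucc 2, .ofNat 0, .ofNat 6]), ((3, 9), [.ofNat 12, .ofNat 14, .negSucc 0, .ofNat 0, .ofNat 0, .ofNat 0, .ofNat 0, .ofNat 0, .ofNat 0]), ((4, 10), [.ofNat 12, .ofNat 1, .ofNat 0, .ofNat 0, .ofNat 0, .ofNat 0, .ofNat 0, .ofNat 0, .ofNat 0]), ((5, 11), [.ofNat 12, .ofNat 0, .ofNat 0, .ofNat 0, .ofNat 0, .ofNat 0, .ofNat 0, .ofNat 0, .ofNat 0])]
  tg := [((0, 6), .ofNat 84, [.ofNat 0, .ofNat 0, .ofNat 0, .ofNat 108, .ofNat 48, .negSucc 810, .ofNat 44, .ofNat 79, .ofNat 4]), ((0, 12), .ofNat 84, [.ofNat 0, .ofNat 0, .ofNat 0, .negSucc 107, .negSucc 47, .ofNat 853, .negSucc 43, .negSucc 78, .negSucc 3]), ((1, 7), .ofNat 21, [.ofNat 0, .ofNat 0, .ofNat 0, .negSucc 350, .negSucc 141, .ofNat 2641, .negSucc 142, .negSucc 254, .negSucc 12]), ((1, 13), .ofNat 6, [.ofNat 0, .ofNat 0, .ofNat 0, .ofNat 54, .ofNat 14, .negSucc 472, .ofNat 22, .ofNat 39, .ofNat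 2]), ((2, 8), .ofNat 12, [.ofNat 0, .ofNat 0, .ofNat 0, .ofNat 1128, .ofNat 368, .negSucc 8510, .ofNat 460, .ofNat 807, .ofNat 42]), ((2, 14), .ofNat 42, [.ofNat 0, .ofNat 0, .ofNat 0, .negSucc 1151, .ofNat 608, .ofNat 13434, .negSucc 487, .negSucc 809, .negSucc 44]), ((3, 9), .ofNat 42, [.ofNat 0, .ofNat 0, .negSucc 41, .negSucc 10277, .negSucc 10447, .ofNat 43726, .negSucc 3911, .negSucc 7089, .negSucc 354]), ((4, 10), .ofNat 42, [.ofNat 0, .ofNat 42, .ofNat 588, .ofNat 29952, .ofNat 34942, .negSucc 101763, .ofNat 10406, .ofNat 18687, .ofNat 946]), ((5, 11), .ofNat 84, [.ofNat 7, .negSucc 83, .negSucc 1091, .negSucc 42635, .negSucc 53771, .ofNat 123702, .negSucc 14255, .negSucc 25595, .negSucc 1295])]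

theorem NUM_6_17 : NUM_stmt 6 17 2 :=
  NUM_of_certs 6 17 2 (by norm_num) NC_6_17_p NC_6_17_m
    (by decide +kernel) (by decide +kernel) (by decide +kernel)
    (by decide +kernel) (by decide +kernel) (by decide +kernel) rfl rfl

/-- certificate, `m = 6`, `j = 18`, symmetric part -/
def NC_6_18_p : NUM_Cert where
  tri := [(0, 10), (0, 11), (0, 12), (0, 14), (0, 15), (0, 16), (0, 17), (1, 13), (1, 14), (1, 15), (1, 16), (2, 13), (2, 14), (2, 15), (3, 14), (4, 13)]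
  fre := [(0, 0), (2, 14)]
  cols := [((0, 0), [.ofNat 0, .ofNat 0, .ofNat 0, .ofNat 0, .ofNat 0, .ofNat 0, .ofNat 0, .ofNat 0, .ofNat 0, .ofNat 0, .ofNat 0, .ofNat 0, .ofNat 0, .ofNat 0, .ofNat 0, .ofNat 0, .ofNat 2, .ofNat 0]), ((0, 6), [.ofNat 43329, .negSucc 31043, .ofNat 17641, .ofNat 2565, .negSucc 595, .ofNat 87, .negSucc 5, .ofNat 88560, .negSucc 27809, .ofNat 5832, .negSucc 647, .negSucc 444311, .ofNat 126225, .negSucc 20195, .negSucc 269279, .negSucc 1817639, .ofNat 0, .ofNat 0]), ((0, 12), [.ofNat 43692, .negSucc 31811, .ofNat 18563, .ofNat 3045, .negSucc 795, .ofNat 138, .negSucc 11, .ofNat 51300, .negSucc 18089, .ofNat 4536, .negSucc 647, .negSucc 127601, .ofNat 43605, .negSucc 9179, .negSucc 48959, .negSucc 110159, .ofNat 0, .ofNat 0]), ((1, 1), [.ofNat 38896, .negSucc 24751, .ofNat 12376, .ofNat 1360, .negSucc 271, .ofNat 34, .negSucc 1, .ofNat 68544, .negSucc 18359,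 .ofNat 3264, .negSucc 305, .negSucc 436967, .ofNat 104040, .negSucc 13871, .negSucc 277439, .negSucc 2913119, .ofNat 0, .ofNat 0]), ((1, 7), [.ofNat 19459, .negSucc 12376, .ofNat 6188, .ofNat 680, .negSucc 135, .ofNat 17, .negSucc 0, .ofNat 25718, .negSucc 7149, .ofNat 1331, .negSucc 131, .negSucc 123045, .ofNat 31790, .negSucc 4674, .negSucc 67319, .negSucc 471239, .ofNat 0, .ofNat 0]), ((1, 13), [.ofNat 19162, .negSucc 12297, .ofNat 6175, .ofNat 680, .negSucc 135, .ofNat 17, .negSucc 0, .ofNat 11899, .negSucc 3394, .ofNat 670, .negSucc 74, .negSucc 23782, .ofNat 6715, .negSucc 1189, .negSucc 6119, .negSucc 11219, .ofNat 0, .ofNat 0]), ((2, 2), [.ofNat 16016, .negSucc 8735, .ofNat 3640, .ofNat 240, .negSucc 31, .ofNat 2, .ofNat 0, .ofNat 17920, .negSucc 3839, .ofNat 512, .negSucc 31, .negSucc 125663, .ofNat 25160, .negSucc 2719, .negSucc 76159, .negSucc 990079, .ofNat 0, .ofNat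 0]), ((2, 8), [.ofNat 8009, .negSucc 4367, .ofNat 1820, .ofNat 120, .negSucc 15, .ofNat 1, .ofNat 0, .ofNat 5600, .negSucc 1199, .ofNat 160, .negSucc 9, .negSucc 24947, .ofNat 5190, .negSucc 599, .negSucc 11039, .negSucc 87359, .ofNat 0, .ofNat 0]), ((2, 14), [.ofNat 7007, .negSucc 4003, .ofNat 1729, .ofNat 119, .negSucc 15, .ofNat 1, .ofNat 0, .ofNat 2212, .negSucc 477, .ofNat 64, .negSucc 3, .negSucc 3345, .ofNat 719, .negSucc 91, .negSucc 463, .negSucc 559, .ofNat 0, .ofNat 1]), ((3, 3), [.ofNat 6006, .negSucc 2729, .ofNat 910, .ofNat 30, .negSucc 1, .ofNat 0, .ofNat 0, .ofNat 3150, .negSucc 449, .ofNat 30, .ofNat 0, .negSucc 22049, .ofNat 3150, .negSucc 209, .negSucc 10919, .negSucc 196559, .ofNat 0, .ofNat 0]), ((3, 9), [.ofNat 3003, .negSucc 1364, .ofNat 455, .ofNat 15, .negSucc 0, .ofNat 0, .ofNat 0, .ofNat 945, .negSucc 134, .ofNat 9, .ofNat 0, .negSucc 3779, .ofNat 540,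 .negSucc 35, .negSucc 1133, .negSucc 11339, .ofNat 0, .ofNat 0]), ((4, 4), [.ofNat 2002, .negSucc 727, .ofNat 182, .ofNat 2, .ofNat 0, .ofNat 0, .ofNat 0, .ofNat 392, .negSucc 27, .ofNat 0, .ofNat 0, .negSucc 2547, .ofNat 182, .ofNat 0, .negSucc 727, .negSucc 24023, .ofNat 0, .ofNat 0]), ((4, 10), [.ofNat 1000, .negSucc 363, .ofNat 91, .ofNat 1, .ofNat 0, .ofNat 0, .ofNat 0, .ofNat 112, .negSucc 7, .ofNat 0, .ofNat 0, .negSucc 391, .ofNat 28, .ofNat 0, .negSucc 55, .negSucc 923, .ofNat 0, .ofNat 0]), ((5, 5), [.ofNat 572, .negSucc 155, .ofNat 26, .ofNat 0, .ofNat 0, .ofNat 0, .ofNat 0, .ofNat 26, .ofNat 0, .ofNat 0, .ofNat 0, .negSucc 155, .ofNat 0, .ofNat 0, .ofNat 0, .negSucc 1429, .ofNat 0, .ofNat 0]), ((5, 11), [.ofNat 275, .negSucc 76, .ofNat 13, .ofNat 0, .ofNat 0, .ofNat 0, .ofNat 0, .ofNat 7, .ofNat 0, .ofNat 0, .ofNat 0, .negSucc 20, .ofNat 0, .ofNat 0, .ofNat 0, .negSucc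 34, .ofNat 0, .ofNat 0]), ((6, 6), [.ofNat 132, .negSucc 23, .ofNat 2, .ofNat 0, .ofNat 0, .ofNat 0, .ofNat 0, .ofNat 0, .ofNat 0, .ofNat 0, .ofNat 0, .ofNat 0, .ofNat 0, .ofNat 0, .ofNat 0, .ofNat 0, .ofNat 0, .ofNat 0]), ((7, 7), [.ofNat 22, .negSucc 1, .ofNat 0, .ofNat 0, .ofNat 0, .ofNat 0, .ofNat 0, .ofNat 0, .ofNat 0, .ofNat 0, .ofNat 0, .ofNat 0, .ofNat 0, .ofNat 0, .ofNat 0, .ofNat 0, .ofNat 0, .ofNat 0]), ((8, 8), [.ofNat 2, .ofNat 0, .ofNat 0, .ofNat 0, .ofNat 0, .ofNat 0, .ofNat 0, .ofNat 0, .ofNat 0, .ofNat 0, .ofNat 0, .ofNat 0, .ofNat 0, .ofNat 0, .ofNat 0, .ofNat 0, .ofNat 0, .ofNat 0])]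
  tg := [((0, 0), .ofNat 1, [.ofNat 0, .ofNat 0, .ofNat 0, .ofNat 0, .ofNat 0, .ofNat 0, .ofNat 0, .ofNat 0, .ofNat 0, .ofNat 0, .ofNat 0, .ofNat 0, .ofNat 0, .ofNat 0, .ofNat 0, .ofNat 0, .ofNat 1, .ofNat 0]), ((0, 6), .ofNat 300, [.ofNat 0, .ofNat 0, .ofNat 0, .ofNat 2184868, .ofNat 11718960, .ofNat 20578200, .ofNat 8671190, .negSucc 105164, .negSucc 17716, .ofNat 2595860, .ofNat 6094910, .negSucc 38949, .negSucc 224181, .ofNat 4250, .negSucc 46784, .ofNat 2337, .ofNat 0, .ofNat 178360]), ((0, 12), .ofNat 660, [.ofNat 0, .ofNat 0, .ofNat 0, .ofNat 13972, .ofNat 74580, .ofNat 129560, .ofNat 51510, .negSucc 674, .negSucc 118, .ofNat 16550, .ofNat 38710, .negSucc 249, .negSucc 1437, .ofNat 20, .negSucc 299, .ofNat 15, .ofNat 0, .ofNat 1372]), ((1, 1), .ofNat 150150, [.ofNat 0, .ofNat 0, .ofNat 0, .negSucc 4535908523, .negSucc 24318876779, .negSucc 42673248599, .negSucc 17924904419,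 .ofNat 218321595, .ofNat 36410381, .negSucc 5388205229, .negSucc 12646074629, .ofNat 80859850, .ofNat 465253926, .negSucc 9042149, .ofNat 97102605, .negSucc 4851590, .ofNat 0, .negSucc 371710079]), ((1, 7), .ofNat 105, [.ofNat 0, .ofNat 0, .ofNat 0, .negSucc 1441439, .negSucc 7738064, .negSucc 13606559, .negSucc 5768099, .ofNat 69390, .ofNat 11956, .negSucc 1713164, .negSucc 4025699, .ofNat 25700, .ofNat 148020, .negSucc 2639, .ofNat 30885, .negSucc 1541, .ofNat 0, .negSucc 117011]), ((1, 13), .ofNat 195, [.ofNat 0, .ofNat 0, .ofNat 0, .negSucc 2771, .negSucc 14714, .negSucc 25199, .negSucc 9179, .ofNat 135, .ofNat 28, .negSucc 3269, .negSucc 7619, .ofNat 50, .ofNat 288, .ofNat 0, .ofNat 60, .negSucc 2, .ofNat 0, .negSucc 419]), ((2, 2), .ofNat 10, [.ofNat 0, .ofNat 0, .ofNat 0, .ofNat 992880, .ofNat 5322915, .ofNat 9339210, .ofNat 3920625, .negSucc 47789, .negSucc 7965, .ofNat 1179405,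 .ofNat 2767905, .negSucc 17699, .negSucc 101839, .ofNat 1980, .negSucc 21254, .ofNat 1062, .ofNat 0, .ofNat 81462]), ((2, 8), .ofNat 20, [.ofNat 0, .ofNat 0, .ofNat 0, .ofNat 227052, .ofNat 1222290, .ofNat 2158920, .ofNat 933300, .negSucc 10934, .negSucc 2022, .ofNat 270150, .ofNat 636520, .negSucc 4049, .negSucc 23377, .ofNat 330, .negSucc 4874, .ofNat 243, .ofNat 0, .ofNat 18160]), ((2, 14), .ofNat 1, [.ofNat 0, .ofNat 0, .ofNat 0, .ofNat 0, .ofNat 0, .ofNat 0, .ofNat 0, .ofNat 0, .ofNat 0, .ofNat 0, .ofNat 0, .ofNat 0, .ofNat 0, .ofNat 0, .ofNat 0, .ofNat 0, .ofNat 0, .ofNat 1]), ((3, 3), .ofNat 15, [.ofNat 0, .ofNat 0, .ofNat 0, .negSucc 2170727, .negSucc 11635424, .negSucc 20407439, .negSucc 8551679, .ofNat 104490, .ofNat 17402, .negSucc 2578284, .negSucc 6049959, .ofNat 38700, .ofNat 222652, .negSucc 4324, .ofNat 46470, .negSucc 2321, .ofNat 0, .negSucc 178779]), ((3, 9), .ofNat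 3, [.ofNat 0, .ofNat 0, .ofNat 0, .negSucc 16799, .negSucc 91289, .negSucc 163759, .negSucc 75819, .ofNat 810, .ofNat 182, .negSucc 20064, .negSucc 47699, .ofNat 300, .ofNat 1744, .negSucc 4, .ofNat 363, .negSucc 17, .ofNat 0, .negSucc 1287]), ((4, 4), .ofNat 4, [.ofNat 0, .ofNat 0, .ofNat 0, .ofNat 471048, .ofNat 2523600, .ofNat 4421280, .ofNat 1842120, .negSucc 22679, .negSucc 3775, .ofNat 559330, .ofNat 1311880, .negSucc 8399, .negSucc 48319, .ofNat 930, .negSucc 10084, .ofNat 504, .ofNat 0, .ofNat 39280]), ((4, 10), .ofNat 10, [.ofNat 0, .ofNat 0, .ofNat 0, .ofNat 19614, .ofNat 109980, .ofNat 208800, .ofNat 123420, .negSucc 944, .negSucc 310, .ofNat 23730, .ofNat 58080, .negSucc 349, .negSucc 2075, .negSucc 49, .negSucc 429, .ofNat 21, .ofNat 0, .ofNat 1280]), ((5, 5), .ofNat 650, [.ofNat 0, .ofNat 0, .ofNat 0, .negSucc 38824883, .negSucc 207663479, .negSucc 362435399, .negSucc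 147949469, .ofNat 1871095, .ofNat 312921, .negSucc 46061129, .negSucc 107869629, .ofNat 693000, .ofNat 3984866, .negSucc 73799, .ofNat 831705, .negSucc 41580, .ofNat 0, .negSucc 3375679]), ((5, 11), .ofNat 70, [.ofNat 0, .ofNat 0, .ofNat 0, .negSucc 52667, .negSucc 317519, .negSucc 703079, .negSucc 696149, .ofNat 2495, .ofNat 1281, .negSucc 64469, .negSucc 169189, .ofNat 920, .ofNat 5642, .ofNat 420, .ofNat 1155, .negSucc 54, .ofNat 0, .negSucc 1567]), ((6, 6), .ofNat 210, [.ofNat 0, .ofNat 0, .ofNat 210, .ofNat 4102350, .ofNat 21920010, .ofNat 38231760, .ofNat 16161390, .negSucc 199154, .negSucc 41628, .ofNat 4839240, .ofNat 11328870, .negSucc 73609, .negSucc 423989, .ofNat 1890, .negSucc 88304, .ofNat 4413, .ofNat 0, .ofNat 403368]), ((7, 7), .ofNat 2310, [.ofNat 0, .negSucc 2309, .negSucc 27719, .negSucc 7391915, .negSucc 40261319, .negSucc 71734919, .negSucc 46671629, .ofNat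 445035, .ofNat 542549, .negSucc 7873019, .negSucc 19272749, .ofNat 154720, .ofNat 935874, .ofNat 280680, .ofNat 184575, .negSucc 9038, .ofNat 0, .negSucc 1223039]), ((8, 8), .ofNat 420, [.ofNat 420, .ofNat 4620, .ofNat 27720, .negSucc 788759, .negSucc 3917969, .negSucc 8441999, .negSucc 4594589, .negSucc 25349, .negSucc 295357, .negSucc 1322579, .negSucc 2642009, .negSucc 2739, .negSucc 42419, .negSucc 179129, .negSucc 2204, .ofNat 6, .ofNat 0, .ofNat 46956])]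

/-- certificate, `m = 6`, `j = 18`, antisymmetric part -/
def NC_6_18_m : NUM_Cert where
  tri := [(0, 1), (0, 3), (0, 5), (0, 15), (0, 16), (0, 17), (0, 18), (1, 2), (1, 4), (1, 16), (1, 17), (2, 3)]
  fre := []
  cols := [((0, 6), [.ofNat 12, .ofNat 616, .ofNat 7782, .ofNat 1036, .negSucc 218, .ofNat 30, .negSucc 1, .ofNat 648, .ofNat 27810, .ofNat 3024, .negSucc 431, .ofNat 20196]), ((0, 12), [.ofNat 24, .ofNat 1016, .ofNat 9354, .ofNat 836, .negSucc 167, .ofNat 24, .negSucc 1, .ofNat 648, .ofNat 18090, .ofNat 1188, .negSucc 215, .ofNat 9180]), ((0, 18), [.ofNat 36, .ofNat 1632, .ofNat 17136, .ofNat 1632, .negSucc 305, .ofNat 36, .negSucc 1, .ofNat 0, .ofNat 0, .ofNat 0, .ofNat 0, .ofNat 0]), ((1, 7), [.ofNat 12, .ofNat 550, .ofNat 5747, .ofNat 136, .negSucc 16, .ofNat 1, .ofNat 0, .ofNat 582, .ofNat 20605, .ofNat 242, .negSucc 21, .ofNat 14960]), ((1, 13), [.ofNat 24, .ofNat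 956, .ofNat 7474, .ofNat 136, .negSucc 16, .ofNat 1, .ofNat 0, .ofNat 588, .ofNat 12530, .ofNat 95, .negSucc 9, .ofNat 5440]), ((2, 8), [.ofNat 12, .ofNat 496, .ofNat 4172, .ofNat 16, .negSucc 0, .ofNat 0, .ofNat 0, .ofNat 528, .ofNat 14980, .ofNat 10, .ofNat 0, .ofNat 10856]), ((2, 14), [.ofNat 24, .ofNat 920, .ofNat 6370, .ofNat 16, .negSucc 0, .ofNat 0, .ofNat 0, .ofNat 552, .ofNat 9266, .ofNat 4, .ofNat 0, .ofNat 3244]), ((3, 9), [.ofNat 12, .ofNat 454, .ofNat 3003, .ofNat 1, .ofNat 0, .ofNat 0, .ofNat 0, .ofNat 486, .ofNat 10773, .ofNat 0, .ofNat 0, .ofNat 7776]), ((3, 15), [.ofNat 24, .ofNat 908, .ofNat 6006, .ofNat 2, .ofNat 0, .ofNat 0, .ofNat 0, .ofNat 540, .ofNat 8190, .ofNat 0, .ofNat 0, .ofNat 2520]), ((4, 10), [.ofNat 12, .ofNat 424, .ofNat 2198, .ofNat 0, .ofNat 0, .ofNat 0, .ofNat 0, .ofNat 456, .ofNat 7858, .ofNat 0, .ofNat 0, .ofNat 5636]), ((5, 11), [.ofNat 12,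 .ofNat 406, .ofNat 1727, .ofNat 0, .ofNat 0, .ofNat 0, .ofNat 0, .ofNat 438, .ofNat 6145, .ofNat 0, .ofNat 0, .ofNat 4376]), ((6, 12), [.ofNat 12, .ofNat 400, .ofNat 1572, .ofNat 0, .ofNat 0, .ofNat 0, .ofNat 0, .ofNat 432, .ofNat 5580, .ofNat 0, .ofNat 0, .ofNat 3960])]
  tg := [((0, 6), .ofNat 653184, [.ofNat 605624, .ofNat 6537, .ofNat 708, .ofNat 0, .negSucc 311039, .negSucc 4774463, .negSucc 16049663, .negSucc 24236, .negSucc 2435, .negSucc 31103, .negSucc 318815, .ofNat 3300]), ((0, 12), .ofNat 1306368, [.negSucc 1214215, .negSucc 12926, .negSucc 1499, .ofNat 0, .ofNat 622080, .ofNat 9548928, .ofNat 31446144, .ofNat 48411, .ofNat 4956, .ofNat 62208, .ofNat 637632, .negSucc 6683]), ((0, 18), .ofNat 93312, [.ofNat 424, .negSucc 20, .ofNat 12, .ofNat 0, .ofNat 0, .ofNat 0, .ofNat 0, .ofNat 9, .negSucc 11, .ofNat 0, .ofNat 0, .ofNat 12]), ((1, 7), .ofNat 217728, [.negSucc 2610519,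 .negSucc 29012, .negSucc 2675, .ofNat 0, .ofNat 1347840, .ofNat 20507904, .ofNat 69330816, .ofNat 105321, .ofNat 10164, .ofNat 134784, .ofNat 1363392, .negSucc 13907]), ((1, 13), .ofNat 31104, [.ofNat 199048, .ofNat 2319, .ofNat 156, .ofNat 0, .negSucc 103679, .negSucc 1534463, .negSucc 4945535, .negSucc 8138, .negSucc 731, .negSucc 10367, .negSucc 103679, .ofNat 1020]), ((2, 8), .ofNat 62208, [.ofNat 4191032, .ofNat 48153, .ofNat 3588, .ofNat 0, .negSucc 2135807, .negSucc 32431103, .negSucc 111507839, .negSucc 170684, .negSucc 15683, .negSucc 207359, .negSucc 2104703, .ofNat 21732]), ((2, 14), .ofNat 435456, [.negSucc 8680711, .negSucc 118046, .ofNat 804, .ofNat 0, .ofNat 3939840, .ofNat 57283200, .ofNat 182611584, .ofNat 372123, .ofNat 25116, .ofNat 393984, .ofNat 3893184, .negSucc 38075]), ((3, 9), .ofNat 20412, [.negSucc 4385743, .negSucc 48890, .negSucc 4469, .ofNat 20412, .ofNat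 2523312, .ofNat 36271152, .ofNat 126332784, .ofNat 177084, .ofNat 17052, .ofNat 219672, .ofNat 2241432, .negSucc 23342]), ((3, 15), .ofNat 326592, [.ofNat 9446264, .ofNat 136641, .negSucc 3899, .ofNat 0, .negSucc 4043519, .negSucc 58475519, .negSucc 185784191, .negSucc 413108, .negSucc 24611, .negSucc 404351, .negSucc 3981311, .ofNat 38868]), ((4, 10), .ofNat 4536, [.ofNat 2666236, .ofNat 3237, .ofNat 3252, .negSucc 27215, .negSucc 1422575, .negSucc 18897515, .negSucc 66212639, .negSucc 84557, .negSucc 8525, .negSucc 107783, .negSucc 1103273, .ofNat 11541]), ((5, 11), .ofNat 72576, [.negSucc 89215095, .ofNat 692175, .negSucc 114275, .ofNat 1088640, .ofNat 40179456, .ofNat 502343424, .ofNat 1762881408, .ofNat 2132917, .ofNat 218148, .ofNat 2740608, .ofNat 28085184, .negSucc 294275]), ((6, 12), .ofNat 15552, [.ofNat 24886456, .negSucc 264746, .ofNat 32052, .negSucc 311039, .negSucc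 10419839, .negSucc 127464191, .negSucc 447384383, .negSucc 532520, .negSucc 54515, .negSucc 684287, .negSucc 7013951, .ofNat 73524])]

theorem NUM_6_18 : NUM_stmt 6 18 1 :=
  NUM_of_certs 6 18 1 (by norm_num) NC_6_18_p NC_6_18_m
    (by decide +kernel) (by decide +kernel) (by decide +kernel)
    (by decide +kernel) (by decide +kernel) (by decide +kernel) rfl rfl

end Pool.Agent.OD
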