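import Pool.Agent.helper21.OD.NUMG

/-!
# Project OD: certificates of the period relations
-/

namespace Pool.Agent.OD

set_option maxRecDepth 100000

/-- certificate, `m = 6`, `j = 19`, symmetric part -/
def NC_6_19_p : NUM_Cert where
  tri := [(0, 12), (0, 13), (0, 14), (0, 15), (0, 16), (0, 17), (0, 18), (1, 11), (1, 13), (1, 14), (1, 15), (1, 16), (1, 17), (2, 14), (2, 15), (2, 16), (3, 15), (8, 10)]
  fre := [(0, 0), (1, 13), (2, 14), (7, 7)]
  cols := [((0, 0), [.ofNat 0, .ofNat 0, .ofNat 0, .ofNat 0, .ofNat 0, .ofNat 0, .ofNat 0, .ofNat 0, .ofNat 0, .ofNat 0, .ofNat 0, .ofNat 0, .ofNat 0, .ofNat 0, .ofNat 0, .ofNat 0, .ofNat 0, .ofNat 0, .ofNat 2, .ofNat 0, .ofNat 0, .ofNat 0]), ((0, 6), [.ofNat 48685, .negSucc 25416, .ofNat 10341, .negSucc 3160, .ofNat 683, .negSucc 92, .ofNat 6, .ofNat 959595, .ofNat 320131, .negSucc 126710, .ofNat 36803, .negSucc 7162, .ofNat 741, .ofNat 686907, .negSucc 180062, .ofNat 26676, .ofNat 415701,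 .ofNat 79260324, .ofNat 0, .ofNat 0, .ofNat 0, .ofNat 0]), ((0, 12), [.ofNat 50387, .negSucc 27124, .ofNat 11607, .negSucc 3840, .ofNat 934, .negSucc 149, .ofNat 12, .ofNat 529074, .ofNat 189791, .negSucc 80996, .ofNat 26467, .negSucc 6117, .ofNat 798, .ofNat 240597, .negSucc 75410, .ofNat 14364, .ofNat 101745, .ofNat 0, .ofNat 0, .ofNat 0, .ofNat 0, .ofNat 0]), ((0, 18), [.ofNat 31824, .negSucc 18563, .ofNat 8568, .negSucc 3059, .ofNat 816, .negSucc 152, .ofNat 18, .ofNat 75582, .ofNat 27132, .negSucc 11627, .ofNat 3876, .negSucc 968, .ofNat 171, .ofNat 0, .ofNat 0, .ofNat 0, .ofNat 0, .ofNat 0, .ofNat 0, .ofNat 0, .ofNat 0, .ofNat 0]), ((1, 1), [.ofNat 37128, .negSucc 17135, .ofNat 6120, .negSucc 1631, .ofNat 306, .negSucc 35, .ofNat 2, .ofNat 1058148, .ofNat 271320, .negSucc 93023, .ofNat 23256, .negSucc 3875, .ofNat 342, .ofNat 627912, .negSucc 139535, .ofNat 17442, .ofNat 395352, .ofNat 734959368, .ofNat 0, .ofNat 0, .ofNat 0,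 .ofNat 0]), ((1, 7), [.ofNat 18565, .negSucc 8567, .ofNat 3060, .negSucc 815, .ofNat 153, .negSucc 17, .ofNat 1, .ofNat 381609, .ofNat 101892, .negSucc 35927, .ofNat 9297, .negSucc 1615, .ofNat 150, .ofNat 187704, .negSucc 44945, .ofNat 6138, .ofNat 103785, .ofNat 16963518, .ofNat 0, .ofNat 0, .ofNat 0, .ofNat 0]), ((1, 13), [.ofNat 18551, .negSucc 8566, .ofNat 3060, .negSucc 815, .ofNat 153, .negSucc 17, .ofNat 1, .ofNat 190866, .ofNat 51407, .negSucc 18353, .ofNat 4881, .negSucc 897, .ofNat 93, .ofNat 45792, .negSucc 11969, .ofNat 1935, .ofNat 14025, .ofNat 0, .ofNat 0, .ofNat 1, .ofNat 0, .ofNat 0]), ((2, 2), [.ofNat 12376, .negSucc 4759, .ofNat 1360, .negSucc 271, .ofNat 34, .negSucc 1, .ofNat 0, .ofNat 420784, .ofNat 80920, .negSucc 23119, .ofNat 4624, .negSucc 577, .ofNat 34, .ofNat 172584, .negSucc 32231, .ofNat 3264, .ofNat 104040, .ofNat 343840640, .ofNat 0, .ofNat 0, .ofNat 0, .ofNat 0]), ((2, 8), [.ofNat 6188, .negSucc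 2379, .ofNat 680, .negSucc 135, .ofNat 17, .negSucc 0, .ofNat 0, .ofNat 136153, .ofNat 26180, .negSucc 7479, .ofNat 1496, .negSucc 186, .ofNat 11, .ofNat 36938, .negSucc 7149, .ofNat 770, .ofNat 16830, .ofNat 2771340, .ofNat 0, .ofNat 0, .ofNat 0, .ofNat 0]), ((2, 14), [.ofNat 6097, .negSucc 2365, .ofNat 679, .negSucc 135, .ofNat 17, .negSucc 0, .ofNat 0, .ofNat 61152, .ofNat 11872, .negSucc 3397, .ofNat 680, .negSucc 84, .ofNat 5, .ofNat 6799, .negSucc 1354, .ofNat 160, .ofNat 1275, .ofNat 0, .ofNat 0, .ofNat 0, .ofNat 1, .ofNat 0]), ((3, 3), [.ofNat 3640, .negSucc 1119, .ofNat 240, .negSucc 31, .ofNat 2, .ofNat 0, .ofNat 0, .ofNat 139776, .ofNat 17920, .negSucc 3839, .ofNat 512, .negSucc 31, .ofNat 0, .ofNat 28800, .negSucc 3839, .ofNat 240, .ofNat 14280, .ofNat 106186080, .ofNat 0, .ofNat 0, .ofNat 0, .ofNat 0]), ((3, 9), [.ofNat 1820, .negSucc 559, .ofNat 120, .negSucc 15, .ofNat 1, .ofNat 0, .ofNat 0, .ofNat 43680, .ofNat 5600,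 .negSucc 1199, .ofNat 160, .negSucc 9, .ofNat 0, .ofNat 5400, .negSucc 719, .ofNat 45, .ofNat 1710, .ofNat 329550, .ofNat 0, .ofNat 0, .ofNat 0, .ofNat 0]), ((3, 15), [.ofNat 1365, .negSucc 454, .ofNat 105, .negSucc 14, .ofNat 1, .ofNat 0, .ofNat 0, .ofNat 13377, .ofNat 1925, .negSucc 434, .ofNat 61, .negSucc 3, .ofNat 0, .ofNat 675, .negSucc 92, .ofNat 6, .ofNat 63, .ofNat 0, .ofNat 0, .ofNat 0, .ofNat 0, .ofNat 0]), ((4, 4), [.ofNat 910, .negSucc 209, .ofNat 30, .negSucc 1, .ofNat 0, .ofNat 0, .ofNat 0, .ofNat 40950, .ofNat 3150, .negSucc 449, .ofNat 30, .ofNat 0, .ofNat 0, .ofNat 3150, .negSucc 209, .ofNat 0, .ofNat 910, .ofNat 24984960, .ofNat 0, .ofNat 0, .ofNat 0, .ofNat 0]), ((4, 10), [.ofNat 455, .negSucc 104, .ofNat 15, .negSucc 0, .ofNat 0, .ofNat 0, .ofNat 0, .ofNat 12285, .ofNat 945, .negSucc 134, .ofNat 9, .ofNat 0, .ofNat 0, .ofNat 540, .negSucc 35, .ofNat 0, .ofNat 84, .ofNat 25662, .ofNat 0, .ofNat 0, .ofNat 0, .ofNat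 0]), ((5, 5), [.ofNat 182, .negSucc 27, .ofNat 2, .ofNat 0, .ofNat 0, .ofNat 0, .ofNat 0, .ofNat 10192, .ofNat 392, .negSucc 27, .ofNat 0, .ofNat 0, .ofNat 0, .ofNat 182, .ofNat 0, .ofNat 0, .ofNat 0, .ofNat 4554550, .ofNat 0, .ofNat 0, .ofNat 0, .ofNat 0]), ((5, 11), [.ofNat 91, .negSucc 13, .ofNat 1, .ofNat 0, .ofNat 0, .ofNat 0, .ofNat 0, .ofNat 2907, .ofNat 112, .negSucc 7, .ofNat 0, .ofNat 0, .ofNat 0, .ofNat 28, .ofNat 0, .ofNat 0, .ofNat 0, .ofNat 1001, .ofNat 0, .ofNat 0, .ofNat 0, .ofNat 0]), ((6, 6), [.ofNat 26, .negSucc 1, .ofNat 0, .ofNat 0, .ofNat 0, .ofNat 0, .ofNat 0, .ofNat 2028, .ofNat 26, .ofNat 0, .ofNat 0, .ofNat 0, .ofNat 0, .ofNat 0, .ofNat 0, .ofNat 0, .ofNat 0, .ofNat 624624, .ofNat 0, .ofNat 0, .ofNat 0, .ofNat 0]), ((6, 12), [.ofNat 12, .negSucc 0, .ofNat 0, .ofNat 0, .ofNat 0, .ofNat 0, .ofNat 0, .ofNat 474, .ofNat 7, .ofNat 0, .ofNat 0, .ofNat 0, .ofNat 0, .ofNat 0, .ofNat 0, .ofNat 0, .ofNat 0, .ofNat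 0, .ofNat 0, .ofNat 0, .ofNat 0, .ofNat 0]), ((7, 7), [.ofNat 2, .ofNat 0, .ofNat 0, .ofNat 0, .ofNat 0, .ofNat 0, .ofNat 0, .ofNat 288, .ofNat 0, .ofNat 0, .ofNat 0, .ofNat 0, .ofNat 0, .ofNat 0, .ofNat 0, .ofNat 0, .ofNat 0, .ofNat 60060, .ofNat 0, .ofNat 0, .ofNat 0, .ofNat 2]), ((8, 8), [.ofNat 0, .ofNat 0, .ofNat 0, .ofNat 0, .ofNat 0, .ofNat 0, .ofNat 0, .ofNat 22, .ofNat 0, .ofNat 0, .ofNat 0, .ofNat 0, .ofNat 0, .ofNat 0, .ofNat 0, .ofNat 0, .ofNat 0, .ofNat 3520, .ofNat 0, .ofNat 0, .ofNat 0, .ofNat 0]), ((9, 9), [.ofNat 0, .ofNat 0, .ofNat 0, .ofNat 0, .ofNat 0, .ofNat 0, .ofNat 0, .ofNat 0, .ofNat 0, .ofNat 0, .ofNat 0, .ofNat 0, .ofNat 0, .ofNat 0, .ofNat 0, .ofNat 0, .ofNat 0, .ofNat 90, .ofNat 0, .ofNat 0, .ofNat 0, .ofNat 0])]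
  tg := [((0, 0), .ofNat 1, [.ofNat 0, .ofNat 0, .ofNat 0, .ofNat 0, .ofNat 0, .ofNat 0, .ofNat 0, .ofNat 0, .ofNat 0, .ofNat 0, .ofNat 0, .ofNat 0, .ofNat 0, .ofNat 0, .ofNat 0, .ofNat 0, .ofNat 0, .ofNat 0, .ofNat 1, .ofNat 0, .ofNat 0, .ofNat 0]), ((0, 6), .ofNat 13650, [.negSucc 15749, .negSucc 170624, .negSucc 1309307, .negSucc 8304074, .negSucc 26204359, .negSucc 39627951, .negSucc 75986675, .ofNat 0, .ofNat 2625, .negSucc 29588, .negSucc 942825, .negSucc 3309215, .negSucc 810823, .negSucc 6317, .negSucc 207297, .negSucc 764503, .negSucc 17315, .ofNat 0, .ofNat 0, .negSucc 9484799, .negSucc 3508049, .ofNat 15750]), ((0, 12), .ofNat 64680, [.negSucc 125, .negSucc 1364, .negSucc 13691, .negSucc 105479, .negSucc 400399, .negSucc 820385, .negSucc 1289879, .ofNat 0, .ofNat 21, .negSucc 839, .negSucc 16131, .negSucc 69641, .negSucc 103235, .negSucc 107, .negSucc 2799, .negSucc 11431, .negSucc 197, .ofNat 0, .ofNat 0, .negSucc 113333,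 .negSucc 38765, .ofNat 126]), ((0, 18), .ofNat 74070360, [.negSucc 1049, .negSucc 11374, .ofNat 61516, .ofNat 1230450, .ofNat 7636720, .ofNat 24290994, .ofNat 34463202, .ofNat 0, .ofNat 175, .ofNat 25928, .ofNat 313982, .ofNat 1807812, .ofNat 4857118, .ofNat 2236, .ofNat 32396, .ofNat 182988, .ofNat 702, .ofNat 0, .ofNat 0, .negSucc 301079, .negSucc 55509, .ofNat 1050]), ((1, 1), .ofNat 226326100, [.ofNat 1043961450, .ofNat 11309582375, .ofNat 90915749652, .ofNat 601834621050, .ofNat 1992956805840, .ofNat 3320277453038, .ofNat 6013850500894, .ofNat 0, .negSucc 173993574, .ofNat 2735731516, .ofNat 73888537994, .ofNat 277249774904, .ofNat 185211587806, .ofNat 492537292, .ofNat 15280932212, .ofNat 57847049676, .ofNat 1232099154, .ofNat 0, .ofNat 0, .ofNat 642301897900, .ofNat 239247376550, .negSucc 1043961449]), ((1, 7), .ofNat 3185, [.ofNat 7434, .ofNat 80535, .ofNat 561652, .ofNat 3217695, .ofNat 8870680, .ofNat 9220120, .ofNat 22489458,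 .ofNat 0, .negSucc 1238, .ofNat 3402, .ofNat 289441, .ofNat 771026, .negSucc 1414013, .ofNat 1976, .ofNat 76804, .ofNat 262860, .ofNat 7020, .ofNat 0, .ofNat 0, .ofNat 4303871, .ofNat 1567384, .negSucc 7433]), ((1, 13), .ofNat 1, [.ofNat 0, .ofNat 0, .ofNat 0, .ofNat 0, .ofNat 0, .ofNat 0, .ofNat 0, .ofNat 0, .ofNat 0, .ofNat 0, .ofNat 0, .ofNat 0, .ofNat 0, .ofNat 0, .ofNat 0, .ofNat 0, .ofNat 0, .ofNat 0, .ofNat 0, .ofNat 1, .ofNat 0, .ofNat 0]), ((2, 2), .ofNat 433160, [.negSucc 6532721, .negSucc 70771154, .negSucc 571635427, .negSucc 3799629209, .negSucc 12636922479, .negSucc 21220158777, .negSucc 38244985217, .ofNat 0, .ofNat 1088787, .negSucc 17628911, .negSucc 469799461, .negSucc 1772475251, .negSucc 1243584733, .negSucc 3130659, .negSucc 96624163, .negSucc 366638115, .negSucc 7764353, .ofNat 0, .ofNat 0, .negSucc 4032505307, .negSucc 1502836061, .ofNat 6532722]), ((2, 8), .ofNat 980, [.negSucc 2309, .negSucc 25024, .negSucc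 130283, .negSucc 449099, .negSucc 12879, .ofNat 4566744, .ofNat 3465762, .ofNat 0, .ofNat 385, .ofNat 7238, .ofNat 32122, .ofNat 380802, .ofNat 1848098, .ofNat 176, .negSucc 7363, .negSucc 4831, .negSucc 1277, .ofNat 0, .ofNat 0, .negSucc 1205099, .negSucc 417689, .ofNat 2310]), ((2, 14), .ofNat 1, [.ofNat 0, .ofNat 0, .ofNat 0, .ofNat 0, .ofNat 0, .ofNat 0, .ofNat 0, .ofNat 0, .ofNat 0, .ofNat 0, .ofNat 0, .ofNat 0, .ofNat 0, .ofNat 0, .ofNat 0, .ofNat 0, .ofNat 0, .ofNat 0, .ofNat 0, .ofNat 0, .ofNat 1, .ofNat 0]), ((3, 3), .ofNat 7644, [.ofNat 165564, .ofNat 1793610, .ofNat 14665560, .ofNat 98491770, .ofNat 331050720, .ofNat 566396922, .ofNat 1008375129, .ofNat 0, .negSucc 27593, .ofNat 480186, .ofNat 12392736, .ofNat 47369457, .ofNat 37003491, .ofNat 82524, .ofNat 2514421, .ofNat 9595976, .ofNat 200343, .ofNat 0, .ofNat 0, .ofNat 103177269, .ofNat 38497914, .negSucc 165563]), ((3, 9), .ofNat 1470, [.ofNat 2730, .ofNat 29575, .ofNat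 66164, .negSucc 559049, .negSucc 5399099, .negSucc 19983193, .negSucc 24340646, .ofNat 0, .negSucc 454, .negSucc 25017, .negSucc 279371, .negSucc 1675256, .negSucc 4959702, .negSucc 1775, .negSucc 23890, .negSucc 146037, .negSucc 266, .ofNat 0, .ofNat 0, .ofNat 1159275, .ofNat 349440, .negSucc 2729]), ((3, 15), .ofNat 76440, [.ofNat 210, .ofNat 2275, .ofNat 44772, .ofNat 403650, .ofNat 1678040, .ofNat 3796338, .ofNat 5070984, .ofNat 0, .negSucc 34, .ofNat 5516, .ofNat 76834, .ofNat 350094, .ofNat 666176, .ofNat 572, .ofNat 11102, .ofNat 47996, .ofNat 624, .ofNat 0, .ofNat 0, .ofNat 10530, .negSucc 113749, .negSucc 209]), ((4, 4), .ofNat 12740, [.negSucc 215249, .negSucc 2331874, .negSucc 19636707, .negSucc 135050564, .negSucc 464400299, .negSucc 824668571, .negSucc 1428379895, .ofNat 0, .ofNat 35875, .negSucc 731163, .negSucc 17668460, .negSucc 69360425, .negSucc 65272913, .negSucc 117467, .negSucc 3480112, .negSucc 13448733, .negSucc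 272050, .ofNat 0, .ofNat 0, .negSucc 137989409, .negSucc 51599729, .ofNat 215250]), ((4, 10), .ofNat 1470, [.negSucc 2099, .negSucc 22749, .ofNat 2296, .ofNat 1082775, .ofNat 7346220, .ofNat 23651964, .ofNat 29103222, .ofNat 0, .ofNat 350, .ofNat 29218, .ofNat 359787, .ofNat 2019792, .ofNat 5446728, .ofNat 2316, .ofNat 37891, .ofNat 203198, .ofNat 1257, .ofNat 0, .ofNat 0, .negSucc 697709, .negSucc 155609, .ofNat 2100]), ((5, 5), .ofNat 47775, [.ofNat 359100, .ofNat 3890250, .ofNat 35081228, .ofNat 253721325, .ofNat 907666760, .ofNat 1695985382, .ofNat 2767378716, .ofNat 0, .negSucc 59849, .ofNat 1659049, .ofNat 35930416, .ofNat 147102906, .ofNat 174330184, .ofNat 238563, .ofNat 6708793, .ofNat 26521664, .ofNat 505206, .ofNat 0, .ofNat 0, .ofNat 252772650, .ofNat 94717350, .negSucc 359099]), ((5, 11), .ofNat 1470, [.ofNat 1638, .ofNat 17745, .ofNat 322, .negSucc 804359, .negSucc 5374879, .negSucc 16417477, .negSucc 16288037, .ofNat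 0, .negSucc 272, .negSucc 22791, .negSucc 278421, .negSucc 1551611, .negSucc 4102713, .negSucc 1829, .negSucc 29553, .negSucc 158515, .negSucc 953, .ofNat 0, .ofNat 0, .ofNat 460512, .ofNat 64428, .negSucc 1637]), ((6, 6), .ofNat 910, [.negSucc 1147, .negSucc 11374, .negSucc 133405, .negSucc 1148289, .negSucc 4313399, .negSucc 7632897, .negSucc 9571319, .ofNat 0, .ofNat 343, .negSucc 9939, .negSucc 202365, .negSucc 866145, .negSucc 1175467, .negSucc 1403, .negSucc 36399, .negSucc 148615, .negSucc 2573, .ofNat 0, .ofNat 0, .negSucc 1353221, .negSucc 503957, .ofNat 1148]), ((6, 12), .ofNat 2730, [.negSucc 2519, .negSucc 33214, .negSucc 110473, .ofNat 274950, .ofNat 3432520, .ofNat 8697234, .negSucc 10518797, .ofNat 0, .negSucc 34, .ofNat 22988, .ofNat 291932, .ofNat 1690212, .ofNat 4357318, .ofNat 2236, .ofNat 32396, .ofNat 182988, .ofNat 702, .ofNat 0, .ofNat 0, .negSucc 658709, .negSucc 55509, .ofNat 2520]), ((7, 7), .ofNat 1, [.ofNat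 0, .ofNat 0, .ofNat 0, .ofNat 0, .ofNat 0, .ofNat 0, .ofNat 0, .ofNat 0, .ofNat 0, .ofNat 0, .ofNat 0, .ofNat 0, .ofNat 0, .ofNat 0, .ofNat 0, .ofNat 0, .ofNat 0, .ofNat 0, .ofNat 0, .ofNat 0, .ofNat 0, .ofNat 1]), ((8, 8), .ofNat 64680, [.negSucc 755369, .negSucc 9100454, .negSucc 58560795, .negSucc 268197899, .negSucc 971855919, .negSucc 2948758833, .negSucc 6170278391, .ofNat 5880, .negSucc 403304, .negSucc 3493867, .negSucc 18584731, .negSucc 73324121, .negSucc 234178867, .ofNat 684, .negSucc 95815, .negSucc 374607, .negSucc 11681, .ofNat 0, .ofNat 0, .ofNat 22467510, .ofNat 7084350, .negSucc 91349]), ((9, 9), .ofNat 66150, [.negSucc 10369169, .negSucc 611256554, .negSucc 6123621937, .negSucc 31664296199, .negSucc 105764635759, .negSucc 256198814941, .negSucc 418496848235, .negSucc 235199, .negSucc 53620244, .negSucc 835100013, .negSucc 5295567015, .negSucc 18369351605, .negSucc 36939707643, .negSucc 52980467, .negSucc 552201747,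 .negSucc 1926145363, .negSucc 24991685, .ofNat 1470, .ofNat 0, .negSucc 25575029, .negSucc 6808619, .ofNat 93870])]

/-- certificate, `m = 6`, `j = 19`, antisymmetric part -/
def NC_6_19_m : NUM_Cert where
  tri := [(0, 1), (0, 3), (0, 13), (0, 14), (0, 15), (0, 16), (0, 17), (0, 18), (0, 19), (1, 2), (1, 17), (1, 18)]
  fre := []
  cols := [((0, 6), [.ofNat 12, .ofNat 703, .ofNat 28847, .negSucc 12914, .ofNat 4591, .negSucc 1254, .ofNat 249, .negSucc 31, .ofNat 2, .ofNat 741, .negSucc 3704, .ofNat 494]), ((0, 12), [.ofNat 24, .ofNat 1154, .ofNat 27139, .negSucc 11648, .ofNat 3911, .negSucc 1003, .ofNat 192, .negSucc 25, .ofNat 2, .ofNat 798, .negSucc 1595, .ofNat 266]), ((0, 18), [.ofNat 36, .ofNat 1785, .ofNat 35700, .negSucc 14687, .ofNat 4692, .negSucc 1121, .ofNat 189, .negSucc 19, .ofNat 2, .ofNat 171, .negSucc 170, .ofNat 38]), ((1, 7), [.ofNat 12, .ofNat 631, .ofNat 8568, .negSucc 3059, .ofNat 816, .negSucc 152, .ofNat 18,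 .negSucc 0, .ofNat 0, .ofNat 669, .negSucc 281, .ofNat 24]), ((1, 13), [.ofNat 24, .ofNat 1082, .ofNat 8569, .negSucc 3059, .ofNat 816, .negSucc 152, .ofNat 18, .negSucc 0, .ofNat 0, .ofNat 726, .negSucc 122, .ofNat 12]), ((2, 8), [.ofNat 12, .ofNat 571, .ofNat 2380, .negSucc 679, .ofNat 136, .negSucc 16, .ofNat 1, .ofNat 0, .ofNat 0, .ofNat 609, .negSucc 10, .ofNat 0]), ((2, 14), [.ofNat 24, .ofNat 1034, .ofNat 2394, .negSucc 680, .ofNat 136, .negSucc 16, .ofNat 1, .ofNat 0, .ofNat 0, .ofNat 678, .negSucc 4, .ofNat 0]), ((3, 9), [.ofNat 12, .ofNat 523, .ofNat 560, .negSucc 119, .ofNat 16, .negSucc 0, .ofNat 0, .ofNat 0, .ofNat 0, .ofNat 561, .ofNat 0, .ofNat 0]), ((3, 15), [.ofNat 24, .ofNat 1010, .ofNat 665, .negSucc 134, .ofNat 17, .negSucc 0, .ofNat 0, .ofNat 0, .ofNat 0, .ofNat 654, .ofNat 0, .ofNat 0]), ((4, 10), [.ofNat 12, .ofNat 487, .ofNat 105, .negSucc 14, .ofNat 1, .ofNat 0, .ofNat 0, .ofNat 0, .ofNat 0, .ofNat 525, .ofNat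 0, .ofNat 0]), ((5, 11), [.ofNat 12, .ofNat 463, .ofNat 14, .negSucc 0, .ofNat 0, .ofNat 0, .ofNat 0, .ofNat 0, .ofNat 0, .ofNat 501, .ofNat 0, .ofNat 0]), ((6, 12), [.ofNat 12, .ofNat 451, .ofNat 1, .ofNat 0, .ofNat 0, .ofNat 0, .ofNat 0, .ofNat 0, .ofNat 0, .ofNat 489, .ofNat 0, .ofNat 0])]
  tg := [((0, 6), .ofNat 1100736, [.ofNat 193169, .negSucc 5171, .ofNat 14544, .ofNat 127008, .ofNat 578736, .ofNat 1776528, .ofNat 3878784, .ofNat 5280912, .negSucc 543095, .ofNat 0, .ofNat 0, .ofNat 0]), ((0, 12), .ofNat 42336, [.negSucc 7618, .ofNat 204, .negSucc 575, .negSucc 5039, .negSucc 23039, .negSucc 71135, .negSucc 157247, .negSucc 222767, .negSucc 287, .ofNat 0, .ofNat 0, .ofNat 0]), ((0, 18), .ofNat 1100736, [.ofNat 4925, .negSucc 131, .ofNat 432, .ofNat 4032, .ofNat 20304, .ofNat 73008, .ofNat 209664, .ofNat 511056, .ofNat 1100952, .ofNat 0, .ofNat 0, .ofNat 0]), ((1, 7), .ofNat 336, [.negSucc 746, .ofNat 20, .negSucc 55, .negSucc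 487, .negSucc 2215, .negSucc 6759, .negSucc 14559, .negSucc 18591, .ofNat 7168, .ofNat 0, .ofNat 0, .ofNat 28]), ((1, 13), .ofNat 624, [.ofNat 747, .negSucc 19, .ofNat 56, .ofNat 488, .ofNat 2216, .ofNat 6760, .ofNat 14560, .ofNat 17680, .negSucc 15831, .ofNat 0, .ofNat 0, .negSucc 51]), ((2, 8), .ofNat 366912, [.ofNat 4498703, .negSucc 120443, .ofNat 335808, .ofNat 2920176, .ofNat 13214592, .ofNat 40057056, .ofNat 84765408, .ofNat 97402032, .negSucc 77449271, .ofNat 0, .negSucc 61151, .negSucc 810263]), ((2, 14), .ofNat 366912, [.negSucc 1387204, .ofNat 37140, .negSucc 103679, .negSucc 902159, .negSucc 4086719, .negSucc 12411359, .negSucc 25797407, .negSucc 18909071, .ofNat 80317176, .ofNat 0, .ofNat 61152, .ofNat 810264]), ((3, 9), .ofNat 1651104, [.negSucc 56963016, .ofNat 1520850, .negSucc 4216103, .negSucc 36513287, .negSucc 164112695, .negSucc 492885431, .negSucc 1038583727, .negSucc 1306652255, .ofNat 307680336, .ofNat 3822,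 .ofNat 275184, .ofNat 3508596]), ((3, 15), .ofNat 3302208, [.ofNat 9091109, .negSucc 235103, .ofNat 676512, .ofNat 5881680, .ofNat 26606880, .ofNat 80600832, .ofNat 164874528, .ofNat 87862320, .negSucc 652260599, .negSucc 7643, .negSucc 550367, .negSucc 7017191]), ((4, 10), .ofNat 117936, [.ofNat 7825642, .negSucc 209774, .ofNat 567324, .ofNat 4861188, .ofNat 21576132, .ofNat 63925524, .ofNat 133680456, .ofNat 179557560, .ofNat 24475284, .ofNat 273, .ofNat 19656, .ofNat 250614]), ((5, 11), .ofNat 122304, [.negSucc 10477990, .ofNat 280380, .negSucc 715487, .negSucc 6059087, .negSucc 26569247, .negSucc 77787839, .negSucc 160879263, .negSucc 213835439, .negSucc 27514327, .ofNat 0, .negSucc 20383, .negSucc 270087]), ((6, 12), .ofNat 36, [.ofNat 1573, .negSucc 41, .ofNat 102, .ofNat 858, .ofNat 3738, .ofNat 10878, .ofNat 22344, .ofNat 28968, .ofNat 948, .ofNat 0, .ofNat 0, .ofNat 3])]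

theorem NUM_6_19 : NUM_stmt 6 19 3 :=
  NUM_of_certs 6 19 3 (by norm_num) NC_6_19_p NC_6_19_m
    (by decide +kernel) (by decide +kernel) (by decide +kernel)
    (by decide +kernel) (by decide +kernel) (by decide +kernel) rfl rfl

/-- certificate, `m = 6`, `j = 20`, symmetric part -/
def NC_6_20_p : NUM_Cert where
  tri := [(0, 10), (0, 12), (0, 13), (0, 14), (0, 15), (0, 16), (0, 17), (0, 18), (0, 19), (1, 15), (1, 16), (1, 17), (1, 18), (2, 13), (2, 15), (2, 16), (2, 17), (3, 15), (3, 16), (4, 15)]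
  fre := [(0, 0), (3, 15)]
  cols := [((0, 0), [.ofNat 0, .ofNat 0, .ofNat 0, .ofNat 0, .ofNat 0, .ofNat 0, .ofNat 0, .ofNat 0, .ofNat 0, .ofNat 0, .ofNat 0, .ofNat 0, .ofNat 0, .ofNat 0, .ofNat 0, .ofNat 0, .ofNat 0, .ofNat 0, .ofNat 0, .ofNat 0, .ofNat 2, .ofNat 0]), ((0, 6), [.ofNat 184756, .ofNat 123058, .negSucc 74101, .ofNat 35758, .negSucc 13501, .ofNat 3844, .negSucc 775, .ofNat 99, .negSucc 5, .ofNat 177016, .negSucc 47809, .ofNat 8680, .negSucc 839, .negSucc 6404899, .negSucc 1030483, .ofNat 250705, .negSucc 34579, .ofNat 3361176, .negSucc 622439, .negSucc 5819813, .ofNat 0, .ofNat 0]), ((0, 12), [.ofNat 184690, .ofNat 125969, .negSucc 77511, .ofNat 38732, .negSucc 15447, .ofNat 4775, .negSucc 1083, .ofNat 162, .negSucc 11, .ofNat 122912, .negSucc 37359, .ofNat 8000, .negSucc 959, .negSucc 2169039, .negSucc 423471, .ofNat 122360, .negSucc 21279, .ofNat 804384, .negSucc 191519, .negSucc 813959, .ofNat 0, .ofNat 0]), ((0,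 18), [.ofNat 140998, .ofNat 107406, .negSucc 68951, .ofNat 35700, .negSucc 14687, .ofNat 4692, .negSucc 1121, .ofNat 189, .negSucc 17, .ofNat 31008, .negSucc 9689, .ofNat 2280, .negSucc 359, .negSucc 77519, .negSucc 15503, .ofNat 4845, .negSucc 1139, .ofNat 0, .ofNat 0, .ofNat 0, .ofNat 0, .ofNat 0]), ((1, 1), [.ofNat 184756, .ofNat 100776, .negSucc 54263, .ofNat 23256, .negSucc 7751, .ofNat 1938, .negSucc 341, .ofNat 38, .negSucc 1, .ofNat 124032, .negSucc 29069, .ofNat 4560, .negSucc 379, .negSucc 7364399, .negSucc 883727, .ofNat 184110, .negSucc 21659, .ofNat 3534912, .negSucc 552329, .negSucc 7511687, .ofNat 0, .ofNat 0]), ((1, 7), [.ofNat 92664, .ofNat 50401, .negSucc 27132, .ofNat 11628, .negSucc 3875, .ofNat 969, .negSucc 170, .ofNat 19, .negSucc 0, .ofNat 49101, .negSucc 11881, .ofNat 1937, .negSucc 168, .negSucc 2083862, .negSucc 277874, .ofNat 61997, .negSucc 7903, .ofNat 888459, .negSucc 154868, .negSucc 1524236, .ofNat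 0, .ofNat 0]), ((1, 13), [.ofNat 92092, .ofNat 50375, .negSucc 27130, .ofNat 11628, .negSucc 3875, .ofNat 969, .negSucc 170, .ofNat 19, .negSucc 0, .ofNat 27111, .negSucc 6747, .ofNat 1162, .negSucc 111, .negSucc 569752, .negSucc 80996, .ofNat 19684, .negSucc 2925, .ofNat 132069, .negSucc 27929, .negSucc 115310, .ofNat 0, .ofNat 0]), ((2, 2), [.ofNat 87516, .ofNat 37128, .negSucc 17135, .ofNat 6120, .negSucc 1631, .ofNat 306, .negSucc 35, .ofNat 2, .ofNat 0, .ofNat 29376, .negSucc 5507, .ofNat 648, .negSucc 35, .negSucc 2558159, .negSucc 232559, .ofNat 40698, .negSucc 3875, .ofNat 1023264, .negSucc 139535, .negSucc 2372111, .ofNat 0, .ofNat 0]), ((2, 8), [.ofNat 43824, .ofNat 18565, .negSucc 8567, .ofNat 3060, .negSucc 815, .ofNat 153, .negSucc 17, .ofNat 1, .ofNat 0, .ofNat 9792, .negSucc 1835, .ofNat 216, .negSucc 11, .negSucc 564695, .negSucc 53063, .ofNat 9603, .negSucc 967, .ofNat 165264, .negSucc 24749, .negSucc 282743, .ofNat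 0, .ofNat 0]), ((2, 14), [.ofNat 42757, .ofNat 18473, .negSucc 8553, .ofNat 3059, .negSucc 815, .ofNat 153, .negSucc 17, .ofNat 1, .ofNat 0, .ofNat 4896, .negSucc 917, .ofNat 108, .negSucc 5, .negSucc 128505, .negSucc 12233, .ofNat 2280, .negSucc 249, .ofNat 16212, .negSucc 2789, .negSucc 11321, .ofNat 0, .ofNat 0]), ((3, 3), [.ofNat 38896, .ofNat 12376, .negSucc 4759, .ofNat 1360, .negSucc 271, .ofNat 34, .negSucc 1, .ofNat 0, .ofNat 0, .ofNat 4624, .negSucc 577, .ofNat 34, .ofNat 0, .negSucc 647359, .negSucc 36991, .ofNat 4624, .negSucc 271, .ofNat 172584, .negSucc 18359, .negSucc 436967, .ofNat 0, .ofNat 0]), ((3, 9), [.ofNat 19459, .ofNat 6188, .negSucc 2379, .ofNat 680, .negSucc 135, .ofNat 17, .negSucc 0, .ofNat 0, .ofNat 0, .ofNat 1496, .negSucc 186, .ofNat 11, .ofNat 0, .negSucc 130899, .negSucc 7479, .ofNat 935, .negSucc 54, .ofNat 21978, .negSucc 2474, .negSucc 37025, .ofNat 0, .ofNat 0]), ((3, 15), [.ofNat 16445, .ofNat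 5733, .negSucc 2274, .ofNat 665, .negSucc 134, .ofNat 17, .negSucc 0, .ofNat 0, .ofNat 0, .ofNat 677, .negSucc 84, .ofNat 5, .ofNat 0, .negSucc 23484, .negSucc 1356, .ofNat 170, .negSucc 9, .ofNat 1359, .negSucc 164, .negSucc 662, .ofNat 0, .ofNat 1]), ((4, 4), [.ofNat 16016, .ofNat 3640, .negSucc 1119, .ofNat 240, .negSucc 31, .ofNat 2, .ofNat 0, .ofNat 0, .ofNat 0, .ofNat 512, .negSucc 31, .ofNat 0, .ofNat 0, .negSucc 134399, .negSucc 3839, .ofNat 240, .ofNat 0, .ofNat 17920, .negSucc 1119, .negSucc 49503, .ofNat 0, .ofNat 0]), ((4, 10), [.ofNat 8008, .ofNat 1820, .negSucc 559, .ofNat 120, .negSucc 15, .ofNat 1, .ofNat 0, .ofNat 0, .ofNat 0, .ofNat 160, .negSucc 9, .ofNat 0, .ofNat 0, .negSucc 25199, .negSucc 719, .ofNat 45, .ofNat 0, .ofNat 1920, .negSucc 119, .negSucc 3107, .ofNat 0, .ofNat 0]), ((5, 5), [.ofNat 6006, .ofNat 910, .negSucc 209, .ofNat 30, .negSucc 1, .ofNat 0, .ofNat 0, .ofNat 0, .ofNat 0, .ofNat 30, .ofNat 0,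 .ofNat 0, .ofNat 0, .negSucc 22049, .negSucc 209, .ofNat 0, .ofNat 0, .ofNat 910, .ofNat 0, .negSucc 2729, .ofNat 0, .ofNat 0]), ((5, 11), [.ofNat 2992, .ofNat 455, .negSucc 104, .ofNat 15, .negSucc 0, .ofNat 0, .ofNat 0, .ofNat 0, .ofNat 0, .ofNat 9, .ofNat 0, .ofNat 0, .ofNat 0, .negSucc 3779, .negSucc 35, .ofNat 0, .ofNat 0, .ofNat 84, .ofNat 0, .negSucc 125, .ofNat 0, .ofNat 0]), ((6, 6), [.ofNat 2002, .ofNat 182, .negSucc 27, .ofNat 2, .ofNat 0, .ofNat 0, .ofNat 0, .ofNat 0, .ofNat 0, .ofNat 0, .ofNat 0, .ofNat 0, .ofNat 0, .negSucc 2547, .ofNat 0, .ofNat 0, .ofNat 0, .ofNat 0, .ofNat 0, .ofNat 0, .ofNat 0, .ofNat 0]), ((6, 12), [.ofNat 935, .ofNat 90, .negSucc 13, .ofNat 1, .ofNat 0, .ofNat 0, .ofNat 0, .ofNat 0, .ofNat 0, .ofNat 0, .ofNat 0, .ofNat 0, .ofNat 0, .negSucc 391, .ofNat 0, .ofNat 0, .ofNat 0, .ofNat 0, .ofNat 0, .ofNat 0, .ofNat 0, .ofNat 0]), ((7, 7), [.ofNat 572, .ofNat 26, .negSucc 1, .ofNat 0, .ofNat 0, .ofNat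 0, .ofNat 0, .ofNat 0, .ofNat 0, .ofNat 0, .ofNat 0, .ofNat 0, .ofNat 0, .negSucc 155, .ofNat 0, .ofNat 0, .ofNat 0, .ofNat 0, .ofNat 0, .ofNat 0, .ofNat 0, .ofNat 0]), ((8, 8), [.ofNat 132, .ofNat 2, .ofNat 0, .ofNat 0, .ofNat 0, .ofNat 0, .ofNat 0, .ofNat 0, .ofNat 0, .ofNat 0, .ofNat 0, .ofNat 0, .ofNat 0, .ofNat 0, .ofNat 0, .ofNat 0, .ofNat 0, .ofNat 0, .ofNat 0, .ofNat 0, .ofNat 0, .ofNat 0]), ((9, 9), [.ofNat 22, .ofNat 0, .ofNat 0, .ofNat 0, .ofNat 0, .ofNat 0, .ofNat 0, .ofNat 0, .ofNat 0, .ofNat 0, .ofNat 0, .ofNat 0, .ofNat 0, .ofNat 0, .ofNat 0, .ofNat 0, .ofNat 0, .ofNat 0, .ofNat 0, .ofNat 0, .ofNat 0, .ofNat 0])]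
  tg := [((0, 0), .ofNat 1, [.ofNat 0, .ofNat 0, .ofNat 0, .ofNat 0, .ofNat 0, .ofNat 0, .ofNat 0, .ofNat 0, .ofNat 0, .ofNat 0, .ofNat 0, .ofNat 0, .ofNat 0, .ofNat 0, .ofNat 0, .ofNat 0, .ofNat 0, .ofNat 0, .ofNat 0, .ofNat 0, .ofNat 1, .ofNat 0]), ((0, 6), .ofNat 90, [.ofNat 0, .ofNat 0, .ofNat 0, .ofNat 0, .negSucc 17535374, .negSucc 89854223, .negSucc 26143313, .ofNat 267186870, .negSucc 101083286, .negSucc 6291302, .negSucc 52768370, .negSucc 92643176, .ofNat 1937559, .ofNat 0, .negSucc 701606, .negSucc 14645285, .negSucc 33459371, .ofNat 322293, .negSucc 1249827, .ofNat 105112, .ofNat 0, .negSucc 284999]), ((0, 12), .ofNat 15840, [.ofNat 0, .ofNat 0, .ofNat 0, .ofNat 0, .negSucc 10135214, .negSucc 51970655, .negSucc 15445757, .ofNat 153238662, .negSucc 60361232, .negSucc 3635420, .negSucc 30497822, .negSucc 53590460, .ofNat 939741, .ofNat 0, .negSucc 405347, .negSucc 8462441, .negSucc 19338011, .ofNat 186231, .negSucc 722085,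 .ofNat 60733, .ofNat 0, .negSucc 169619]), ((0, 18), .ofNat 7344, [.ofNat 0, .ofNat 0, .ofNat 0, .ofNat 0, .negSucc 854, .negSucc 4319, .negSucc 917, .ofNat 14310, .negSucc 2336, .negSucc 308, .negSucc 2558, .negSucc 4436, .ofNat 285, .ofNat 0, .negSucc 35, .negSucc 713, .negSucc 1619, .ofNat 15, .negSucc 61, .ofNat 5, .ofNat 0, .negSucc 11]), ((1, 1), .ofNat 1021020, [.ofNat 0, .ofNat 0, .ofNat 0, .ofNat 0, .ofNat 826170512625, .ofNat 4233602528032, .ofNat 1233035681662, .negSucc 12583446243929, .ofNat 4771676911731, .ofNat 296406079259, .ofNat 2486169949233, .ofNat 4365049365631, .negSucc 90575113826, .ofNat 0, .ofNat 33052562756, .ofNat 689999285318, .ofNat 1576434306456, .negSucc 15185738708, .ofNat 58882510254, .negSucc 4952461190, .ofNat 0, .ofNat 13438656000]), ((1, 7), .ofNat 420, [.ofNat 0, .ofNat 0, .ofNat 0, .ofNat 0, .ofNat 154120815, .ofNat 789682336, .ofNat 229324798, .negSucc 2350066661, .ofNat 885153513, .ofNat 55297181,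 .ofNat 463782243, .ofNat 814177681, .negSucc 17276600, .ofNat 0, .ofNat 6167828, .ofNat 128721362, .ofNat 294073632, .negSucc 2832230, .ofNat 10985866, .negSucc 923772, .ofNat 0, .ofNat 2501520]), ((1, 13), .ofNat 78, [.ofNat 0, .ofNat 0, .ofNat 0, .ofNat 0, .ofNat 45945, .ofNat 235840, .ofNat 72454, .negSucc 686285, .ofNat 286197, .ofNat 16475, .ofNat 138225, .ofNat 243223, .negSucc 2966, .ofNat 0, .ofNat 1838, .ofNat 38342, .ofNat 87642, .negSucc 842, .ofNat 3272, .negSucc 274, .ofNat 0, .ofNat 822]), ((2, 2), .ofNat 2520, [.ofNat 0, .ofNat 0, .ofNat 0, .ofNat 0, .negSucc 6706418444, .negSucc 34366394207, .negSucc 10011141593, .ofNat 102138457986, .negSucc 38746777538, .negSucc 2406062342, .negSucc 20181426728, .negSucc 35433469442, .ofNat 734154303, .ofNat 0, .negSucc 268300583, .negSucc 5601040085, .negSucc 12796671095, .ofNat 123270393, .negSucc 477974637, .ofNat 40201519, .ofNat 0, .negSucc 109109759]), ((2, 8), .ofNat 126,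 [.ofNat 0, .ofNat 0, .ofNat 0, .ofNat 0, .negSucc 38220704, .negSucc 195788975, .negSucc 56522330, .ofNat 584133714, .negSucc 216937211, .negSucc 13714880, .negSucc 115008932, .negSucc 201849971, .ofNat 4475130, .ofNat 0, .negSucc 1530638, .negSucc 31923257, .negSucc 72923309, .ofNat 701997, .negSucc 2725171, .ofNat 229028, .ofNat 0, .negSucc 618023]), ((2, 14), .ofNat 126, [.ofNat 0, .ofNat 0, .ofNat 0, .ofNat 0, .negSucc 24479, .negSucc 125951, .negSucc 41615, .ofNat 355644, .negSucc 166325, .negSucc 8771, .negSucc 73595, .negSucc 129911, .ofNat 6, .ofNat 0, .negSucc 980, .negSucc 20399, .negSucc 46655, .ofNat 447, .negSucc 1741, .ofNat 146, .ofNat 0, .negSucc 569]), ((3, 3), .ofNat 612, [.ofNat 0, .ofNat 0, .ofNat 0, .ofNat 0, .ofNat 2379319695, .ofNat 12192836064, .ofNat 3553908174, .negSucc 36229155605, .ofNat 13760074113, .ofNat 853622109, .ofNat 7160017767, .ofNat 12571475673, .negSucc 259310984, .ofNat 0, .ofNat 95185836,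 .ofNat 1987137786, .ofNat 4540037256, .negSucc 43734542, .ofNat 169574414, .negSucc 14262796, .ofNat 0, .ofNat 38734176]), ((3, 9), .ofNat 18, [.ofNat 0, .ofNat 0, .ofNat 0, .ofNat 0, .ofNat 2696985, .ofNat 13805184, .ofNat 3909762, .negSucc 41522057, .ofNat 14716887, .ofNat 968139, .ofNat 8114187, .ofNat 14229717, .negSucc 358934, .ofNat 0, .ofNat 108252, .ofNat 2252922, .ofNat 5144652, .negSucc 49448, .ofNat 192472, .negSucc 16146, .ofNat 0, .ofNat 43170]), ((3, 15), .ofNat 1, [.ofNat 0, .ofNat 0, .ofNat 0, .ofNat 0, .ofNat 0, .ofNat 0, .ofNat 0, .ofNat 0, .ofNat 0, .ofNat 0, .ofNat 0, .ofNat 0, .ofNat 0, .ofNat 0, .ofNat 0, .ofNat 0, .ofNat 0, .ofNat 0, .ofNat 0, .ofNat 0, .ofNat 0, .ofNat 1]), ((4, 4), .ofNat 32, [.ofNat 0, .ofNat 0, .ofNat 0, .ofNat 0, .negSucc 102037634, .negSucc 522922943, .negSucc 152685941, .ofNat 1552692078, .negSucc 591807116, .negSucc 36606968, .negSucc 307058498, .negSucc 539168312, .ofNat 10971273, .ofNat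 0, .negSucc 4081811, .negSucc 85217057, .negSucc 194700347, .ofNat 1875579, .negSucc 7271933, .ofNat 611657, .ofNat 0, .negSucc 1664339]), ((4, 10), .ofNat 48, [.ofNat 0, .ofNat 0, .ofNat 0, .ofNat 0, .negSucc 2445614, .negSucc 12487391, .negSucc 3302861, .ofNat 38594070, .negSucc 11495360, .negSucc 878972, .negSucc 7354574, .negSucc 12862940, .ofNat 458589, .ofNat 0, .negSucc 98843, .negSucc 2043929, .negSucc 4662251, .ofNat 44607, .negSucc 175029, .ofNat 14605, .ofNat 0, .negSucc 38147]), ((5, 5), .ofNat 60, [.ofNat 0, .ofNat 0, .ofNat 0, .ofNat 0, .ofNat 99813465, .ofNat 511613856, .ofNat 150191226, .negSucc 1515818609, .ofNat 583982043, .ofNat 35806827, .ofNat 300361989, .ofNat 527525343, .negSucc 10280750, .ofNat 0, .ofNat 3992328, .ofNat 83353854, .ofNat 190454148, .negSucc 1834616, .ofNat 7112642, .negSucc 598282, .ofNat 0, .ofNat 1638120]), ((5, 11), .ofNat 90, [.ofNat 0, .ofNat 0, .ofNat 0, .ofNat 0, .ofNat 1181655, .ofNat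 5981472, .ofNat 1153926, .negSucc 20400173, .ofNat 2025381, .ofNat 426327, .ofNat 3550551, .ofNat 6149637, .negSucc 460136, .ofNat 0, .ofNat 48636, .ofNat 989754, .ofNat 2249964, .negSucc 21296, .ofNat 85282, .negSucc 7020, .ofNat 0, .ofNat 17340]), ((6, 6), .ofNat 13230, [.ofNat 0, .ofNat 0, .ofNat 1170, .ofNat 10500, .negSucc 7811982944, .negSucc 40063706047, .negSucc 11964984913, .ofNat 117870969906, .negSucc 46968075638, .negSucc 2801962992, .negSucc 23506802408, .negSucc 41313892762, .ofNat 689707323, .negSucc 14, .negSucc 312395058, .negSucc 6522263085, .negSucc 14905062395, .ofNat 143540073, .negSucc 556511657, .ofNat 46809489, .ofNat 0, .negSucc 130833359]), ((6, 12), .ofNat 10584, [.ofNat 0, .ofNat 0, .negSucc 935, .ofNat 2184, .negSucc 28897064, .negSucc 141554143, .ofNat 18966526, .ofNat 694777770, .ofNat 364316697, .negSucc 10579674, .negSucc 87274352, .negSucc 145689346, .ofNat 34798779, .ofNat 12, .negSucc 1232595, .negSucc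 24568437, .negSucc 55355075, .ofNat 519669, .negSucc 2138225, .ofNat 172947, .ofNat 0, .negSucc 372707]), ((7, 7), .ofNat 91, [.ofNat 0, .ofNat 0, .negSucc 90, .negSucc 1273, .ofNat 13012815, .ofNat 66837712, .ofNat 20723646, .negSucc 193758821, .ofNat 81398679, .ofNat 4668374, .ofNat 39177623, .ofNat 68993789, .negSucc 618146, .ofNat 0, .ofNat 520489, .ofNat 10864966, .ofNat 24841080, .negSucc 239006, .ofNat 926904, .negSucc 77945, .ofNat 0, .ofNat 234192]), ((8, 8), .ofNat 42336, [.ofNat 0, .ofNat 42336, .ofNat 546624, .ofNat 3861312, .negSucc 787234724, .negSucc 4088666527, .negSucc 1238719993, .ofNat 12109185666, .negSucc 3715931402, .negSucc 288658590, .negSucc 2426374676, .negSucc 4305758830, .negSucc 79778960, .ofNat 48, .negSucc 32139579, .negSucc 671568333, .negSucc 1538660339, .ofNat 14769837, .negSucc 57219521, .ofNat 4814319, .ofNat 0, .negSucc 19984859]), ((9, 9), .ofNat 1188, [.ofNat 108, .negSucc 7127, .negSucc 61775,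 .negSucc 324323, .negSucc 3268070, .negSucc 14031359, .negSucc 11966741, .ofNat 8689086, .negSucc 76409240, .negSucc 717536, .negSucc 5950226, .negSucc 9919592, .ofNat 2181597, .ofNat 0, .negSucc 81395, .negSucc 1674065, .negSucc 3772979, .ofNat 36555, .negSucc 144433, .ofNat 12005, .ofNat 0, .ofNat 58344])]

/-- certificate, `m = 6`, `j = 20`, antisymmetric part -/
def NC_6_20_m : NUM_Cert where
  tri := [(0, 1), (0, 5), (0, 6), (0, 11), (0, 16), (0, 17), (0, 18), (0, 19), (0, 20), (1, 2), (1, 4), (1, 7), (1, 19), (2, 3), (2, 6)]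
  fre := []
  cols := [((0, 6), [.ofNat 12, .ofNat 13508, .negSucc 35757, .ofNat 169598, .negSucc 5845, .ofNat 1504, .negSucc 280, .ofNat 34, .negSucc 1, .ofNat 840, .ofNat 47810, .negSucc 1016919, .negSucc 559, .ofNat 34580, .negSucc 2956779]), ((0, 12), [.ofNat 24, .ofNat 16240, .negSucc 39655, .ofNat 167972, .negSucc 4914, .ofNat 1196, .negSucc 217, .ofNat 28, .negSucc 1, .ofNat 960, .ofNat 37360, .negSucc 619999, .negSucc 319, .ofNat 21280, .negSucc 1079959]), ((0, 18), [.ofNat 36, .ofNat 24072, .negSucc 57323, .ofNat 199784, .negSucc 4997, .ofNat 1158, .negSucc 190, .ofNat 22, .negSucc 1, .ofNat 360, .ofNat 9690, .negSucc 155039, .negSucc 79, .ofNat 1140, .negSucc 38759]), ((1, 7), [.ofNat 12, .ofNat 10362, .negSucc 25422, .ofNat 75504, .negSucc 968, .ofNat 171, .negSucc 18, .ofNat 1, .ofNat 0, .ofNat 762, .ofNat 36838, .negSucc 622440, .negSucc 25, .ofNat 26676, .negSucc 1822859]), ((1, 13), [.ofNat 24, .ofNat 12894, .negSucc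 28840, .ofNat 75660, .negSucc 968, .ofNat 171, .negSucc 18, .ofNat 1, .ofNat 0, .ofNat 876, .ofNat 27182, .negSucc 354412, .negSucc 13, .ofNat 14364, .negSucc 568574]), ((1, 19), [.ofNat 36, .ofNat 23256, .negSucc 54263, .ofNat 151164, .negSucc 1937, .ofNat 342, .negSucc 37, .ofNat 2, .ofNat 0, .ofNat 342, .ofNat 7752, .negSucc 100775, .negSucc 1, .ofNat 0, .ofNat 0]), ((2, 8), [.ofNat 12, .ofNat 7832, .negSucc 17667, .ofNat 31812, .negSucc 152, .ofNat 18, .negSucc 0, .ofNat 0, .ofNat 0, .ofNat 696, .ofNat 27950, .negSucc 367647, .ofNat 0, .ofNat 20252, .negSucc 1083879]), ((2, 14), [.ofNat 24, .ofNat 10564, .negSucc 21565, .ofNat 32188, .negSucc 152, .ofNat 18, .negSucc 0, .ofNat 0, .ofNat 0, .ofNat 816, .ofNat 20092, .negSucc 197807, .ofNat 0, .ofNat 9544, .negSucc 281309]), ((3, 9), [.ofNat 12, .ofNat 5852, .negSucc 11997, .ofNat 12375, .negSucc 16, .ofNat 1, .ofNat 0, .ofNat 0, .ofNat 0, .ofNat 642, .ofNat 20948, .negSucc 208425,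 .ofNat 0, .ofNat 15176, .negSucc 618099]), ((3, 15), [.ofNat 24, .ofNat 9190, .negSucc 17380, .ofNat 13741, .negSucc 16, .ofNat 1, .ofNat 0, .ofNat 0, .ofNat 0, .ofNat 780, .ofNat 15910, .negSucc 116544, .ofNat 0, .ofNat 6700, .negSucc 138774]), ((4, 10), [.ofNat 12, .ofNat 4368, .negSucc 8007, .ofNat 4368, .negSucc 0, .ofNat 0, .ofNat 0, .ofNat 0, .ofNat 0, .ofNat 600, .ofNat 15670, .negSucc 112959, .ofNat 0, .ofNat 11340, .negSucc 336419]), ((4, 16), [.ofNat 24, .ofNat 8736, .negSucc 16015, .ofNat 8736, .negSucc 1, .ofNat 0, .ofNat 0, .ofNat 0, .ofNat 0, .ofNat 768, .ofNat 14528, .negSucc 91519, .ofNat 0, .ofNat 5760, .negSucc 96095]), ((5, 11), [.ofNat 12, .ofNat 3338, .negSucc 5382, .ofNat 1366, .ofNat 0, .ofNat 0, .ofNat 0, .ofNat 0, .ofNat 0, .ofNat 570, .ofNat 11990, .negSucc 59024, .ofNat 0, .ofNat 8660, .negSucc 175979]), ((6, 12), [.ofNat 12, .ofNat 2732, .negSucc 3897, .ofNat 376, .ofNat 0, .ofNat 0, .ofNat 0, .ofNat 0,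 .ofNat 0, .ofNat 552, .ofNat 9818, .negSucc 32095, .ofNat 0, .ofNat 7076, .negSucc 95329]), ((7, 13), [.ofNat 12, .ofNat 2532, .negSucc 3417, .ofNat 156, .ofNat 0, .ofNat 0, .ofNat 0, .ofNat 0, .ofNat 0, .ofNat 546, .ofNat 9100, .negSucc 23997, .ofNat 0, .ofNat 6552, .negSucc 70979])]
  tg := [((0, 6), .ofNat 45239040, [.ofNat 386599992, .ofNat 4988755, .ofNat 1993434, .negSucc 102271, .negSucc 13336703, .negSucc 111541759, .negSucc 519519999, .negSucc 1761047679, .negSucc 4829430719, .negSucc 15355283, .negSucc 1999199, .negSucc 104447, .ofNat 0, .ofNat 2327640, .ofNat 22848]), ((0, 12), .ofNat 3053635200, [.negSucc 25357624183, .negSucc 321655474, .negSucc 128434841, .ofNat 6755392, .ofNat 894029184, .ofNat 7485565120, .ofNat 34892236160, .ofNat 118339807040, .ofNat 323123988480, .ofNat 998093460, .ofNat 129948000, .ofNat 6789120, .ofNat 0, .negSucc 151296599, .negSucc 1485119]), ((0, 18), .ofNat 6107270400, [.negSucc 1475750551,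 .negSucc 30170974, .negSucc 12243905, .ofNat 295936, .ofNat 12396672, .ofNat 87007360, .ofNat 350727680, .ofNat 1061822720, .ofNat 2671535040, .ofNat 76776420, .ofNat 9996000, .ofNat 522240, .ofNat 0, .negSucc 11638199, .negSucc 114239]), ((1, 7), .ofNat 29314897920, [.negSucc 3333382078103, .negSucc 43590213874, .negSucc 17429389145, .ofNat 876928000, .ofNat 112993021440, .ofNat 944152168960, .ofNat 4394674319360, .ofNat 14856079723520, .ofNat 40734099513600, .ofNat 133344265236, .ofNat 17356968720, .ofNat 907026432, .negSucc 2442908159, .negSucc 20209141679, .negSucc 198412031]), ((1, 13), .ofNat 146574489600, [.ofNat 8867714979096, .ofNat 115158619075, .ofNat 46043841978, .negSucc 2339652607, .negSucc 303319420415, .negSucc 2535683617279, .negSucc 11806563082239, .negSucc 39695187266559, .negSucc 107221386789119, .negSucc 353468820179, .negSucc 45982313999, .negSucc 2404392959, .ofNat 12214540800, .ofNat 53543002800, .ofNat 525960960]),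 ((1, 19), .ofNat 12214540800, [.ofNat 5931957288, .ofNat 122202725, .ofNat 48968694, .negSucc 1183743, .negSucc 49586687, .negSucc 348029439, .negSucc 1402910719, .negSucc 4247290879, .negSucc 10686140159, .negSucc 307498379, .negSucc 41554799, .negSucc 2088959, .ofNat 0, .ofNat 48123600, .ofNat 456960]), ((2, 8), .ofNat 3053635200, [.ofNat 1765140137396, .ofNat 26856879425, .ofNat 10621204278, .negSucc 523651407, .negSucc 66647453615, .negSucc 556364015679, .negSucc 2590978967839, .negSucc 8782815686959, .negSucc 24218864583719, .negSucc 74594457419, .negSucc 10566218249, .negSucc 545997839, .ofNat 1526817600, .ofNat 12122443725, .ofNat 118995240]), ((2, 14), .ofNat 3053635200, [.negSucc 370074515923, .negSucc 8370652924, .negSucc 3226197821, .ofNat 158706832, .ofNat 20196594864, .ofNat 168596686720, .ofNat 784221078560, .ofNat 2616200691440, .ofNat 6997916829480, .ofNat 18394117980, .ofNat 3249146250, .ofNat 163718160, .negSucc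 1526817599, .negSucc 3603281324, .negSucc 35371559]), ((3, 9), .ofNat 48858163200, [.negSucc 93608845521783, .negSucc 1491014001774, .negSucc 588788710241, .ofNat 28336289792, .ofNat 3549942249984, .ofNat 29646426360320, .ofNat 138431627253760, .ofNat 472331164426240, .ofNat 1314841868532480, .ofNat 4037710333860, .ofNat 581746779600, .ofNat 29995115520, .negSucc 61072703999, .negSucc 665557527599, .negSucc 6533157119]), ((3, 15), .ofNat 48858163200, [.ofNat 3279376697336, .ofNat 273932333375, .ofNat 101591144898, .negSucc 4877129727, .negSucc 611891974655, .negSucc 5102226004479, .negSucc 23714095523839, .negSucc 78680251381759, .negSucc 209007746891519, .negSucc 365954823779, .negSucc 103698075599, .negSucc 5019509759, .ofNat 61072704000, .ofNat 108972250800, .ofNat 1069743360]), ((4, 10), .ofNat 832809600, [.ofNat 3898263944736, .ofNat 59912169175, .ofNat 23798575458, .negSucc 1103649247, .negSucc 135560942495, .negSucc 1135108071679,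 .negSucc 5329256511039, .negSucc 18359288755359, .negSucc 51732534252719, .negSucc 166848441059, .negSucc 23168407499, .negSucc 1200148319, .ofNat 1388016000, .ofNat 26671666350, .ofNat 261809520]), ((4, 16), .ofNat 1832181120, [.ofNat 7176265488, .negSucc 12993657474, .negSucc 4744818665, .ofNat 225721376, .ofNat 28166134752, .ofNat 234760338560, .ofNat 1090785263680, .ofNat 3611949937120, .ofNat 9570866705040, .ofNat 13004431860, .ofNat 4872942900, .ofNat 231964320, .negSucc 3053635199, .negSucc 5006942849, .negSucc 49151759]), ((5, 11), .ofNat 2874009600, [.negSucc 24391477738743, .negSucc 363337148574, .negSucc 145307641601, .ofNat 6401349632, .ofNat 769453668864, .ofNat 6474243269120, .ofNat 30632532674560, .ofNat 106728727920640, .ofNat 304710922894080, .ofNat 1039744668900, .ofNat 138668014800, .ofNat 7221273600, .negSucc 3592511999, .negSucc 160757309999, .negSucc 1577990399]), ((6, 12), .ofNat 277603200, [.ofNat 3250286480188,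 .ofNat 48502780075, .ofNat 19473162834, .negSucc 816344623, .negSucc 96364053647, .negSucc 815065658239, .negSucc 3885526503519, .negSucc 13671301472079, .negSucc 39453718011959, .negSucc 139618480259, .negSucc 18255462749, .negSucc 953206319, .ofNat 138801600, .ofNat 21238242375, .ofNat 208473720]), ((7, 13), .ofNat 73287244800, [.negSucc 946778827331591, .negSucc 14238100153824, .negSucc 5722457189885, .ofNat 234876517376, .ofNat 27524305930752, .ofNat 233354109570560, .ofNat 1116029955297280, .ofNat 3942523929809920, .ofNat 11426188823581440, .ofNat 40908004643100, .ofNat 5326038874800, .ofNat 278259916800, .negSucc 12214540799, .negSucc 6201035878799, .negSucc 60869356799])]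

theorem NUM_6_20 : NUM_stmt 6 20 1 :=
  NUM_of_certs 6 20 1 (by norm_num) NC_6_20_p NC_6_20_m
    (by decide +kernel) (by decide +kernel) (by decide +kernel)
    (by decide +kernel) (by decide +kernel) (by decide +kernel) rfl rfl

end Pool.Agent.OD
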