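import Pool.Agent.helper21.OD.NUMG

/-!
# Project OD: certificates of the period relations
-/

namespace Pool.Agent.OD

set_option maxRecDepth 100000

/-- certificate, `m = 6`, `j = 21`, symmetric part -/
def NC_6_21_p : NUM_Cert where
  tri := [(0, 12), (0, 15), (0, 16), (0, 17), (0, 18), (0, 19), (0, 20), (1, 11), (1, 13), (1, 14), (1, 15), (1, 16), (1, 17), (1, 18), (1, 19), (2, 13), (2, 15), (2, 16), (2, 17), (2, 18), (3, 16), (3, 17)]
  fre := [(0, 0), (1, 19), (3, 15), (4, 16)]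
  cols := [((0, 0), [.ofNat 0, .ofNat 0, .ofNat 0, .ofNat 0, .ofNat 0, .ofNat 0, .ofNat 0, .ofNat 0, .ofNat 0, .ofNat 0, .ofNat 0, .ofNat 0, .ofNat 0, .ofNat 0, .ofNat 0, .ofNat 0, .ofNat 0, .ofNat 0, .ofNat 0, .ofNat 0, .ofNat 0, .ofNat 0, .ofNat 2, .ofNat 0, .ofNat 0, .ofNat 0]), ((0, 6), [.ofNat 289380, .negSucc 49259, .ofNat 17346, .negSucc 4619, .ofNat 875, .negSucc 104, .ofNat 6, .ofNat 5256342, .ofNat 2919420, .negSucc 1609379, .ofNat 708876, .negSucc 242171, .ofNat 61110, .negSucc 10394, .ofNat 945, .negSucc 20037149, .negSucc 4646879, .ofNat 1506015, .negSucc 341774, .ofNat 44100, .negSucc 5264804, .ofNat 907725, .ofNat 0, .ofNat 0, .ofNat 0, .ofNat 0]), ((0, 12), [.ofNat 293929, .negSucc 54179, .ofNat 20223, .negSucc 5858, .ofNat 1246, .negSucc 173, .ofNat 12, .ofNat 3174444, .ofNat 1831221, .negSucc 1045763, .ofNat 486612, .negSucc 180494, .ofNat 51219, .negSucc 10205, .ofNat 1134, .negSucc 7323749, .negSucc 1935863, .ofNat 706104, .negSucc 188999,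 .ofNat 30240, .negSucc 1541735, .ofNat 335160, .ofNat 0, .ofNat 0, .ofNat 0, .ofNat 0]), ((0, 18), [.ofNat 275366, .negSucc 53447, .ofNat 20196, .negSucc 5966, .ofNat 1329, .negSucc 206, .ofNat 18, .ofNat 1058148, .ofNat 610470, .negSucc 348839, .ofNat 162792, .negSucc 61046, .ofNat 17955, .negSucc 3968, .ofNat 567, .negSucc 610469, .negSucc 162791, .ofNat 61047, .negSucc 17954, .ofNat 3780, .negSucc 20348, .ofNat 5985, .ofNat 0, .ofNat 0, .ofNat 0, .ofNat 0]), ((1, 1), [.ofNat 251940, .negSucc 31007, .ofNat 9690, .negSucc 2279, .ofNat 380, .negSucc 39, .ofNat 2, .ofNat 6348888, .ofNat 2848860, .negSucc 1395359, .ofNat 542640, .negSucc 162791, .ofNat 35910, .negSucc 5319, .ofNat 420, .negSucc 24418799, .negSucc 4341119, .ofNat 1220940, .negSucc 239399, .ofNat 26600, .negSucc 5155079, .ofNat 758100, .ofNat 0, .ofNat 0, .ofNat 0, .ofNat 0]), ((1, 7), [.ofNat 126061, .negSucc 15503, .ofNat 4845, .negSucc 1139, .ofNat 190, .negSucc 19, .ofNat 1, .ofNat 2357719,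 .ofNat 1082557, .negSucc 539227, .ofNat 214053, .negSucc 65827, .ofNat 14959, .negSucc 2295, .ofNat 189, .negSucc 6996919, .negSucc 1350803, .ofNat 400855, .negSucc 83719, .ofNat 10010, .negSucc 1383199, .ofNat 224770, .ofNat 0, .ofNat 0, .ofNat 0, .ofNat 0]), ((1, 13), [.ofNat 125957, .negSucc 15503, .ofNat 4845, .negSucc 1139, .ofNat 190, .negSucc 19, .ofNat 1, .ofNat 1343602, .ofNat 620159, .negSucc 310071, .ofNat 124004, .negSucc 38703, .ofNat 9050, .negSucc 1463, .ofNat 132, .negSucc 2170539, .negSucc 433551, .ofNat 134540, .negSucc 30519, .ofNat 4200, .negSucc 260679, .ofNat 50540, .ofNat 0, .ofNat 0, .ofNat 0, .ofNat 0]), ((1, 19), [.ofNat 75582, .negSucc 11627, .ofNat 3876, .negSucc 968, .ofNat 171, .negSucc 18, .ofNat 1, .ofNat 260338, .ofNat 127908, .negSucc 65891, .ofNat 27132, .negSucc 8720, .ofNat 2109, .negSucc 360, .ofNat 39, .negSucc 77519, .negSucc 15503, .ofNat 4845, .negSucc 1139, .ofNat 190, .ofNat 0, .ofNat 0, .ofNat 0, .ofNat 1, .ofNat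 0, .ofNat 0]), ((2, 2), [.ofNat 100776, .negSucc 7751, .ofNat 1938, .negSucc 341, .ofNat 38, .negSucc 1, .ofNat 0, .ofNat 2872116, .ofNat 1031016, .negSucc 441863, .ofNat 147288, .negSucc 36821, .ofNat 6498, .negSucc 721, .ofNat 38, .negSucc 9127979, .negSucc 1271327, .ofNat 308142, .negSucc 50729, .ofNat 4560, .negSucc 1436057, .ofNat 184110, .ofNat 0, .ofNat 0, .ofNat 0, .ofNat 0]), ((2, 8), [.ofNat 50401, .negSucc 3875, .ofNat 969, .negSucc 170, .ofNat 19, .negSucc 0, .ofNat 0, .ofNat 984048, .ofNat 352735, .negSucc 151163, .ofNat 50388, .negSucc 12596, .ofNat 2223, .negSucc 246, .ofNat 13, .negSucc 2115179, .negSucc 300611, .ofNat 74295, .negSucc 12622, .ofNat 1196, .negSucc 252680, .ofNat 35321, .ofNat 0, .ofNat 0, .ofNat 0, .ofNat 0]), ((2, 14), [.ofNat 50297, .negSucc 3875, .ofNat 969, .negSucc 170, .ofNat 19, .negSucc 0, .ofNat 0, .ofNat 528346, .ofNat 189896, .negSucc 81393, .ofNat 27132, .negSucc 6782, .ofNat 1197, .negSucc 132, .ofNat 7, .negSucc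 569757, .negSucc 81388, .ofNat 20328, .negSucc 3555, .ofNat 364, .negSucc 33515, .ofNat 5320, .ofNat 0, .ofNat 0, .ofNat 0, .ofNat 0]), ((3, 3), [.ofNat 37128, .negSucc 1631, .ofNat 306, .negSucc 35, .ofNat 2, .ofNat 0, .ofNat 0, .ofNat 1145664, .ofNat 308448, .negSucc 110159, .ofNat 29376, .negSucc 5507, .ofNat 648, .negSucc 35, .ofNat 0, .negSucc 2621807, .negSucc 249695, .ofNat 46818, .negSucc 5507, .ofNat 306, .negSucc 232559, .ofNat 23256, .ofNat 0, .ofNat 0, .ofNat 0, .ofNat 0]), ((3, 9), [.ofNat 18565, .negSucc 815, .ofNat 153, .negSucc 17, .ofNat 1, .ofNat 0, .ofNat 0, .ofNat 382104, .ofNat 102816, .negSucc 36719, .ofNat 9792, .negSucc 1835, .ofNat 216, .negSucc 11, .ofNat 0, .negSucc 565487, .negSucc 53855, .ofNat 10098, .negSucc 1187, .ofNat 66, .negSucc 32867, .ofNat 3465, .ofNat 0, .ofNat 0, .ofNat 0, .ofNat 0]), ((3, 15), [.ofNat 18109, .negSucc 814, .ofNat 153, .negSucc 17, .ofNat 1, .ofNat 0, .ofNat 0, .ofNat 186849, .ofNat 51093, .negSucc 18314,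 .ofNat 4893, .negSucc 917, .ofNat 108, .negSucc 5, .ofNat 0, .negSucc 128204, .negSucc 12236, .ofNat 2295, .negSucc 269, .ofNat 15, .negSucc 3053, .ofNat 345, .ofNat 0, .ofNat 0, .ofNat 1, .ofNat 0]), ((4, 4), [.ofNat 12376, .negSucc 271, .ofNat 34, .negSucc 1, .ofNat 0, .ofNat 0, .ofNat 0, .ofNat 420784, .ofNat 80920, .negSucc 23119, .ofNat 4624, .negSucc 577, .ofNat 34, .ofNat 0, .ofNat 0, .negSucc 647359, .negSucc 36991, .ofNat 4624, .negSucc 271, .ofNat 0, .negSucc 23119, .ofNat 1360, .ofNat 0, .ofNat 0, .ofNat 0, .ofNat 0]), ((4, 10), [.ofNat 6188, .negSucc 135, .ofNat 17, .negSucc 0, .ofNat 0, .ofNat 0, .ofNat 0, .ofNat 136153, .ofNat 26180, .negSucc 7479, .ofNat 1496, .negSucc 186, .ofNat 11, .ofNat 0, .ofNat 0, .negSucc 130899, .negSucc 7479, .ofNat 935, .negSucc 54, .ofNat 0, .negSucc 2804, .ofNat 165, .ofNat 0, .ofNat 0, .ofNat 0, .ofNat 0]), ((4, 16), [.ofNat 4368, .negSucc 119, .ofNat 16, .negSucc 0, .ofNat 0, .ofNat 0, .ofNat 0, .ofNat 44408,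 .ofNat 9660, .negSucc 2919, .ofNat 616, .negSucc 80, .ofNat 5, .ofNat 0, .ofNat 0, .negSucc 20439, .negSucc 1263, .ofNat 164, .negSucc 9, .ofNat 0, .negSucc 165, .ofNat 10, .ofNat 0, .ofNat 0, .ofNat 0, .ofNat 1]), ((5, 5), [.ofNat 3640, .negSucc 31, .ofNat 2, .ofNat 0, .ofNat 0, .ofNat 0, .ofNat 0, .ofNat 139776, .ofNat 17920, .negSucc 3839, .ofNat 512, .negSucc 31, .ofNat 0, .ofNat 0, .ofNat 0, .negSucc 134399, .negSucc 3839, .ofNat 240, .ofNat 0, .ofNat 0, .negSucc 1119, .ofNat 0, .ofNat 0, .ofNat 0, .ofNat 0, .ofNat 0]), ((5, 11), [.ofNat 1820, .negSucc 15, .ofNat 1, .ofNat 0, .ofNat 0, .ofNat 0, .ofNat 0, .ofNat 43675, .ofNat 5600, .negSucc 1199, .ofNat 160, .negSucc 9, .ofNat 0, .ofNat 0, .ofNat 0, .negSucc 25199, .negSucc 719, .ofNat 45, .ofNat 0, .ofNat 0, .negSucc 119, .ofNat 0, .ofNat 0, .ofNat 0, .ofNat 0, .ofNat 0]), ((6, 6), [.ofNat 910, .negSucc 1, .ofNat 0, .ofNat 0, .ofNat 0, .ofNat 0, .ofNat 0, .ofNat 40950, .ofNat 3150, .negSucc 449, .ofNat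 30, .ofNat 0, .ofNat 0, .ofNat 0, .ofNat 0, .negSucc 22049, .negSucc 209, .ofNat 0, .ofNat 0, .ofNat 0, .ofNat 0, .ofNat 0, .ofNat 0, .ofNat 0, .ofNat 0, .ofNat 0]), ((6, 12), [.ofNat 454, .negSucc 0, .ofNat 0, .ofNat 0, .ofNat 0, .ofNat 0, .ofNat 0, .ofNat 12213, .ofNat 945, .negSucc 134, .ofNat 9, .ofNat 0, .ofNat 0, .ofNat 0, .ofNat 0, .negSucc 3779, .negSucc 35, .ofNat 0, .ofNat 0, .ofNat 0, .ofNat 0, .ofNat 0, .ofNat 0, .ofNat 0, .ofNat 0, .ofNat 0]), ((7, 7), [.ofNat 182, .ofNat 0, .ofNat 0, .ofNat 0, .ofNat 0, .ofNat 0, .ofNat 0, .ofNat 10192, .ofNat 392, .negSucc 27, .ofNat 0, .ofNat 0, .ofNat 0, .ofNat 0, .ofNat 0, .negSucc 2547, .ofNat 0, .ofNat 0, .ofNat 0, .ofNat 0, .ofNat 0, .ofNat 0, .ofNat 0, .ofNat 0, .ofNat 0, .ofNat 0]), ((7, 13), [.ofNat 78, .ofNat 0, .ofNat 0, .ofNat 0, .ofNat 0, .ofNat 0, .ofNat 0, .ofNat 2366, .ofNat 105, .negSucc 7, .ofNat 0, .ofNat 0, .ofNat 0, .ofNat 0, .ofNat 0, .negSucc 370, .ofNat 0, .ofNat 0, .ofNat 0, .ofNat 0,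 .ofNat 0, .ofNat 0, .ofNat 0, .ofNat 0, .ofNat 0, .ofNat 0]), ((8, 8), [.ofNat 26, .ofNat 0, .ofNat 0, .ofNat 0, .ofNat 0, .ofNat 0, .ofNat 0, .ofNat 2028, .ofNat 26, .ofNat 0, .ofNat 0, .ofNat 0, .ofNat 0, .ofNat 0, .ofNat 0, .negSucc 155, .ofNat 0, .ofNat 0, .ofNat 0, .ofNat 0, .ofNat 0, .ofNat 0, .ofNat 0, .ofNat 0, .ofNat 0, .ofNat 0]), ((9, 9), [.ofNat 2, .ofNat 0, .ofNat 0, .ofNat 0, .ofNat 0, .ofNat 0, .ofNat 0, .ofNat 288, .ofNat 0, .ofNat 0, .ofNat 0, .ofNat 0, .ofNat 0, .ofNat 0, .ofNat 0, .ofNat 0, .ofNat 0, .ofNat 0, .ofNat 0, .ofNat 0, .ofNat 0, .ofNat 0, .ofNat 0, .ofNat 0, .ofNat 0, .ofNat 0]), ((10, 10), [.ofNat 0, .ofNat 0, .ofNat 0, .ofNat 0, .ofNat 0, .ofNat 0, .ofNat 0, .ofNat 22, .ofNat 0, .ofNat 0, .ofNat 0, .ofNat 0, .ofNat 0, .ofNat 0, .ofNat 0, .ofNat 0, .ofNat 0, .ofNat 0, .ofNat 0, .ofNat 0, .ofNat 0, .ofNat 0, .ofNat 0, .ofNat 0, .ofNat 0, .ofNat 0])]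
  tg := [((0, 0), .ofNat 1, [.ofNat 0, .ofNat 0, .ofNat 0, .ofNat 0, .ofNat 0, .ofNat 0, .ofNat 0, .ofNat 0, .ofNat 0, .ofNat 0, .ofNat 0, .ofNat 0, .ofNat 0, .ofNat 0, .ofNat 0, .ofNat 0, .ofNat 0, .ofNat 0, .ofNat 0, .ofNat 0, .ofNat 0, .ofNat 0, .ofNat 1, .ofNat 0, .ofNat 0, .ofNat 0]), ((0, 6), .ofNat 480, [.ofNat 0, .negSucc 46584314, .negSucc 633168799, .negSucc 4381042391, .negSucc 18798952031, .negSucc 51093489550, .negSucc 77770575871, .ofNat 0, .ofNat 0, .ofNat 0, .negSucc 7936586, .negSucc 118056121, .negSucc 881240353, .negSucc 3838738407, .negSucc 8780343482, .ofNat 0, .negSucc 690137, .negSucc 12569947, .negSucc 106980144, .negSucc 431238201, .negSucc 382172, .negSucc 5015699, .ofNat 0, .negSucc 2984747, .negSucc 1467377, .negSucc 1814039]), ((0, 12), .ofNat 5940, [.ofNat 0, .negSucc 1869479, .negSucc 25410239, .negSucc 175799447, .negSucc 754238222, .negSucc 2049658724, .negSucc 3119468753, .ofNat 0, .ofNat 0, .ofNat 0, .negSucc 318503, .negSucc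 4738313, .negSucc 35366161, .negSucc 154031657, .negSucc 352265129, .ofNat 0, .negSucc 27695, .negSucc 504627, .negSucc 4294352, .negSucc 17306546, .negSucc 15359, .negSucc 201470, .ofNat 0, .negSucc 32489, .negSucc 61694, .negSucc 74699]), ((0, 18), .ofNat 44064, [.ofNat 0, .negSucc 2024, .negSucc 27359, .negSucc 189719, .negSucc 817775, .negSucc 2230580, .negSucc 3401759, .ofNat 0, .ofNat 0, .ofNat 0, .negSucc 344, .negSucc 5069, .negSucc 37909, .negSucc 166199, .negSucc 382184, .ofNat 0, .negSucc 29, .negSucc 531, .negSucc 4538, .negSucc 18509, .negSucc 14, .negSucc 203, .ofNat 0, .negSucc 18467, .negSucc 53, .negSucc 71]), ((1, 1), .ofNat 4084080, [.ofNat 0, .ofNat 1645838948565, .ofNat 22370272450400, .ofNat 154784237168792, .ofNat 664168246352352, .ofNat 1805118829032001, .ofNat 2747593836192352, .ofNat 0, .ofNat 0, .ofNat 0, .ofNat 280402191237, .ofNat 4171051212422, .ofNat 31135048256654, .ofNat 135624311202248, .ofNat 310209491819973, .ofNat 0, .ofNat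 24382799238, .ofNat 444122358308, .ofNat 3779812301615, .ofNat 15236108929862, .ofNat 13504820163, .ofNat 177228489420, .ofNat 0, .ofNat 97063076628, .ofNat 51909005358, .ofNat 64138654440]), ((1, 7), .ofNat 420, [.ofNat 0, .ofNat 76780305, .ofNat 1043567840, .ofNat 7220766728, .ofNat 30984821028, .ofNat 84214962265, .ofNat 128187240664, .ofNat 0, .ofNat 0, .ofNat 0, .ofNat 13081089, .ofNat 194571374, .ofNat 1452406502, .ofNat 6326953268, .ofNat 14471999685, .ofNat 0, .ofNat 1137486, .ofNat 20715668, .ofNat 176308223, .ofNat 710734442, .ofNat 629655, .ofNat 8264736, .ofNat 0, .ofNat 5721660, .ofNat 2413530, .ofNat 2986200]), ((1, 13), .ofNat 624, [.ofNat 0, .ofNat 176175, .ofNat 2394400, .ofNat 16562488, .ofNat 71044560, .ofNat 193030595, .ofNat 293732720, .ofNat 0, .ofNat 0, .ofNat 0, .ofNat 30015, .ofNat 446530, .ofNat 3332298, .ofNat 14510440, .ofNat 33179247, .ofNat 0, .ofNat 2610, .ofNat 47564, .ofNat 404701, .ofNat 1630594, .ofNat 1449, .ofNat 18996,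 .ofNat 0, .negSucc 4787, .ofNat 6426, .ofNat 7416]), ((1, 19), .ofNat 1, [.ofNat 0, .ofNat 0, .ofNat 0, .ofNat 0, .ofNat 0, .ofNat 0, .ofNat 0, .ofNat 0, .ofNat 0, .ofNat 0, .ofNat 0, .ofNat 0, .ofNat 0, .ofNat 0, .ofNat 0, .ofNat 0, .ofNat 0, .ofNat 0, .ofNat 0, .ofNat 0, .ofNat 0, .ofNat 0, .ofNat 0, .ofNat 1, .ofNat 0, .ofNat 0]), ((2, 2), .ofNat 1680, [.ofNat 0, .negSucc 2226502484, .negSucc 30262688479, .negSucc 209393169895, .negSucc 898489820735, .negSucc 2441969286384, .negSucc 3716947452927, .ofNat 0, .ofNat 0, .ofNat 0, .negSucc 379330052, .negSucc 5642640997, .negSucc 42119778493, .negSucc 183473442535, .negSucc 419652654644, .ofNat 0, .negSucc 32985221, .negSucc 600815395, .negSucc 5113382230, .negSucc 20611554133, .negSucc 18269834, .negSucc 239759531, .ofNat 0, .negSucc 129891059, .negSucc 70245629, .negSucc 86783399]), ((2, 8), .ofNat 336, [.ofNat 0, .negSucc 50787404, .negSucc 690235359, .negSucc 4776111375, .negSucc 20496064823, .negSucc 55710547576,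 .negSucc 84803027983, .ofNat 0, .ofNat 0, .ofNat 0, .negSucc 8652668, .negSucc 128682813, .negSucc 960594749, .negSucc 4184911071, .negSucc 9573160652, .ofNat 0, .negSucc 752405, .negSucc 13698067, .negSucc 116585670, .negSucc 470053341, .negSucc 415970, .negSucc 5462195, .ofNat 0, .negSucc 5506883, .negSucc 1587221, .negSucc 1968263]), ((2, 14), .ofNat 42, [.ofNat 0, .negSucc 3644, .negSucc 49519, .negSucc 342379, .negSucc 1468016, .negSucc 3987168, .negSucc 6065025, .ofNat 0, .ofNat 0, .ofNat 0, .negSucc 620, .negSucc 9235, .negSucc 68895, .negSucc 299890, .negSucc 685502, .ofNat 0, .negSucc 53, .negSucc 983, .negSucc 8368, .negSucc 33706, .negSucc 29, .negSucc 392, .ofNat 0, .ofNat 342, .negSucc 188, .negSucc 179]), ((3, 3), .ofNat 9, [.ofNat 0, .ofNat 17420265, .ofNat 236777280, .ofNat 1638300948, .ofNat 7029788292, .ofNat 19105895721, .ofNat 29081185992, .ofNat 0, .ofNat 0, .ofNat 0, .ofNat 2967897, .ofNat 44148582, .ofNat 329548490, .ofNat 1435502646,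 .ofNat 3283360599, .ofNat 0, .ofNat 258078, .ofNat 4700884, .ofNat 40007883, .ofNat 161266551, .ofNat 142953, .ofNat 1875966, .ofNat 0, .ofNat 986442, .ofNat 550161, .ofNat 679392]), ((3, 9), .ofNat 24, [.ofNat 0, .ofNat 1792935, .ofNat 24361760, .ofNat 168590360, .ofNat 723647376, .ofNat 1967344987, .ofNat 2995124128, .ofNat 0, .ofNat 0, .ofNat 0, .ofNat 305463, .ofNat 4540658, .ofNat 33897818, .ofNat 147722248, .ofNat 338009639, .ofNat 0, .ofNat 26562, .ofNat 483052, .ofNat 4111677, .ofNat 16585890, .ofNat 14625, .ofNat 192300, .ofNat 0, .ofNat 391324, .ofNat 55122, .ofNat 68760]), ((3, 15), .ofNat 1, [.ofNat 0, .ofNat 0, .ofNat 0, .ofNat 0, .ofNat 0, .ofNat 0, .ofNat 0, .ofNat 0, .ofNat 0, .ofNat 0, .ofNat 0, .ofNat 0, .ofNat 0, .ofNat 0, .ofNat 0, .ofNat 0, .ofNat 0, .ofNat 0, .ofNat 0, .ofNat 0, .ofNat 0, .ofNat 0, .ofNat 0, .ofNat 0, .ofNat 1, .ofNat 0]), ((4, 4), .ofNat 4896, [.ofNat 0, .negSucc 7765602434, .negSucc 105551033759, .negSucc 730318174199,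 .negSucc 3133680512615, .negSucc 8516761010366, .negSucc 12963272983727, .ofNat 0, .ofNat 0, .ofNat 0, .negSucc 1323028562, .negSucc 19680860057, .negSucc 146907282177, .negSucc 639913293767, .negSucc 1463624332658, .ofNat 0, .negSucc 115045961, .negSucc 2095645531, .negSucc 17835297872, .negSucc 71890067153, .negSucc 63736004, .negSucc 836355323, .ofNat 0, .negSucc 405982043, .negSucc 246036041, .negSucc 303416279]), ((4, 10), .ofNat 144, [.ofNat 0, .negSucc 3683474, .negSucc 50015519, .negSucc 346246343, .negSucc 1487297375, .negSucc 4046098430, .negSucc 6162863519, .ofNat 0, .ofNat 0, .ofNat 0, .negSucc 627554, .negSucc 9314489, .negSucc 69554449, .negSucc 303395279, .negSucc 694797074, .ofNat 0, .negSucc 54569, .negSucc 989019, .negSucc 8420960, .negSucc 34022921, .negSucc 29660, .negSucc 391667, .ofNat 0, .negSucc 2066363, .negSucc 107729, .negSucc 136439]), ((4, 16), .ofNat 1, [.ofNat 0, .ofNat 0, .ofNat 0, .ofNat 0, .ofNat 0, .ofNat 0, .ofNat 0, .ofNat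 0, .ofNat 0, .ofNat 0, .ofNat 0, .ofNat 0, .ofNat 0, .ofNat 0, .ofNat 0, .ofNat 0, .ofNat 0, .ofNat 0, .ofNat 0, .ofNat 0, .ofNat 0, .ofNat 0, .ofNat 0, .ofNat 0, .ofNat 0, .ofNat 1]), ((5, 5), .ofNat 1440, [.ofNat 0, .ofNat 1187791695, .ofNat 16144747200, .ofNat 111703940136, .ofNat 479284971696, .ofNat 1302559452483, .ofNat 1982548565376, .ofNat 0, .ofNat 0, .ofNat 0, .ofNat 202364511, .ofNat 3010409826, .ofNat 22470595642, .ofNat 97875298344, .ofNat 223853708079, .ofNat 0, .ofNat 17596914, .ofNat 320573804, .ofNat 2728223565, .ofNat 10996155426, .ofNat 9752889, .ofNat 127959060, .ofNat 0, .ofNat 50411484, .ofNat 38024154, .ofNat 46687320]), ((5, 11), .ofNat 360, [.ofNat 0, .ofNat 2560815, .ofNat 34714080, .ofNat 240602904, .ofNat 1035797544, .ofNat 2823736395, .ofNat 4309069872, .ofNat 0, .ofNat 0, .ofNat 0, .ofNat 436287, .ofNat 6450402, .ofNat 48209546, .ofNat 210859584, .ofNat 484075575, .ofNat 0, .ofNat 37938, .ofNat 681364, .ofNat 5807109, .ofNat 23566146,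 .ofNat 19905, .ofNat 266028, .ofNat 0, .ofNat 3703860, .ofNat 62370, .ofNat 82440]), ((6, 6), .ofNat 270, [.ofNat 0, .negSucc 78094529, .negSucc 1061489999, .negSucc 7343654015, .negSucc 31505210900, .negSucc 85611733109, .negSucc 130290070697, .ofNat 0, .ofNat 0, .ofNat 0, .negSucc 13305017, .negSucc 197946437, .negSucc 1477414933, .negSucc 6434304650, .negSucc 14714245619, .ofNat 0, .negSucc 1156961, .negSucc 21082995, .negSucc 179411315, .negSucc 722985308, .negSucc 641984, .negSucc 8419136, .ofNat 0, .negSucc 2046869, .negSucc 2589164, .negSucc 3133259]), ((6, 12), .ofNat 72, [.ofNat 0, .negSucc 177164, .negSucc 2398239, .negSucc 16663671, .negSucc 72033515, .negSucc 197296360, .negSucc 302869879, .ofNat 0, .ofNat 0, .ofNat 0, .negSucc 30164, .negSucc 443949, .negSucc 3324181, .negSucc 14602995, .negSucc 33673148, .ofNat 0, .negSucc 2621, .negSucc 46547, .negSucc 397470, .negSucc 1623393, .negSucc 1310, .negSucc 17831, .ofNat 0, .negSucc 402875, .negSucc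 2177, .negSucc 3383]), ((7, 7), .ofNat 4410, [.ofNat 0, .ofNat 292345200, .ofNat 3973840080, .ofNat 27481184556, .ofNat 117832833216, .ofNat 320018801865, .ofNat 486778059600, .ofNat 0, .negSucc 47, .negSucc 258, .ofNat 49808115, .ofNat 741330030, .ofNat 5531290506, .ofNat 24075216606, .ofNat 55024341759, .negSucc 7, .ofNat 4331880, .ofNat 79027620, .ofNat 672278691, .ofNat 2706960522, .ofNat 2415399, .ofNat 31617348, .ofNat 0, .ofNat 12281220, .ofNat 11073510, .ofNat 12728520]), ((7, 13), .ofNat 2520, [.ofNat 0, .ofNat 4254525, .ofNat 57618720, .ofNat 400848984, .ofNat 1736902764, .ofNat 4778578185, .ofNat 7395933480, .ofNat 0, .ofNat 48, .negSucc 55, .ofNat 718965, .ofNat 10602750, .ofNat 79526214, .ofNat 350081364, .ofNat 809928621, .ofNat 8, .ofNat 62190, .ofNat 1107060, .ofNat 9473439, .ofNat 38770338, .ofNat 31071, .ofNat 423912, .ofNat 0, .ofNat 6433020, .ofNat 17010, .ofNat 41400]), ((8, 8), .ofNat 65520, [.ofNat 0, .negSucc 336338324, .negSucc 4580461919,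 .negSucc 31520961263, .negSucc 134130158603, .negSucc 361475981444, .negSucc 546524316119, .ofNat 0, .ofNat 5712, .ofNat 69776, .negSucc 56855204, .negSucc 857269589, .negSucc 6379975733, .negSucc 27547673423, .negSucc 62423196380, .ofNat 112, .negSucc 4994549, .negSucc 92858819, .negSucc 786853778, .negSucc 3131226257, .negSucc 3002690, .negSucc 38291591, .ofNat 0, .negSucc 373699979, .negSucc 30430889, .negSucc 27797399]), ((9, 9), .ofNat 11340, [.ofNat 11340, .negSucc 50477174, .negSucc 691452719, .negSucc 4842766403, .negSucc 21076547813, .negSucc 58154415584, .negSucc 89779221419, .ofNat 0, .negSucc 18467, .negSucc 76733, .negSucc 8687804, .negSucc 126982589, .negSucc 957348993, .negSucc 4236201353, .negSucc 9857816720, .negSucc 1187, .negSucc 699089, .negSucc 12942019, .negSucc 112551998, .negSucc 464303027, .negSucc 365420, .negSucc 5035421, .ofNat 0, .ofNat 84603960, .ofNat 457380, .negSucc 403199]), ((10, 10), .ofNat 27720, [.negSucc 362879, .ofNat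 28437885, .ofNat 647562720, .ofNat 5632229064, .ofNat 28298364444, .ofNat 90679459185, .ofNat 167004763128, .ofNat 2520, .ofNat 394416, .ofNat 620928, .negSucc 2611706, .ofNat 44619918, .ofNat 702013382, .ofNat 4097007684, .ofNat 11815493517, .ofNat 38016, .negSucc 1131017, .negSucc 1924243, .ofNat 47752719, .ofNat 313230330, .ofNat 95487, .ofNat 2732856, .ofNat 0, .negSucc 206961299, .ofNat 515970, .ofNat 1998360])]

/-- certificate, `m = 6`, `j = 21`, antisymmetric part -/
def NC_6_21_m : NUM_Cert where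
  tri := [(0, 1), (0, 4), (0, 6), (0, 16), (0, 17), (0, 18), (0, 19), (0, 20), (0, 21), (1, 2), (1, 4), (1, 18), (1, 19), (1, 20), (2, 4)]
  fre := []
  cols := [((0, 6), [.ofNat 12, .negSucc 4634, .negSucc 49259, .negSucc 23351, .ofNat 7350, .negSucc 1784, .ofNat 315, .negSucc 35, .ofNat 2, .ofNat 945, .ofNat 61110, .ofNat 29505, .negSucc 5354, .ofNat 630, .negSucc 341774]), ((0, 12), [.ofNat 24, .negSucc 6353, .negSucc 55103, .negSucc 20474, .ofNat 6111, .negSucc 1413, .ofNat 246, .negSucc 29, .ofNat 2, .ofNat 1134, .ofNat 51219, .ofNat 13734, .negSucc 2645, .ofNat 378, .negSucc 188999]), ((0, 18), [.ofNat 36, .negSucc 9044, .negSucc 72827, .negSucc 20501, .ofNat 6003, .negSucc 1330, .ofNat 213, .negSucc 23, .ofNat 2, .ofNat 567, .ofNat 17955, .ofNat 4011, .negSucc 692, .ofNat 126, .negSucc 17954]), ((1, 7), [.ofNat 12, .negSucc 3878, .negSucc 35763, .negSucc 4844, .ofNat 1140, .negSucc 189, .ofNat 20, .negSucc 0, .ofNat 0, .ofNat 861, .ofNat 47845, .ofNat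 3024, .negSucc 370, .ofNat 28, .negSucc 250704]), ((1, 13), [.ofNat 24, .negSucc 5489, .negSucc 40447, .negSucc 4844, .ofNat 1140, .negSucc 189, .ofNat 20, .negSucc 0, .ofNat 0, .ofNat 1038, .ofNat 38075, .ofNat 1576, .negSucc 187, .ofNat 16, .negSucc 122359]), ((1, 19), [.ofNat 36, .negSucc 8720, .negSucc 65891, .negSucc 5813, .ofNat 1311, .negSucc 208, .ofNat 21, .negSucc 0, .ofNat 0, .ofNat 531, .ofNat 13566, .ofNat 399, .negSucc 40, .ofNat 4, .negSucc 4844]), ((2, 8), [.ofNat 12, .negSucc 3230, .negSucc 25443, .negSucc 968, .ofNat 171, .negSucc 18, .ofNat 1, .ofNat 0, .ofNat 0, .ofNat 789, .ofNat 36943, .ofNat 247, .negSucc 12, .ofNat 0, .negSucc 180132]), ((2, 14), [.ofNat 24, .negSucc 4841, .negSucc 30127, .negSucc 968, .ofNat 171, .negSucc 18, .ofNat 1, .ofNat 0, .ofNat 0, .ofNat 966, .ofNat 28469, .ofNat 133, .negSucc 6, .ofNat 0, .negSucc 76411]), ((3, 9), [.ofNat 12, .negSucc 2690, .negSucc 17723, .negSucc 152, .ofNat 18, .negSucc 0, .ofNat 0, .ofNat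 0, .ofNat 0, .ofNat 729, .ofNat 28188, .ofNat 12, .ofNat 0, .ofNat 0, .negSucc 126602]), ((3, 15), [.ofNat 24, .negSucc 4409, .negSucc 23567, .negSucc 152, .ofNat 18, .negSucc 0, .ofNat 0, .ofNat 0, .ofNat 0, .ofNat 918, .ofNat 22185, .ofNat 6, .ofNat 0, .ofNat 0, .negSucc 47699]), ((4, 10), [.ofNat 12, .negSucc 2258, .negSucc 12123, .negSucc 16, .ofNat 1, .ofNat 0, .ofNat 0, .ofNat 0, .ofNat 0, .ofNat 681, .ofNat 21400, .ofNat 0, .ofNat 0, .ofNat 0, .negSucc 87234]), ((4, 16), [.ofNat 24, .negSucc 4193, .negSucc 20383, .negSucc 17, .ofNat 1, .ofNat 0, .ofNat 0, .ofNat 0, .ofNat 0, .ofNat 894, .ofNat 19079, .ofNat 0, .ofNat 0, .ofNat 0, .negSucc 33919]), ((5, 11), [.ofNat 12, .negSucc 1934, .negSucc 8259, .negSucc 0, .ofNat 0, .ofNat 0, .ofNat 0, .ofNat 0, .ofNat 0, .ofNat 645, .ofNat 16435, .ofNat 0, .ofNat 0, .ofNat 0, .negSucc 59724]), ((6, 12), [.ofNat 12, .negSucc 1718, .negSucc 5843, .ofNat 0, .ofNat 0, .ofNat 0, .ofNat 0, .ofNat 0, .ofNat 0, .ofNat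 621, .ofNat 13185, .ofNat 0, .ofNat 0, .ofNat 0, .negSucc 42344]), ((7, 13), [.ofNat 12, .negSucc 1610, .negSucc 4683, .ofNat 0, .ofNat 0, .ofNat 0, .ofNat 0, .ofNat 0, .ofNat 0, .ofNat 609, .ofNat 11578, .ofNat 0, .ofNat 0, .ofNat 0, .negSucc 33942])]
  tg := [((0, 6), .ofNat 34292160, [.negSucc 1238139464, .negSucc 2647419, .negSucc 414485, .ofNat 28226880, .ofNat 338722560, .ofNat 2389813632, .ofNat 13237426944, .ofNat 71847300672, .ofNat 240744190176, .ofNat 28882896, .negSucc 873151, .ofNat 15676416, .ofNat 250822656, .ofNat 1980453888, .negSucc 34495]), ((0, 12), .ofNat 54867456, [.ofNat 2011529433, .ofNat 4297490, .ofNat 673965, .negSucc 45909503, .negSucc 550914047, .negSucc 3886631423, .negSucc 21525678719, .negSucc 116807588351, .negSucc 391359765887, .negSucc 46934705, .ofNat 1418872, .negSucc 25474175, .negSucc 407586815, .negSucc 3218237567, .ofNat 56056]), ((0, 18), .ofNat 274337280, [.negSucc 152531444, .negSucc 308089, .negSucc 53936, .ofNat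 3732480, .ofNat 44789760, .ofNat 314648064, .ofNat 1728978048, .ofNat 9259536384, .ofNat 30982476672, .ofNat 3610362, .negSucc 109143, .ofNat 1959552, .ofNat 31352832, .ofNat 247556736, .negSucc 4311]), ((1, 7), .ofNat 18289152, [.ofNat 8458356903, .ofNat 18091954, .ofNat 2830473, .negSucc 192720383, .negSucc 2312644607, .negSucc 16317656063, .negSucc 90396311039, .negSucc 490709270015, .negSucc 1644296008319, .negSucc 197292857, .ofNat 5964056, .negSucc 107122175, .negSucc 1713954815, .negSucc 13531577471, .ofNat 235592]), ((1, 13), .ofNat 91445760, [.negSucc 22817201954, .negSucc 48734829, .negSucc 7645706, .ofNat 520680960, .ofNat 6248171520, .ofNat 44085441024, .ofNat 244217006208, .ofNat 1325503678464, .ofNat 4440493757952, .ofNat 532394142, .negSucc 16092103, .ofNat 289360512, .ofNat 4629768192, .ofNat 36548257536, .negSucc 635431]), ((1, 19), .ofNat 45722880, [.ofNat 15292995, .ofNat 8800, .ofNat 8622, .negSucc 622079, .negSucc 7464959, .negSucc 52441343,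 .negSucc 288163007, .negSucc 1543256063, .negSucc 5163746111, .negSucc 417731, .ofNat 11984, .negSucc 326591, .negSucc 5225471, .negSucc 41259455, .ofNat 392]), ((2, 8), .ofNat 548674560, [.negSucc 1408891599374, .negSucc 3016827969, .negSucc 470945456, .ofNat 32055160320, .ofNat 384661923840, .ofNat 2714348289024, .ofNat 15038659335168, .ofNat 81647257112064, .ofNat 273607655836032, .ofNat 32853250122, .negSucc 993141463, .ofNat 17837148672, .ofNat 285302932992, .ofNat 2252031901056, .negSucc 39231751]), ((2, 14), .ofNat 109734912, [.ofNat 84985350285, .ofNat 182007062, .ofNat 28401291, .negSucc 1932802559, .negSucc 23193630719, .negSucc 163675966463, .negSucc 906750899711, .negSucc 4920305306111, .negSucc 16478453448575, .negSucc 1981599437, .ofNat 59899336, .negSucc 1076447231, .negSucc 17204866559, .negSucc 135712257407, .ofNat 2365720]), ((3, 9), .ofNat 548674560, [.ofNat 4434121403295, .ofNat 9505902370, .ofNat 1480198113, .negSucc 100685514239, .negSucc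 1208226170879, .negSucc 8527101382655, .negSucc 47257436524031, .negSucc 256671372658175, .negSucc 860326822551167, .negSucc 103359505577, .ofNat 3124104536, .negSucc 56090216447, .negSucc 897169125887, .negSucc 7082154705023, .ofNat 123358088]), ((3, 15), .ofNat 548674560, [.negSucc 653892597734, .negSucc 1401401649, .negSucc 218135816, .ofNat 14808614400, .ofNat 177703372800, .ofNat 1254209577984, .ofNat 6948187319808, .ofNat 37693129711104, .ofNat 126207143217792, .ofNat 15237789882, .negSucc 460117783, .ofNat 8261471232, .ofNat 131909202432, .ofNat 1039789892736, .negSucc 18110791]), ((4, 10), .ofNat 137168640, [.negSucc 2266804777259, .negSucc 4870823569, .negSucc 754973882, .ofNat 51327509760, .ofNat 616067285760, .ofNat 4349912253696, .ofNat 24122459938752, .ofNat 131113635641856, .ofNat 439638041803968, .ofNat 52808605878, .negSucc 1596313095, .ofNat 28658121408, .ofNat 458484219648, .ofNat 3619835884224, .negSucc 63050847]), ((4, 16), .ofNat 274337280,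 [.ofNat 173142731355, .ofNat 371350810, .ofNat 57640797, .negSucc 3904796159, .negSucc 46857553919, .negSucc 330738038783, .negSucc 1832239035647, .negSucc 9938274683903, .negSucc 33272120431871, .negSucc 4032456161, .ofNat 121641464, .negSucc 2180328191, .negSucc 34793805311, .negSucc 274167887615, .ofNat 4774952]), ((5, 11), .ofNat 137168640, [.ofNat 3201428198580, .ofNat 6916390270, .ofNat 1060490349, .negSucc 72132664319, .negSucc 866277815039, .negSucc 6121769591807, .negSucc 33980733734975, .negSucc 184873926037247, .negSucc 620170570805183, .negSucc 74478316793, .ofNat 2251667768, .negSucc 40427843903, .negSucc 646891225343, .negSucc 5108024400191, .ofNat 88973024]), ((6, 12), .ofNat 548674560, [.negSucc 11997161243624, .negSucc 26125369069, .negSucc 3941564102, .ofNat 268564999680, .ofNat 3227718067200, .ofNat 22831763798016, .ofNat 126860839967232, .ofNat 690816571716096, .ofNat 2318250147147648, .ofNat 278501262438, .negSucc 8419838055, .ofNat 151167679488,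 .ofNat 2418957209088, .ofNat 19101426148224, .negSucc 332713527]), ((7, 13), .ofNat 548674560, [.ofNat 4998844244505, .ofNat 10951357310, .ofNat 1631941119, .negSucc 111384046079, .negSucc 1339351925759, .negSucc 9480288688127, .negSucc 52708877093375, .negSucc 287179573298687, .negSucc 963923891220863, .negSucc 115845924053, .ofNat 3502132648, .negSucc 62872879103, .negSucc 1006057511423, .negSucc 7944289218431, .ofNat 138363064])]

theorem NUM_6_21 : NUM_stmt 6 21 3 :=
  NUM_of_certs 6 21 3 (by norm_num) NC_6_21_p NC_6_21_m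
    (by decide +kernel) (by decide +kernel) (by decide +kernel)
    (by decide +kernel) (by decide +kernel) (by decide +kernel) rfl rfl

/-- certificate, `m = 6`, `j = 22`, symmetric part -/
def NC_6_22_p : NUM_Cert where
  tri := [(0, 17), (0, 18), (0, 19), (0, 20), (0, 21), (1, 17), (1, 18), (1, 19), (1, 20), (2, 12), (2, 14), (2, 15), (2, 16), (2, 17), (2, 18), (2, 19), (3, 12), (3, 16), (3, 17), (3, 18), (4, 15), (4, 16), (4, 17)]
  fre := [(0, 0), (2, 14), (3, 15)]
  cols := [((0, 0), [.ofNat 0, .ofNat 0, .ofNat 0, .ofNat 0, .ofNat 0, .ofNat 0, .ofNat 0, .ofNat 0, .ofNat 0, .ofNat 0, .ofNat 0, .ofNat 0, .ofNat 0, .ofNat 0, .ofNat 0, .ofNat 0, .ofNat 0, .ofNat 0, .ofNat 0, .ofNat 0, .ofNat 0, .ofNat 0, .ofNat 0, .ofNat 2, .ofNat 0, .ofNat 0]), ((0, 6), [.negSucc 21965, .ofNat 5495, .negSucc 979, .ofNat 111, .negSucc 5, .ofNat 325248, .negSucc 76999, .ofNat 12320, .negSucc 1055, .ofNat 76168092, .ofNat 35427150, .negSucc 17826335, .ofNat 7103943, .negSucc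 2151071, .ofNat 457380, .negSucc 55439, .negSucc 352592239, .negSucc 29452499, .ofNat 8020320, .negSucc 1293599, .negSucc 226823519, .ofNat 77224455, .negSucc 15975959, .ofNat 0, .ofNat 0, .ofNat 0]), ((0, 12), [.negSucc 26081, .ofNat 7105, .negSucc 1419, .ofNat 186, .negSucc 11, .ofNat 257796, .negSucc 68529, .ofNat 12760, .negSucc 1319, .ofNat 29098839, .ofNat 14379255, .negSucc 7646759, .ofNat 3309075, .negSucc 1126817, .ofNat 280665, .negSucc 41579, .negSucc 77595979, .negSucc 8630159, .ofNat 2772000, .negSucc 554399, .negSucc 34936439, .ofNat 14132580, .negSucc 3686759, .ofNat 0, .ofNat 0, .ofNat 0]), ((0, 18), [.negSucc 26315, .ofNat 7314, .negSucc 1535, .ofNat 225, .negSucc 17, .ofNat 105336, .negSucc 29237, .ofNat 6072, .negSucc 791, .ofNat 3879876, .ofNat 1918620, .negSucc 1023263, .ofNat 447678, .negSucc 158003, .ofNat 43659, .negSucc 8315, .negSucc 2586583, .negSucc 298451, .ofNat 105336, .negSucc 27719, .negSucc 170543, .ofNat 74613, .negSucc 26333,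 .ofNat 0, .ofNat 0, .ofNat 0]), ((1, 1), [.negSucc 11969, .ofNat 2660, .negSucc 419, .ofNat 42, .negSucc 1, .ofNat 210672, .negSucc 43889, .ofNat 6160, .negSucc 461, .ofNat 108636528, .ofNat 40291020, .negSucc 17907119, .ofNat 6267492, .negSucc 1659041, .ofNat 307230, .negSucc 32339, .negSucc 633713079, .negSucc 31337459, .ofNat 7373520, .negSucc 1024099, .negSucc 340235279, .ofNat 99235290, .negSucc 17512109, .ofNat 0, .ofNat 0, .ofNat 0]), ((1, 7), [.negSucc 5984, .ofNat 1330, .negSucc 209, .ofNat 21, .negSucc 0, .ofNat 86772, .negSucc 18584, .ofNat 2695, .negSucc 209, .ofNat 30895137, .ofNat 12077415, .negSucc 5562794, .ofNat 2031540, .negSucc 565361, .ofNat 110985, .negSucc 12494, .negSucc 133712669, .negSucc 8207744, .ofNat 2092545, .negSucc 318499, .negSucc 65517794, .ofNat 21119735, .negSucc 4175534, .ofNat 0, .ofNat 0, .ofNat 0]), ((1, 13), [.negSucc 5984, .ofNat 1330, .negSucc 209, .ofNat 21, .negSucc 0, .ofNat 53739, .negSucc 11843, .ofNat 1806,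 .negSucc 152, .ofNat 10581480, .ofNat 4185891, .negSucc 1952747, .ofNat 730800, .negSucc 212813, .ofNat 45234, .negSucc 5795, .negSucc 24690119, .negSucc 1691675, .ofNat 476280, .negSucc 85259, .negSucc 6789383, .ofNat 2452254, .negSucc 586529, .ofNat 0, .ofNat 0, .ofNat 0]), ((1, 19), [.negSucc 5813, .ofNat 1311, .negSucc 208, .ofNat 21, .negSucc 0, .ofNat 17784, .negSucc 3970, .ofNat 629, .negSucc 59, .ofNat 881790, .ofNat 348840, .negSucc 162791, .ofNat 61047, .negSucc 17954, .ofNat 3990, .negSucc 608, .negSucc 293929, .negSucc 20348, .ofNat 5985, .negSucc 1329, .ofNat 0, .ofNat 0, .ofNat 0, .ofNat 0, .ofNat 0, .ofNat 0]), ((2, 2), [.negSucc 2279, .ofNat 380, .negSucc 39, .ofNat 2, .ofNat 0, .ofNat 45600, .negSucc 7599, .ofNat 800, .negSucc 39, .ofNat 47499088, .ofNat 14476860, .negSucc 5736479, .ofNat 1763580, .negSucc 402191, .ofNat 62510, .negSucc 5319, .negSucc 279821359, .negSucc 9496199, .ofNat 1979040, .negSucc 239399, .negSucc 120776159, .ofNat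 32219250, .negSucc 5155079, .ofNat 0, .ofNat 0, .ofNat 0]), ((2, 8), [.negSucc 1139, .ofNat 190, .negSucc 19, .ofNat 1, .ofNat 0, .ofNat 15960, .negSucc 2659, .ofNat 280, .negSucc 13, .ofNat 11479559, .ofNat 3524347, .negSucc 1407431, .ofNat 437892, .negSucc 101737, .ofNat 16289, .negSucc 1455, .negSucc 45936799, .negSucc 1703519, .ofNat 374920, .negSucc 49139, .negSucc 14867423, .ofNat 4279275, .negSucc 760759, .ofNat 0, .ofNat 0, .ofNat 0]), ((2, 14), [.negSucc 1139, .ofNat 190, .negSucc 19, .ofNat 1, .ofNat 0, .ofNat 9120, .negSucc 1519, .ofNat 160, .negSucc 7, .ofNat 3527069, .ofNat 1085279, .negSucc 434103, .ofNat 135632, .negSucc 31863, .ofNat 5250, .negSucc 503, .negSucc 7054319, .negSucc 270759, .ofNat 62720, .negSucc 9239, .negSucc 1083759, .ofNat 333830, .negSucc 69159, .ofNat 0, .ofNat 1, .ofNat 0]), ((3, 3), [.negSucc 341, .ofNat 38, .negSucc 1, .ofNat 0, .ofNat 0, .ofNat 6498, .negSucc 721, .ofNat 38, .ofNat 0, .ofNat 17232696, .ofNat 3976776,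 .negSucc 1325591, .ofNat 331398, .negSucc 58481, .ofNat 6498, .negSucc 341, .negSucc 97467187, .negSucc 1823657, .ofNat 308142, .negSucc 29069, .negSucc 28132007, .ofNat 6480672, .negSucc 883727, .ofNat 0, .ofNat 0, .ofNat 0]), ((3, 9), [.negSucc 170, .ofNat 19, .negSucc 0, .ofNat 0, .ofNat 0, .ofNat 2223, .negSucc 246, .ofNat 13, .ofNat 0, .ofNat 3932487, .ofNat 906984, .negSucc 302327, .ofNat 75582, .negSucc 13337, .ofNat 1482, .negSucc 77, .negSucc 14423278, .negSucc 275417, .ofNat 47619, .negSucc 4718, .negSucc 2738735, .ofNat 660231, .negSucc 97811, .ofNat 0, .ofNat 0, .ofNat 0]), ((3, 15), [.negSucc 170, .ofNat 19, .negSucc 0, .ofNat 0, .ofNat 0, .ofNat 1197, .negSucc 132, .ofNat 7, .ofNat 0, .ofNat 1056783, .ofNat 244143, .negSucc 81392, .ofNat 20349, .negSucc 3590, .ofNat 399, .negSucc 20, .negSucc 1763124, .negSucc 33907, .ofNat 5964, .negSucc 629, .negSucc 135640, .ofNat 33782, .negSucc 5585, .ofNat 0, .ofNat 0, .ofNat 1]), ((4, 4), [.negSucc 35,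 .ofNat 2, .ofNat 0, .ofNat 0, .ofNat 0, .ofNat 648, .negSucc 35, .ofNat 0, .ofNat 0, .ofNat 5680584, .ofNat 936360, .negSucc 249695, .ofNat 46818, .negSucc 5507, .ofNat 306, .ofNat 0, .negSucc 30296447, .negSucc 249695, .ofNat 29376, .negSucc 1631, .negSucc 4930271, .ofNat 899232, .negSucc 93023, .ofNat 0, .ofNat 0, .ofNat 0]), ((4, 10), [.negSucc 17, .ofNat 1, .ofNat 0, .ofNat 0, .ofNat 0, .ofNat 216, .negSucc 11, .ofNat 0, .ofNat 0, .ofNat 1225377, .ofNat 201960, .negSucc 53855, .ofNat 10098, .negSucc 1187, .ofNat 66, .ofNat 0, .negSucc 4084895, .negSucc 33659, .ofNat 3960, .negSucc 219, .negSucc 403127, .ofNat 74811, .negSucc 8117, .ofNat 0, .ofNat 0, .ofNat 0]), ((4, 16), [.negSucc 17, .ofNat 1, .ofNat 0, .ofNat 0, .ofNat 0, .ofNat 108, .negSucc 5, .ofNat 0, .ofNat 0, .ofNat 267540, .ofNat 45180, .negSucc 12143, .ofNat 2289, .negSucc 269, .ofNat 15, .ofNat 0, .negSucc 363999, .negSucc 3055, .ofNat 360, .negSucc 19, .negSucc 12223, .ofNat 2294, .negSucc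 263, .ofNat 0, .ofNat 0, .ofNat 0]), ((5, 5), [.negSucc 1, .ofNat 0, .ofNat 0, .ofNat 0, .ofNat 0, .ofNat 34, .ofNat 0, .ofNat 0, .ofNat 0, .ofNat 1683136, .ofNat 184960, .negSucc 36991, .ofNat 4624, .negSucc 271, .ofNat 0, .ofNat 0, .negSucc 8415679, .negSucc 23119, .ofNat 1360, .ofNat 0, .negSucc 647359, .ofNat 80920, .negSucc 4759, .ofNat 0, .ofNat 0, .ofNat 0]), ((5, 11), [.negSucc 0, .ofNat 0, .ofNat 0, .ofNat 0, .ofNat 0, .ofNat 11, .ofNat 0, .ofNat 0, .ofNat 0, .ofNat 340340, .ofNat 37400, .negSucc 7479, .ofNat 935, .negSucc 54, .ofNat 0, .ofNat 0, .negSucc 1021019, .negSucc 2804, .ofNat 165, .ofNat 0, .negSucc 44879, .ofNat 5610, .negSucc 329, .ofNat 0, .ofNat 0, .ofNat 0]), ((6, 6), [.ofNat 0, .ofNat 0, .ofNat 0, .ofNat 0, .ofNat 0, .ofNat 0, .ofNat 0, .ofNat 0, .ofNat 0, .ofNat 436800, .ofNat 28800, .negSucc 3839, .ofNat 240, .ofNat 0, .ofNat 0, .ofNat 0, .negSucc 2038399, .negSucc 1119, .ofNat 0, .ofNat 0, .negSucc 58239, .ofNat 3640, .ofNat 0,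 .ofNat 0, .ofNat 0, .ofNat 0]), ((6, 12), [.ofNat 0, .ofNat 0, .ofNat 0, .ofNat 0, .ofNat 0, .ofNat 0, .ofNat 0, .ofNat 0, .ofNat 0, .ofNat 81885, .ofNat 5400, .negSucc 719, .ofNat 45, .ofNat 0, .ofNat 0, .ofNat 0, .negSucc 218379, .negSucc 119, .ofNat 0, .ofNat 0, .negSucc 3359, .ofNat 210, .ofNat 0, .ofNat 0, .ofNat 0, .ofNat 0]), ((7, 7), [.ofNat 0, .ofNat 0, .ofNat 0, .ofNat 0, .ofNat 0, .ofNat 0, .ofNat 0, .ofNat 0, .ofNat 0, .ofNat 95550, .ofNat 3150, .negSucc 209, .ofNat 0, .ofNat 0, .ofNat 0, .ofNat 0, .negSucc 414049, .ofNat 0, .ofNat 0, .ofNat 0, .negSucc 2729, .ofNat 0, .ofNat 0, .ofNat 0, .ofNat 0, .ofNat 0]), ((7, 13), [.ofNat 0, .ofNat 0, .ofNat 0, .ofNat 0, .ofNat 0, .ofNat 0, .ofNat 0, .ofNat 0, .ofNat 0, .ofNat 16107, .ofNat 540, .negSucc 35, .ofNat 0, .ofNat 0, .ofNat 0, .ofNat 0, .negSucc 37764, .ofNat 0, .ofNat 0, .ofNat 0, .negSucc 125, .ofNat 0, .ofNat 0, .ofNat 0, .ofNat 0, .ofNat 0]), ((8, 8), [.ofNat 0, .ofNat 0, .ofNat 0, .ofNat 0,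 .ofNat 0, .ofNat 0, .ofNat 0, .ofNat 0, .ofNat 0, .ofNat 16562, .ofNat 182, .ofNat 0, .ofNat 0, .ofNat 0, .ofNat 0, .ofNat 0, .negSucc 66247, .ofNat 0, .ofNat 0, .ofNat 0, .ofNat 0, .ofNat 0, .ofNat 0, .ofNat 0, .ofNat 0, .ofNat 0]), ((9, 9), [.ofNat 0, .ofNat 0, .ofNat 0, .ofNat 0, .ofNat 0, .ofNat 0, .ofNat 0, .ofNat 0, .ofNat 0, .ofNat 2028, .ofNat 0, .ofNat 0, .ofNat 0, .ofNat 0, .ofNat 0, .ofNat 0, .negSucc 7435, .ofNat 0, .ofNat 0, .ofNat 0, .ofNat 0, .ofNat 0, .ofNat 0, .ofNat 0, .ofNat 0, .ofNat 0]), ((10, 10), [.ofNat 0, .ofNat 0, .ofNat 0, .ofNat 0, .ofNat 0, .ofNat 0, .ofNat 0, .ofNat 0, .ofNat 0, .ofNat 132, .ofNat 0, .ofNat 0, .ofNat 0, .ofNat 0, .ofNat 0, .ofNat 0, .negSucc 439, .ofNat 0, .ofNat 0, .ofNat 0, .ofNat 0, .ofNat 0, .ofNat 0, .ofNat 0, .ofNat 0, .ofNat 0])]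
  tg := [((0, 0), .ofNat 1, [.ofNat 0, .ofNat 0, .ofNat 0, .ofNat 0, .ofNat 0, .ofNat 0, .ofNat 0, .ofNat 0, .ofNat 0, .ofNat 0, .ofNat 0, .ofNat 0, .ofNat 0, .ofNat 0, .ofNat 0, .ofNat 0, .ofNat 0, .ofNat 0, .ofNat 0, .ofNat 0, .ofNat 0, .ofNat 0, .ofNat 0, .ofNat 1, .ofNat 0, .ofNat 0]), ((0, 6), .ofNat 23100, [.negSucc 884849965, .negSucc 9910505681, .negSucc 36105499891, .negSucc 67081604743, .negSucc 77989735592, .negSucc 104379785, .negSucc 2456321055, .negSucc 10442765717, .negSucc 17127533646, .ofNat 0, .ofNat 0, .ofNat 0, .negSucc 3570783, .ofNat 15140211, .negSucc 319593051, .negSucc 1571698234, .ofNat 0, .negSucc 2008565, .ofNat 6598353, .negSucc 2551346, .ofNat 0, .negSucc 382583, .ofNat 429507, .ofNat 0, .ofNat 24729740, .ofNat 35670390]), ((0, 12), .ofNat 5336100, [.negSucc 532163477, .negSucc 5940965645, .negSucc 21406340955, .negSucc 39005983631, .negSucc 44557270988, .negSucc 64535337, .negSucc 1493630977, .negSucc 6285990248, .negSucc 10163372820,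 .ofNat 0, .ofNat 0, .ofNat 0, .negSucc 2049711, .ofNat 9269333, .negSucc 197481455, .negSucc 958322479, .ofNat 0, .negSucc 1152962, .ofNat 4352574, .negSucc 1657460, .ofNat 0, .negSucc 219611, .ofNat 352101, .ofNat 0, .ofNat 18340700, .ofNat 24103590]), ((0, 18), .ofNat 8246700, [.negSucc 2722719, .negSucc 31513481, .negSucc 125639513, .negSucc 269730075, .negSucc 356527478, .negSucc 243459, .negSucc 6914501, .negSucc 32217569, .negSucc 59410308, .ofNat 0, .ofNat 0, .ofNat 0, .negSucc 15007, .ofNat 43009, .negSucc 762991, .negSucc 4324180, .ofNat 0, .negSucc 8441, .ofNat 5463, .negSucc 536, .ofNat 0, .negSucc 1607, .negSucc 2402, .ofNat 0, .ofNat 16072, .ofNat 43806]), ((1, 1), .ofNat 13070332275, [.ofNat 2045412521961039, .ofNat 22900818726598428, .ofNat 83325402660562293, .ofNat 154464052191424976, .ofNat 179198388648876597, .ofNat 241996705209819, .ofNat 5684965696437174, .ofNat 24141463311472122, .ofNat 39530336888688863, .ofNat 0, .ofNat 0, .ofNat 0,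 .ofNat 8213471722736, .negSucc 35084553287218, .ofNat 740975591300908, .ofNat 3638683947280090, .ofNat 0, .ofNat 4620077844039, .negSucc 15419687161961, .ofNat 5938037526963, .ofNat 0, .ofNat 880014827436, .negSucc 1032987349802, .ofNat 0, .negSucc 57989551987359, .negSucc 83289381162959]), ((1, 7), .ofNat 25725, [.ofNat 1915975446, .ofNat 21474582822, .ofNat 78431735767, .ofNat 146369955424, .ofNat 170886046023, .ofNat 224697466, .ofNat 5305826246, .ofNat 22608100368, .ofNat 37200795947, .ofNat 0, .ofNat 0, .ofNat 0, .ofNat 7807184, .negSucc 32621330, .ofNat 687935492, .ofNat 3392924410, .ofNat 0, .ofNat 4391541, .negSucc 13977917, .ofNat 5450877, .ofNat 0, .ofNat 836484, .negSucc 855656, .ofNat 0, .negSucc 52086999, .negSucc 75725579]), ((1, 13), .ofNat 3153150, [.ofNat 193875990, .ofNat 2156362362, .ofNat 7677996634, .ofNat 13699361676, .ofNat 15361915569, .ofNat 24268930, .ofNat 550757312, .ofNat 2292416280, .ofNat 3649734529, .ofNat 0, .ofNat 0, .ofNat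 0, .ofNat 706048, .negSucc 3421708, .ofNat 74123472, .ofNat 354405251, .ofNat 0, .ofNat 397152, .negSucc 1736732, .ofNat 668667, .ofNat 0, .ofNat 75648, .negSucc 165926, .ofNat 0, .negSucc 9755311, .negSucc 10320575]), ((1, 19), .ofNat 83790, [.ofNat 39270, .ofNat 458766, .ofNat 1849232, .ofNat 4030488, .ofNat 5402397, .ofNat 3290, .ofNat 99106, .ofNat 468090, .ofNat 874727, .ofNat 0, .ofNat 0, .ofNat 0, .ofNat 224, .negSucc 666, .ofNat 10596, .ofNat 61903, .ofNat 0, .ofNat 126, .negSucc 68, .negSucc 38, .ofNat 0, .ofNat 24, .ofNat 39, .ofNat 0, .negSucc 195, .negSucc 587]), ((2, 2), .ofNat 161700, [.negSucc 83026118405, .negSucc 929535795341, .negSucc 3381637559761, .negSucc 6267026314163, .negSucc 7268778758702, .negSucc 9826533625, .negSucc 230794822005, .negSucc 979946480897, .negSucc 1604295929116, .ofNat 0, .ofNat 0, .ofNat 0, .negSucc 333194623, .ofNat 1424532691, .negSucc 30088117211, .negSucc 147726564384, .ofNat 0, .negSucc 187421975, .ofNat 626722323,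 .negSucc 241247696, .ofNat 0, .negSucc 35699423, .ofNat 42127377, .ofNat 0, .ofNat 2358869800, .ofNat 3385430580]), ((2, 8), .ofNat 4900, [.negSucc 331988579, .negSucc 3728599181, .negSucc 13716046343, .negSucc 25920096355, .negSucc 30615885068, .negSucc 38277119, .negSucc 912936191, .negSucc 3915531899, .negSucc 6503032738, .ofNat 0, .ofNat 0, .ofNat 0, .negSucc 1390367, .ofNat 5571429, .negSucc 117163791, .negSucc 582768720, .ofNat 0, .negSucc 782081, .ofNat 2267463, .negSucc 907886, .ofNat 0, .negSucc 148967, .ofNat 111147, .ofNat 0, .ofNat 8312752, .ofNat 12372696]), ((2, 14), .ofNat 1, [.ofNat 0, .ofNat 0, .ofNat 0, .ofNat 0, .ofNat 0, .ofNat 0, .ofNat 0, .ofNat 0, .ofNat 0, .ofNat 0, .ofNat 0, .ofNat 0, .ofNat 0, .ofNat 0, .ofNat 0, .ofNat 0, .ofNat 0, .ofNat 0, .ofNat 0, .ofNat 0, .ofNat 0, .ofNat 0, .ofNat 0, .ofNat 0, .ofNat 1, .ofNat 0]), ((3, 3), .ofNat 418950, [.ofNat 312118313430, .ofNat 3493982877462, .ofNat 12705950996354, .ofNat 23530684673496,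 .ofNat 27274309676229, .ofNat 36976628570, .ofNat 867967808722, .ofNat 3684010377600, .ofNat 6028048321799, .ofNat 0, .ofNat 0, .ofNat 0, .ofNat 1250533088, .negSucc 5359242438, .ofNat 113219691972, .ofNat 555621828361, .ofNat 0, .ofNat 703424862, .negSucc 2364256832, .ofNat 909105117, .ofNat 0, .ofNat 133985688, .negSucc 160357676, .ofNat 0, .negSucc 8921207931, .negSucc 12774967085]), ((3, 9), .ofNat 2205, [.ofNat 95504640, .ofNat 1077648264, .ofNat 4028745028, .ofNat 7824083652, .ofNat 9468624858, .ofNat 10576720, .ofNat 258384434, .ofNat 1125156060, .ofNat 1908376918, .ofNat 0, .ofNat 0, .ofNat 0, .ofNat 424816, .negSucc 1549567, .ofNat 32358684, .ofNat 164254712, .ofNat 0, .ofNat 238959, .negSucc 550280, .ofNat 236784, .ofNat 0, .ofNat 45516, .negSucc 7463, .ofNat 0, .negSucc 1928443, .negSucc 3064361]), ((3, 15), .ofNat 1, [.ofNat 0, .ofNat 0, .ofNat 0, .ofNat 0, .ofNat 0, .ofNat 0, .ofNat 0, .ofNat 0, .ofNat 0, .ofNat 0, .ofNat 0, .ofNat 0, .ofNat 0,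 .ofNat 0, .ofNat 0, .ofNat 0, .ofNat 0, .ofNat 0, .ofNat 0, .ofNat 0, .ofNat 0, .ofNat 0, .ofNat 0, .ofNat 0, .ofNat 0, .ofNat 1]), ((4, 4), .ofNat 2520, [.negSucc 1510756169, .negSucc 16907161193, .negSucc 61420845177, .negSucc 113545895231, .negSucc 131401687262, .negSucc 179425749, .negSucc 4205557033, .negSucc 17833476149, .negSucc 29141974392, .ofNat 0, .ofNat 0, .ofNat 0, .negSucc 6027615, .ofNat 25990613, .negSucc 549388163, .negSucc 2692837396, .ofNat 0, .negSucc 3390533, .ofNat 11546151, .negSucc 4427408, .ofNat 0, .negSucc 645815, .ofNat 800919, .ofNat 0, .ofNat 43918364, .ofNat 62474622]), ((4, 10), .ofNat 1260, [.negSucc 32052173, .negSucc 364023197, .negSucc 1390824357, .negSucc 2796522035, .negSucc 3481515806, .negSucc 3343353, .negSucc 84712753, .negSucc 376991621, .negSucc 657969612, .ofNat 0, .ofNat 0, .ofNat 0, .negSucc 154335, .ofNat 495509, .negSucc 10223567, .negSucc 53523784, .ofNat 0, .negSucc 86813, .ofNat 136647, .negSucc 67592, .ofNat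 0, .negSucc 16535, .negSucc 9056, .ofNat 0, .ofNat 425600, .ofNat 786030]), ((4, 16), .ofNat 840, [.negSucc 7853, .negSucc 81773, .negSucc 248709, .negSucc 325863, .negSucc 286208, .negSucc 1553, .negSucc 25969, .negSucc 93491, .negSucc 121834, .ofNat 0, .ofNat 0, .ofNat 0, .ofNat 0, .ofNat 111, .negSucc 4363, .negSucc 17232, .ofNat 0, .ofNat 0, .ofNat 151, .negSucc 98, .ofNat 0, .ofNat 0, .ofNat 29, .ofNat 0, .negSucc 83, .negSucc 461]), ((5, 5), .ofNat 2975, [.ofNat 882310506, .ofNat 9867754512, .ofNat 35763611422, .ofNat 65847558854, .ofNat 75945459513, .ofNat 105407001, .ofNat 2462212571, .ofNat 10418089563, .ofNat 16972252752, .ofNat 0, .ofNat 0, .ofNat 0, .ofNat 3484544, .negSucc 15253675, .ofNat 322764382, .ofNat 1577538960, .ofNat 0, .ofNat 1960056, .negSucc 6888172, .ofNat 2620302, .ofNat 0, .ofNat 373344, .negSucc 502661, .ofNat 0, .negSucc 26901489, .negSucc 37513664]), ((5, 11), .ofNat 1925, [.ofNat 28996968, .ofNat 330513876, .ofNat 1278108986,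 .ofNat 2614257492, .ofNat 3284372784, .ofNat 2909928, .ofNat 75515818, .ofNat 340563069, .ofNat 604112726, .ofNat 0, .ofNat 0, .ofNat 0, .ofNat 146272, .negSucc 434297, .ofNat 8895036, .ofNat 47525230, .ofNat 0, .ofNat 82278, .negSucc 96618, .ofNat 54816, .ofNat 0, .ofNat 15672, .ofNat 14694, .ofNat 0, .negSucc 230299, .negSucc 535814]), ((6, 6), .ofNat 1260, [.negSucc 113364635, .negSucc 1266706286, .negSucc 4570710451, .negSucc 8357594475, .negSucc 9604637195, .negSucc 13699195, .negSucc 318106746, .negSucc 1340176319, .negSucc 2170628879, .ofNat 0, .ofNat 0, .ofNat 0, .negSucc 437849, .ofNat 1989134, .negSucc 41986912, .negSucc 204088079, .ofNat 0, .negSucc 246287, .ofNat 927696, .negSucc 340292, .ofNat 0, .negSucc 46910, .ofNat 74601, .ofNat 0, .ofNat 3990042, .ofNat 5220747]), ((6, 12), .ofNat 18900, [.negSucc 156098249, .negSucc 1771625393, .negSucc 6785080917, .negSucc 13590438091, .negSucc 16428297962, .negSucc 16106229, .negSucc 409317733, .negSucc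 1831553639, .negSucc 3212054012, .ofNat 0, .ofNat 0, .ofNat 0, .negSucc 769355, .ofNat 2311153, .negSucc 48891303, .negSucc 258026486, .ofNat 0, .negSucc 433103, .ofNat 570501, .negSucc 349808, .ofNat 0, .negSucc 82535, .negSucc 65360, .ofNat 0, .ofNat 849744, .ofNat 2411262]), ((7, 7), .ofNat 1466325, [.ofNat 16305367386, .ofNat 183690936198, .ofNat 666435668899, .ofNat 1248152377472, .ofNat 1523376468075, .ofNat 1944888526, .ofNat 46268030102, .ofNat 195083725158, .ofNat 317880480519, .ofNat 0, .ofNat 0, .ofNat 5145, .ofNat 61457088, .negSucc 321121962, .ofNat 6096798028, .ofNat 29746705248, .ofNat 0, .ofNat 34523307, .negSucc 149967911, .ofNat 31316073, .negSucc 1469, .ofNat 6552348, .negSucc 13890692, .ofNat 0, .negSucc 1087795295, .negSucc 1096199432]), ((7, 13), .ofNat 251370, [.ofNat 913467324, .ofNat 10092669048, .ofNat 36416317168, .ofNat 63534431576, .ofNat 56699257692, .ofNat 113766604, .ofNat 2522532824, .ofNat 10757889072, .ofNat 17606938608,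 .ofNat 0, .ofNat 0, .negSucc 9554, .ofNat 3521616, .negSucc 13461243, .ofNat 324845368, .ofNat 1604536380, .ofNat 0, .ofNat 2066904, .negSucc 5784131, .ofNat 3139908, .ofNat 735, .ofNat 405456, .negSucc 205787, .ofNat 0, .negSucc 4021919, .negSucc 12568499]), ((8, 8), .ofNat 12740, [.ofNat 65824374, .ofNat 708107400, .ofNat 2405646012, .ofNat 3748208772, .ofNat 3235306536, .ofNat 9160494, .ofNat 186171846, .ofNat 749640717, .ofNat 1114627542, .ofNat 0, .ofNat 140, .ofNat 2100, .ofNat 241584, .negSucc 677107, .ofNat 26787840, .ofNat 121035171, .ofNat 0, .ofNat 126441, .negSucc 516194, .ofNat 537030, .ofNat 0, .ofNat 24084, .negSucc 51929, .ofNat 0, .ofNat 1085448, .negSucc 928745]), ((9, 9), .ofNat 84963060, [.ofNat 56044039128, .negSucc 1195525809323, .negSucc 18979322325193, .negSucc 106280538430527, .negSucc 295175985742175, .ofNat 141731042488, .ofNat 1064960020208, .ofNat 1901152046304, .negSucc 4103981926043, .negSucc 837899, .negSucc 15249779, .negSucc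 423047624, .negSucc 9783289067, .negSucc 21332246667, .ofNat 180316839376, .ofNat 670629733170, .negSucc 251369, .negSucc 3125202191, .negSucc 18677474543, .negSucc 13559636603, .ofNat 23744175, .negSucc 302495447, .negSucc 2981200295, .ofNat 0, .ofNat 1806735840, .ofNat 11040840720]), ((10, 10), .ofNat 3950100, [.negSucc 329265731717, .negSucc 2236792795775, .ofNat 3174846173114, .ofNat 60154615852408, .ofNat 196910601925191, .negSucc 143060155377, .negSucc 1584801962617, .negSucc 4632172148393, .negSucc 1786786547300, .ofNat 658350, .ofNat 5446350, .ofNat 247092300, .ofNat 5722210578, .ofNat 16747347223, .negSucc 254020349835, .negSucc 1026871591904, .ofNat 179550, .ofNat 1709632722, .ofNat 15689932119, .ofNat 6852254709, .negSucc 16912349, .ofNat 117277428, .ofNat 2397637131, .ofNat 0, .negSucc 66632999, .negSucc 253979459])]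

/-- certificate, `m = 6`, `j = 22`, antisymmetric part -/
def NC_6_22_m : NUM_Cert where
  tri := [(0, 1), (0, 3), (0, 6), (0, 16), (0, 17), (0, 18), (0, 19), (0, 20), (0, 21), (0, 22), (1, 2), (1, 15), (1, 17), (1, 18), (1, 19), (1, 20), (1, 21), (2, 19)]
  fre := []
  cols := [((0, 6), [.ofNat 12, .ofNat 1000, .negSucc 66605, .negSucc 82619, .ofNat 30702, .negSucc 9134, .ofNat 2100, .negSucc 350, .ofNat 38, .negSucc 1, .ofNat 1056, .negSucc 2980031, .negSucc 517439, .ofNat 157080, .negSucc 36959, .ofNat 6336, .negSucc 703, .ofNat 314160]), ((0, 12), [.ofNat 24, .ofNat 1640, .negSucc 75326, .negSucc 74822, .ofNat 26586, .negSucc 7524, .ofNat 1660, .negSucc 275, .ofNat 32, .negSucc 1, .ofNat 1320, .negSucc 1708079, .negSucc 268883, .ofNat 77770, .negSucc 18039, .ofNat 3300, .negSucc 439, .ofNat 97020]), ((0, 18), [.ofNat 36, .ofNat 2352, .negSucc 93176, .negSucc 74765, .ofNat 26352, .negSucc 7315, .ofNat 1544, .negSucc 236, .ofNat 26, .negSucc 1, .ofNat 792,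 .negSucc 682175, .negSucc 105335, .ofNat 29282, .negSucc 6247, .ofNat 1056, .negSucc 175, .ofNat 10164]), ((1, 7), [.ofNat 12, .ofNat 910, .negSucc 49265, .negSucc 20348, .ofNat 5985, .negSucc 1329, .ofNat 210, .negSucc 20, .ofNat 1, .ofNat 0, .ofNat 966, .negSucc 820373, .negSucc 92777, .ofNat 21315, .negSucc 3604, .ofNat 420, .negSucc 29, .ofNat 31605]), ((1, 13), [.ofNat 24, .ofNat 1532, .negSucc 55895, .negSucc 20348, .ofNat 5985, .negSucc 1329, .ofNat 210, .negSucc 20, .ofNat 1, .ofNat 0, .ofNat 1212, .negSucc 488411, .negSucc 53990, .ofNat 12096, .negSucc 1973, .ofNat 225, .negSucc 17, .ofNat 9324]), ((1, 19), [.ofNat 36, .ofNat 2298, .negSucc 81395, .negSucc 21317, .ofNat 6156, .negSucc 1348, .ofNat 211, .negSucc 20, .ofNat 1, .ofNat 0, .ofNat 738, .negSucc 166667, .negSucc 18125, .ofNat 4009, .negSucc 630, .ofNat 66, .negSucc 5, .ofNat 651]), ((2, 8), [.ofNat 12, .ofNat 832, .negSucc 35784, .negSucc 4844, .ofNat 1140, .negSucc 189, .ofNat 20, .negSucc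 0, .ofNat 0, .ofNat 0, .ofNat 888, .negSucc 217055, .negSucc 15959, .ofNat 2660, .negSucc 279, .ofNat 14, .ofNat 0, .ofNat 2184]), ((2, 14), [.ofNat 24, .ofNat 1448, .negSucc 41734, .negSucc 4844, .ofNat 1140, .negSucc 189, .ofNat 20, .negSucc 0, .ofNat 0, .ofNat 0, .ofNat 1128, .negSucc 124031, .negSucc 9119, .ofNat 1520, .negSucc 159, .ofNat 8, .ofNat 0, .ofNat 616]), ((2, 20), [.ofNat 36, .ofNat 2280, .negSucc 77519, .negSucc 9689, .ofNat 2280, .negSucc 379, .ofNat 40, .negSucc 1, .ofNat 0, .ofNat 0, .ofNat 720, .negSucc 62015, .negSucc 4559, .ofNat 760, .negSucc 79, .ofNat 4, .ofNat 0, .ofNat 40]), ((3, 9), [.ofNat 12, .ofNat 766, .negSucc 25499, .negSucc 968, .ofNat 171, .negSucc 18, .ofNat 1, .ofNat 0, .ofNat 0, .ofNat 0, .ofNat 822, .negSucc 50387, .negSucc 2222, .ofNat 247, .negSucc 12, .ofNat 0, .ofNat 0, .ofNat 78]), ((3, 15), [.ofNat 24, .ofNat 1388, .negSucc 32129, .negSucc 968, .ofNat 171, .negSucc 18, .ofNat 1, .ofNat 0, .ofNat 0, .ofNat 0, .ofNat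 1068, .negSucc 27134, .negSucc 1196, .ofNat 133, .negSucc 6, .ofNat 0, .ofNat 0, .ofNat 21]), ((4, 10), [.ofNat 12, .ofNat 712, .negSucc 17849, .negSucc 152, .ofNat 18, .negSucc 0, .ofNat 0, .ofNat 0, .ofNat 0, .ofNat 0, .ofNat 768, .negSucc 9791, .negSucc 215, .ofNat 12, .ofNat 0, .ofNat 0, .ofNat 0, .ofNat 0]), ((4, 16), [.ofNat 24, .ofNat 1352, .negSucc 26570, .negSucc 153, .ofNat 18, .negSucc 0, .ofNat 0, .ofNat 0, .ofNat 0, .ofNat 0, .ofNat 1032, .negSucc 4959, .negSucc 107, .ofNat 6, .ofNat 0, .ofNat 0, .ofNat 0, .ofNat 0]), ((5, 11), [.ofNat 12, .ofNat 670, .negSucc 12375, .negSucc 16, .ofNat 1, .ofNat 0, .ofNat 0, .ofNat 0, .ofNat 0, .ofNat 0, .ofNat 726, .negSucc 1495, .negSucc 10, .ofNat 0, .ofNat 0, .ofNat 0, .ofNat 0, .ofNat 0]), ((5, 17), [.ofNat 24, .ofNat 1340, .negSucc 24751, .negSucc 33, .ofNat 2, .ofNat 0, .ofNat 0, .ofNat 0, .ofNat 0, .ofNat 0, .ofNat 1020, .negSucc 1359, .negSucc 9, .ofNat 0, .ofNat 0, .ofNat 0, .ofNat 0, .ofNat 0]), ((6,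 12), [.ofNat 12, .ofNat 640, .negSucc 8720, .negSucc 0, .ofNat 0, .ofNat 0, .ofNat 0, .ofNat 0, .ofNat 0, .ofNat 0, .ofNat 696, .negSucc 159, .ofNat 0, .ofNat 0, .ofNat 0, .ofNat 0, .ofNat 0, .ofNat 0]), ((7, 13), [.ofNat 12, .ofNat 622, .negSucc 6629, .ofNat 0, .ofNat 0, .ofNat 0, .ofNat 0, .ofNat 0, .ofNat 0, .ofNat 0, .ofNat 678, .negSucc 8, .ofNat 0, .ofNat 0, .ofNat 0, .ofNat 0, .ofNat 0, .ofNat 0]), ((8, 14), [.ofNat 12, .ofNat 616, .negSucc 5949, .ofNat 0, .ofNat 0, .ofNat 0, .ofNat 0, .ofNat 0, .ofNat 0, .ofNat 0, .ofNat 672, .ofNat 0, .ofNat 0, .ofNat 0, .ofNat 0, .ofNat 0, .ofNat 0, .ofNat 0])]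
  tg := [((0, 6), .ofNat 49480200, [.ofNat 975733717, .negSucc 20969975, .negSucc 184877, .negSucc 2523581, .negSucc 43239635, .negSucc 310969745, .negSucc 1302807239, .negSucc 3180086027, .negSucc 5759694485, .ofNat 26421608403, .ofNat 161721, .ofNat 96390, .negSucc 7287083, .negSucc 62614943, .negSucc 305652689, .negSucc 1040703551, .negSucc 2579126507, .ofNat 0]), ((0, 12), .ofNat 222660900, [.negSucc 4166710981, .ofNat 89560896, .ofNat 789588, .ofNat 11524572, .ofNat 193851306, .ofNat 1385823816, .ofNat 5806308690, .ofNat 14316408288, .ofNat 26459575506, .negSucc 110955507587, .negSucc 700790, .negSucc 417689, .ofNat 31577364, .ofNat 271331424, .ofNat 1324494990, .ofNat 4509715392, .ofNat 11176214868, .ofNat 0]), ((0, 18), .ofNat 445321800, [.negSucc 448181488, .ofNat 9607992, .ofNat 84726, .negSucc 336905, .ofNat 1454112, .ofNat 27080082, .ofNat 112647780, .negSucc 12042323, .negSucc 1081900637, .negSucc 16106121350, .negSucc 53906, .negSucc 32129, .ofNat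 2429028, .ofNat 20871648, .ofNat 101884230, .ofNat 346901184, .ofNat 859708836, .ofNat 0]), ((1, 7), .ofNat 3562574400, [.negSucc 934210144741, .ofNat 20076637101, .ofNat 177002928, .ofNat 2359465632, .ofNat 40709400336, .ofNat 293470161696, .ofNat 1229972642640, .ofNat 2994903667728, .ofNat 5404971163536, .negSucc 25366992649127, .negSucc 154046570, .negSucc 91827539, .ofNat 6942868884, .ofNat 59662479744, .ofNat 291280555440, .ofNat 992007658152, .ofNat 2459351863458, .ofNat 0]), ((1, 13), .ofNat 23750496, [.ofNat 3103286522, .negSucc 66706214, .negSucc 588095, .negSucc 8785871, .negSucc 146973023, .negSucc 1049450255, .negSucc 4403883455, .negSucc 10941867215, .negSucc 20646069695, .ofNat 81186052176, .ofNat 524433, .ofNat 312732, .negSucc 23651963, .negSucc 203301503, .negSucc 992945519, .negSucc 3384025847, .negSucc 8400532013, .ofNat 0]), ((1, 19), .ofNat 209563200, [.ofNat 1511028778, .negSucc 32381858, .negSucc 285551, .ofNat 1907712, .ofNat 5051376,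 .negSucc 24344063, .negSucc 68841359, .ofNat 1152679248, .ofNat 7750508976, .ofNat 62285726952, .ofNat 172389, .ofNat 102060, .negSucc 7674155, .negSucc 65632895, .negSucc 318018959, .negSucc 1068740567, .negSucc 2577846221, .ofNat 0]), ((2, 8), .ofNat 6925644633600, [.ofNat 10672197577082594, .negSucc 229331222556206, .negSucc 2021885367695, .negSucc 25761705817823, .negSucc 450516914263151, .negSucc 3262365549423071, .negSucc 13680837408455279, .negSucc 33135609206686895, .negSucc 59238616698040751, .ofNat 291760005064647096, .ofNat 1743220583097, .ofNat 1039337577180, .negSucc 78593969504987, .negSucc 675474468859007, .negSucc 3298378338798479, .negSucc 11236872778609463, .negSucc 27869005214288405, .ofNat 7125148800]), ((2, 14), .ofNat 3462822316800, [.negSucc 1468334343463441, .ofNat 31563099090951, .ofNat 278268859728, .ofNat 4225113932832, .ofNat 70504201989936, .ofNat 503811714187296, .ofNat 2122123147608240, .ofNat 5337262498519728, .ofNat 10406076723117936,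 .negSucc 37361237017672727, .negSucc 248745837920, .negSucc 148522788539, .ofNat 11244249076284, .ofNat 96735223638144, .ofNat 473048119005840, .ofNat 1616211124472952, .ofNat 4027505830328358, .negSucc 7125148799]), ((2, 20), .ofNat 37035532800, [.negSucc 876910359513, .ofNat 18790240467, .ofNat 165690576, .negSucc 1320519455, .negSucc 5985947087, .negSucc 9167719967, .negSucc 84179405519, .negSucc 1230867492623, .negSucc 7325970937487, .negSucc 42832491975575, .negSucc 98221556, .negSucc 57497579, .ofNat 4283694828, .ofNat 36340472448, .ofNat 174165299280, .ofNat 567700368984, .ofNat 1283597501886, .ofNat 38102400]), ((3, 9), .ofNat 21375446400, [.negSucc 117307796752873, .ofNat 2520384274347, .ofNat 22221156816, .ofNat 258318340704, .ofNat 4647258178992, .ofNat 33952355567712, .ofNat 142418221429680, .ofNat 340079333506416, .ofNat 588047172097392, .negSucc 3274778336645015, .negSucc 18820340636, .negSucc 11222559179, .ofNat 848735785548, .ofNat 7295139427968,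 .ofNat 35625064643280, .ofNat 121344104075544, .ofNat 300752428359726, .ofNat 0]), ((3, 15), .ofNat 3053635200, [.ofNat 2861243233058, .negSucc 61487137598, .negSucc 542104271, .negSucc 7159092767, .negSucc 124324233263, .negSucc 901054204703, .negSucc 3800664419759, .negSucc 9336353121071, .negSucc 16808898590063, .ofNat 79343027888472, .ofNat 469698729, .ofNat 280696860, .negSucc 21265618715, .negSucc 183059657855, .negSucc 895647177359, .negSucc 3056308081847, .negSucc 7579772481941, .ofNat 0]), ((4, 10), .ofNat 213754464, [.ofNat 2865057676670, .negSucc 61543298084, .negSucc 542613599, .negSucc 5514425999, .negSucc 103836522239, .negSucc 769293613295, .negSucc 3231528882623, .negSucc 7580763252719, .negSucc 12632644377359, .ofNat 81249147662400, .ofNat 448554435, .ofNat 267642900, .negSucc 20251474739, .negSucc 174107946095, .negSucc 850404399263, .negSucc 2897019828359, .negSucc 7181033440769, .ofNat 0]), ((4, 16), .ofNat 213754464, [.negSucc 289975191841,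 .ofNat 6230596101, .ofNat 54935928, .ofNat 696325032, .ofNat 12384510336, .ofNat 90911996568, .ofNat 387274508208, .ofNat 960750026208, .ofNat 1737084519576, .negSucc 8142153544907, .negSucc 46839470, .negSucc 28210139, .ofNat 2150358084, .ofNat 18572425200, .ofNat 91163117304, .ofNat 311912205192, .ofNat 774483194898, .ofNat 0]), ((5, 11), .ofNat 64774080, [.negSucc 1607428173105, .ofNat 34517873703, .ofNat 304347024, .ofNat 2446682976, .ofNat 50349340368, .ofNat 382404004128, .ofNat 1610301364560, .ofNat 3661118549424, .ofNat 5691639341808, .negSucc 46433414390903, .negSucc 242570432, .negSucc 144906299, .ofNat 10963925532, .ofNat 94253689152, .ofNat 460325481840, .ofNat 1568021600376, .ofNat 3886685897094, .ofNat 0]), ((5, 17), .ofNat 712514880, [.ofNat 1074778215014, .negSucc 23087951276, .negSucc 203607215, .negSucc 2532549023, .negSucc 45677131631, .negSucc 337799162591, .negSucc 1447507136879, .negSucc 3616030340495, .negSucc 6582521372111, .ofNat 30276373603176,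 .ofNat 168714987, .ofNat 104165460, .negSucc 7974010547, .negSucc 69014006207, .negSucc 339412323599, .negSucc 1163123504423, .negSucc 2890565560385, .ofNat 0]), ((6, 12), .ofNat 1068772320, [.ofNat 39733599052126, .negSucc 852916044152, .negSucc 7520397263, .negSucc 40777515935, .negSucc 1004112967967, .negSucc 7961059271807, .negSucc 33701653087199, .negSucc 72945979115183, .negSucc 99982085470847, .ofNat 1164747846330504, .ofNat 5724301863, .ofNat 3413298420, .negSucc 258133718051, .negSucc 2218514244911, .negSucc 10832113106639, .negSucc 36889365209255, .negSucc 91428602668073, .ofNat 0]), ((7, 13), .ofNat 1943222400, [.negSucc 91181333343477, .ofNat 1956527726709, .ofNat 17248922352, .ofNat 53517211488, .ofNat 1816749694224, .ofNat 15260898874464, .ofNat 65139778262160, .ofNat 132933421473552, .ofNat 151018523715024, .negSucc 2688276037092551, .negSucc 12520820738, .negSucc 7463220659, .ofNat 564248463156, .ofNat 4848571840896, .ofNat 23669461312560,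 .ofNat 80595550459368, .ofNat 199740123959922, .ofNat 0]), ((8, 14), .ofNat 2308548211200, [.ofNat 116903511357758594, .negSucc 2508023650787006, .negSucc 22108140174095, .negSucc 47949538153823, .negSucc 2078282895405551, .negSucc 18023388778891871, .negSucc 77304463585559279, .negSucc 153151873949931695, .negSucc 155211059505467951, .ofNat 3446357970633259896, .ofNat 15716689958697, .ofNat 9367849981980, .negSucc 708226759036187, .negSucc 6085632154670207, .negSucc 29707720157742479, .negSucc 101156347147988663, .negSucc 250712817384428405, .ofNat 7125148800])]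

theorem NUM_6_22 : NUM_stmt 6 22 2 :=
  NUM_of_certs 6 22 2 (by norm_num) NC_6_22_p NC_6_22_m
    (by decide +kernel) (by decide +kernel) (by decide +kernel)
    (by decide +kernel) (by decide +kernel) (by decide +kernel) rfl rfl

end Pool.Agent.OD
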