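import Pool.Agent.helper21.OD.SpecB

/-!
# Project OD: the checker for the certificates of the period relations
-/

namespace Pool.Agent.OD

open Finset

/-- binomial coefficients by arithmetic in base `2 ^ 20` -/
def NUM_ch (n k : ℕ) : ℕ := ((2 ^ 20 + 1) ^ n / 2 ^ (20 * k)) % 2 ^ 20

/-- the test of `NUM_ch` -/
def NUM_chT : Bool :=
  (List.range 23).all fun n => (List.range 23).all fun k =>
    (NUM_ch 0 (k + 1) == 0) && (NUM_ch n 0 == 1) &&
      (NUM_ch (n + 1) (k + 1) == NUM_ch n k + NUM_ch n (k + 1) || n == 22 || k == 22)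

theorem NUM_chT_ok : NUM_chT = true := by decide +kernel

theorem NUM_ch_eq : ∀ n k : ℕ, n ≤ 22 → k ≤ 22 → NUM_ch n k = n.choose k := by
  have h := NUM_chT_ok
  simp only [NUM_chT, List.all_eq_true, List.mem_range, Bool.and_eq_true, Bool.or_eq_true,
    beq_iff_eq] at h
  intro n
  induction n with
  | zero =>
    intro k _ hk
    cases k with
    | zero => simpa using (h 0 (by norm_num) 0 (by norm_num)).1.2
    | succ k => simpa using (h 0 (by norm_num) k (by omega)).1.1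
  | succ n ih =>
    intro k hn hk
    cases k with
    | zero => simpa using (h (n + 1) (by omega) 0 (by norm_num)).1.2
    | succ k =>
      rcases (h n (by omega) k (by omega)).2 with (h1 | h1) | h1
      · rw [h1, ih k (by omega) (by omega), ih (k + 1) (by omega) (by omega), Nat.choose_succ_succ]
      · omega
      · omega

/-- the weights of the relation `tri` -/
def NUM_tri (j s s' : ℕ) (a b : ℕ) : ℤ :=
  (if a = s ∧ b = s' then 1 else 0) + (-1) ^ (s + s') *
    (((j - a).choose s * (j - b).choose s' + a.choose (j - s) * b.choose (j - s') : ℕ) : ℤ)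

/-- the same, fast -/
def NUM_triF (j s s' : ℕ) (a b : ℕ) : ℤ :=
  (if a = s ∧ b = s' then 1 else 0) + (if (s + s') % 2 = 0 then
    ((NUM_ch (j - a) s * NUM_ch (j - b) s' + NUM_ch a (j - s) * NUM_ch b (j - s') : ℕ) : ℤ)
    else -((NUM_ch (j - a) s * NUM_ch (j - b) s' + NUM_ch a (j - s) * NUM_ch b (j - s') : ℕ) : ℤ))

theorem NUM_triF_eq (j s s' a b : ℕ) (hj : j ≤ 22) (hs : s ≤ j) (hs' : s' ≤ j) (ha : a ≤ j)
    (hb : b ≤ j) : NUM_triF j s s' a b = NUM_tri j s s' a b := by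
  unfold NUM_triF NUM_tri
  rw [NUM_ch_eq (j - a) s (by omega) (by omega), NUM_ch_eq (j - b) s' (by omega) (by omega),
    NUM_ch_eq a (j - s) (by omega) (by omega), NUM_ch_eq b (j - s') (by omega) (by omega)]
  by_cases h : (s + s') % 2 = 0
  · rw [if_pos h, Even.neg_one_pow (Nat.even_iff.mpr h), one_mul]
  · rw [if_neg h, Odd.neg_one_pow (Nat.odd_iff.mpr (by omega)), neg_one_mul]

/-- the delta function -/
def NUM_e (p : ℕ × ℕ) (a b : ℕ) : ℤ := if a = p.1 ∧ b = p.2 then 1 else 0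

/-- (anti)symmetrisation -/
def NUM_t (j : ℕ) (sg : ℤ) (w : ℕ → ℕ → ℤ) (p : ℕ × ℕ) : ℤ :=
  w p.1 p.2 + sg * w p.2 p.1 - w (j - p.1) (j - p.2) - sg * w (j - p.2) (j - p.1)

/-- the value of a weight at a solution -/
def NUM_ev {κ : Type} [Field κ] (j : ℕ) (c : ℕ → ℕ → κ) (w : ℕ → ℕ → ℤ) : κ :=
  ∑ a ∈ range (j + 1), ∑ b ∈ range (j + 1), (w a b : κ) * c a b

/-- relations with a symmetry -/
structure NUM_Rel {κ : Type} [Field κ] (m j : ℕ) (sg : ℤ) (c : ℕ → ℕ → κ) : Prop where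
  rel : Rel m j c
  sym : ∀ a b, a ≤ j → b ≤ j → c b a = (sg : κ) * c a b

theorem NUM_four {κ : Type} [Field κ] (m j : ℕ) (sg : ℤ)
    (c : ℕ → ℕ → κ) (hc : NUM_Rel m j sg c) (w : ℕ → ℕ → ℤ) :
    4 * NUM_ev j c w = ∑ a ∈ range (j + 1), ∑ b ∈ range (j + 1),
      ((if (m : ℤ) ∣ (a : ℤ) - b then NUM_t j sg w (a, b) else 0 : ℤ) : κ) * c a b := by
  have h1 : NUM_ev j c w = ∑ a ∈ range (j + 1), ∑ b ∈ range (j + 1),
      ((sg * w b a : ℤ) : κ) * c a b := by
    unfold NUM_ev
    rw [Finset.sum_comm]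
    refine Finset.sum_congr rfl fun b hb => Finset.sum_congr rfl fun a ha => ?_
    rw [Finset.mem_range] at ha hb
    have h := hc.sym b a (by omega) (by omega)
    rw [h]
    push_cast
    ring
  have h2 : ∀ v : ℕ → ℕ → ℤ, (∑ a ∈ range (j + 1), ∑ b ∈ range (j + 1), (v a b : κ) * c a b) =
      ∑ a ∈ range (j + 1), ∑ b ∈ range (j + 1), ((- v (j - a) (j - b) : ℤ) : κ) * c a b := by
    intro v
    rw [← Finset.sum_flip (fun a => ∑ b ∈ range (j + 1), (v a b : κ) * c a b)]
    refine Finset.sum_congr rfl fun a ha => ?_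
    rw [← Finset.sum_flip (fun b => (v (j - a) b : κ) * c (j - a) b)]
    refine Finset.sum_congr rfl fun b hb => ?_
    rw [Finset.mem_range] at ha hb
    rw [hc.rel.ant a b (by omega) (by omega)]
    push_cast
    ring
  have h3 := h2 w
  have h4 := h2 (fun a b => sg * w b a)
  have h5 : 4 * NUM_ev j c w = ∑ a ∈ range (j + 1), ∑ b ∈ range (j + 1),
      ((NUM_t j sg w (a, b) : ℤ) : κ) * c a b := by
    have h6 : 4 * NUM_ev j c w = NUM_ev j c w + (∑ a ∈ range (j + 1), ∑ b ∈ range (j + 1),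
        ((sg * w b a : ℤ) : κ) * c a b) + (∑ a ∈ range (j + 1), ∑ b ∈ range (j + 1),
        ((- w (j - a) (j - b) : ℤ) : κ) * c a b) + (∑ a ∈ range (j + 1), ∑ b ∈ range (j + 1),
        ((- (sg * w (j - b) (j - a)) : ℤ) : κ) * c a b) := by
      have h7 : NUM_ev j c w = ∑ a ∈ range (j + 1), ∑ b ∈ range (j + 1),
        ((- (sg * w (j - b) (j - a)) : ℤ) : κ) * c a b := h1.trans h4
      have h8 : NUM_ev j c w = ∑ a ∈ range (j + 1), ∑ b ∈ range (j + 1),
        ((- w (j - a) (j - b) : ℤ) : κ) * c a b := h3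
      rw [← h1, ← h8, ← h7]
      ring
    rw [h6]
    unfold NUM_ev
    rw [← Finset.sum_add_distrib, ← Finset.sum_add_distrib, ← Finset.sum_add_distrib]
    refine Finset.sum_congr rfl fun a _ => ?_
    rw [← Finset.sum_add_distrib, ← Finset.sum_add_distrib, ← Finset.sum_add_distrib]
    refine Finset.sum_congr rfl fun b _ => ?_
    unfold NUM_t
    push_cast
    ring
  rw [h5]
  refine Finset.sum_congr rfl fun a ha => Finset.sum_congr rfl fun b hb => ?_
  rw [Finset.mem_range] at ha hb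
  by_cases h : (m : ℤ) ∣ (a : ℤ) - b
  · rw [if_pos h]
  · rw [if_neg h, hc.rel.dia a b (by omega) (by omega) h]
    simp

/-- the orbits of the points `rps` and the points where the symmetries force `0` cover all -/
def NUM_cov (m j : ℕ) (sg : ℤ) (rps : List (ℕ × ℕ)) : Bool :=
  (List.range (j + 1)).all fun a => (List.range (j + 1)).all fun b =>
    (a % m != b % m) || rps.contains (a, b) || rps.contains (b, a) ||
      rps.contains (j - a, j - b) || rps.contains (j - b, j - a) ||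
      (a == b && sg == -1) || (a + a == j && b + b == j) || (a + b == j && sg == 1)

theorem NUM_cov_zero {κ : Type} [Field κ] (h2 : (2 : κ) ≠ 0) (m j : ℕ) (sg : ℤ)
    (hsg : sg = 1 ∨ sg = -1) (rps : List (ℕ × ℕ)) (hcov : NUM_cov m j sg rps = true)
    (f : ℕ → ℕ → κ)
    (hd : ∀ a b, a ≤ j → b ≤ j → ¬ (m : ℤ) ∣ (a : ℤ) - b → f a b = 0)
    (hs : ∀ a b, a ≤ j → b ≤ j → f b a = (sg : κ) * f a b)
    (ha : ∀ a b, a ≤ j → b ≤ j → f (j - a) (j - b) = - f a b)
    (hr : ∀ p ∈ rps, f p.1 p.2 = 0) : ∀ a b, a ≤ j → b ≤ j → f a b = 0 := by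
  intro a b haj hbj
  simp only [NUM_cov, List.all_eq_true, List.mem_range, Bool.and_eq_true, Bool.or_eq_true,
    beq_iff_eq, bne_iff_ne, List.contains_iff_mem] at hcov
  have hself : f a b = - f a b → f a b = 0 := by
    intro h
    have h' : 2 * f a b = 0 := by linear_combination h
    exact (mul_eq_zero.mp h').resolve_left h2
  have hsgf : f b a = 0 → f a b = 0 := by
    intro h
    rw [hs a b haj hbj] at h
    rcases hsg with rfl | rfl
    · simpa using h
    · simpa using h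
  rcases hcov a (by omega) b (by omega) with ((((((h | h) | h) | h) | h) | h) | h) | h
  · refine hd a b haj hbj fun hdv => h ?_
    have h3 : (b : ℤ) % m = (a : ℤ) % m := Int.modEq_iff_dvd.mpr hdv
    have h4 : b % m = a % m := by exact_mod_cast h3
    exact h4.symm
  · exact hr _ h
  · exact hsgf (hr _ h)
  · have h3 := hr _ h
    simp only at h3
    rw [ha a b haj hbj, neg_eq_zero] at h3
    exact h3
  · have h3 := hr _ h
    simp only at h3
    rw [ha b a hbj haj, neg_eq_zero] at h3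
    exact hsgf h3
  · obtain ⟨rfl, rfl⟩ := h
    apply hself
    have h3 := hs a a haj haj
    simpa using h3
  · obtain ⟨h3, h4⟩ := h
    apply hself
    have h5 := ha a b haj hbj
    rwa [show j - a = a by omega, show j - b = b by omega] at h5
  · obtain ⟨h3, rfl⟩ := h
    apply hself
    have h5 := ha a b haj hbj
    rw [show j - a = b by omega, show j - b = a by omega, hs a b haj hbj] at h5
    simpa using h5

/-- scalar product of lists -/
def NUM_dot : List ℤ → List ℤ → ℤ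
  | x :: xs, y :: ys => x * y + NUM_dot xs ys
  | _, _ => 0

/-- linear combination of weights -/
def NUM_comb : List ℤ → List (ℕ → ℕ → ℤ) → ℕ → ℕ → ℤ
  | y :: ys, w :: ws => fun a b => y * w a b + NUM_comb ys ws a b
  | _, _ => fun _ _ => 0

theorem NUM_dot_comb (j : ℕ) (sg : ℤ) (p : ℕ × ℕ) : ∀ (ys : List ℤ) (ws : List (ℕ → ℕ → ℤ)),
    NUM_dot ys (ws.map (fun w => NUM_t j sg w p)) = NUM_t j sg (NUM_comb ys ws) p
  | [], ws => by simp [NUM_dot, NUM_comb, NUM_t]
  | y :: ys, [] => by simp [NUM_dot, NUM_comb, NUM_t]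
  | y :: ys, w :: ws => by
    have h := NUM_dot_comb j sg p ys ws
    rw [List.map_cons, NUM_dot, h]
    simp only [NUM_comb, NUM_t]
    ring

theorem NUM_ev_comb {κ : Type} [Field κ] (j : ℕ) (c : ℕ → ℕ → κ) :
    ∀ (ys : List ℤ) (ws : List (ℕ → ℕ → ℤ)), (∀ w ∈ ws, NUM_ev j c w = 0) →
    NUM_ev j c (NUM_comb ys ws) = 0
  | [], ws, _ => by simp [NUM_comb, NUM_ev]
  | y :: ys, [], _ => by simp [NUM_comb, NUM_ev]
  | y :: ys, w :: ws, h => by
    have h1 := NUM_ev_comb j c ys ws (fun v hv => h v (List.mem_cons_of_mem _ hv))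
    have h2 := h w List.mem_cons_self
    have h3 : NUM_ev j c (NUM_comb (y :: ys) (w :: ws)) =
        (y : κ) * NUM_ev j c w + NUM_ev j c (NUM_comb ys ws) := by
      simp only [NUM_ev, NUM_comb, Finset.mul_sum, ← Finset.sum_add_distrib]
      refine Finset.sum_congr rfl fun a _ => Finset.sum_congr rfl fun b _ => ?_
      push_cast
      ring
    rw [h3, h1, h2]
    simp

theorem NUM_ev_e {κ : Type} [Field κ] (j : ℕ) (c : ℕ → ℕ → κ) (p : ℕ × ℕ) (h1 : p.1 ≤ j)
    (h2 : p.2 ≤ j) : NUM_ev j c (NUM_e p) = c p.1 p.2 := by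
  unfold NUM_ev NUM_e
  rw [Finset.sum_eq_single p.1, Finset.sum_eq_single p.2]
  · simp
  · intro b _ hb
    rw [if_neg (fun h => hb h.2)]
    simp
  · intro h
    exact absurd (Finset.mem_range.mpr (by omega)) h
  · intro a _ ha
    refine Finset.sum_eq_zero fun b _ => ?_
    rw [if_neg (fun h => ha h.1)]
    simp
  · intro h
    exact absurd (Finset.mem_range.mpr (by omega)) h

theorem NUM_ev_tri {κ : Type} [Field κ] (m j : ℕ) (c : ℕ → ℕ → κ) (hc : Rel m j c) (s s' : ℕ)
    (hs : s ≤ j) (hs' : s' ≤ j) : NUM_ev j c (NUM_tri j s s') = 0 := by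
  rw [← hc.tri s s' hs hs']
  have h1 : NUM_ev j c (NUM_tri j s s') = NUM_ev j c (NUM_e (s, s')) +
      ∑ a ∈ Finset.range (j + 1),
    ∑ b ∈ Finset.range (j + 1), (-1) ^ (s + s') * (((j - a).choose s * (j - b).choose s' +
      a.choose (j - s) * b.choose (j - s') : ℕ) : κ) * c a b := by
    simp only [NUM_ev, ← Finset.sum_add_distrib]
    refine Finset.sum_congr rfl fun a _ => Finset.sum_congr rfl fun b _ => ?_
    unfold NUM_tri NUM_e
    push_cast
    ring
  rw [h1, NUM_ev_e j c (s, s') hs hs']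

/-- certificates -/
structure NUM_Cert where
  /-- the relations used -/
  tri : List (ℕ × ℕ)
  /-- the free coordinates -/
  fre : List (ℕ × ℕ)
  /-- the orbits, with the columns of the system -/
  cols : List ((ℕ × ℕ) × List ℤ)
  /-- for each orbit a multiple and a combination of relations -/
  tg : List ((ℕ × ℕ) × ℤ × List ℤ)

/-- the weights of a certificate -/
def NUM_ws (j : ℕ) (C : NUM_Cert) : List (ℕ → ℕ → ℤ) :=
  C.tri.map (fun p => NUM_tri j p.1 p.2) ++ C.fre.map NUM_e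

/-- a column -/
def NUM_col (j : ℕ) (sg : ℤ) (tri fre : List (ℕ × ℕ)) (x : ℕ × ℕ) : List ℤ :=
  tri.map (fun p => NUM_t j sg (NUM_triF j p.1 p.2) x) ++ fre.map (fun p => NUM_t j sg (NUM_e p) x)

/-- test of the shape -/
def NUM_chk1 (m j : ℕ) (sg : ℤ) (C : NUM_Cert) : Bool :=
  NUM_cov m j sg (C.cols.map Prod.fst) &&
  C.tri.all (fun p => p.1 ≤ j && p.2 ≤ j) &&
  C.fre.all (fun p => p.1 ≤ j && p.2 ≤ j) &&
  C.cols.all (fun x => x.1.1 ≤ j && x.1.2 ≤ j && C.tg.any (fun y => y.1 == x.1))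

/-- test of the columns -/
def NUM_chk2 (j : ℕ) (sg : ℤ) (C : NUM_Cert) : Bool :=
  C.cols.all (fun x => x.2 == NUM_col j sg C.tri C.fre x.1)

/-- test of the combinations -/
def NUM_chk3 (j : ℕ) (sg : ℤ) (C : NUM_Cert) : Bool :=
  C.tg.all (fun y => ((409 * j.factorial) ^ 8) % y.2.1.natAbs == 0 &&
    C.cols.all (fun x => NUM_dot y.2.2 x.2 == y.2.1 * NUM_t j sg (NUM_e y.1) x.1))

theorem NUM_sound (m j : ℕ) (sg : ℤ) (hsg : sg = 1 ∨ sg = -1) (hj : j ≤ 22) (C : NUM_Cert)
    (h1 : NUM_chk1 m j sg C = true) (h2 : NUM_chk2 j sg C = true) (h3 : NUM_chk3 j sg C = true)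
    {κ : Type} [Field κ] (hκ : (2 : κ) ≠ 0) (hD : (((409 * j.factorial) ^ 8 : ℕ) : κ) ≠ 0)
    (c : ℕ → ℕ → κ) (hc : NUM_Rel m j sg c) (hf : ∀ p ∈ C.fre, c p.1 p.2 = 0) :
    ∀ a b, a ≤ j → b ≤ j → c a b = 0 := by
  simp only [NUM_chk1, Bool.and_eq_true, List.all_eq_true, List.any_eq_true, beq_iff_eq,
    decide_eq_true_eq] at h1
  simp only [NUM_chk2, List.all_eq_true, beq_iff_eq] at h2
  simp only [NUM_chk3, Bool.and_eq_true, List.all_eq_true, beq_iff_eq] at h3
  obtain ⟨⟨⟨hcov, htri⟩, hfre⟩, hcols⟩ := h1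
  have hws : ∀ w ∈ NUM_ws j C, NUM_ev j c w = 0 := by
    intro w hw
    rw [NUM_ws, List.mem_append, List.mem_map, List.mem_map] at hw
    rcases hw with ⟨p, hp, rfl⟩ | ⟨p, hp, rfl⟩
    · exact NUM_ev_tri m j c hc.rel p.1 p.2 (htri p hp).1 (htri p hp).2
    · rw [NUM_ev_e j c p (hfre p hp).1 (hfre p hp).2, hf p hp]
  have hcol : ∀ x ∈ C.cols, x.2 = (NUM_ws j C).map (fun w => NUM_t j sg w x.1) := by
    intro x hx
    rw [h2 x hx, NUM_col, NUM_ws, List.map_append, List.map_map, List.map_map]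
    congr 1
    refine List.map_congr_left fun p hp => ?_
    have hx1 := (hcols x hx).1
    simp only [Function.comp, NUM_t]
    rw [NUM_triF_eq j _ _ _ _ hj (htri p hp).1 (htri p hp).2 hx1.1 hx1.2,
      NUM_triF_eq j _ _ _ _ hj (htri p hp).1 (htri p hp).2 hx1.2 hx1.1,
      NUM_triF_eq j _ _ _ _ hj (htri p hp).1 (htri p hp).2 (by omega) (by omega),
      NUM_triF_eq j _ _ _ _ hj (htri p hp).1 (htri p hp).2 (by omega) (by omega)]
  refine NUM_cov_zero hκ m j sg hsg (C.cols.map Prod.fst) hcov c hc.rel.dia hc.sym hc.rel.ant ?_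
  intro p hp
  rw [List.mem_map] at hp
  obtain ⟨x, hx, rfl⟩ := hp
  obtain ⟨⟨hx1, hx2⟩, y, hy, hyx⟩ := hcols x hx
  obtain ⟨hN, hy3⟩ := h3 y hy
  -- the weight
  set W : ℕ → ℕ → ℤ := fun a b => NUM_comb y.2.2 (NUM_ws j C) a b - y.2.1 * NUM_e y.1 a b with hW
  have hWt : ∀ q, NUM_t j sg W q = NUM_t j sg (NUM_comb y.2.2 (NUM_ws j C)) q -
      y.2.1 * NUM_t j sg (NUM_e y.1) q := by
    intro q
    simp only [NUM_t, hW]
    ring
  have hW0 : ∀ a b, a ≤ j → b ≤ j →
      ((if (m : ℤ) ∣ (a : ℤ) - b then NUM_t j sg W (a, b) else 0 : ℤ) : κ) = 0 := by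
    refine NUM_cov_zero hκ m j sg hsg (C.cols.map Prod.fst) hcov
      (fun a b => ((if (m : ℤ) ∣ (a : ℤ) - b then NUM_t j sg W (a, b) else 0 : ℤ) : κ))
      ?_ ?_ ?_ ?_
    · intro a b _ _ hd
      rw [if_neg hd]
      simp
    · intro a b _ _
      have hd : (m : ℤ) ∣ (b : ℤ) - a ↔ (m : ℤ) ∣ (a : ℤ) - b := by
        rw [← dvd_neg, neg_sub]
      simp only [hd]
      by_cases hd' : (m : ℤ) ∣ (a : ℤ) - b
      · rw [if_pos hd', if_pos hd']
        rw [← Int.cast_mul]
        congr 1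
        simp only [NUM_t]
        rcases hsg with h | h
        · rw [h]; ring
        · rw [h]; ring
      · rw [if_neg hd', if_neg hd']
        simp
    · intro a b ha hb
      have hd : (m : ℤ) ∣ ((j - a : ℕ) : ℤ) - ((j - b : ℕ) : ℤ) ↔ (m : ℤ) ∣ (a : ℤ) - b := by
        rw [← dvd_neg, show -(((j - a : ℕ) : ℤ) - ((j - b : ℕ) : ℤ)) = (a : ℤ) - b by omega]
      simp only [hd]
      by_cases hd' : (m : ℤ) ∣ (a : ℤ) - b
      · rw [if_pos hd', if_pos hd']
        rw [← Int.cast_neg]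
        congr 1
        simp only [NUM_t]
        rw [show j - (j - a) = a by omega, show j - (j - b) = b by omega]
        ring
      · rw [if_neg hd', if_neg hd']
        simp
    · intro q hq
      rw [List.mem_map] at hq
      obtain ⟨z, hz, rfl⟩ := hq
      split_ifs with hd
      · have h4 := hy3 z hz
        rw [hcol z hz, NUM_dot_comb] at h4
        rw [show (z.1.1, z.1.2) = z.1 from rfl, hWt, h4]
        simp
      · simp
  have h4 : 4 * NUM_ev j c W = 0 := by
    rw [NUM_four m j sg c hc W]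
    refine Finset.sum_eq_zero fun a ha => Finset.sum_eq_zero fun b hb => ?_
    rw [Finset.mem_range] at ha hb
    rw [hW0 a b (by omega) (by omega), zero_mul]
  have h5 : NUM_ev j c W = 0 := by
    have h6 : (4 : κ) ≠ 0 := by
      have : (4 : κ) = 2 * 2 := by norm_num
      rw [this]
      exact mul_ne_zero hκ hκ
    exact (mul_eq_zero.mp h4).resolve_left h6
  have h6 : NUM_ev j c W = NUM_ev j c (NUM_comb y.2.2 (NUM_ws j C)) -
      (y.2.1 : κ) * NUM_ev j c (NUM_e y.1) := by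
    simp only [NUM_ev, Finset.mul_sum, ← Finset.sum_sub_distrib, hW]
    refine Finset.sum_congr rfl fun a _ => Finset.sum_congr rfl fun b _ => ?_
    push_cast
    ring
  rw [h5, NUM_ev_comb j c _ _ hws, hyx, NUM_ev_e j c x.1 hx1 hx2] at h6
  have h7 : (y.2.1 : κ) * c x.1.1 x.1.2 = 0 := by linear_combination h6
  have h8 : (y.2.1 : κ) ≠ 0 := by
    intro h9
    apply hD
    have h10 : y.2.1.natAbs ∣ (409 * j.factorial) ^ 8 := Nat.dvd_of_mod_eq_zero hN
    obtain ⟨d, hd⟩ := h10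
    rw [hd]
    have h11 : ((y.2.1.natAbs : ℕ) : κ) = 0 := by
      rcases Int.natAbs_eq y.2.1 with h12 | h12
      · rw [h12] at h9
        simpa using h9
      · rw [h12] at h9
        simpa using h9
    rw [Nat.cast_mul, h11, zero_mul]
  exact (mul_eq_zero.mp h7).resolve_left h8

theorem NUM_swap {κ : Type} [Field κ] (m j : ℕ) (c : ℕ → ℕ → κ) (hc : Rel m j c) :
    Rel m j (fun a b => c b a) := by
  refine ⟨fun a b ha hb h => ?_, fun a b ha hb => ?_, fun s s' hs hs' => ?_⟩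
  · refine hc.dia b a hb ha fun h' => h ?_
    rw [← dvd_neg, neg_sub]
    exact h'
  · exact hc.ant b a hb ha
  · have h := hc.tri s' s hs' hs
    rw [Finset.sum_comm] at h
    rw [← h]
    congr 1
    refine Finset.sum_congr rfl fun a _ => Finset.sum_congr rfl fun b _ => ?_
    rw [add_comm s s', mul_comm ((j - a).choose s), mul_comm (a.choose (j - s))]

theorem NUM_lin {κ : Type} [Field κ] (m j : ℕ) (c d : ℕ → ℕ → κ) (x : κ) (hc : Rel m j c)
    (hd : Rel m j d) : Rel m j (fun a b => c a b + x * d a b) := by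
  refine ⟨fun a b ha hb h => ?_, fun a b ha hb => ?_, fun s s' hs hs' => ?_⟩
  · show _ = _
    rw [hc.dia a b ha hb h, hd.dia a b ha hb h]
    simp
  · show _ = _
    rw [hc.ant a b ha hb, hd.ant a b ha hb]
    ring
  · have h1 := hc.tri s s' hs hs'
    have h2 := hd.tri s s' hs hs'
    simp only [mul_add, Finset.sum_add_distrib]
    have h3 : (∑ a ∈ Finset.range (j + 1), ∑ b ∈ Finset.range (j + 1),
        (-1) ^ (s + s') * (((j - a).choose s * (j - b).choose s' +
          a.choose (j - s) * b.choose (j - s') : ℕ) : κ) * (x * d a b)) =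
        x * ∑ a ∈ Finset.range (j + 1), ∑ b ∈ Finset.range (j + 1),
        (-1) ^ (s + s') * (((j - a).choose s * (j - b).choose s' +
          a.choose (j - s) * b.choose (j - s') : ℕ) : κ) * d a b := by
      simp only [Finset.mul_sum]
      refine Finset.sum_congr rfl fun a _ => Finset.sum_congr rfl fun b _ => ?_
      ring
    rw [h3]
    linear_combination h1 + x * h2

/-- the numerical statement from two certificates -/
theorem NUM_of_certs (m j s : ℕ) (hj : j ≤ 22) (C C' : NUM_Cert)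
    (h1 : NUM_chk1 m j 1 C = true) (h2 : NUM_chk2 j 1 C = true) (h3 : NUM_chk3 j 1 C = true)
    (h1' : NUM_chk1 m j (-1) C' = true) (h2' : NUM_chk2 j (-1) C' = true)
    (h3' : NUM_chk3 j (-1) C' = true) (hC' : C'.fre = []) (hC : C.fre.length = s + 1) :
    NUM_stmt m j s := by
  refine ⟨fun i a b => NUM_e (C.fre.get (i.cast hC.symm)) a b +
    NUM_e (C.fre.get (i.cast hC.symm)) b a, ?_⟩
  intro ℓ hℓ hℓ2 hℓ409 _ hjℓ κ _ hκ c hc hF
  have hcast : ∀ n : ℕ, ¬ ℓ ∣ n → ((n : ℕ) : κ) ≠ 0 := by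
    intro n hn h0
    apply hn
    have hcop : Nat.Coprime n ℓ := ((Nat.Prime.coprime_iff_not_dvd hℓ).mpr hn).symm
    exfalso
    have hb := Nat.gcd_eq_gcd_ab n ℓ
    rw [Nat.Coprime.gcd_eq_one hcop] at hb
    have hb' := congrArg (Int.cast : ℤ → κ) hb
    push_cast at hb'
    rw [h0, hκ] at hb'
    simp at hb'
  have h2ne : (2 : κ) ≠ 0 := by
    have h := hcast 2 (fun h => hℓ2 ((Nat.prime_dvd_prime_iff_eq hℓ Nat.prime_two).mp h))
    exact_mod_cast h
  have hD : (((409 * j.factorial) ^ 8 : ℕ) : κ) ≠ 0 := by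
    apply hcast
    intro h
    rcases (Nat.Prime.dvd_mul hℓ).mp (hℓ.dvd_of_dvd_pow h) with h | h
    · exact hℓ409 ((Nat.prime_dvd_prime_iff_eq hℓ (by norm_num)).mp h)
    · rw [Nat.Prime.dvd_factorial hℓ] at h
      omega
  obtain ⟨hw1, hw2, hw3⟩ : (∀ p ∈ C.fre, p.1 ≤ j ∧ p.2 ≤ j) ∧ True ∧ True := by
    refine ⟨?_, trivial, trivial⟩
    simp only [NUM_chk1, Bool.and_eq_true, List.all_eq_true, decide_eq_true_eq] at h1
    exact h1.1.2
  have hsw := NUM_swap m j c hc
  -- plus part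
  have hp : ∀ a b, a ≤ j → b ≤ j → c a b + 1 * c b a = 0 := by
    refine NUM_sound m j 1 (Or.inl rfl) hj C h1 h2 h3 h2ne hD (fun a b => c a b + 1 * c b a)
      ⟨NUM_lin m j c (fun a b => c b a) 1 hc hsw, fun a b _ _ => by push_cast; ring⟩ ?_
    intro p hp
    obtain ⟨i, hi⟩ := List.mem_iff_get.mp hp
    have hFi := hF (i.cast hC)
    have hcc : (i.cast hC).cast hC.symm = i := by
      ext; rfl
    simp only [hcc, hi] at hFi
    have h5 := NUM_ev_e j c p (hw1 p hp).1 (hw1 p hp).2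
    have h6 := NUM_ev_e j (fun a b => c b a) p (hw1 p hp).1 (hw1 p hp).2
    unfold NUM_ev at h5 h6
    rw [Finset.sum_comm] at h6
    have h8 : c p.1 p.2 + 1 * c p.2 p.1 = 0 := by
      rw [one_mul, ← h5, ← h6, ← hFi, ← Finset.sum_add_distrib]
      refine Finset.sum_congr rfl fun a _ => ?_
      rw [← Finset.sum_add_distrib]
      refine Finset.sum_congr rfl fun b _ => ?_
      push_cast
      ring
    exact h8
  have hm : ∀ a b, a ≤ j → b ≤ j → c a b + (-1) * c b a = 0 := by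
    refine NUM_sound m j (-1) (Or.inr rfl) hj C' h1' h2' h3' h2ne hD
      (fun a b => c a b + (-1) * c b a)
      ⟨NUM_lin m j c (fun a b => c b a) (-1) hc hsw, fun a b _ _ => by push_cast; ring⟩ ?_
    intro p hp
    rw [hC'] at hp
    simp at hp
  intro a b ha hb
  have h5 := hp a b ha hb
  have h6 := hm a b ha hb
  have h7 : 2 * c a b = 0 := by linear_combination h5 + h6
  exact (mul_eq_zero.mp h7).resolve_left h2ne

end Pool.Agent.OD
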