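import Pool.Agent.helper21.OD.Defs

/-!
# Project OD (MP_2e0e07_nt): rows, blocks A (action), G (ring), M (Manin), H (Hecke), S (scalar
symbols), L (lattices)

Notation in the docstrings: `O = Oz t`, `t = 0` or `1`, `x̄ = star x`, `N(x) = x x̄` (an integer,
`algebraMap_norm_eq_mul_star`), `e1 = ![1, 0]`, `e2 = ![0, 1]`,
`M_x = (1 x; 0 ℓ)`, `α = (1 0; 0 ℓ)`, `g_x = (1 x; 0 1)`, `w = (0 -1; 1 0)`, so `M_x = α g_x`.
The condition that `ℓ` is inert is the hypothesis `Prime ((ℓ : ℕ) : Oz t)`.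
For `γ : GO t` the matrix is `γ.val`; `γ.val.det` is a unit and `N(unit) = 1` (NRU).
-/

namespace Pool.Agent.OD

open MvPolynomial Matrix

/-! ## Block A: the action -/

/-- ROW ACM (short). `act` is multiplicative: both sides are algebra homomorphisms, compare them on
the four variables (`MvPolynomial.algHom_ext`, `Fin` cases, `simp [act]`, `ring`); for the last two
variables use `star (a * b) = star b * star a`, `star (a + b) = star a + star b`, commutativity. -/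
def ACM_stmt : Prop := ∀ {t : ℤ} {A : Type} [CommRing A] (f : Oz t →+* A) (g h : Mat t)
  (P : Pol A), act f (g * h) P = act f g (act f h P)

/-- ROW ACH (short-medium). `act` preserves `BiHom k`. Write `act f g P = aeval v P` with `v i` weighted
homogeneous of degree `w i` for both weights (`C a * X i + C b * X i'` is). Then a general lemma:
if `P` is weighted homogeneous of degree `k` for `w` and every `v i` is weighted homogeneous of
degree `w i` (for `w` on the target), then `aeval v P = ∑ monomials` is weighted homogeneous of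
degree `k`: `aeval v P = ∑ d ∈ P.support, C (coeff d P) * ∏ i, v i ^ d i` and for `d` in the
support `∑ i, d i * w i = k`; `IsWeightedHomogeneous.prod`, `.pow`, `.mul`, `isWeightedHomogeneous_C`,
`IsWeightedHomogeneous.sum` (or the submodule `weightedHomogeneousSubmodule`). -/
def ACH_stmt : Prop := ∀ {t : ℤ} {A : Type} [CommRing A] (f : Oz t →+* A) (g : Mat t) (k : ℕ)
  (P : Pol A), BiHom k P → BiHom k (act f g P)

/-- ROW ACS (short-medium). A scalar matrix `z` acts on `BiHom k` by `N(z) ^ k`. On a monomial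
`X^a Y^b Z^c W^d` (`a + b = k = c + d`) it acts by `f(z)^(a+b) f(z̄)^(c+d)`. Write `P` as the sum of
its monomials (`MvPolynomial.induction_on'''` is inconvenient: use `P.as_sum`, `map_sum`, and for
`d ∈ P.support` the two equations `d 0 + d 1 = k`, `d 2 + d 3 = k` from the two homogeneities). -/
def ACS_stmt : Prop := ∀ {t : ℤ} {A : Type} [CommRing A] (f : Oz t →+* A) (z : Oz t) (k : ℕ)
  (P : Pol A), BiHom k P → act f (z • (1 : Mat t)) P = f (z * star z) ^ k • P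

/-- ROW ACB (short). Base change: both sides are ring homomorphisms of `P`
(`MvPolynomial.ringHom_ext` or `induction_on`), equal on constants and on the variables. -/
def ACB_stmt : Prop := ∀ {t : ℤ} {A B : Type} [CommRing A] [CommRing B] (f : Oz t →+* A)
  (φ : A →+* B) (g : Mat t) (P : Pol A),
  MvPolynomial.map φ (act f g P) = act (φ.comp f) g (MvPolynomial.map φ P)

/-- ROW EVA (short). The value at `(0, 1, 0, 1)` of `act f g P` when `f` kills `g 1 0` and its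
conjugate, for `P` of bidegree `(k, k)`: it is `P(0, f(g11), 0, f(ḡ11)) = f(g11)^k f(ḡ11)^k P(0,1,0,1)`.
Proof: `eval x (act f g P) = eval y P` with `y = ![x0 f(g00) + x1 f(g10), ...]` (`MvPolynomial.aeval`,
`eval₂` composition), here `y = ![0, f g11, 0, f ḡ11]`; then homogeneity: only monomials
`X^a Y^b Z^c W^d` with `a + b = k`, `c + d = k`, and only `a = c = 0` contribute on both sides. -/
def EVA_stmt : Prop := ∀ {t : ℤ} {A : Type} [CommRing A] (f : Oz t →+* A) (g : Mat t) (k : ℕ)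
  (P : Pol A), BiHom k P → f (g 1 0) = 0 → f (star (g 1 0)) = 0 →
  eval ![0, 1, 0, 1] (act f g P) = f (g 1 1 * star (g 1 1)) ^ k * eval ![0, 1, 0, 1] P

/-- the polynomial `(Y - x X)^k (W - x̄ Z)^k` -/
noncomputable def lin {t : ℤ} {A : Type} [CommRing A] (f : Oz t →+* A) (k : ℕ) (x : Oz t) :
    Pol A := (X 1 - C (f x) * X 0) ^ k * (X 3 - C (f (star x)) * X 2) ^ k

/-- ROW SNG (short-medium). If `f ℓ = 0` then for `P` of bidegree `(k, k)` the matrix `(ℓ -x; 0 1)` sends `P`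
to `P(0, Y - xX, 0, W - x̄Z) = P(0,1,0,1) (Y - xX)^k (W - x̄Z)^k`: only the monomial `Y^k W^k` of `P`
survives and its coefficient is `P(0,1,0,1)`. Same for `(1 0; 0 ℓ)`: `P(X, 0, Z, 0) = P(1,0,1,0) X^k Z^k`;
and `P(1,0,1,0)` is the value at `(0,1,0,1)` of `act f (0 -1; 1 0) P` (`= P(Y, -X, W, -Z)`). (`star ℓ = ℓ`.) -/
def SNG_stmt : Prop := ∀ {t : ℤ} {A : Type} [CommRing A] (f : Oz t →+* A) (ℓ k : ℕ) (P : Pol A),
  f ((ℓ : ℕ) : Oz t) = 0 → BiHom k P →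
  (∀ x : Oz t, act f !![((ℓ : ℕ) : Oz t), -x; 0, 1] P =
    C (eval ![0, 1, 0, 1] P) * lin f k x) ∧
  act f !![1, 0; 0, ((ℓ : ℕ) : Oz t)] P =
    C (eval ![0, 1, 0, 1] (act f !![0, -1; 1, 0] P)) * (X 0 ^ k * X 2 ^ k)

/-! ## Block G: arithmetic of the ring -/

/-- ROW NRU (short). A unit has `z z̄ = 1`: `norm z` is a unit of `ℤ` and `norm z = x² + t x y + y² ≥ 0`
for `t = 0, 1`. -/
def NRU_stmt : Prop := ∀ (t : ℤ), t = 0 ∨ t = 1 → ∀ z : Oz t, IsUnit z → z * star z = 1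

/-- ROW EUC (short-medium). Euclidean division with the norm `x² + t x y + y²` (`t = 0, 1`): as in
Mathlib's `GaussianInt`: round the coordinates of `p q̄ / N(q)` to the nearest integers; with
`|u|, |v| ≤ 1/2` one has `u² + t u v + v² ≤ 3/4 < 1`. -/
def EUC_stmt : Prop := ∀ (t : ℤ), t = 0 ∨ t = 1 → ∀ p q : Oz t, q ≠ 0 →
  ∃ h : Oz t, (p - h * q).norm < q.norm ∧ 0 ≤ (p - h * q).norm

/-- ROW NRL (short). For `x` not divisible by the inert prime `ℓ`, `N(x)^(ℓ-1) = 1` in a field of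
characteristic `ℓ`: `ℓ ∤ norm x` in `ℤ` (otherwise `ℓ ∣ x x̄` in `O`, so `ℓ ∣ x` or `ℓ ∣ x̄`, and
the second gives `ℓ = star ℓ ∣ x`), then Fermat (`ZMod.pow_card_sub_one_eq_one`, `ZMod.castHom` or
`Int.ModEq.pow_card_sub_one_eq_one`). Also `π x ≠ 0` for such `x`. -/
def NRL_stmt : Prop := ∀ (t : ℤ) (ℓ : ℕ), ℓ.Prime → Prime ((ℓ : ℕ) : Oz t) →
  ∀ {κ : Type} [Field κ] (π : Oz t →+* κ), ((ℓ : ℕ) : κ) = 0 → ∀ x : Oz t,
  ¬ ((ℓ : ℕ) : Oz t) ∣ x → π (x * star x) ^ (ℓ - 1) = 1 ∧ π x ≠ 0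

/-- ROW REP (short). Representatives modulo `ℓ` and inverses modulo `ℓ`. (a) every `z` is congruent to
exactly one `rep t x` (divide the two coordinates by `ℓ`; `ℓ ∣ z` iff `ℓ` divides both coordinates).
(b) for `ℓ` inert and `ℓ ∤ p` there is `p'` with `ℓ ∣ p p' - 1`: `p' = m p̄` with `m` an integer inverse
of `norm p` modulo `ℓ`. -/
def REP_stmt : Prop := ∀ (t : ℤ) (ℓ : ℕ), ℓ.Prime →
  (∀ z : Oz t, ∃ x : Fin ℓ × Fin ℓ, ((ℓ : ℕ) : Oz t) ∣ z - rep t x) ∧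
  (∀ x y : Fin ℓ × Fin ℓ, ((ℓ : ℕ) : Oz t) ∣ rep t x - rep t y → x = y) ∧
  (Prime ((ℓ : ℕ) : Oz t) → ∀ p : Oz t, ¬ ((ℓ : ℕ) : Oz t) ∣ p →
    ∃ p' : Oz t, ((ℓ : ℕ) : Oz t) ∣ p * p' - 1)

/-- ROW CNJ (short). Conjugation by `α = (1 0; 0 ℓ)`: for `h` in `GL₂(O)` with `ℓ ∣ h01` the matrix
`h' = (h00, h01/ℓ; ℓ h10, h11)` is in `GL₂(O)` (same determinant) and `α h = h' α`. -/
def CNJ_stmt : Prop := ∀ (t : ℤ) (ℓ : ℕ), ℓ ≠ 0 → ∀ h : GO t, ((ℓ : ℕ) : Oz t) ∣ h.val 0 1 →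
  ∃ h' : GO t, !![1, 0; 0, ((ℓ : ℕ) : Oz t)] * h.val = h'.val * !![1, 0; 0, ((ℓ : ℕ) : Oz t)] ∧
    h'.val 1 0 = ((ℓ : ℕ) : Oz t) * h.val 1 0 ∧ h'.val 1 1 = h.val 1 1

/-- ROW PRM (medium). Permutation of the `ℓ² + 1` cosets (`ℓ` inert). For `g ∈ GL₂(O)` with top row
`(p, q)`: if `ℓ ∤ p` there is a unique `x` with `ℓ ∣ q - p (rep x)` and `g = h g_x`,
`h = (p, q - p x; *, *)`; if `ℓ ∣ p` then `g = h w`, `w = (0 -1; 1 0)`, `h = (-q, p; -d, c)`. Two different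
indices never give the same coset: `g_x g_y⁻¹ = (1, x - y; 0, 1)`, `g_x w⁻¹ = (-x, 1; -1, 0)`,
`w g_y⁻¹ = (0, -1; 1, -y)` and `ℓ ∤ 1`. So for fixed `γ` the map `i ↦ σ i` with
`g_i γ = h_i g_(σ i)`, `ℓ ∣ (h_i)01`, is injective on a finite set, so a permutation. Here the
matrices `g_i` are given by `gI`. -/
def gI (t : ℤ) {ℓ : ℕ} : Option (Fin ℓ × Fin ℓ) → Mat t
  | some x => !![1, rep t x; 0, 1]
  | none => !![0, -1; 1, 0]

@[inherit_doc gI]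
def PRM_stmt : Prop := ∀ (t : ℤ) (ℓ : ℕ), ℓ.Prime → Prime ((ℓ : ℕ) : Oz t) → ∀ γ : GO t,
  ∃ σ : Equiv.Perm (Option (Fin ℓ × Fin ℓ)), ∀ i, ∃ h : GO t, ((ℓ : ℕ) : Oz t) ∣ h.val 0 1 ∧
    gI t i * γ.val = h.val * gI t (σ i)

/-- ROW PRU (short-medium). The same for `U_ℓ`: if `ℓ ∣ γ10` then `γ00` is invertible modulo `ℓ` and
`g_x γ = h g_y` with `y` the unique representative with `ℓ ∣ (γ01 + x γ11) - (γ00 + x γ10) y`,
`h = (γ00 + x γ10, (γ01 + x γ11) - (γ00 + x γ10) y; γ10, γ11 - γ10 y)`; `x ↦ y` is injective: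
`g_x g_x'⁻¹ = (1, x - x'; 0, 1)`. -/
def PRU_stmt : Prop := ∀ (t : ℤ) (ℓ : ℕ), ℓ.Prime → Prime ((ℓ : ℕ) : Oz t) → ∀ γ : GO t,
  ((ℓ : ℕ) : Oz t) ∣ γ.val 1 0 →
  ∃ σ : Equiv.Perm (Fin ℓ × Fin ℓ), ∀ x, ∃ h : GO t, ((ℓ : ℕ) : Oz t) ∣ h.val 0 1 ∧
    h.val 1 0 = γ.val 1 0 ∧ h.val 1 1 = γ.val 1 1 - γ.val 1 0 * rep t (σ x) ∧
    (!![1, rep t x; 0, 1] : Mat t) * γ.val = h.val * !![1, rep t (σ x); 0, 1]

/-- ROW FIX (medium). `Γ₀(n)` has finite index in `GL₂(O)`, `n ≠ 0`: a finite set of matrices `δ` such that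
every `γ` is `h δ` with `n ∣ h10`. Take the map from `GL₂(O)` to the finite set of matrices
`(Fin 2 → Fin 2 → ZMod n × ZMod n)` of coordinates modulo `n`; choose one `δ` in each nonempty
fibre. If `γ ≡ δ` modulo `n` then `h = γ δ⁻¹ ≡ 1` modulo `n`: entries of `γ - δ` are divisible by
`n`, so those of `(γ - δ) δ⁻¹ = h - 1`. -/
def FIX_stmt : Prop := ∀ (t : ℤ) (n : ℕ), n ≠ 0 → ∃ F : Finset (GO t), ∀ γ : GO t,
  ∃ δ ∈ F, ∃ h : GO t, ((n : ℕ) : Oz t) ∣ h.val 1 0 ∧ γ = h * δ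

/-! ## Block M: the continued fraction trick -/

/-- a function of two cusps, additive -/
structure IsCus {t : ℤ} {M : Type} [AddCommGroup M] (φ : Vec t → Vec t → M) : Prop where
  zero_left : ∀ v, φ 0 v = 0
  zero_right : ∀ u, φ u 0 = 0
  add : ∀ u v w, u ≠ 0 → v ≠ 0 → w ≠ 0 → φ u v + φ v w = φ u w
  smul_left : ∀ (c : Oz t) (u v : Vec t), c ≠ 0 → φ (c • u) v = φ u v
  smul_right : ∀ (c : Oz t) (u v : Vec t), c ≠ 0 → φ u (c • v) = φ u v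

/-- ROW MAN (medium). If `φ(γ e1, γ e2) ∈ S` for all `γ ∈ GL₂(O)` (`S` an additive subgroup) then all values
are in `S`. Proof: `φ u u = 0` for `u ≠ 0` (add with `u, u, u`), so `φ v u = - φ u v`, and it is enough to
treat `φ(e1, u)`, `u ≠ 0` (add with `v, e1, u`). Claim: for all `u = (p, q) ≠ 0` and all `γ`:
`φ(γ e1, γ u) ∈ S`; strong induction on `norm q` (natural number). If `q = 0`: `γ u = p • γ e1`, so it
is `φ(γ e1, γ e1) = 0`. If `q ≠ 0`: `p = h q + r`, `norm r < norm q` (EUC), `g = (h 1; 1 0) ∈ GL₂(O)`,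
`u = g (q, r)`, `g e1 = (h, 1)`; `φ(γ e1, γ u) = φ(γ e1, γ g e1) + φ(γ g e1, γ g (q, r))`; the second term is
in `S` by induction (for `γ g`), the first is `φ(γ δ e1, γ δ e2)` with `δ = (1 h; 0 1)`. -/
def MAN_stmt : Prop := ∀ (t : ℤ), t = 0 ∨ t = 1 → ∀ {M : Type} [AddCommGroup M]
  (φ : Vec t → Vec t → M), IsCus φ → ∀ S : AddSubgroup M,
  (∀ γ : GO t, φ (γ.val *ᵥ ![1, 0]) (γ.val *ᵥ ![0, 1]) ∈ S) → ∀ u v, φ u v ∈ S

/-! ## Block H: the Hecke operators preserve the modular symbols -/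

/-- ROW TR1 (short-medium). For `φ` in `Sym f k N χ`, `M` a matrix and `h` in `GL₂(O)` with `N ∣ h10`:
`adj(hM) φ(hMu, hMv) = χ(h11) adj(M) φ(Mu, Mv)`. Proof: `equiv`, `adj(hM) = adj(M) adj(h)`
(`Matrix.adjugate_mul_distrib`), ACM, `adj(h) h = det h • 1` (`Matrix.adjugate_mul`), ACS, NRU. -/
def TR1_stmt : Prop := ∀ (t : ℤ), t = 0 ∨ t = 1 → ∀ {A : Type} [CommRing A] (f : Oz t →+* A)
  (k N : ℕ) (χ : Oz t → A) (φ : Sy t A), IsSym f k N χ φ → ∀ (M : Mat t) (h : GO t),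
  ((N : ℕ) : Oz t) ∣ h.val 1 0 → ∀ u v : Vec t,
  act f (h.val * M).adjugate (φ ((h.val * M) *ᵥ u) ((h.val * M) *ᵥ v)) =
    χ (h.val 1 1) • act f M.adjugate (φ (M *ᵥ u) (M *ᵥ v))

/-- ROW TR2 (short-medium). For `φ` with values in `BiHom k` and `γ` in `GL₂(O)`:
`adj(M) φ(Mγu, Mγv) = γ adj(Mγ) φ(Mγu, Mγv)`. Proof: `adj(Mγ) = adj(γ) adj(M)`, ACM,
`γ adj(γ) = det γ • 1`, ACH, ACS, NRU. -/
def TR2_stmt : Prop := ∀ (t : ℤ), t = 0 ∨ t = 1 → ∀ {A : Type} [CommRing A] (f : Oz t →+* A)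
  (k : ℕ) (P : Pol A), BiHom k P → ∀ (M : Mat t) (γ : GO t),
  act f M.adjugate P = act f γ.val (act f (M * γ.val).adjugate P)

/-- ROW TST (medium). `T_ℓ` preserves the modular symbols of level one (`ℓ` inert, `χ = 1`).
`opT f ℓ φ (u, v) = ∑ i : Option _, adj(α g_i) φ(α g_i u, α g_i v)`: for `i = some x`, `α g_x = (1 x; 0 ℓ)`;
for `i = none`, `α w = (0 -1; ℓ 0) = w (ℓ 0; 0 1)`, and the term of `(ℓ 0; 0 1)` is the term of
`w (ℓ 0; 0 1)` by TR1. The axioms zero, add, smul, hom: termwise (`M u ≠ 0` for `u ≠ 0` since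
`adj(M) M u = ℓ u` and `O` has no `ℓ`-torsion). Equivariance: `∑ i, adj(αg_i) φ(αg_iγu, αg_iγv)
= γ ∑ i, adj(αg_iγ) φ(αg_iγu, ..)` (TR2); `αg_iγ = α h_i g_(σ i) = h_i' α g_(σ i)` (PRM, CNJ) and by TR1
the term is the term of `αg_(σ i)`; `Equiv.sum_comp`. -/
def TST_stmt : Prop := ∀ (t : ℤ), t = 0 ∨ t = 1 → ∀ ℓ : ℕ, ℓ.Prime →
  Prime ((ℓ : ℕ) : Oz t) → ∀ {A : Type} [CommRing A] (f : Oz t →+* A) (k : ℕ) (φ : Sy t A),
  IsSym f k 1 (fun _ => 1) φ → IsSym f k 1 (fun _ => 1) (opT f ℓ φ)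

/-- ROW UST (medium). `U_ℓ` preserves the modular symbols of level `ℓ^r`, `r ≥ 1`, with a character `χ`
modulo `ℓ^r`. As TST with PRU: `γ10` divisible by `ℓ^r`, `g_x γ = h g_y`, `α h = h' α` with
`h'10 = ℓ γ10`, `h'11 = γ11 - γ10 y ≡ γ11` modulo `ℓ^r`, so `χ(h'11) = χ(γ11)`, TR1, TR2. -/
def UST_stmt : Prop := ∀ (t : ℤ), t = 0 ∨ t = 1 → ∀ ℓ : ℕ, ℓ.Prime →
  Prime ((ℓ : ℕ) : Oz t) → ∀ {A : Type} [CommRing A] (f : Oz t →+* A) (k r : ℕ) (χ : Oz t → A),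
  1 ≤ r → (∀ x y : Oz t, ((ℓ : ℕ) : Oz t) ^ r ∣ x - y → χ x = χ y) → ∀ φ : Sy t A,
  IsSym f k (ℓ ^ r) χ φ → IsSym f k (ℓ ^ r) χ (opU f ℓ φ)

/-! ## Block S: scalar symbols modulo `ℓ` -/

/-- scalar symbols of level `Γ₀(N)` with character `N^j`, over a field -/
structure IsSc {t : ℤ} {κ : Type} [Field κ] (π : Oz t →+* κ) (j N : ℕ)
    (ψ : Vec t → Vec t → κ) : Prop where
  cus : IsCus ψ
  equiv : ∀ (γ : GO t) (u v : Vec t), ((N : ℕ) : Oz t) ∣ γ.val 1 0 →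
    ψ (γ.val *ᵥ u) (γ.val *ᵥ v) = π (γ.val 1 1 * star (γ.val 1 1)) ^ j * ψ u v

/-- the value at `(0, 1, 0, 1)` of a symbol -/
noncomputable def evS {t : ℤ} {κ : Type} [Field κ] (φ : Sy t κ) : Vec t → Vec t → κ :=
  fun u v => eval ![0, 1, 0, 1] (φ u v)

/-- `U_ℓ` on scalar symbols -/
def uS {t : ℤ} {κ : Type} [Field κ] (ℓ : ℕ) (ψ : Vec t → Vec t → κ) : Vec t → Vec t → κ :=
  fun u v => ∑ x : Fin ℓ × Fin ℓ,
    ψ (!![1, rep t x; 0, ((ℓ : ℕ) : Oz t)] *ᵥ u) (!![1, rep t x; 0, ((ℓ : ℕ) : Oz t)] *ᵥ v)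

/-- from scalar symbols to weight `k + 2`, first kind -/
noncomputable def bU {t : ℤ} {κ : Type} [Field κ] (π : Oz t →+* κ) (ℓ k : ℕ)
    (ψ : Vec t → Vec t → κ) : Sy t κ :=
  fun u v => ∑ x : Fin ℓ × Fin ℓ,
    C (ψ (!![1, rep t x; 0, ((ℓ : ℕ) : Oz t)] *ᵥ u) (!![1, rep t x; 0, ((ℓ : ℕ) : Oz t)] *ᵥ v)) *
      lin π k (rep t x)

/-- from scalar symbols to weight `k + 2`, second kind -/
noncomputable def bT {t : ℤ} {κ : Type} [Field κ] (π : Oz t →+* κ) (ℓ k : ℕ)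
    (ψ : Vec t → Vec t → κ) : Sy t κ :=
  fun u v => bU π ℓ k ψ u v +
    C (ψ (!![0, -1; ((ℓ : ℕ) : Oz t), 0] *ᵥ u) (!![0, -1; ((ℓ : ℕ) : Oz t), 0] *ᵥ v)) *
      (X 0 ^ k * X 2 ^ k)

/-- ROW EVS (short-medium). The value at `(0,1,0,1)` of a modular symbol modulo `ℓ` of level `ℓ^r` in the class
`j` is a scalar symbol of level `ℓ^r` (`r ≥ 1`), of level `ℓ` (`r = 0`). `IsCus`: from `IsSym` and linearity
of `eval`. Equivariance for `ℓ^(max r 1) ∣ γ10`: EVA (`π` kills `γ10` and its conjugate), and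
`ℓ ∤ γ11` (otherwise `ℓ` divides the determinant, a unit), so
`χ(γ11) π(N γ11)^k = π(N γ11)^j` by hypothesis. -/
def EVS_stmt : Prop := ∀ (t : ℤ), t = 0 ∨ t = 1 → ∀ ℓ : ℕ, ℓ.Prime →
  Prime ((ℓ : ℕ) : Oz t) → ∀ {κ : Type} [Field κ] (π : Oz t →+* κ), ((ℓ : ℕ) : κ) = 0 →
  ∀ (k r j : ℕ) (χ : Oz t → κ),
  (∀ x, ¬ ((ℓ : ℕ) : Oz t) ∣ x → χ x * π (x * star x) ^ k = π (x * star x) ^ j) →
  ∀ φ : Sy t κ, IsSym π k (ℓ ^ r) χ φ → IsSc π j (ℓ ^ (max r 1)) (evS φ)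

/-- ROW USC (short-medium). `U_ℓ` lowers the level of scalar symbols: from `ℓ^(r+1)` to `ℓ^r`, `r ≥ 1`. For
`ℓ^r ∣ γ10`: `M_x γ = α g_x γ = α h g_y = h' M_y`, `h'10 = ℓ γ10` is divisible by `ℓ^(r+1)`,
`h'11 = γ11 - γ10 y`, `π(h'11) = π(γ11)` and the same for the conjugates (PRU, CNJ);
`Equiv.sum_comp`. -/
def USC_stmt : Prop := ∀ (t : ℤ), t = 0 ∨ t = 1 → ∀ ℓ : ℕ, ℓ.Prime →
  Prime ((ℓ : ℕ) : Oz t) → ∀ {κ : Type} [Field κ] (π : Oz t →+* κ), ((ℓ : ℕ) : κ) = 0 →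
  ∀ (r j : ℕ), 1 ≤ r → ∀ ψ : Vec t → Vec t → κ, IsSc π j (ℓ ^ (r + 1)) ψ →
  IsSc π j (ℓ ^ r) (uS ℓ ψ)

/-- ROW BJG (medium). For a scalar symbol `ψ` of level `ℓ` with character `N^j` the symbol `bT π ℓ j ψ` is a
modular symbol of weight `j + 2` and LEVEL ONE. For `g ∈ GL₂(O)` with top row `(a, b)` put
`term g (u, v) = (π(a) Y - π(b) X)^j (π(ā) W - π(b̄) Z)^j ψ(αgu, αgv)`. So
`bT π ℓ j ψ (u, v) = ∑ i : Option _, term g_i (u, v)` (`g_x`: `(1, x)`; `w = (0 -1; 1 0)`: `(0, -1)`, polynomial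
`X^j Z^j`, `αw = (0 -1; ℓ 0)`). (1) If `ℓ ∣ h01` then `term (h g) = term g`: modulo `ℓ` the top row of `hg` is
`h00 (a, b)`, a factor `π(N h00)^j`; `ψ(αhgu, ..) = ψ(h'αgu, ..) = π(N h11)^j ψ(αgu, ..)` (CNJ, `h'10 = ℓ h10`);
`π(h00 h11) = π(det h)` and `N(det h) = 1` (NRU). (2) `act π γ (term (gγ) (u, v)) = term g (γu, γv)`: the top
row of `gγ` is `(a, b) γ = (a', b')` and `act π γ (a' Y - b' X) = det(γ) (a Y - b X)`; `N(det γ) = 1`.
(3) PRM: `∑ i, term (g_i γ) = ∑ i, term (g_(σ i)) = ∑ i, term g_i`. The axioms zero, add, smul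
from those of `ψ` (`M u ≠ 0` if `u ≠ 0`); `hom`: `lin π j x` and `X^j Z^j` are in `BiHom j`. -/
def BJG_stmt : Prop := ∀ (t : ℤ), t = 0 ∨ t = 1 → ∀ ℓ : ℕ, ℓ.Prime →
  Prime ((ℓ : ℕ) : Oz t) → ∀ {κ : Type} [Field κ] (π : Oz t →+* κ), ((ℓ : ℕ) : κ) = 0 →
  ∀ (j : ℕ) (ψ : Vec t → Vec t → κ), IsSc π j (ℓ ^ 1) ψ →
  IsSym π j 1 (fun _ => 1) (bT π ℓ j ψ)

/-- ROW FUT (short-medium). (a) modulo `ℓ`, `opU φ = bU (evS φ)` for `φ` with values in `BiHom k` (SNG); (b)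
`opT φ = bT (evS φ)` for `φ` of level one: (a), SNG, and
`act w (φ(u', v')) = φ(w u', w v')`, `w (ℓ 0; 0 1) = (0 -1; ℓ 0)` (here `w ∈ GL₂(O)`);
(c) `evS (bU ψ) = uS ψ` (`lin` has value `1` at `(0,1,0,1)`); (d) for `k ≥ 1`, `evS (bT ψ) = uS ψ`. -/
def FUT_stmt : Prop := ∀ (t : ℤ) (ℓ : ℕ) {κ : Type} [Field κ] (π : Oz t →+* κ),
  ((ℓ : ℕ) : κ) = 0 → ∀ (k : ℕ),
  (∀ φ : Sy t κ, (∀ u v, BiHom k (φ u v)) → opU π ℓ φ = bU π ℓ k (evS φ)) ∧
  (∀ φ : Sy t κ, IsSym π k 1 (fun _ => 1) φ → opT π ℓ φ = bT π ℓ k (evS φ)) ∧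
  (∀ ψ : Vec t → Vec t → κ, evS (bU π ℓ k ψ) = uS ℓ ψ) ∧
  (1 ≤ k → ∀ ψ : Vec t → Vec t → κ, evS (bT π ℓ k ψ) = uS ℓ ψ)

/-- ROW KZE (short). Weight two, level one: there are no modular symbols when `2 ≠ 0`:
`g = φ(e1, e2)` is a constant, `φ(γ e1, γ e2) = g` for all `γ` (`act` fixes constants; BiHom 0 means
constant), with `γ = w`: `φ(e2, -e1) = φ(e2, e1) = - g` (add: `φ(e1, e2) + φ(e2, e1) = φ(e1, e1) = 0`), so
`g = -g`, `g = 0`, and MAN with `S = 0`. -/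
def KZE_stmt : Prop := ∀ (t : ℤ), t = 0 ∨ t = 1 → ∀ {κ : Type} [Field κ] (π : Oz t →+* κ),
  (2 : κ) ≠ 0 → ∀ φ : Sy t κ, IsSym π 0 1 (fun _ => 1) φ → φ = 0

/-- ROW FCT (medium). THE FACTORISATION THROUGH LEVEL ONE AND WEIGHT `j + 2`. Let `S = Sym π j 1 1`,
`T = opT π ℓ`. For every `n` there are a linear map `Λ` and `m` such that
`op^m φ ∈ Λ (T^n S)` for all `φ` of level `ℓ^r`, weight `k + 2`, character `χ` in the class `j ≥ 1`.
Proof: (i) for `w ∈ S`: `uS (evS w) = evS (bT j (evS w)) = evS (T w)` (FUT (d), (b)), so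
`uS^s (evS w) = evS (T^s w)` (TST). (ii) for `ψ` scalar of level `ℓ`: `uS ψ = evS (bT j ψ)`, `bT j ψ ∈ S` (BJG),
so `uS^(s+1) ψ = evS (T^s (bT j ψ))`. (iii) `r ≥ 1`: `evS φ` is scalar of level `ℓ^r` (EVS), `uS^(r-1) (evS φ)` of
level `ℓ` (USC), `op = opU`, `opU^(s+1) φ = bU k (uS^s (evS φ))` (FUT (a), (c); UST not needed: use that `bU k` has
values in `BiHom k`), so `opU^(r+1+n) φ = bU k (uS^(r+n) (evS φ)) = bU k (evS (T^n (bT j (uS^(r-1) (evS φ)))))`: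
`Λ w = bU k (evS w)`. (iv) `r = 0`, `k ≥ 1`: `op = opT`, `χ = 1` (periodic modulo `1`), all `opT^s φ` are of
level one (TST), `opT^(s+1) φ = bT k (uS^s (evS φ))` (FUT (b), (d)), `m = n + 2`, `Λ w = bT k (evS w)`.
(v) `r = 0`, `k = 0`: KZE, `Λ = 0`. -/
def FCT_stmt : Prop := ∀ (t : ℤ), t = 0 ∨ t = 1 → ∀ ℓ : ℕ, ℓ.Prime → ℓ ≠ 2 →
  Prime ((ℓ : ℕ) : Oz t) → ∀ {κ : Type} [Field κ] (π : Oz t →+* κ), ((ℓ : ℕ) : κ) = 0 →
  ∀ (k r j : ℕ) (χ : Oz t →* κ), 1 ≤ j →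
  (∀ x y : Oz t, ((ℓ : ℕ) : Oz t) ^ r ∣ x - y → χ x = χ y) →
  (∀ x, ¬ ((ℓ : ℕ) : Oz t) ∣ x → χ x * π (x * star x) ^ k = π (x * star x) ^ j) →
  ∀ n : ℕ, ∃ (Λ : Sy t κ →ₗ[κ] Sy t κ) (m : ℕ), ∀ φ : Sy t κ, IsSym π k (ℓ ^ r) χ φ →
    ((op π ℓ r) ^ m) φ ∈
      ((Sym π j 1 (fun _ => 1)).map ((opT π ℓ) ^ n)).map Λ

/-! ## Block L: lattices -/

/-- ROW FIN (medium). Over a noetherian ring the module of modular symbols is finitely generated. The map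
`φ ↦ (φ(δ e1, δ e2))_δ`, `δ` in the finite set `F` of FIX (`n = N`), is injective: if all are zero then
`φ(γ e1, γ e2) = φ(h δ e1, h δ e2) = χ(h11) • act h (φ(δ e1, δ e2)) = 0`, so `φ = 0` by MAN. Its values are in
the polynomials of total degree `≤ 2k`, a finitely generated module (`MvPolynomial.restrictTotalDegree`
or: polynomials with support in the finite set of exponents with `d 0 + d 1 = k`, `d 2 + d 3 = k`:
`Finsupp.supported`). A submodule of a finitely generated module over a noetherian ring is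
finitely generated. -/
def FIN_stmt : Prop := ∀ (t : ℤ), t = 0 ∨ t = 1 → ∀ {A : Type} [CommRing A] [IsNoetherianRing A]
  (f : Oz t →+* A) (k N : ℕ) (χ : Oz t → A), N ≠ 0 → Module.Finite A (Sym f k N χ)

/-- ROW MPC (short). Compatibility of everything with a ring homomorphism `ρ : A → B`:
`φ ↦ ρ(φ)` (coefficients) sends modular symbols to modular symbols and commutes with the Hecke
operators (ACB; `BiHom` is preserved by `MvPolynomial.map`). -/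
def MPC_stmt : Prop := ∀ (t : ℤ) {A B : Type} [CommRing A] [CommRing B] (f : Oz t →+* A)
  (ρ : A →+* B) (ℓ k r N : ℕ) (χ : Oz t → A) (φ : Sy t A),
  (IsSym f k N χ φ → IsSym (ρ.comp f) k N (fun x => ρ (χ x)) (fun u v => map ρ (φ u v))) ∧
  op (ρ.comp f) ℓ r (fun u v => map ρ (φ u v)) = fun u v => map ρ (op f ℓ r φ u v)

/-- ROW DEN (medium). Denominators: for `φ` over `L = Frac R` there are `s ≠ 0` in `R` and a modular symbol `φ'`
over `R` with `φ' = s φ`. Choose `s` with `s φ(δ e1, δ e2)` integral coefficients for the finitely many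
`δ` of FIX (`N ≠ 0`). The polynomials with coefficients in (the image of) `R` form an additive subgroup stable
under `act` and under `χ(h11) •`, so all `s φ(γ e1, γ e2)` and by MAN all `s φ(u, v)` are in it. Define
`φ'(u, v)` as the preimage (`MvPolynomial.map` of the injective map `R → L` is injective; axioms of
`IsSym` follow by injectivity, ACB). -/
def DEN_stmt : Prop := ∀ (t : ℤ), t = 0 ∨ t = 1 → ∀ {R L : Type} [CommRing R] [IsDomain R]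
  [Field L] [Algebra R L] [IsFractionRing R L] (f : Oz t →+* R) (k N : ℕ) (χ : Oz t → R), N ≠ 0 →
  ∀ φ : Sy t L, IsSym ((algebraMap R L).comp f) k N (fun x => algebraMap R L (χ x)) φ →
  ∃ (s : R) (φ' : Sy t R), s ≠ 0 ∧ IsSym f k N χ φ' ∧
    ∀ u v, map (algebraMap R L) (φ' u v) = algebraMap R L s • φ u v

/-- ROW DVI (short-medium). A modular symbol over a domain `R` all of whose values have coefficients divisible by
`ϖ ≠ 0` is `ϖ` times a modular symbol over `R` (divide the values; axioms by cancelling `ϖ`, the ring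
of polynomials has no `ϖ`-torsion). -/
def DVI_stmt : Prop := ∀ (t : ℤ) {R : Type} [CommRing R] [IsDomain R] (f : Oz t →+* R)
  (k N : ℕ) (χ : Oz t → R) (ϖ : R), ϖ ≠ 0 → ∀ φ : Sy t R, IsSym f k N χ φ →
  (∀ u v, ∀ d, ϖ ∣ coeff d (φ u v)) → ∃ φ' : Sy t R, IsSym f k N χ φ' ∧ φ = ϖ • φ'

/-- ROW LAT (medium). Linear algebra over a discrete valuation ring. `M` finitely generated torsion free,
`u` an endomorphism, `red : M → M'` additive, semilinear, commuting with `u`, `u'`, and if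
`red x = 0` then `x = ϖ y`; `q` monic with unit constant term; `u'^m (red x) ∈ W` for all `x`, `W`
finite dimensional. Then a linearly independent family in the kernel of `q(u)` has at most
`dim W` elements. Proof: `M1 = ker q(u)` is finitely generated torsion free, so free; basis `b_i`,
`i < ρ`, `n ≤ ρ`. `u` maps `M1` onto `M1`: `q = q(0) + X q1`, so `x = u (- q(0)⁻¹ q1(u) x)` for `x ∈ M1`.
So `b_i = u^m c_i`, `c_i ∈ M1`, and `red b_i = u'^m (red c_i) ∈ W`. The `red b_i` are linearly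
independent over the residue field: if `∑ ā_i red b_i = 0`, then `∑ a_i b_i = ϖ y`, `y ∈ M1` (torsion
free), `y = ∑ d_i b_i`, so `a_i = ϖ d_i`, `ā_i = 0`. So `ρ ≤ dim W`. -/
def LAT_stmt : Prop := ∀ {R : Type} [CommRing R] [IsDomain R] [IsDiscreteValuationRing R]
  {M M' : Type} [AddCommGroup M] [Module R M] [Module.Finite R M] [NoZeroSMulDivisors R M]
  [AddCommGroup M'] [Module (IsLocalRing.ResidueField R) M'] (u : M →ₗ[R] M)
  (u' : M' →ₗ[IsLocalRing.ResidueField R] M') (red : M →+ M') (ϖ : R), Irreducible ϖ →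
  (∀ (a : R) (x : M), red (a • x) = IsLocalRing.residue R a • red x) →
  (∀ x, red (u x) = u' (red x)) → (∀ x, red x = 0 → ∃ y, x = ϖ • y) →
  ∀ (q : Polynomial R), q.Monic → IsUnit (q.coeff 0) →
  ∀ (m : ℕ) (W : Submodule (IsLocalRing.ResidueField R) M'),
  Module.Finite (IsLocalRing.ResidueField R) W → (∀ x, (u' ^ m) (red x) ∈ W) →
  ∀ (n : ℕ) (y : Fin n → M), LinearIndependent R y → (∀ i, Polynomial.aeval u q (y i) = 0) →
  n ≤ Module.finrank (IsLocalRing.ResidueField R) W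

end Pool.Agent.OD
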