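import Pool.Agent.helper21.OD.SpecA

/-!
# Project OD (MP_2e0e07_nt): rows, block W: the period relations of level one
-/

namespace Pool.Agent.OD

open MvPolynomial Matrix

/-- the monomial `X^a Y^(j-a) Z^b W^(j-b)` -/
noncomputable def mon {A : Type} [CommRing A] (j a b : ℕ) : Pol A :=
  X 0 ^ a * X 1 ^ (j - a) * X 2 ^ b * X 3 ^ (j - b)

/-- the coefficient of this monomial -/
noncomputable def cf {A : Type} [CommRing A] (P : Pol A) (j a b : ℕ) : A :=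
  coeff (Finsupp.equivFunOnFinite.symm ![a, j - a, b, j - b]) P

/-- ROW EXQ (short-medium). (a) a polynomial of bidegree `(j, j)` is `∑ cf a b * mon a b` over `a, b ≤ j`
(compare coefficients: `d` in the support has `d 0 + d 1 = j`, `d 2 + d 3 = j`). (b) `cf (mon s t)` is
`1` at `(s, t)` and `0` at the other `(a, b)`, for `s, t, a, b ≤ j` (write `mon` as a `monomial`). -/
def EXQ_stmt : Prop := ∀ {A : Type} [CommRing A] (j : ℕ),
  (∀ P : Pol A, BiHom j P → P = ∑ a ∈ Finset.range (j + 1), ∑ b ∈ Finset.range (j + 1),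
    C (cf P j a b) * mon j a b) ∧
  (∀ s t a b : ℕ, s ≤ j → t ≤ j → a ≤ j → b ≤ j →
    cf (mon j s t : Pol A) j a b = if s = a ∧ t = b then 1 else 0)

/-- the matrix `diag(ε, 1)` -/
def dE (t : ℤ) : Mat t := !![⟨0, 1⟩, 0; 0, 1]

/-- ROW CFD (short). `diag(ε, 1)` multiplies the coefficient of `X^a Y^(j-a) Z^b W^(j-b)` by
`π(ε)^a π(ε̄)^b` (EXQ, `act` on `mon`). And `π(ε)^a π(ε̄)^b = 1` only if `m ∣ a - b`: `ε ε̄ = 1`, so it is
`π(ε)^(a - b)`, and `π(ε)` has order exactly `4` (`t = 0`: `ε² = -1`) or `6` (`t = 1`: `ε² = ε - 1`,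
`ε³ = -1`; `ε = 1`: `1 = 0`; `ε² = 1`: `ε = 2`, `3 = 0`) when `6 ≠ 0` (`t = 1`) or `2 ≠ 0` (`t = 0`). -/
def CFD_stmt : Prop := ∀ (t : ℤ) {κ : Type} [Field κ] (π : Oz t →+* κ) (j : ℕ) (P : Pol κ),
  BiHom j P → act π (dE t) P = P →
  ((t = 0 ∧ (2 : κ) ≠ 0) ∨ (t = 1 ∧ (6 : κ) ≠ 0)) → ∀ a b, a ≤ j → b ≤ j →
  ¬ ((if t = 0 then 4 else 6 : ℤ) ∣ (a : ℤ) - b) → cf P j a b = 0

/-- ROW CFW (short). `w = (0 -1; 1 0)` sends `X, Y, Z, W` to `Y, -X, W, -Z`, so `mon a b` to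
`(-1)^(a+b) mon (j-a) (j-b)` (`(-1)^((j-a)+(j-b)) = (-1)^(a+b)`). -/
def CFW_stmt : Prop := ∀ (t : ℤ) {κ : Type} [Field κ] (π : Oz t →+* κ) (j : ℕ) (P : Pol κ),
  BiHom j P → ∀ a b, a ≤ j → b ≤ j →
  cf (act π !![0, -1; 1, 0] P) j a b = (-1) ^ (a + b) * cf P j (j - a) (j - b)

/-- ROW CFT (medium). `τ = (0 -1; 1 1)` sends `X, Y, Z, W` to `Y, Y - X, W, W - Z`, so `mon a b` to
`Y^a (Y-X)^(j-a) W^b (W-Z)^(j-b) = ∑ s t', (-1)^(s+t') C(j-a, s) C(j-b, t') mon s t'`; and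
`τ² = (-1 -1; 1 0)` sends `X, Y` to `Y - X, -X`, so `X^a Y^(j-a)` to
`(Y-X)^a (-X)^(j-a) = ∑ s, (-1)^s C(a, j-s) X^s Y^(j-s)` (binomial theorem; `C(a, j-s) = 0` if `j - s > a`). -/
def CFT_stmt : Prop := ∀ (t : ℤ) {κ : Type} [Field κ] (π : Oz t →+* κ) (j : ℕ) (P : Pol κ),
  BiHom j P → ∀ s s', s ≤ j → s' ≤ j →
  cf (act π !![0, -1; 1, 1] P) j s s' = ∑ a ∈ Finset.range (j + 1), ∑ b ∈ Finset.range (j + 1),
    (-1) ^ (s + s') * (((j - a).choose s * (j - b).choose s' : ℕ) : κ) * cf P j a b ∧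
  cf (act π !![-1, -1; 1, 0] P) j s s' = ∑ a ∈ Finset.range (j + 1), ∑ b ∈ Finset.range (j + 1),
    (-1) ^ (s + s') * ((a.choose (j - s) * b.choose (j - s') : ℕ) : κ) * cf P j a b

/-- the period relations, `m = 4` or `6` -/
structure Rel {κ : Type} [Field κ] (m j : ℕ) (c : ℕ → ℕ → κ) : Prop where
  dia : ∀ a b, a ≤ j → b ≤ j → ¬ ((m : ℤ) ∣ (a : ℤ) - b) → c a b = 0
  ant : ∀ a b, a ≤ j → b ≤ j → c (j - a) (j - b) = - c a b
  tri : ∀ s s', s ≤ j → s' ≤ j → c s s' + ∑ a ∈ Finset.range (j + 1),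
    ∑ b ∈ Finset.range (j + 1), (-1) ^ (s + s') * (((j - a).choose s * (j - b).choose s' +
      a.choose (j - s) * b.choose (j - s') : ℕ) : κ) * c a b = 0

/-- ROW WRL (medium). For a modular symbol `φ` of level one and weight `j + 2` over a field where `2 ≠ 0`
(`t = 0`) or `6 ≠ 0` (`t = 1`): the coefficients of `g = φ(e1, e2)` satisfy the period relations, and if they
all vanish then `φ = 0`. Proof: `diag(ε, 1) e1 = ε • e1`, so `act (dE t) g = g` (CFD). `w e1 = e2`, `w e2 = -e1`,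
so `act w g = φ(e2, e1) = -g` (CFW; for `m ∣ a - b` the sign `(-1)^(a+b)` is `1`, otherwise both
coefficients are `0`). `τ e1 = e2`, `τ e2 = (-1, 1) = e3`, `τ e3 = -e1`, so
`g + act τ g + act τ² g = φ(e1, e2) + φ(e2, e3) + φ(e3, e1) = 0` (`τ² = (-1 -1; 1 0)`, CFT). If all the
coefficients are `0` then `g = 0` (EXQ), all `φ(γ e1, γ e2) = act γ g = 0`, MAN. -/
def WRL_stmt : Prop := ∀ (t : ℤ) {κ : Type} [Field κ] (π : Oz t →+* κ) (j : ℕ) (φ : Sy t κ),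
  ((t = 0 ∧ (2 : κ) ≠ 0) ∨ (t = 1 ∧ (6 : κ) ≠ 0)) → IsSym π j 1 (fun _ => 1) φ →
  Rel (if t = 0 then 4 else 6) j (fun a b => cf (φ ![1, 0] ![0, 1]) j a b) ∧
  ((∀ a b, a ≤ j → b ≤ j → cf (φ ![1, 0] ![0, 1]) j a b = 0) → φ = 0)

/-- the numerical statement, for the pair `(m, j)`: the solutions of the period relations in
characteristic `ℓ > j` have dimension at most `s + 1` (certificates: helper21) -/
def NUM_stmt (m j s : ℕ) : Prop := ∃ F : Fin (s + 1) → ℕ → ℕ → ℤ,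
  ∀ (ℓ : ℕ), ℓ.Prime → ℓ ≠ 2 → ℓ ≠ 409 → ℓ ≠ 3 ∨ m = 4 → j < ℓ → ∀ {κ : Type} [Field κ],
  ((ℓ : ℕ) : κ) = 0 →
  ∀ c : ℕ → ℕ → κ, Rel m j c →
  (∀ i, ∑ a ∈ Finset.range (j + 1), ∑ b ∈ Finset.range (j + 1), (F i a b : κ) * c a b = 0) →
  ∀ a b, a ≤ j → b ≤ j → c a b = 0

/-- ROW WDM (short-medium). The dimension bound: the linear map from `Sym π j 1 1` to `κ^(s+1)` given by the
functionals `F i` of `NUM_stmt` applied to the coefficients of `φ(e1, e2)` is injective (WRL). (`cf` is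
linear in `P`.) For `t = 1` an inert prime is not `3` (`3 = (1 + ε)(2 - ε)` is not prime); an inert
prime is not `409` (`409 = (20 + 3 ε)(20 - 3 ε)` for `t = 0`, `= (8 + 15 ε)(23 - 15 ε)` for `t = 1`). -/
def WDM_stmt : Prop := ∀ (t : ℤ), t = 0 ∨ t = 1 → ∀ ℓ : ℕ, ℓ.Prime → ℓ ≠ 2 →
  Prime ((ℓ : ℕ) : Oz t) → ∀ {κ : Type} [Field κ] (π : Oz t →+* κ), ((ℓ : ℕ) : κ) = 0 →
  ∀ (j s : ℕ), j < ℓ → NUM_stmt (if t = 0 then 4 else 6) j s →
  Module.finrank κ (Sym π j 1 (fun _ => 1)) ≤ s + 1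

end Pool.Agent.OD
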