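import Pool.Agent.helper21.OD.SpecA

/-!
# Project OD (MP_2e0e07_nt): row CLS (existence of the class)
-/

namespace Pool.Agent.OD

/-- ROW CLS (medium). A character `χ` modulo `ℓ^r` with `χ = χ^c` belongs to a class `j`, `1 ≤ j ≤ ℓ - 1`.
Proof. (1) If `ℓ ∣ x - y` then `χ x = χ y`: `ℓ^(r+1) ∣ x^(ℓ^r) - y^(ℓ^r)` (`dvd_sub_pow_of_dvd_sub`), so
`(χ x)^(ℓ^r) = (χ y)^(ℓ^r)`, `(χ x - χ y)^(ℓ^r) = 0` (`sub_pow_char_pow`, `κ` has characteristic `ℓ`).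
(2) `F = O/ℓ` is a finite field with `ℓ²` elements (REP: the representatives; `ℓ` prime in `O`, a finite
domain is a field), `F^×` is cyclic: take `g ∈ O`, `ℓ ∤ g`, such that every `x`, `ℓ ∤ x`, is `≡ g^a` modulo `ℓ`, and
the order of `g` modulo `ℓ` is `ℓ² - 1`. (3) `ḡ ≡ g^ℓ`: `(X - g)(X - ḡ) = X² - sX + n` with `s, n ∈ ℤ`, and the `ℓ`-th
power is a ring endomorphism of `F` which fixes the image of `ℤ`, so `(g^ℓ - g)(g^ℓ - ḡ) ≡ 0`; `g^ℓ ≡ g` would give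
order `≤ ℓ - 1 < ℓ² - 1`. (4) `χ(g)^ℓ = χ(g^ℓ) = χ(ḡ) = χ(g)`, and `χ(g) ≠ 0` (`g^(ℓ²-1) ≡ 1`), so
`χ(g)^(ℓ-1) = 1`. `u = π(g ḡ) = π(g)^(ℓ+1)` has order exactly `ℓ - 1` in `κ`, because `π` gives an injective map
`F → κ` (so `π(g)` has order `ℓ² - 1`). So `u` is a primitive root of unity of order `ℓ - 1` and
`χ(g) = u^i` (`IsPrimitiveRoot.eq_pow_of_pow_eq_one`). (5) For `x ≡ g^a`: `χ(x) = χ(g)^a = u^(i a) = π(x x̄)^i`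
(`x̄ ≡ ḡ^a` too). (6) `j ≡ i + k` modulo `ℓ - 1`, `1 ≤ j ≤ ℓ - 1`: `π(x x̄)^(ℓ-1) = 1` (NRL). -/
def CLS_stmt : Prop := ∀ (t : ℤ), t = 0 ∨ t = 1 → ∀ ℓ : ℕ, ℓ.Prime → Prime ((ℓ : ℕ) : Oz t) →
  ∀ {κ : Type} [Field κ] (π : Oz t →+* κ), ((ℓ : ℕ) : κ) = 0 → ∀ (r : ℕ) (χ : Oz t →* κ),
  (∀ x y : Oz t, ((ℓ : ℕ) : Oz t) ^ r ∣ x - y → χ x = χ y) → (∀ x, χ (star x) = χ x) → ∀ k : ℕ,
  ∃ j, 1 ≤ j ∧ j ≤ ℓ - 1 ∧ ∀ x, ¬ ((ℓ : ℕ) : Oz t) ∣ x →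
    χ x * π (x * star x) ^ k = π (x * star x) ^ j

end Pool.Agent.OD
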